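import Pool.Agent.H64.ES.Spec

set_option autoImplicit false

namespace Pool.Agent.H64.ES.H120

open Finset Real
open Pool.Agent.H64.ES

lemma fpos {α : Type*} {Om : Finset α} {P : α → Prop} [DecidablePred P] {r : α} (hr : r ∈ Om)
    (h : P r) : 0 < ((Om.filter P).card : ℝ) := by
  have h1 : 0 < (Om.filter P).card := Finset.card_pos.2 ⟨r, Finset.mem_filter.2 ⟨hr, h⟩⟩
  exact_mod_cast h1

lemma submod {α β γ δ : Type*} [DecidableEq β] [DecidableEq γ] [DecidableEq δ]
    (Om : Finset α) (X : α → β) (V : α → γ) (T : α → δ)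
    (hX : ∀ r ∈ Om, ∀ r' ∈ Om, X r = X r' → T r = T r')
    (hV : ∀ r ∈ Om, ∀ r' ∈ Om, V r = V r' → T r = T r') :
    ∑ r ∈ Om, (((Om.filter fun r' => X r' = X r).card : ℝ) *
      ((Om.filter fun r' => V r' = V r).card : ℝ)) /
      (((Om.filter fun r' => T r' = T r).card : ℝ) *
        ((Om.filter fun r' => V r' = V r ∧ X r' = X r).card : ℝ)) ≤ Om.card := by
  have s1 : ∀ r ∈ Om, (((Om.filter fun r' => X r' = X r).card : ℝ) *
      ((Om.filter fun r' => V r' = V r).card : ℝ)) /
      (((Om.filter fun r' => T r' = T r).card : ℝ) *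
        ((Om.filter fun r' => V r' = V r ∧ X r' = X r).card : ℝ)) =
      ∑ r1 ∈ Om, ∑ r2 ∈ Om, (if X r1 = X r ∧ V r2 = V r then
        1 / (((Om.filter fun r' => T r' = T r).card : ℝ) *
        ((Om.filter fun r' => V r' = V r ∧ X r' = X r).card : ℝ)) else 0) := by
    intro r _
    rw [Finset.natCast_card_filter (fun r' => X r' = X r),
      Finset.natCast_card_filter (fun r' => V r' = V r), Finset.sum_mul_sum, Finset.sum_div]
    refine Finset.sum_congr rfl fun r1 _ => ?_
    rw [Finset.sum_div]
    refine Finset.sum_congr rfl fun r2 _ => ?_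
    by_cases h1 : X r1 = X r
    · by_cases h2 : V r2 = V r
      · rw [if_pos h1, if_pos h2, if_pos ⟨h1, h2⟩, one_mul]
      · rw [if_neg h2, mul_zero, zero_div, if_neg (fun h : X r1 = X r ∧ V r2 = V r => h2 h.2)]
    · rw [if_neg h1, zero_mul, zero_div, if_neg (fun h : X r1 = X r ∧ V r2 = V r => h1 h.1)]
  rw [Finset.sum_congr rfl s1, Finset.sum_comm]
  have s2 : ∀ r1 ∈ Om, (∑ r ∈ Om, ∑ r2 ∈ Om, (if X r1 = X r ∧ V r2 = V r then
        1 / (((Om.filter fun r' => T r' = T r).card : ℝ) *
        ((Om.filter fun r' => V r' = V r ∧ X r' = X r).card : ℝ)) else 0)) ≤ 1 := by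
    intro r1 hr1
    rw [Finset.sum_comm]
    have hc1 : 0 < ((Om.filter fun r' => T r' = T r1).card : ℝ) := fpos hr1 rfl
    have s3 : ∀ r2 ∈ Om, (∑ r ∈ Om, (if X r1 = X r ∧ V r2 = V r then
        1 / (((Om.filter fun r' => T r' = T r).card : ℝ) *
        ((Om.filter fun r' => V r' = V r ∧ X r' = X r).card : ℝ)) else 0)) ≤
        if T r2 = T r1 then 1 / ((Om.filter fun r' => T r' = T r1).card : ℝ) else 0 := by
      intro r2 hr2
      rw [← Finset.sum_filter]
      rcases (Om.filter fun r => X r1 = X r ∧ V r2 = V r).eq_empty_or_nonempty with he | ⟨r0, hr0⟩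
      · rw [he, Finset.sum_empty]
        split_ifs
        · positivity
        · exact le_refl _
      · have hr0' := Finset.mem_filter.1 hr0
        have t1 : T r2 = T r1 := by
          rw [hX r1 hr1 r0 hr0'.1 hr0'.2.1, hV r2 hr2 r0 hr0'.1 hr0'.2.2]
        rw [if_pos t1]
        have hE : 0 < ((Om.filter fun r => X r1 = X r ∧ V r2 = V r).card : ℝ) := by
          exact_mod_cast Finset.card_pos.2 ⟨r0, hr0⟩
        have s4 : ∀ r ∈ Om.filter (fun r => X r1 = X r ∧ V r2 = V r),
            1 / (((Om.filter fun r' => T r' = T r).card : ℝ) *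
            ((Om.filter fun r' => V r' = V r ∧ X r' = X r).card : ℝ)) =
            1 / (((Om.filter fun r' => T r' = T r1).card : ℝ) *
            ((Om.filter fun r => X r1 = X r ∧ V r2 = V r).card : ℝ)) := by
          intro r hr
          have hr' := Finset.mem_filter.1 hr
          have e1 : T r = T r1 := (hX r1 hr1 r hr'.1 hr'.2.1).symm
          have e2 : (Om.filter fun r' => V r' = V r ∧ X r' = X r) =
              Om.filter fun r => X r1 = X r ∧ V r2 = V r := by
            refine Finset.filter_congr fun r' _ => ?_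
            rw [← hr'.2.1, ← hr'.2.2]
            constructor
            · rintro ⟨h1, h2⟩
              exact ⟨h2.symm, h1.symm⟩
            · rintro ⟨h1, h2⟩
              exact ⟨h2.symm, h1.symm⟩
          rw [e1, e2]
        rw [Finset.sum_congr rfl s4, Finset.sum_const, nsmul_eq_mul]
        apply le_of_eq
        field_simp
    refine (Finset.sum_le_sum s3).trans ?_
    rw [← Finset.sum_filter, Finset.sum_const, nsmul_eq_mul]
    apply le_of_eq
    field_simp
  refine (Finset.sum_le_sum s2).trans ?_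
  rw [Finset.sum_const, nsmul_eq_mul, mul_one]

lemma sub_log {α β γ δ : Type*} [DecidableEq β] [DecidableEq γ] [DecidableEq δ]
    (Om : Finset α) (X : α → β) (V : α → γ) (T : α → δ)
    (hX : ∀ r ∈ Om, ∀ r' ∈ Om, X r = X r' → T r = T r')
    (hV : ∀ r ∈ Om, ∀ r' ∈ Om, V r = V r' → T r = T r') :
    ∑ r ∈ Om, Real.log ((Om.card : ℝ) / ((Om.filter fun r' => T r' = T r).card : ℝ)) +
    ∑ r ∈ Om, Real.log (((Om.filter fun r' => V r' = V r).card : ℝ) /
      ((Om.filter fun r' => V r' = V r ∧ X r' = X r).card : ℝ)) ≤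
    ∑ r ∈ Om, Real.log ((Om.card : ℝ) / ((Om.filter fun r' => X r' = X r).card : ℝ)) := by
  have h := submod Om X V T hX hV
  have key : ∀ r ∈ Om, Real.log ((Om.card : ℝ) / ((Om.filter fun r' => T r' = T r).card : ℝ)) +
      Real.log (((Om.filter fun r' => V r' = V r).card : ℝ) /
      ((Om.filter fun r' => V r' = V r ∧ X r' = X r).card : ℝ)) ≤
      Real.log ((Om.card : ℝ) / ((Om.filter fun r' => X r' = X r).card : ℝ)) +
      ((((Om.filter fun r' => X r' = X r).card : ℝ) *
      ((Om.filter fun r' => V r' = V r).card : ℝ)) /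
      (((Om.filter fun r' => T r' = T r).card : ℝ) *
        ((Om.filter fun r' => V r' = V r ∧ X r' = X r).card : ℝ)) - 1) := by
    intro r hr
    have p0 : 0 < (Om.card : ℝ) := by exact_mod_cast Finset.card_pos.2 ⟨r, hr⟩
    have p1 : 0 < ((Om.filter fun r' => X r' = X r).card : ℝ) := fpos hr rfl
    have p2 : 0 < ((Om.filter fun r' => V r' = V r).card : ℝ) := fpos hr rfl
    have p3 : 0 < ((Om.filter fun r' => T r' = T r).card : ℝ) := fpos hr rfl
    have p4 : 0 < ((Om.filter fun r' => V r' = V r ∧ X r' = X r).card : ℝ) := fpos hr ⟨rfl, rfl⟩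
    have h1 := Real.log_le_sub_one_of_pos (div_pos (mul_pos p1 p2) (mul_pos p3 p4))
    rw [Real.log_div (mul_pos p1 p2).ne' (mul_pos p3 p4).ne', Real.log_mul p1.ne' p2.ne',
      Real.log_mul p3.ne' p4.ne'] at h1
    rw [Real.log_div p0.ne' p3.ne', Real.log_div p2.ne' p4.ne', Real.log_div p0.ne' p1.ne']
    linarith
  have h2 := Finset.sum_le_sum key
  rw [Finset.sum_add_distrib, Finset.sum_add_distrib, Finset.sum_sub_distrib, Finset.sum_const,
    nsmul_eq_mul, mul_one] at h2
  linarith

theorem S_CHAIN_holds : S_CHAIN := by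
  intro m F R w hR hwF hw
  set Om := Fintype.piFinset R with hOm
  set X : (Fin m → ℤ) → ℤ := fun r => ∏ i, r i with hXd
  set V : (Fin m → ℤ) → (Fin m → ℕ) := fun r i => w (r i) with hVd
  set T : (Fin m → ℤ) → ℕ := fun r => ∑ i, w (r i) with hTd
  have hX : ∀ r ∈ Om, ∀ r' ∈ Om, X r = X r' → T r = T r' := by
    intro r hr r' hr' h
    simp only [hTd]
    rw [← hw r hr, ← hw r' hr']
    exact congrArg w h
  have hV : ∀ r ∈ Om, ∀ r' ∈ Om, V r = V r' → T r = T r' := by
    intro r _ r' _ h
    simp only [hTd]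
    exact Finset.sum_congr rfl fun i _ => congrFun h i
  have main := sub_log Om X V T hX hV
  have hne : Om.Nonempty := Fintype.piFinset_nonempty.2 hR
  have hn : 0 < (Om.card : ℝ) := by exact_mod_cast Finset.card_pos.2 hne
  -- fibres
  have hfib : ∀ v : Fin m → ℕ, (Fintype.piFinset fun i => (R i).filter fun r => w r = v i) =
      Om.filter fun r => V r = v := by
    intro v
    ext r
    rw [Finset.mem_filter, hOm, Fintype.mem_piFinset, Fintype.mem_piFinset]
    constructor
    · intro h
      exact ⟨fun i => (Finset.mem_filter.1 (h i)).1,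
        funext fun i => (Finset.mem_filter.1 (h i)).2⟩
    · rintro ⟨h1, h2⟩ i
      exact Finset.mem_filter.2 ⟨h1 i, congrFun h2 i⟩
  have hprod : ∀ v : Fin m → ℕ, (∏ i, (((R i).filter fun r => w r = v i).card : ℝ) / (R i).card) =
      ((Om.filter fun r => V r = v).card : ℝ) / Om.card := by
    intro v
    rw [← hfib v, hOm, Fintype.card_piFinset, Fintype.card_piFinset, Finset.prod_div_distrib]
    push_cast
    rfl
  have hlaw : ∀ s : ℕ, law F (fun i a => (((R i).filter fun r => w r = a).card : ℝ) / (R i).card) s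
      = ((Om.filter fun r => T r = s).card : ℝ) / Om.card := by
    intro s
    unfold law
    simp only [hprod]
    rw [← Finset.sum_div]
    congr 1
    have hmaps : ∀ r ∈ Om.filter (fun r => T r = s), V r ∈
        (Fintype.piFinset fun _ : Fin m => Finset.range F).filter (fun v => ∑ i, v i = s) := by
      intro r hr
      obtain ⟨h1, h2⟩ := Finset.mem_filter.1 hr
      refine Finset.mem_filter.2 ⟨Fintype.mem_piFinset.2 fun i => ?_, h2⟩
      rw [hOm, Fintype.mem_piFinset] at h1
      exact Finset.mem_range.2 (hwF i _ (h1 i))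
    rw [Finset.card_eq_sum_card_fiberwise hmaps]
    push_cast
    refine Finset.sum_congr rfl fun v hv => ?_
    have hv' := (Finset.mem_filter.1 hv).2
    congr 2
    rw [Finset.filter_filter]
    refine Finset.filter_congr fun r _ => ?_
    constructor
    · intro h
      refine ⟨?_, h⟩
      rw [← hv', ← h]
    · exact fun h => h.2
  have hHS : HS F (fun i a => (((R i).filter fun r => w r = a).card : ℝ) / (R i).card) =
      (∑ r ∈ Om, Real.log ((Om.card : ℝ) / ((Om.filter fun r' => T r' = T r).card : ℝ))) /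
        Om.card := by
    unfold HS
    simp only [hlaw]
    have hmaps : ∀ r ∈ Om, T r ∈ Finset.range (m * F + 1) := by
      intro r hr
      rw [hOm, Fintype.mem_piFinset] at hr
      rw [Finset.mem_range, Nat.lt_succ_iff]
      calc T r ≤ ∑ _i : Fin m, F := Finset.sum_le_sum fun i _ => (hwF i _ (hr i)).le
        _ = m * F := by rw [Finset.sum_const, Finset.card_univ, Fintype.card_fin, smul_eq_mul]
    rw [← Finset.sum_fiberwise_of_maps_to hmaps, Finset.sum_div]
    refine Finset.sum_congr rfl fun s _ => ?_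
    have e1 : ∀ r ∈ Om.filter (fun r => T r = s),
        Real.log ((Om.card : ℝ) / ((Om.filter fun r' => T r' = T r).card : ℝ)) =
        Real.log ((Om.card : ℝ) / ((Om.filter fun r' => T r' = s).card : ℝ)) := by
      intro r hr
      rw [(Finset.mem_filter.1 hr).2]
    rw [Finset.sum_congr rfl e1, Finset.sum_const, nsmul_eq_mul]
    unfold Real.negMulLog
    rw [← inv_div (Om.card : ℝ), Real.log_inv]
    rw [inv_div]
    ring
  have hsec : ∑ v ∈ Fintype.piFinset (fun i => (R i).image w),
      (∏ i, (((R i).filter fun r => w r = v i).card : ℝ) / (R i).card) *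
        Hx (fun i => (R i).filter fun r => w r = v i) =
      (∑ r ∈ Om, Real.log (((Om.filter fun r' => V r' = V r).card : ℝ) /
      ((Om.filter fun r' => V r' = V r ∧ X r' = X r).card : ℝ))) / Om.card := by
    have hmaps : ∀ r ∈ Om, V r ∈ Fintype.piFinset (fun i => (R i).image w) := by
      intro r hr
      rw [hOm, Fintype.mem_piFinset] at hr
      exact Fintype.mem_piFinset.2 fun i => Finset.mem_image_of_mem w (hr i)
    rw [← Finset.sum_fiberwise_of_maps_to hmaps, Finset.sum_div]
    refine Finset.sum_congr rfl fun v _ => ?_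
    rw [hprod v]
    unfold Hx
    rw [hfib v]
    have e1 : ∀ r ∈ Om.filter (fun r => V r = v),
        Real.log (((Om.filter fun r' => V r' = V r).card : ℝ) /
        ((Om.filter fun r' => V r' = V r ∧ X r' = X r).card : ℝ)) =
        Real.log (((Om.filter fun r => V r = v).card : ℝ) /
          (((Om.filter fun r => V r = v).filter fun r' => ∏ i, r' i = ∏ i, r i).card : ℝ)) := by
      intro r hr
      rw [(Finset.mem_filter.1 hr).2, Finset.filter_filter]
    rw [Finset.sum_congr rfl e1]
    rcases (Om.filter fun r => V r = v).eq_empty_or_nonempty with he | he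
    · rw [he]
      simp
    · have hp : 0 < ((Om.filter fun r => V r = v).card : ℝ) := by
        exact_mod_cast Finset.card_pos.2 he
      field_simp
  rw [hHS, hsec, ← add_div]
  unfold Hx
  exact div_le_div_of_nonneg_right main hn.le

end Pool.Agent.H64.ES.H120
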