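import Mathlib
import Pool.Agent.H87.LL.NumG

/-!
# Products of many independent elements: definitions and the statements of the parts
-/

set_option autoImplicit false

namespace Pool.Agent.H64.ES

open Finset Real
open Pool.Agent.H87.LL (gf)

/-- A probability distribution on `{0, …, F - 1}` (values outside do not matter). -/
structure Pm (F : ℕ) (p : ℕ → ℝ) : Prop where
  nn : ∀ a, 0 ≤ p a
  sum : ∑ a ∈ Finset.range F, p a = 1

/-- Its entropy. -/
noncomputable def Hp (F : ℕ) (p : ℕ → ℝ) : ℝ := ∑ a ∈ Finset.range F, Real.negMulLog (p a)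

/-- Its tails `P(V ≥ f)`. -/
noncomputable def tl (F : ℕ) (p : ℕ → ℝ) (f : ℕ) : ℝ := ∑ a ∈ Finset.Ico f F, p a

/-- The cost of all tests `V ≥ f + 1` (given `V ≥ f`). -/
noncomputable def Gp (F : ℕ) (p : ℕ → ℝ) : ℝ :=
  ∑ f ∈ Finset.range F, tl F p f * gf (tl F p (f + 1) / tl F p f)

/-- The law of the sum of independent variables. -/
noncomputable def law {m : ℕ} (F : ℕ) (p : Fin m → ℕ → ℝ) (s : ℕ) : ℝ :=
  ∑ v ∈ (Fintype.piFinset fun _ : Fin m => Finset.range F).filter (fun v => ∑ i, v i = s),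
    ∏ i, p i (v i)

/-- The entropy of the sum. -/
noncomputable def HS {m : ℕ} (F : ℕ) (p : Fin m → ℕ → ℝ) : ℝ :=
  ∑ s ∈ Finset.range (m * F + 1), Real.negMulLog (law F p s)

/-- `x (1 + log (1 / x))`. -/
noncomputable def U (x : ℝ) : ℝ := x * (1 - Real.log x)

/-- TEST: the entropy not covered by the tests. -/
def S_TEST : Prop := ∀ (F : ℕ) (p : ℕ → ℝ), Pm F p → ∀ a₀ < F, (∀ a < F, p a ≤ p a₀) →
  Hp F p - Gp F p ≤ 2 * U (1 - p a₀)

/-- AC: anticoncentration of sums of independent integer variables. -/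
def S_AC : Prop := ∀ (m F : ℕ) (p : Fin m → ℕ → ℝ), (∀ i, Pm F (p i)) →
  ∀ a₀ : Fin m → ℕ, (∀ i, a₀ i < F) → (∀ i, ∀ a < F, p i a ≤ p i (a₀ i)) →
  ∀ s, law F p s * √(1 + (∑ i, (1 - p i (a₀ i))) / 2) ≤ 1

/-- SMALL: the entropy of the sum of nearly deterministic variables. -/
def S_SMALL : Prop := ∀ (m F : ℕ) (p : Fin m → ℕ → ℝ), (∀ i, Pm F (p i)) →
  ∀ a₀ : Fin m → ℕ, (∀ i, a₀ i < F) → (∀ i, ∀ a < F, p i a ≤ p i (a₀ i)) →
  ∀ Δ : ℝ, Δ = ∑ i, (1 - p i (a₀ i)) → Δ ≤ 1 / 2 →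
  Δ / 2 * (Real.log 2 - Real.log Δ) ≤ HS F p

/-- SUM: the entropy of the sum against the uncovered entropies. -/
def S_SUM : Prop := ∀ (m F : ℕ) (p : Fin m → ℕ → ℝ), 1 ≤ m → (∀ i, Pm F (p i)) →
  ∀ a₀ : Fin m → ℕ, (∀ i, a₀ i < F) → (∀ i, ∀ a < F, p i a ≤ p i (a₀ i)) →
  (∑ i, U (1 - p i (a₀ i))) * Real.log (m + 1) ≤ 30 * m * HS F p

/-- The entropy of `∏ x_i`, `x_i` uniform on `R_i` and independent. -/
noncomputable def Hx {m : ℕ} (R : Fin m → Finset ℤ) : ℝ :=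
  (∑ r ∈ Fintype.piFinset R, Real.log (((Fintype.piFinset R).card : ℝ) /
    ((Fintype.piFinset R).filter fun r' => ∏ i, r' i = ∏ i, r i).card)) /
    (Fintype.piFinset R).card

/-- CHAIN: the chain rule for one additive function `w` (a valuation). -/
def S_CHAIN : Prop := ∀ (m F : ℕ) (R : Fin m → Finset ℤ) (w : ℤ → ℕ),
  (∀ i, (R i).Nonempty) → (∀ i, ∀ r ∈ R i, w r < F) →
  (∀ r ∈ Fintype.piFinset R, w (∏ i, r i) = ∑ i, w (r i)) →
  HS F (fun i a => (((R i).filter fun r => w r = a).card : ℝ) / (R i).card) +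
    ∑ v ∈ Fintype.piFinset (fun i => (R i).image w),
      (∏ i, (((R i).filter fun r => w r = v i).card : ℝ) / (R i).card) *
        Hx (fun i => (R i).filter fun r => w r = v i) ≤ Hx R

end Pool.Agent.H64.ES
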