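import Mathlib
import Pool.Agent.H64.ES.Spec

/-!
# Dependent variables: definitions and the statements of the parts
-/

set_option autoImplicit false

namespace Pool.Agent.H64.ES

open Finset Real

/-- The entropy of `f` on the finite set `R` with the uniform distribution. -/
noncomputable def HR {ι κ : Type} [DecidableEq κ] (R : Finset ι) (f : ι → κ) : ℝ :=
  (∑ r ∈ R, Real.log ((R.card : ℝ) / ((R.filter fun r' => f r' = f r).card : ℝ))) / R.card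

/-- The distribution of `V` on `R`. -/
noncomputable def pR {ι : Type} (R : Finset ι) (V : ι → ℕ) (a : ℕ) : ℝ :=
  ((R.filter fun r => V r = a).card : ℝ) / R.card

/-- `H(∑ V_i) + ∑ H(V_i) - H(V)`. -/
noncomputable def TT {ι : Type} {m : ℕ} (R : Finset ι) (V : ι → Fin m → ℕ) : ℝ :=
  HR R (fun r => ∑ i, V r i) + ∑ i, HR R (fun r => V r i) - HR R V

/-- TC1: the large case, from the anticoncentration of the product of the marginals. -/
def S_TC1 : Prop := ∀ (ι : Type) (m F : ℕ) (R : Finset ι) (V : ι → Fin m → ℕ), R.Nonempty →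
  (∀ r ∈ R, ∀ i, V r i < F) → ∀ a₀ : Fin m → ℕ, (∀ i, a₀ i < F) →
  (∀ i, ∀ a < F, pR R (fun r => V r i) a ≤ pR R (fun r => V r i) (a₀ i)) →
  1 / 2 * Real.log (1 + (∑ i, (1 - pR R (fun r => V r i) (a₀ i))) / 2) ≤ TT R V

/-- TC2: the small case. -/
def S_TC2 : Prop := ∀ (ι : Type) (m F : ℕ) (R : Finset ι) (V : ι → Fin m → ℕ), R.Nonempty →
  (∀ r ∈ R, ∀ i, V r i < F) → ∀ a₀ : Fin m → ℕ, (∀ i, a₀ i < F) →
  (∀ i, ∀ a < F, pR R (fun r => V r i) a ≤ pR R (fun r => V r i) (a₀ i)) →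
  ∀ Δ : ℝ, Δ = ∑ i, (1 - pR R (fun r => V r i) (a₀ i)) → Δ ≤ 1 / 2 →
  1 / 25 * U Δ ≤ TT R V

/-- NUM: the numerical combination. -/
def S_NUM : Prop := ∀ (m : ℕ) (η : Fin m → ℝ) (T : ℝ), 1 ≤ m → (∀ i, 0 ≤ η i) → (∀ i, η i ≤ 1) →
  1 / 2 * Real.log (1 + (∑ i, η i) / 2) ≤ T →
  (∑ i, η i ≤ 1 / 2 → 1 / 25 * U (∑ i, η i) ≤ T) →
  (∑ i, U (η i)) * Real.log (m + 1) ≤ 30 * m * T

end Pool.Agent.H64.ES
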