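import Mathlib
import Pool.Agent.H64.ES.Spec2
import Pool.Agent.H64.ES.SChain

/-!
# Elementary facts about the entropy of functions on a finite set
-/

set_option autoImplicit false
set_option linter.unusedSectionVars false

namespace Pool.Agent.H64.ES

open Finset Real
open Pool.Agent.H64.ES.H120 (fpos sub_log)

variable {ι κ β γ : Type} [DecidableEq κ] [DecidableEq β] [DecidableEq γ]

/-- The conditional entropy of `f` given `V`. -/
noncomputable def Ec (R : Finset ι) (V : ι → β) (f : ι → κ) : ℝ :=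
  ∑ v ∈ R.image V, (((R.filter fun r => V r = v).card : ℝ) / R.card) *
    HR (R.filter fun r => V r = v) f

theorem HR_nonneg (R : Finset ι) (f : ι → κ) : 0 ≤ HR R f := by
  unfold HR
  refine div_nonneg (Finset.sum_nonneg fun r hr => ?_) (Nat.cast_nonneg _)
  have h1 := fpos (P := fun r' => f r' = f r) hr rfl
  refine Real.log_nonneg ?_
  rw [le_div_iff₀ h1, one_mul]
  exact_mod_cast Finset.card_filter_le _ _

theorem Ec_nonneg (R : Finset ι) (V : ι → β) (f : ι → κ) : 0 ≤ Ec R V f := by
  unfold Ec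
  exact Finset.sum_nonneg fun v _ => mul_nonneg (by positivity) (HR_nonneg _ _)

theorem Ec_eq (R : Finset ι) (V : ι → β) (f : ι → κ) :
    Ec R V f = (∑ r ∈ R, Real.log (((R.filter fun r' => V r' = V r).card : ℝ) /
      ((R.filter fun r' => V r' = V r ∧ f r' = f r).card : ℝ))) / R.card := by
  unfold Ec
  rw [← Finset.sum_fiberwise_of_maps_to (s := R) (t := R.image V) (g := V)
    (fun r hr => Finset.mem_image_of_mem V hr), Finset.sum_div]
  refine Finset.sum_congr rfl fun v hv => ?_
  obtain ⟨r₀, hr₀, hv0⟩ := Finset.mem_image.1 hv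
  have hc : (0 : ℝ) < (R.filter fun r => V r = v).card := fpos hr₀ hv0
  unfold HR
  have h1 : ∑ r ∈ R.filter (fun r => V r = v), Real.log (((R.filter fun r' => V r' = V r).card : ℝ) /
      ((R.filter fun r' => V r' = V r ∧ f r' = f r).card : ℝ)) =
      ∑ r ∈ R.filter (fun r => V r = v), Real.log (((R.filter fun r' => V r' = v).card : ℝ) /
      (((R.filter fun r' => V r' = v).filter fun r' => f r' = f r).card : ℝ)) := by
    refine Finset.sum_congr rfl fun r hr => ?_
    rw [(Finset.mem_filter.1 hr).2, Finset.filter_filter]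
  rw [h1]
  field_simp

/-- Submodularity. -/
theorem HR_sub (R : Finset ι) (hR : R.Nonempty) (X : ι → κ) (V : ι → β) (T : ι → γ)
    (hX : ∀ r ∈ R, ∀ r' ∈ R, X r = X r' → T r = T r')
    (hV : ∀ r ∈ R, ∀ r' ∈ R, V r = V r' → T r = T r') :
    HR R T + Ec R V X ≤ HR R X := by
  have hc : (0 : ℝ) < R.card := by exact_mod_cast hR.card_pos
  rw [Ec_eq]
  unfold HR
  rw [← add_div]
  exact div_le_div_of_nonneg_right (sub_log R X V T hX hV) hc.le

theorem Ec_le (R : Finset ι) (hR : R.Nonempty) (X : ι → κ) (V : ι → β) : Ec R V X ≤ HR R X := by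
  have h1 := HR_sub R hR X V (fun _ => ()) (fun _ _ _ _ _ => rfl) (fun _ _ _ _ _ => rfl)
  have h2 := HR_nonneg R (fun _ : ι => ())
  linarith

/-- Chain rule. -/
theorem HR_chain (R : Finset ι) (hR : R.Nonempty) (X : ι → κ) (V : ι → β)
    (hX : ∀ r ∈ R, ∀ r' ∈ R, X r = X r' → V r = V r') :
    HR R X = HR R V + Ec R V X := by
  have hc : (0 : ℝ) < R.card := by exact_mod_cast hR.card_pos
  rw [Ec_eq]
  unfold HR
  rw [← add_div, ← Finset.sum_add_distrib]
  congr 1
  refine Finset.sum_congr rfl fun r hr => ?_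
  have p1 := fpos (P := fun r' => V r' = V r) hr rfl
  have p2 := fpos (P := fun r' => X r' = X r) hr rfl
  have e1 : (R.filter fun r' => V r' = V r ∧ X r' = X r) = R.filter fun r' => X r' = X r := by
    ext r'
    simp only [Finset.mem_filter]
    constructor
    · rintro ⟨a, -, b⟩; exact ⟨a, b⟩
    · rintro ⟨a, b⟩; exact ⟨a, hX r' a r hr b, b⟩
  rw [e1, Real.log_div hc.ne' p2.ne', Real.log_div hc.ne' p1.ne', Real.log_div p1.ne' p2.ne']
  ring

/-- Entropy and the number of values. -/
theorem HR_le_log (R : Finset ι) (hR : R.Nonempty) (X : ι → κ) (S : Finset κ)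
    (hS : ∀ r ∈ R, X r ∈ S) : HR R X ≤ Real.log (S.card : ℝ) := by
  have hN : (0 : ℝ) < R.card := by exact_mod_cast hR.card_pos
  obtain ⟨r₁, hr₁⟩ := hR
  have hD : (0 : ℝ) < S.card := by
    have : 0 < S.card := Finset.card_pos.2 ⟨X r₁, hS r₁ hr₁⟩
    exact_mod_cast this
  have hsum : ∑ r ∈ R, 1 / ((R.filter fun r' => X r' = X r).card : ℝ) ≤ S.card := by
    rw [← Finset.sum_fiberwise_of_maps_to (s := R) (t := S) (g := X) hS]
    have h1 : ∀ x ∈ S, ∑ r ∈ R.filter (fun r => X r = x),
        1 / ((R.filter fun r' => X r' = X r).card : ℝ) ≤ 1 := by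
      intro x _
      have h2 : ∀ r ∈ R.filter (fun r => X r = x),
          1 / ((R.filter fun r' => X r' = X r).card : ℝ) =
          1 / ((R.filter fun r => X r = x).card : ℝ) := by
        intro r hr
        rw [(Finset.mem_filter.1 hr).2]
      rw [Finset.sum_congr rfl h2, Finset.sum_const, nsmul_eq_mul]
      rcases Nat.eq_zero_or_pos (R.filter fun r => X r = x).card with h3 | h3
      · rw [h3]; simp
      · have h4 : (0 : ℝ) < (R.filter fun r => X r = x).card := by exact_mod_cast h3
        apply le_of_eq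
        field_simp
    refine (Finset.sum_le_sum h1).trans ?_
    rw [Finset.sum_const, nsmul_eq_mul, mul_one]
  have hterm : ∀ r ∈ R, Real.log ((R.card : ℝ) / ((R.filter fun r' => X r' = X r).card : ℝ)) ≤
      R.card / S.card * (1 / ((R.filter fun r' => X r' = X r).card : ℝ)) - 1 +
        Real.log (S.card : ℝ) := by
    intro r hr
    have h1 := fpos (P := fun r' => X r' = X r) hr rfl
    have h2 : (0 : ℝ) < R.card / ((R.filter fun r' => X r' = X r).card : ℝ) := by positivity
    have h3 := Real.log_le_sub_one_of_pos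
      (show 0 < (R.card : ℝ) / ((R.filter fun r' => X r' = X r).card : ℝ) / S.card by positivity)
    rw [Real.log_div h2.ne' hD.ne'] at h3
    have h4 : (R.card : ℝ) / ((R.filter fun r' => X r' = X r).card : ℝ) / S.card =
        R.card / S.card * (1 / ((R.filter fun r' => X r' = X r).card : ℝ)) := by field_simp
    rw [h4] at h3
    linarith
  have h1 := Finset.sum_le_sum hterm
  rw [Finset.sum_add_distrib, Finset.sum_sub_distrib, ← Finset.mul_sum, Finset.sum_const,
    Finset.sum_const, nsmul_eq_mul, nsmul_eq_mul, mul_one] at h1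
  have h2 : (R.card : ℝ) / S.card * ∑ r ∈ R, 1 / ((R.filter fun r' => X r' = X r).card : ℝ) ≤
      R.card := by
    calc (R.card : ℝ) / S.card * ∑ r ∈ R, 1 / ((R.filter fun r' => X r' = X r).card : ℝ) ≤
          R.card / S.card * S.card := mul_le_mul_of_nonneg_left hsum (by positivity)
      _ = R.card := by field_simp
  unfold HR
  rw [div_le_iff₀ hN]
  calc _ ≤ _ := h1
    _ ≤ Real.log (S.card : ℝ) * R.card := by linarith

/-- Subadditivity. -/
theorem HR_subadd {m : ℕ} (R : Finset ι) (hR : R.Nonempty) (φ : ι → Fin m → κ) :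
    HR R φ ≤ ∑ i, HR R (fun r => φ r i) := by
  classical
  have hN : (0 : ℝ) < R.card := by exact_mod_cast hR.card_pos
  obtain ⟨N, hNd⟩ : ∃ N : ℝ, N = R.card := ⟨_, rfl⟩
  rw [← hNd] at hN
  -- marginals
  obtain ⟨p, hp⟩ : ∃ p : Fin m → κ → ℝ, p = fun i a =>
    ((R.filter fun r' => φ r' i = a).card : ℝ) / N := ⟨_, rfl⟩
  have hp0 : ∀ i a, 0 ≤ p i a := by
    intro i a; rw [hp]; positivity
  have hp1 : ∀ i, ∑ a ∈ R.image (fun r => φ r i), p i a = 1 := by
    intro i
    rw [hp]
    simp only
    rw [← Finset.sum_div, div_eq_one_iff_eq hN.ne', hNd]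
    have := Finset.card_eq_sum_card_image (fun r => φ r i) R
    exact_mod_cast this.symm
  have hpp : ∀ i, ∀ r ∈ R, 0 < p i (φ r i) := by
    intro i r hr
    rw [hp]
    exact div_pos (fpos (P := fun r' => φ r' i = φ r i) hr rfl) hN
  have hsum : ∑ r ∈ R, (∏ i, p i (φ r i)) * (N / ((R.filter fun r' => φ r' = φ r).card : ℝ)) ≤
      N := by
    rw [← Finset.sum_fiberwise_of_maps_to (s := R) (t := R.image φ) (g := φ)
      (fun r hr => Finset.mem_image_of_mem φ hr)]
    have h1 : ∀ v ∈ R.image φ, ∑ r ∈ R.filter (fun r => φ r = v),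
        (∏ i, p i (φ r i)) * (N / ((R.filter fun r' => φ r' = φ r).card : ℝ)) =
        N * ∏ i, p i (v i) := by
      intro v hv
      obtain ⟨r₀, hr₀, hv0⟩ := Finset.mem_image.1 hv
      have hc : (0 : ℝ) < (R.filter fun r => φ r = v).card := fpos hr₀ hv0
      have h2 : ∀ r ∈ R.filter (fun r => φ r = v),
          (∏ i, p i (φ r i)) * (N / ((R.filter fun r' => φ r' = φ r).card : ℝ)) =
          (∏ i, p i (v i)) * (N / ((R.filter fun r => φ r = v).card : ℝ)) := by
        intro r hr
        rw [(Finset.mem_filter.1 hr).2]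
      rw [Finset.sum_congr rfl h2, Finset.sum_const, nsmul_eq_mul]
      field_simp
    rw [Finset.sum_congr rfl h1, ← Finset.mul_sum]
    have h3 : ∑ v ∈ R.image φ, ∏ i, p i (v i) ≤
        ∑ v ∈ Fintype.piFinset fun i => R.image fun r => φ r i, ∏ i, p i (v i) := by
      refine Finset.sum_le_sum_of_subset_of_nonneg ?_ fun v _ _ =>
        Finset.prod_nonneg fun i _ => hp0 i _
      intro v hv
      obtain ⟨r, hr, rfl⟩ := Finset.mem_image.1 hv
      exact Fintype.mem_piFinset.2 fun i => Finset.mem_image.2 ⟨r, hr, rfl⟩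
    rw [← Finset.prod_univ_sum (fun i => R.image fun r => φ r i) p,
      Finset.prod_eq_one fun i _ => hp1 i] at h3
    nlinarith
  have hterm : ∀ r ∈ R, Real.log (N / ((R.filter fun r' => φ r' = φ r).card : ℝ)) ≤
      ∑ i, Real.log (N / ((R.filter fun r' => φ r' i = φ r i).card : ℝ)) +
      ((∏ i, p i (φ r i)) * (N / ((R.filter fun r' => φ r' = φ r).card : ℝ)) - 1) := by
    intro r hr
    have h1 := fpos (P := fun r' => φ r' = φ r) hr rfl
    have h2 : 0 < ∏ i, p i (φ r i) := Finset.prod_pos fun i _ => hpp i r hr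
    have h3 := Real.log_le_sub_one_of_pos (mul_pos h2 (div_pos hN h1))
    rw [Real.log_mul h2.ne' (div_pos hN h1).ne', Real.log_prod (fun i _ => (hpp i r hr).ne')] at h3
    have h4 : ∀ i, Real.log (p i (φ r i)) =
        -Real.log (N / ((R.filter fun r' => φ r' i = φ r i).card : ℝ)) := by
      intro i
      rw [hp]
      simp only
      rw [← Real.log_inv, inv_div]
    have h5 : ∑ i, Real.log (p i (φ r i)) =
        -∑ i, Real.log (N / ((R.filter fun r' => φ r' i = φ r i).card : ℝ)) := by
      rw [← Finset.sum_neg_distrib]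
      exact Finset.sum_congr rfl fun i _ => h4 i
    rw [h5] at h3
    linarith
  have h1 := Finset.sum_le_sum hterm
  rw [Finset.sum_add_distrib, Finset.sum_sub_distrib, Finset.sum_const, nsmul_eq_mul, mul_one,
    Finset.sum_comm] at h1
  unfold HR
  rw [← Finset.sum_div]
  refine div_le_div_of_nonneg_right ?_ (Nat.cast_nonneg _)
  rw [← hNd]
  rw [← hNd] at h1
  linarith

/-- Two functions which together are injective. -/
theorem log_card_le (R : Finset ι) (hR : R.Nonempty) (x : ι → κ) (y : ι → β) (T : ι → γ)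
    (hinj : ∀ r ∈ R, ∀ r' ∈ R, x r = x r' → y r = y r' → r = r')
    (hx : ∀ r ∈ R, ∀ r' ∈ R, x r = x r' → T r = T r')
    (hy : ∀ r ∈ R, ∀ r' ∈ R, y r = y r' → T r = T r') :
    HR R T + Real.log (R.card : ℝ) ≤ HR R x + HR R y := by
  have hN : (0 : ℝ) < R.card := by exact_mod_cast hR.card_pos
  have h1 := HR_sub R hR x y T hx hy
  have h2 : Ec R y x = Real.log (R.card : ℝ) - HR R y := by
    rw [Ec_eq]
    unfold HR
    rw [eq_sub_iff_add_eq, ← add_div, ← Finset.sum_add_distrib, div_eq_iff hN.ne']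
    have h3 : ∀ r ∈ R, Real.log (((R.filter fun r' => y r' = y r).card : ℝ) /
        ((R.filter fun r' => y r' = y r ∧ x r' = x r).card : ℝ)) +
        Real.log ((R.card : ℝ) / ((R.filter fun r' => y r' = y r).card : ℝ)) =
        Real.log (R.card : ℝ) := by
      intro r hr
      have e1 : (R.filter fun r' => y r' = y r ∧ x r' = x r) = {r} := by
        ext r'
        simp only [Finset.mem_filter, Finset.mem_singleton]
        constructor
        · rintro ⟨a, b, c⟩; exact hinj r' a r hr c b
        · rintro rfl; exact ⟨hr, rfl, rfl⟩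
      have p1 := fpos (P := fun r' => y r' = y r) hr rfl
      rw [e1, Finset.card_singleton, Nat.cast_one, div_one, Real.log_div hN.ne' p1.ne']
      ring
    rw [Finset.sum_congr rfl h3, Finset.sum_const, nsmul_eq_mul]
    ring
  linarith

end Pool.Agent.H64.ES
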