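import Mathlib
import Pool.Agent.H64.ES.Ent
import Pool.Agent.H87.LL.Divisor

/-!
# The induction over the primes for dependent elements
-/

set_option autoImplicit false
set_option linter.unusedSectionVars false

namespace Pool.Agent.H64.ES

open Finset Real
open Pool.Agent.H87.LL (gf Sf bq block bq_spec bq_nonneg Sf_nonneg part2 D2 Sf_le psi E1_le
  sum_bq natAbs_eq_of_va)
open Pool.Agent.H87.FS (va)
open Pool.Agent.H64.ES.H120 (fpos)
open scoped Pointwise

variable {ι : Type}

/-- (TC): total correlation plus entropy of the sum against the uncovered entropies -/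
theorem uncovered2 (hT : S_TEST) (h1 : S_TC1) (h2 : S_TC2) (h3 : S_NUM) (m F : ℕ) (hm : 1 ≤ m)
    (R : Finset ι) (hR : R.Nonempty) (V : ι → Fin m → ℕ) (hV : ∀ r ∈ R, ∀ i, V r i < F) :
    ∑ i, (Hp F (pR R fun r => V r i) - Gp F (pR R fun r => V r i)) ≤
      60 * m / log (m + 1) * TT R V := by
  have hN : (0 : ℝ) < R.card := by exact_mod_cast hR.card_pos
  have hF : 0 < F := by
    obtain ⟨r, hr⟩ := hR
    have := hV r hr ⟨0, hm⟩
    omega
  have hp : ∀ i, Pm F (pR R fun r => V r i) := by
    intro i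
    refine ⟨fun a => by unfold pR; positivity, ?_⟩
    unfold pR
    rw [← Finset.sum_div, div_eq_one_iff_eq hN.ne']
    have := Finset.card_eq_sum_card_fiberwise (s := R) (f := fun r => V r i)
      (t := Finset.range F) (fun r hr => Finset.mem_coe.2
        (Finset.mem_range.2 (hV r (Finset.mem_coe.1 hr) i)))
    exact_mod_cast this.symm
  have hex : ∀ i, ∃ a₀ < F, ∀ a < F, pR R (fun r => V r i) a ≤ pR R (fun r => V r i) a₀ := by
    intro i
    obtain ⟨a₀, h4, h5⟩ := Finset.exists_max_image (Finset.range F) (pR R fun r => V r i)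
      ⟨0, Finset.mem_range.2 hF⟩
    exact ⟨a₀, Finset.mem_range.1 h4, fun a ha => h5 a (Finset.mem_range.2 ha)⟩
  choose a₀ ha₀ hmax using hex
  have h4 : ∑ i, (Hp F (pR R fun r => V r i) - Gp F (pR R fun r => V r i)) ≤
      ∑ i, 2 * U (1 - pR R (fun r => V r i) (a₀ i)) :=
    Finset.sum_le_sum fun i _ => hT F _ (hp i) (a₀ i) (ha₀ i) (hmax i)
  have hle1 : ∀ i, pR R (fun r => V r i) (a₀ i) ≤ 1 := by
    intro i
    rw [← (hp i).sum]
    exact Finset.single_le_sum (f := fun a => pR R (fun r => V r i) a)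
      (fun a _ => (hp i).nn a) (Finset.mem_range.2 (ha₀ i))
  have h5 := h3 m (fun i => 1 - pR R (fun r => V r i) (a₀ i)) (TT R V) hm
    (fun i => by have := hle1 i; linarith) (fun i => by have := (hp i).nn (a₀ i); linarith)
    (h1 ι m F R V hR hV a₀ ha₀ hmax)
    (fun hD => h2 ι m F R V hR hV a₀ ha₀ hmax _ rfl hD)
  have hm1 : (1 : ℝ) ≤ m := by exact_mod_cast hm
  have hl : 0 < log ((m : ℝ) + 1) := Real.log_pos (by linarith)
  rw [← Finset.mul_sum] at h4
  refine h4.trans ?_
  rw [div_mul_eq_mul_div, le_div_iff₀ hl]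
  nlinarith

/-- the entropy as a sum over the values -/
theorem HR_eq_Hp (R : Finset ι) (hR : R.Nonempty) (V : ι → ℕ) (F : ℕ) (hV : ∀ r ∈ R, V r < F) :
    HR R V = Hp F (pR R V) := by
  have hN : (0 : ℝ) < R.card := by exact_mod_cast hR.card_pos
  unfold HR Hp
  rw [← Finset.sum_fiberwise_of_maps_to (s := R) (t := Finset.range F) (g := V)
    (fun r hr => Finset.mem_range.2 (hV r hr)), Finset.sum_div]
  refine Finset.sum_congr rfl fun a _ => ?_
  have h1 : ∀ r ∈ R.filter (fun r => V r = a),
      Real.log ((R.card : ℝ) / ((R.filter fun r' => V r' = V r).card : ℝ)) =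
      Real.log ((R.card : ℝ) / ((R.filter fun r => V r = a).card : ℝ)) := by
    intro r hr
    rw [(Finset.mem_filter.1 hr).2]
  rw [Finset.sum_congr rfl h1, Finset.sum_const, nsmul_eq_mul]
  unfold pR Real.negMulLog
  rw [show Real.log ((R.card : ℝ) / ((R.filter fun r => V r = a).card : ℝ)) =
    -Real.log (((R.filter fun r => V r = a).card : ℝ) / R.card) by
      rw [← Real.log_inv, inv_div]]
  ring

/-- one prime, one coordinate -/
theorem one_coord2 (e : ℝ) (he : 0 < e) (he1 : e ≤ 1) (q : ℕ) (hq : q.Prime) (m : ℕ)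
    (R : Finset ι) (hR : R.Nonempty) (φ : ι → Fin m → ℤ) (h0 : ∀ r ∈ R, ∀ i, φ r i ≠ 0) (F : ℕ)
    (V : ι → Fin m → ℕ) (hVd : ∀ r i, V r i = va q (φ r i))
    (hV : ∀ r ∈ R, ∀ i, V r i < F) (i : Fin m) :
    Gp F (pR R fun r => V r i) +
      ∑ v ∈ R.image V, (((R.filter fun r => V r = v).card : ℝ) / R.card) *
        (Sf e (R.filter fun r => V r = v) (fun r => φ r i) /
          ((R.filter fun r => V r = v).card : ℝ)) ≤
      Sf e R (fun r => φ r i) / R.card + bq e q := by
  have hc : (0 : ℝ) < R.card := by exact_mod_cast hR.card_pos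
  have hb := block e he he1 q hq (bq e q) (bq_spec e q) R (fun r => φ r i)
    (fun r hr => h0 r hr i) F
  simp only [← hVd] at hb
  have hE : (R.filter fun r => F ≤ V r i) = ∅ := by
    rw [Finset.filter_eq_empty_iff]
    intro r hr h
    exact absurd (hV r hr i) (not_lt.2 h)
  rw [hE] at hb
  have hS0 := Sf_nonneg e he (∅ : Finset ι) (fun r => φ r i)
  simp only [Finset.card_empty, Nat.cast_zero, mul_zero, add_zero] at hb
  have htl : ∀ f, tl F (pR R fun r => V r i) f =
      ((R.filter fun r => f ≤ V r i).card : ℝ) / R.card := by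
    intro f
    unfold tl pR
    rw [← Finset.sum_div]
    congr 1
    have h := Finset.card_eq_sum_card_fiberwise (s := R.filter fun r => f ≤ V r i)
      (f := fun r => V r i) (t := Finset.Ico f F) (by
        intro r hr
        have hr' := Finset.mem_filter.1 (Finset.mem_coe.1 hr)
        exact Finset.mem_coe.2 (Finset.mem_Ico.2 ⟨hr'.2, hV r hr'.1 i⟩))
    rw [h]
    push_cast
    refine Finset.sum_congr rfl fun a ha => ?_
    congr 2
    ext r
    simp only [Finset.mem_filter]
    constructor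
    · rintro ⟨h1, h2⟩
      exact ⟨⟨h1, by rw [h2]; exact (Finset.mem_Ico.1 ha).1⟩, h2⟩
    · rintro ⟨⟨h1, -⟩, h2⟩
      exact ⟨h1, h2⟩
  have h1 : Gp F (pR R fun r => V r i) = (∑ f ∈ Finset.range F,
      ((R.filter fun r => f ≤ V r i).card : ℝ) *
        gf (((R.filter fun r => f + 1 ≤ V r i).card : ℝ) /
          (R.filter fun r => f ≤ V r i).card)) / R.card := by
    unfold Gp
    rw [Finset.sum_div]
    refine Finset.sum_congr rfl fun f _ => ?_
    rw [htl, htl, div_div_div_cancel_right₀ hc.ne']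
    ring
  have h2 : ∑ v ∈ R.image V, (((R.filter fun r => V r = v).card : ℝ) / R.card) *
        (Sf e (R.filter fun r => V r = v) (fun r => φ r i) /
          ((R.filter fun r => V r = v).card : ℝ)) ≤
      (∑ f ∈ Finset.range F, Sf e (R.filter fun r => V r i = f) (fun r => φ r i)) / R.card := by
    have h3 : ∀ v ∈ R.image V, (((R.filter fun r => V r = v).card : ℝ) / R.card) *
        (Sf e (R.filter fun r => V r = v) (fun r => φ r i) /
          ((R.filter fun r => V r = v).card : ℝ)) =
        Sf e (R.filter fun r => V r = v) (fun r => φ r i) / R.card := by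
      intro v hv
      obtain ⟨r, hr, hrv⟩ := Finset.mem_image.1 hv
      have h4 : (0 : ℝ) < (R.filter fun r => V r = v).card := fpos hr hrv
      field_simp
    rw [Finset.sum_congr rfl h3, ← Finset.sum_div]
    refine div_le_div_of_nonneg_right ?_ hc.le
    exact part2 e he (fun r => φ r i) V (fun r => V r i) (fun v => v i) R F
      (fun r hr => hV r hr i) (fun r => rfl)
  have h5 : ((∑ f ∈ Finset.range F,
      ((R.filter fun r => f ≤ V r i).card : ℝ) *
        gf (((R.filter fun r => f + 1 ≤ V r i).card : ℝ) /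
          (R.filter fun r => f ≤ V r i).card)) +
      ∑ f ∈ Finset.range F, Sf e (R.filter fun r => V r i = f) (fun r => φ r i)) / R.card ≤
      (Sf e R (fun r => φ r i) + bq e q * R.card) / R.card := by
    refine div_le_div_of_nonneg_right ?_ hc.le
    linarith
  rw [add_div, add_div, mul_div_assoc, div_self hc.ne', mul_one] at h5
  rw [h1]
  linarith

/-- The induction. -/
theorem ind2 (hT : S_TEST) (h1 : S_TC1) (h2 : S_TC2) (h3 : S_NUM) (e : ℝ) (he : 0 < e)
    (he1 : e ≤ 1) (m : ℕ) (hm : 1 ≤ m) (l : List ℕ) :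
    (∀ q ∈ l, q.Prime) → ∀ (R : Finset ι) (φ : ι → Fin m → ℤ), R.Nonempty →
      (∀ r ∈ R, ∀ i, φ r i ≠ 0) →
      (∀ r ∈ R, ∀ r' ∈ R, ∀ i, (∀ q ∈ l, va q (φ r i) = va q (φ r' i)) →
        (φ r i).natAbs = (φ r' i).natAbs) →
      ∑ i, HR R (fun r => φ r i) ≤
        ∑ i, Sf e R (fun r => φ r i) / R.card +
        60 * m / log (m + 1) * (HR R (fun r => ∏ i, φ r i) + ∑ i, HR R (fun r => φ r i) -
          HR R φ) +
        m * (log 2 + (l.map (bq e)).sum) := by
  have hm1 : (1 : ℝ) ≤ m := by exact_mod_cast hm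
  have hl : 0 < log ((m : ℝ) + 1) := Real.log_pos (by linarith)
  obtain ⟨α, hα⟩ : ∃ α : ℝ, α = 60 * m / log (m + 1) := ⟨_, rfl⟩
  have hα1 : 1 ≤ α := by
    rw [hα, le_div_iff₀ hl]
    have := Real.log_le_sub_one_of_pos (show 0 < (m : ℝ) + 1 by linarith)
    linarith
  rw [← hα]
  induction l with
  | nil =>
    intro _ R φ hR h0 hdet
    have hc : (0 : ℝ) < R.card := by exact_mod_cast hR.card_pos
    obtain ⟨r₀, hr₀⟩ := hR
    have hR' : R.Nonempty := ⟨r₀, hr₀⟩
    have h4 : ∀ i, HR R (fun r => φ r i) ≤ log 2 := by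
      intro i
      have h5 := HR_le_log R hR' (fun r => φ r i) {φ r₀ i, -φ r₀ i} (by
        intro r hr
        have h6 := hdet r hr r₀ hr₀ i (by simp)
        rcases Int.natAbs_eq_natAbs_iff.1 h6 with h7 | h7
        · simp [h7]
        · simp [h7])
      refine h5.trans (Real.log_le_log ?_ ?_)
      · have : 0 < ({φ r₀ i, -φ r₀ i} : Finset ℤ).card := Finset.card_pos.2 ⟨φ r₀ i, by simp⟩
        exact_mod_cast this
      · exact_mod_cast Finset.card_le_two
    have h5 := Finset.sum_le_sum fun i (_ : i ∈ Finset.univ) => h4 i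
    rw [Finset.sum_const, Finset.card_univ, Fintype.card_fin, nsmul_eq_mul] at h5
    have h6 : 0 ≤ ∑ i, Sf e R (fun r => φ r i) / (R.card : ℝ) :=
      Finset.sum_nonneg fun i _ => div_nonneg (Sf_nonneg e he _ _) (Nat.cast_nonneg _)
    have h7 := HR_subadd R hR' φ
    have h8 := HR_nonneg R (fun r => ∏ i, φ r i)
    have h9 : 0 ≤ α * (HR R (fun r => ∏ i, φ r i) + ∑ i, HR R (fun r => φ r i) - HR R φ) :=
      mul_nonneg (by linarith) (by linarith)
    simp only [List.map_nil, List.sum_nil, add_zero]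
    linarith
  | cons q l ih =>
    intro hlp R φ hR h0 hdet
    have hc : (0 : ℝ) < R.card := by exact_mod_cast hR.card_pos
    have hq : q.Prime := hlp q (List.mem_cons_self ..)
    obtain ⟨V, hVd⟩ : ∃ V : ι → Fin m → ℕ, ∀ r i, V r i = va q (φ r i) :=
      ⟨fun r i => va q (φ r i), fun _ _ => rfl⟩
    obtain ⟨F, hF⟩ : ∃ F : ℕ, ∀ r ∈ R, ∀ i, V r i < F := by
      refine ⟨(R.sup fun r => Finset.univ.sup fun i => V r i) + 1, ?_⟩
      intro r hr i
      have h4 : V r i ≤ Finset.univ.sup fun i => V r i :=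
        Finset.le_sup (f := fun i => V r i) (Finset.mem_univ i)
      have h5 : (Finset.univ.sup fun i => V r i) ≤
          R.sup fun r => Finset.univ.sup fun i => V r i :=
        Finset.le_sup (f := fun r => Finset.univ.sup fun i => V r i) hr
      omega
    obtain ⟨w, hw⟩ : ∃ w : (Fin m → ℕ) → ℝ, w = fun v =>
      ((R.filter fun r => V r = v).card : ℝ) / R.card := ⟨_, rfl⟩
    have hw0 : ∀ v, 0 ≤ w v := by intro v; rw [hw]; positivity
    have hw1 : ∑ v ∈ R.image V, w v = 1 := by
      rw [hw]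
      simp only
      rw [← Finset.sum_div, div_eq_one_iff_eq hc.ne']
      exact_mod_cast (Finset.card_eq_sum_card_image V R).symm
    -- the induction hypothesis for all fibres
    have hih : ∀ v ∈ R.image V,
        w v * (∑ i, HR (R.filter fun r => V r = v) (fun r => φ r i)) ≤
        w v * (∑ i, Sf e (R.filter fun r => V r = v) (fun r => φ r i) /
            ((R.filter fun r => V r = v).card : ℝ) +
          α * (HR (R.filter fun r => V r = v) (fun r => ∏ i, φ r i) +
            ∑ i, HR (R.filter fun r => V r = v) (fun r => φ r i) -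
            HR (R.filter fun r => V r = v) φ) +
          m * (log 2 + (l.map (bq e)).sum)) := by
      intro v hv
      refine mul_le_mul_of_nonneg_left ?_ (hw0 v)
      refine ih (fun q' hq' => hlp q' (List.mem_cons_of_mem _ hq')) _ φ ?_ ?_ ?_
      · obtain ⟨r, hr, hrv⟩ := Finset.mem_image.1 hv
        exact ⟨r, Finset.mem_filter.2 ⟨hr, hrv⟩⟩
      · intro r hr i
        exact h0 r (Finset.mem_filter.1 hr).1 i
      · intro r hr r' hr' i h
        obtain ⟨h4, h5⟩ := Finset.mem_filter.1 hr
        obtain ⟨h6, h7⟩ := Finset.mem_filter.1 hr'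
        refine hdet r h4 r' h6 i ?_
        intro q' hq'
        rcases List.mem_cons.1 hq' with h8 | h8
        · rw [h8, ← hVd, ← hVd, h5, h7]
        · exact h q' h8
    have hsum := Finset.sum_le_sum hih
    -- conditional entropies
    have hEi : ∀ i, ∑ v ∈ R.image V, w v * HR (R.filter fun r => V r = v) (fun r => φ r i) =
        Ec R V (fun r => φ r i) := by
      intro i; rw [hw]; rfl
    have hEX : ∑ v ∈ R.image V, w v * HR (R.filter fun r => V r = v) (fun r => ∏ i, φ r i) =
        Ec R V (fun r => ∏ i, φ r i) := by rw [hw]; rfl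
    have hEφ : ∑ v ∈ R.image V, w v * HR (R.filter fun r => V r = v) φ = Ec R V φ := by
      rw [hw]; rfl
    have hL : ∑ v ∈ R.image V, w v * (∑ i, HR (R.filter fun r => V r = v) (fun r => φ r i)) =
        ∑ i, Ec R V (fun r => φ r i) := by
      simp_rw [Finset.mul_sum]
      rw [Finset.sum_comm]
      exact Finset.sum_congr rfl fun i _ => hEi i
    have hM : ∑ v ∈ R.image V, w v * (∑ i, Sf e (R.filter fun r => V r = v) (fun r => φ r i) /
            ((R.filter fun r => V r = v).card : ℝ)) ≤
        ∑ i, (Sf e R (fun r => φ r i) / (R.card : ℝ) + bq e q - Gp F (pR R fun r => V r i)) := by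
      simp_rw [Finset.mul_sum]
      rw [Finset.sum_comm]
      refine Finset.sum_le_sum fun i _ => ?_
      have h4 := one_coord2 e he he1 q hq m R hR φ h0 F V hVd hF i
      rw [hw]
      simp only
      linarith
    have hR2 : ∑ v ∈ R.image V, w v *
          (∑ i, Sf e (R.filter fun r => V r = v) (fun r => φ r i) /
            ((R.filter fun r => V r = v).card : ℝ) +
          α * (HR (R.filter fun r => V r = v) (fun r => ∏ i, φ r i) +
            ∑ i, HR (R.filter fun r => V r = v) (fun r => φ r i) -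
            HR (R.filter fun r => V r = v) φ) +
          m * (log 2 + (l.map (bq e)).sum)) =
        ∑ v ∈ R.image V, w v * (∑ i, Sf e (R.filter fun r => V r = v) (fun r => φ r i) /
            ((R.filter fun r => V r = v).card : ℝ)) +
        α * (Ec R V (fun r => ∏ i, φ r i) + ∑ i, Ec R V (fun r => φ r i) - Ec R V φ) +
        m * (log 2 + (l.map (bq e)).sum) := by
      rw [← hL, ← hEX, ← hEφ]
      have h4 : (m : ℝ) * (log 2 + (l.map (bq e)).sum) =
          ∑ v ∈ R.image V, w v * (m * (log 2 + (l.map (bq e)).sum)) := by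
        rw [← Finset.sum_mul, hw1, one_mul]
      conv_rhs => rw [h4]
      rw [← Finset.sum_add_distrib, ← Finset.sum_sub_distrib, Finset.mul_sum,
        ← Finset.sum_add_distrib, ← Finset.sum_add_distrib]
      refine Finset.sum_congr rfl fun v _ => ?_
      ring
    rw [hR2, hL] at hsum
    -- chain rules
    have hVfun : ∀ r ∈ R, ∀ r' ∈ R, φ r = φ r' → V r = V r' := by
      intro r _ r' _ h
      funext i
      rw [hVd, hVd, h]
    have c1 := HR_chain R hR φ V hVfun
    have c2 : HR R (fun r => ∑ i, V r i) + Ec R V (fun r => ∏ i, φ r i) ≤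
        HR R (fun r => ∏ i, φ r i) := by
      refine HR_sub R hR _ V _ ?_ ?_
      · intro r hr r' hr' h
        have h4 : ∀ r ∈ R, ∑ i, V r i = va q (∏ i, φ r i) := by
          intro r hr
          rw [← Pool.Agent.H87.LL.va_prod m q (φ r) (h0 r hr)]
          exact Finset.sum_congr rfl fun i _ => hVd r i
        rw [h4 r hr, h4 r' hr', h]
      · intro r _ r' _ h
        rw [h]
    have c3 : ∀ i, HR R (fun r => V r i) + Ec R V (fun r => φ r i) ≤ HR R (fun r => φ r i) := by
      intro i
      refine HR_sub R hR _ V _ ?_ ?_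
      · intro r _ r' _ h
        rw [hVd, hVd, h]
      · intro r _ r' _ h
        rw [h]
    have c3s := Finset.sum_le_sum fun i (_ : i ∈ Finset.univ) => c3 i
    rw [Finset.sum_add_distrib] at c3s
    have hunc := uncovered2 hT h1 h2 h3 m F hm R hR V hF
    rw [← hα] at hunc
    have hHp : ∀ i, Hp F (pR R fun r => V r i) = HR R (fun r => V r i) := fun i =>
      (HR_eq_Hp R hR (fun r => V r i) F (fun r hr => hF r hr i)).symm
    rw [Finset.sum_sub_distrib, Finset.sum_congr rfl fun i _ => hHp i] at hunc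
    rw [Finset.sum_sub_distrib, Finset.sum_add_distrib, Finset.sum_const, Finset.card_univ,
      Fintype.card_fin, nsmul_eq_mul] at hM
    unfold TT at hunc
    simp only [List.map_cons, List.sum_cons]
    -- final arithmetic
    obtain ⟨x1, hx1⟩ : ∃ x, x = ∑ i, HR R (fun r => φ r i) := ⟨_, rfl⟩
    obtain ⟨x2, hx2⟩ : ∃ x, x = ∑ i, Ec R V (fun r => φ r i) := ⟨_, rfl⟩
    obtain ⟨x3, hx3⟩ : ∃ x, x = ∑ i, HR R (fun r => V r i) := ⟨_, rfl⟩
    rw [← hx1]
    rw [← hx2] at hsum
    rw [← hx1, ← hx2, ← hx3] at c3s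
    rw [← hx3] at hunc
    have e1 : 0 ≤ (α - 1) * (x1 - x3 - x2) := mul_nonneg (by linarith) (by linarith)
    have e2 : 0 ≤ α * (HR R (fun r => ∏ i, φ r i) - HR R (fun r => ∑ i, V r i) -
        Ec R V (fun r => ∏ i, φ r i)) := mul_nonneg (by linarith) (by linarith)
    rw [c1]
    nlinarith

end Pool.Agent.H64.ES
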