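import Mathlib
import Pool.Agent.H64.ES.Spec
import Pool.Agent.H87.LL.Divisor

/-!
# The induction over the primes
-/

set_option autoImplicit false
set_option linter.unusedSectionVars false

namespace Pool.Agent.H64.ES

open Finset Real
open Pool.Agent.H87.LL (gf Sf bq block bq_spec bq_nonneg Sf_nonneg)
open Pool.Agent.H87.FS (va)

/-- marginals of a product distribution -/
theorem marg {m : ℕ} (S : Fin m → Finset ℕ) (p : Fin m → ℕ → ℝ)
    (hp : ∀ j, ∑ a ∈ S j, p j a = 1) (i : Fin m) (f : ℕ → ℝ) :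
    ∑ v ∈ Fintype.piFinset S, (∏ j, p j (v j)) * f (v i) = ∑ a ∈ S i, p i a * f a := by
  have h1 := Finset.prod_univ_sum S (fun j a => p j a * (if j = i then f a else 1))
  have h2 : ∏ j, ∑ a ∈ S j, p j a * (if j = i then f a else 1) = ∑ a ∈ S i, p i a * f a := by
    rw [Finset.prod_eq_single i]
    · simp
    · intro j _ hj
      simp only [hj, if_false, mul_one]
      exact hp j
    · intro h; exact absurd (Finset.mem_univ i) h
  rw [h2] at h1
  rw [h1]
  refine Finset.sum_congr rfl fun v _ => ?_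
  rw [Finset.prod_mul_distrib]
  congr 1
  rw [Finset.prod_eq_single i]
  · simp
  · intro j _ hj; simp [hj]
  · intro h; exact absurd (Finset.mem_univ i) h

/-- fibres -/
theorem fib_sum (R : Finset ℤ) (w : ℤ → ℕ) (F : ℕ) (hF : ∀ r ∈ R, w r < F) (f : ℕ) :
    ∑ a ∈ Finset.Ico f F, ((R.filter fun r => w r = a).card : ℝ) =
      ((R.filter fun r => f ≤ w r).card : ℝ) := by
  have h := Finset.card_eq_sum_card_fiberwise (s := R.filter fun r => f ≤ w r) (f := w)
    (t := Finset.Ico f F) (by
      intro r hr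
      have hr' := Finset.mem_filter.1 (Finset.mem_coe.1 hr)
      exact Finset.mem_coe.2 (Finset.mem_Ico.2 ⟨hr'.2, hF r hr'.1⟩))
  rw [h]
  push_cast
  refine Finset.sum_congr rfl fun a ha => ?_
  congr 2
  ext r
  simp only [Finset.mem_filter]
  constructor
  · rintro ⟨h1, h2⟩
    exact ⟨⟨h1, by rw [h2]; exact (Finset.mem_Ico.1 ha).1⟩, h2⟩
  · rintro ⟨⟨h1, -⟩, h2⟩
    exact ⟨h1, h2⟩

/-- distribution of a valuation -/
noncomputable def dist (R : Finset ℤ) (w : ℤ → ℕ) (a : ℕ) : ℝ :=
  ((R.filter fun r => w r = a).card : ℝ) / R.card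

theorem tl_dist (R : Finset ℤ) (w : ℤ → ℕ) (F : ℕ) (hF : ∀ r ∈ R, w r < F) (f : ℕ) :
    tl F (dist R w) f = ((R.filter fun r => f ≤ w r).card : ℝ) / R.card := by
  unfold tl dist
  rw [← Finset.sum_div, fib_sum R w F hF f]

theorem pm_dist (R : Finset ℤ) (hR : R.Nonempty) (w : ℤ → ℕ) (F : ℕ) (hF : ∀ r ∈ R, w r < F) :
    Pm F (dist R w) := by
  have hc : (0 : ℝ) < R.card := by exact_mod_cast hR.card_pos
  refine ⟨fun a => by unfold dist; positivity, ?_⟩
  have h := tl_dist R w F hF 0
  unfold tl at h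
  rw [Finset.range_eq_Ico, h]
  simp only [zero_le, Finset.filter_true]
  exact div_self hc.ne'

theorem sum_image_dist (R : Finset ℤ) (w : ℤ → ℕ) (F : ℕ) (hF : ∀ r ∈ R, w r < F) (g : ℕ → ℝ) :
    ∑ a ∈ R.image w, dist R w a * g a = ∑ a ∈ Finset.range F, dist R w a * g a := by
  refine Finset.sum_subset ?_ ?_
  · intro a ha
    obtain ⟨r, hr, rfl⟩ := Finset.mem_image.1 ha
    exact Finset.mem_range.2 (hF r hr)
  · intro a _ ha
    have : (R.filter fun r => w r = a) = ∅ := by
      rw [Finset.filter_eq_empty_iff]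
      intro r hr h
      exact ha (Finset.mem_image.2 ⟨r, hr, h⟩)
    unfold dist
    rw [this]
    simp

/-- the entropy of the valuation -/
theorem Hp_dist (R : Finset ℤ) (hR : R.Nonempty) (w : ℤ → ℕ) (F : ℕ) (hF : ∀ r ∈ R, w r < F) :
    Hp F (dist R w) = log R.card -
      ∑ a ∈ R.image w, dist R w a * log ((R.filter fun r => w r = a).card : ℝ) := by
  have hc : (0 : ℝ) < R.card := by exact_mod_cast hR.card_pos
  rw [sum_image_dist R w F hF]
  have h1 := (pm_dist R hR w F hF).sum
  have h2 : log (R.card : ℝ) = ∑ a ∈ Finset.range F, dist R w a * log (R.card : ℝ) := by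
    rw [← Finset.sum_mul, h1, one_mul]
  rw [h2, ← Finset.sum_sub_distrib]
  unfold Hp
  refine Finset.sum_congr rfl fun a _ => ?_
  unfold dist Real.negMulLog
  rcases Nat.eq_zero_or_pos (R.filter fun r => w r = a).card with h0 | h0
  · rw [h0]; simp
  · have h0' : (0 : ℝ) < (R.filter fun r => w r = a).card := by exact_mod_cast h0
    rw [Real.log_div h0'.ne' hc.ne']
    ring

/-- one prime, one coordinate -/
theorem one_coord (e : ℝ) (he : 0 < e) (he1 : e ≤ 1) (q : ℕ) (hq : q.Prime)
    (R : Finset ℤ) (hR : R.Nonempty) (h0 : ∀ r ∈ R, r ≠ 0) (F : ℕ) (hF : ∀ r ∈ R, va q r < F) :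
    Gp F (dist R (va q)) +
      ∑ a ∈ R.image (va q), dist R (va q) a *
        (Sf e (R.filter fun r => va q r = a) (fun r => r) /
          ((R.filter fun r => va q r = a).card : ℝ)) ≤
      Sf e R (fun r => r) / R.card + bq e q := by
  have hc : (0 : ℝ) < R.card := by exact_mod_cast hR.card_pos
  have hb := block e he he1 q hq (bq e q) (bq_spec e q) R (fun r => r) h0 F
  have hE : (R.filter fun r => F ≤ va q r) = ∅ := by
    rw [Finset.filter_eq_empty_iff]
    intro r hr h
    exact absurd (hF r hr) (not_lt.2 h)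
  rw [hE] at hb
  have hS0 := Sf_nonneg e he (∅ : Finset ℤ) (fun r => r)
  simp only [Finset.card_empty, Nat.cast_zero, mul_zero, add_zero] at hb
  have h1 : Gp F (dist R (va q)) = (∑ f ∈ Finset.range F,
      ((R.filter fun r => f ≤ va q r).card : ℝ) *
        gf (((R.filter fun r => f + 1 ≤ va q r).card : ℝ) /
          (R.filter fun r => f ≤ va q r).card)) / R.card := by
    unfold Gp
    rw [Finset.sum_div]
    refine Finset.sum_congr rfl fun f _ => ?_
    rw [tl_dist R _ F hF, tl_dist R _ F hF, div_div_div_cancel_right₀ hc.ne']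
    ring
  have h2 : ∑ a ∈ R.image (va q), dist R (va q) a *
        (Sf e (R.filter fun r => va q r = a) (fun r => r) /
          ((R.filter fun r => va q r = a).card : ℝ)) ≤
      (∑ f ∈ Finset.range F, Sf e (R.filter fun r => va q r = f) (fun r => r)) / R.card := by
    rw [Finset.sum_div]
    have h3 : ∀ a ∈ R.image (va q), dist R (va q) a *
        (Sf e (R.filter fun r => va q r = a) (fun r => r) /
          ((R.filter fun r => va q r = a).card : ℝ)) =
        Sf e (R.filter fun r => va q r = a) (fun r => r) / R.card := by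
      intro a ha
      obtain ⟨r, hr, hra⟩ := Finset.mem_image.1 ha
      have h4 : (0 : ℝ) < (R.filter fun r => va q r = a).card := by
        exact_mod_cast Finset.card_pos.2 ⟨r, Finset.mem_filter.2 ⟨hr, hra⟩⟩
      unfold dist
      field_simp
    rw [Finset.sum_congr rfl h3]
    refine Finset.sum_le_sum_of_subset_of_nonneg ?_ ?_
    · intro a ha
      obtain ⟨r, hr, rfl⟩ := Finset.mem_image.1 ha
      exact Finset.mem_range.2 (hF r hr)
    · intro a _ _
      exact div_nonneg (Sf_nonneg e he _ _) hc.le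
  have h5 : ((∑ f ∈ Finset.range F,
      ((R.filter fun r => f ≤ va q r).card : ℝ) *
        gf (((R.filter fun r => f + 1 ≤ va q r).card : ℝ) /
          (R.filter fun r => f ≤ va q r).card)) +
      ∑ f ∈ Finset.range F, Sf e (R.filter fun r => va q r = f) (fun r => r)) / R.card ≤
      (Sf e R (fun r => r) + bq e q * R.card) / R.card := by
    refine div_le_div_of_nonneg_right ?_ hc.le
    linarith
  rw [add_div, add_div, mul_div_assoc, div_self hc.ne', mul_one] at h5
  rw [h1]
  linarith

/-- all coordinates: the uncovered entropies -/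
theorem uncovered (hT : S_TEST) (hS : S_SUM) (m F : ℕ) (hm : 1 ≤ m) (p : Fin m → ℕ → ℝ)
    (hp : ∀ i, Pm F (p i)) :
    ∑ i, (Hp F (p i) - Gp F (p i)) ≤ 60 * m / log (m + 1) * HS F p := by
  have hF : 0 < F := by
    rcases Nat.eq_zero_or_pos F with h | h
    · have h1 := (hp ⟨0, hm⟩).sum
      rw [h] at h1
      simp at h1
    · exact h
  have hex : ∀ i, ∃ a₀ < F, ∀ a < F, p i a ≤ p i a₀ := by
    intro i
    obtain ⟨a₀, h1, h2⟩ := Finset.exists_max_image (Finset.range F) (p i)
      ⟨0, Finset.mem_range.2 hF⟩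
    exact ⟨a₀, Finset.mem_range.1 h1, fun a ha => h2 a (Finset.mem_range.2 ha)⟩
  choose a₀ ha₀ hmax using hex
  have h1 : ∑ i, (Hp F (p i) - Gp F (p i)) ≤ ∑ i, 2 * U (1 - p i (a₀ i)) :=
    Finset.sum_le_sum fun i _ => hT F (p i) (hp i) (a₀ i) (ha₀ i) (hmax i)
  have h2 := hS m F p hm hp a₀ ha₀ hmax
  have hm1 : (1 : ℝ) ≤ m := by exact_mod_cast hm
  have hl : 0 < log ((m : ℝ) + 1) := Real.log_pos (by linarith)
  rw [← Finset.mul_sum] at h1
  refine h1.trans ?_
  rw [div_mul_eq_mul_div, le_div_iff₀ hl]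
  nlinarith

theorem va_prod' (m : ℕ) (q : ℕ) (r : Fin m → ℤ) (hr : ∀ i, r i ≠ 0) :
    va q (∏ i, r i) = ∑ i, va q (r i) :=
  (Pool.Agent.H87.LL.va_prod m q r hr).symm

theorem Hx_nonneg {m : ℕ} (R : Fin m → Finset ℤ) : 0 ≤ Hx R := by
  unfold Hx
  refine div_nonneg (Finset.sum_nonneg fun r hr => ?_) (Nat.cast_nonneg _)
  have h1 : 0 < ((Fintype.piFinset R).filter fun r' => ∏ i, r' i = ∏ i, r i).card :=
    Finset.card_pos.2 ⟨r, Finset.mem_filter.2 ⟨hr, rfl⟩⟩
  have h2 : ((Fintype.piFinset R).filter fun r' => ∏ i, r' i = ∏ i, r i).card ≤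
      (Fintype.piFinset R).card := Finset.card_filter_le _ _
  refine Real.log_nonneg ?_
  rw [le_div_iff₀ (by exact_mod_cast h1), one_mul]
  exact_mod_cast h2

/-- The induction. -/
theorem ind (hT : S_TEST) (hS : S_SUM) (hC : S_CHAIN) (e : ℝ) (he : 0 < e) (he1 : e ≤ 1)
    (m : ℕ) (hm : 1 ≤ m) (l : List ℕ) :
    (∀ q ∈ l, q.Prime) → ∀ R : Fin m → Finset ℤ, (∀ i, (R i).Nonempty) →
      (∀ i, ∀ r ∈ R i, r ≠ 0) →
      (∀ i, ∀ r ∈ R i, ∀ r' ∈ R i, (∀ q ∈ l, va q r = va q r') → r.natAbs = r'.natAbs) →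
      ∑ i, log ((R i).card : ℝ) ≤
        ∑ i, Sf e (R i) (fun r => r) / (R i).card + 60 * m / log (m + 1) * Hx R +
          m * (log 2 + (l.map (bq e)).sum) := by
  have hm1 : (1 : ℝ) ≤ m := by exact_mod_cast hm
  have hl : 0 < log ((m : ℝ) + 1) := Real.log_pos (by linarith)
  have hα : 0 ≤ 60 * m / log ((m : ℝ) + 1) := by positivity
  induction l with
  | nil =>
    intro _ R hR h0 hdet
    have h1 : ∀ i, log ((R i).card : ℝ) ≤ log 2 := by
      intro i
      obtain ⟨r₀, hr₀⟩ := hR i
      have h2 : R i ⊆ {r₀, -r₀} := by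
        intro r hr
        have h3 := hdet i r hr r₀ hr₀ (by simp)
        rcases Int.natAbs_eq_natAbs_iff.1 h3 with h4 | h4
        · simp [h4]
        · simp [h4]
      have h3 : (R i).card ≤ 2 := (Finset.card_le_card h2).trans Finset.card_le_two
      exact Real.log_le_log (by exact_mod_cast (hR i).card_pos) (by exact_mod_cast h3)
    have h2 := Finset.sum_le_sum fun i (_ : i ∈ Finset.univ) => h1 i
    rw [Finset.sum_const, Finset.card_univ, Fintype.card_fin, nsmul_eq_mul] at h2
    have h3 : 0 ≤ ∑ i, Sf e (R i) (fun r => r) / ((R i).card : ℝ) :=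
      Finset.sum_nonneg fun i _ => div_nonneg (Sf_nonneg e he _ _) (Nat.cast_nonneg _)
    have h4 := mul_nonneg hα (Hx_nonneg R)
    simp only [List.map_nil, List.sum_nil, add_zero]
    linarith
  | cons q l ih =>
    intro hlp R hR h0 hdet
    have hq : q.Prime := hlp q (List.mem_cons_self ..)
    obtain ⟨F, hF⟩ : ∃ F : ℕ, ∀ i, ∀ r ∈ R i, va q r < F := by
      refine ⟨(Finset.univ.sup fun i => (R i).sup (va q)) + 1, ?_⟩
      intro i r hr
      have h1 : va q r ≤ (R i).sup (va q) := Finset.le_sup hr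
      have h2 : (R i).sup (va q) ≤ Finset.univ.sup fun i => (R i).sup (va q) :=
        Finset.le_sup (f := fun i => (R i).sup (va q)) (Finset.mem_univ i)
      omega
    obtain ⟨p, hpdef⟩ : ∃ p : Fin m → ℕ → ℝ, p = fun i => dist (R i) (va q) := ⟨_, rfl⟩
    have hp : ∀ i, Pm F (p i) := by
      intro i
      rw [hpdef]
      exact pm_dist (R i) (hR i) _ F (hF i)
    obtain ⟨S, hSdef⟩ : ∃ S : Fin m → Finset ℕ, S = fun i => (R i).image (va q) := ⟨_, rfl⟩
    have hpS : ∀ j, ∑ a ∈ S j, p j a = 1 := by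
      intro j
      have h1 := sum_image_dist (R j) (va q) F (hF j) (fun _ => 1)
      simp only [mul_one] at h1
      rw [hSdef, hpdef]
      simp only
      rw [h1]
      exact (pm_dist (R j) (hR j) _ F (hF j)).sum
    have hPtot : ∑ v ∈ Fintype.piFinset S, ∏ j, p j (v j) = 1 := by
      rw [← Finset.prod_univ_sum S p]
      exact Finset.prod_eq_one fun j _ => hpS j
    have hPnn : ∀ v : Fin m → ℕ, 0 ≤ ∏ j, p j (v j) :=
      fun v => Finset.prod_nonneg fun j _ => (hp j).nn _
    -- the induction hypothesis for all fibres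
    have hih : ∀ v ∈ Fintype.piFinset S,
        (∏ j, p j (v j)) * (∑ i, log (((R i).filter fun r => va q r = v i).card : ℝ)) ≤
        (∏ j, p j (v j)) * (∑ i, Sf e ((R i).filter fun r => va q r = v i) (fun r => r) /
          (((R i).filter fun r => va q r = v i).card : ℝ) +
          60 * m / log (m + 1) * Hx (fun i => (R i).filter fun r => va q r = v i) +
          m * (log 2 + (l.map (bq e)).sum)) := by
      intro v hv
      refine mul_le_mul_of_nonneg_left ?_ (hPnn v)
      refine ih (fun q' hq' => hlp q' (List.mem_cons_of_mem _ hq')) _ ?_ ?_ ?_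
      · intro i
        have h1 := Fintype.mem_piFinset.1 hv i
        rw [hSdef] at h1
        obtain ⟨r, hr, hrv⟩ := Finset.mem_image.1 h1
        exact ⟨r, Finset.mem_filter.2 ⟨hr, hrv⟩⟩
      · intro i r hr
        exact h0 i r (Finset.mem_filter.1 hr).1
      · intro i r hr r' hr' h
        obtain ⟨h1, h2⟩ := Finset.mem_filter.1 hr
        obtain ⟨h3, h4⟩ := Finset.mem_filter.1 hr'
        refine hdet i r h1 r' h3 ?_
        intro q' hq'
        rcases List.mem_cons.1 hq' with h5 | h5
        · rw [h5, h2, h4]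
        · exact h q' h5
    have hsum := Finset.sum_le_sum hih
    -- the left side
    have hL : ∑ v ∈ Fintype.piFinset S, (∏ j, p j (v j)) *
        (∑ i, log (((R i).filter fun r => va q r = v i).card : ℝ)) =
        ∑ i, (log ((R i).card : ℝ) - Hp F (p i)) := by
      simp_rw [Finset.mul_sum]
      rw [Finset.sum_comm]
      refine Finset.sum_congr rfl fun i _ => ?_
      rw [marg S p hpS i (fun a => log (((R i).filter fun r => va q r = a).card : ℝ))]
      have h1 := Hp_dist (R i) (hR i) (va q) F (hF i)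
      rw [hpdef, hSdef]
      simp only
      rw [h1]
      ring
    have hM : ∑ v ∈ Fintype.piFinset S, (∏ j, p j (v j)) *
        (∑ i, Sf e ((R i).filter fun r => va q r = v i) (fun r => r) /
          (((R i).filter fun r => va q r = v i).card : ℝ)) ≤
        ∑ i, (Sf e (R i) (fun r => r) / ((R i).card : ℝ) + bq e q - Gp F (p i)) := by
      simp_rw [Finset.mul_sum]
      rw [Finset.sum_comm]
      refine Finset.sum_le_sum fun i _ => ?_
      rw [marg S p hpS i (fun a => Sf e ((R i).filter fun r => va q r = a) (fun r => r) /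
          (((R i).filter fun r => va q r = a).card : ℝ))]
      have h1 := one_coord e he he1 q hq (R i) (hR i) (h0 i) F (hF i)
      rw [hpdef, hSdef]
      simp only
      linarith
    have hchain := hC m F R (va q) hR hF (by
      intro r hr
      exact va_prod' m q r (fun i => h0 i (r i) (Fintype.mem_piFinset.1 hr i)))
    have hchain' : HS F p + ∑ v ∈ Fintype.piFinset S, (∏ j, p j (v j)) *
        Hx (fun i => (R i).filter fun r => va q r = v i) ≤ Hx R := by
      rw [hpdef, hSdef]
      exact hchain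
    have hunc := uncovered hT hS m F hm p hp
    have hR2 : ∑ v ∈ Fintype.piFinset S, (∏ j, p j (v j)) *
        (∑ i, Sf e ((R i).filter fun r => va q r = v i) (fun r => r) /
          (((R i).filter fun r => va q r = v i).card : ℝ) +
          60 * m / log (m + 1) * Hx (fun i => (R i).filter fun r => va q r = v i) +
          m * (log 2 + (l.map (bq e)).sum)) =
        ∑ v ∈ Fintype.piFinset S, (∏ j, p j (v j)) *
        (∑ i, Sf e ((R i).filter fun r => va q r = v i) (fun r => r) /
          (((R i).filter fun r => va q r = v i).card : ℝ)) +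
        60 * m / log (m + 1) * (∑ v ∈ Fintype.piFinset S, (∏ j, p j (v j)) *
          Hx (fun i => (R i).filter fun r => va q r = v i)) +
        m * (log 2 + (l.map (bq e)).sum) := by
      have h1 : (m : ℝ) * (log 2 + (l.map (bq e)).sum) =
          ∑ v ∈ Fintype.piFinset S, (∏ j, p j (v j)) *
            (m * (log 2 + (l.map (bq e)).sum)) := by
        rw [← Finset.sum_mul, hPtot, one_mul]
      conv_rhs => rw [h1]
      rw [Finset.mul_sum, ← Finset.sum_add_distrib, ← Finset.sum_add_distrib]
      refine Finset.sum_congr rfl fun v _ => ?_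
      ring
    rw [hR2, hL] at hsum
    rw [Finset.sum_sub_distrib] at hsum
    rw [Finset.sum_sub_distrib, Finset.sum_add_distrib, Finset.sum_const, Finset.card_univ,
      Fintype.card_fin, nsmul_eq_mul] at hM
    rw [Finset.sum_sub_distrib] at hunc
    have hch2 := mul_le_mul_of_nonneg_left hchain' hα
    simp only [List.map_cons, List.sum_cons]
    rw [mul_add] at hch2
    nlinarith

end Pool.Agent.H64.ES
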