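import Mathlib
import Pool.Agent.H64.ES.Ind
import Pool.Agent.H87.LL.Energy

/-!
# Products of many sets with few sums
-/

set_option autoImplicit false
set_option linter.unusedSectionVars false

namespace Pool.Agent.H64.ES

open Finset Real
open Pool.Agent.H87.LL (gf Sf bq block bq_spec bq_nonneg Sf_nonneg D2 mem_prod_iff psi E1_le
  Sf_le sum_bq natAbs_eq_of_va)
open Pool.Agent.H87.FS (va)
open scoped Pointwise

/-- The entropy of a product is at most the logarithm of the size of the product set. -/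
theorem Hx_le {m : ℕ} (R : Fin m → Finset ℤ) (hR : ∀ i, (R i).Nonempty) :
    Hx R ≤ log ((((Fintype.piFinset R).image fun r => ∏ i, r i)).card : ℝ) := by
  classical
  set Ω := Fintype.piFinset R with hΩ
  have hΩne : Ω.Nonempty := Fintype.piFinset_nonempty.2 hR
  have hN : (0 : ℝ) < Ω.card := by exact_mod_cast hΩne.card_pos
  set X : (Fin m → ℤ) → ℤ := fun r => ∏ i, r i with hX
  have hD : (0 : ℝ) < (Ω.image X).card := by
    have h1 : (Ω.image X).Nonempty := hΩne.image X
    exact_mod_cast h1.card_pos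
  set D : ℝ := ((Ω.image X).card : ℝ) with hDdef
  set c : (Fin m → ℤ) → ℝ := fun r => ((Ω.filter fun r' => X r' = X r).card : ℝ) with hc
  have hcpos : ∀ r ∈ Ω, 0 < c r := by
    intro r hr
    have : 0 < (Ω.filter fun r' => X r' = X r).card :=
      Finset.card_pos.2 ⟨r, Finset.mem_filter.2 ⟨hr, rfl⟩⟩
    rw [hc]
    exact Nat.cast_pos.2 this
  have hsum : ∑ r ∈ Ω, 1 / c r ≤ D := by
    have h1 : ∑ r ∈ Ω, 1 / c r = ∑ x ∈ Ω.image X, (1 : ℝ) := by
      rw [← Finset.sum_fiberwise_of_maps_to (s := Ω) (t := Ω.image X) (g := X)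
        (fun r hr => Finset.mem_image_of_mem X hr)]
      refine Finset.sum_congr rfl fun x hx => ?_
      obtain ⟨r₀, hr₀, hx0⟩ := Finset.mem_image.1 hx
      have h2 : ∀ r ∈ Ω.filter (fun r => X r = x), 1 / c r =
          1 / ((Ω.filter fun r => X r = x).card : ℝ) := by
        intro r hr
        rw [hc]
        simp only
        rw [(Finset.mem_filter.1 hr).2]
      rw [Finset.sum_congr rfl h2, Finset.sum_const, nsmul_eq_mul]
      have h3 : (0 : ℝ) < (Ω.filter fun r => X r = x).card := by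
        exact_mod_cast Finset.card_pos.2 ⟨r₀, Finset.mem_filter.2 ⟨hr₀, hx0⟩⟩
      field_simp
    rw [h1, Finset.sum_const, nsmul_eq_mul, mul_one, hDdef]
  have hterm : ∀ r ∈ Ω, log ((Ω.card : ℝ) / c r) ≤ Ω.card / D * (1 / c r) - 1 + log D := by
    intro r hr
    have h1 := hcpos r hr
    have h2 : (0 : ℝ) < Ω.card / c r := by positivity
    have h3 := Real.log_le_sub_one_of_pos (show 0 < (Ω.card : ℝ) / c r / D by positivity)
    rw [Real.log_div h2.ne' hD.ne'] at h3
    have h4 : (Ω.card : ℝ) / c r / D = Ω.card / D * (1 / c r) := by field_simp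
    rw [h4] at h3
    linarith
  have h1 := Finset.sum_le_sum hterm
  rw [Finset.sum_add_distrib, Finset.sum_sub_distrib, ← Finset.mul_sum, Finset.sum_const,
    Finset.sum_const, nsmul_eq_mul, nsmul_eq_mul, mul_one] at h1
  have h2 : (Ω.card : ℝ) / D * ∑ r ∈ Ω, 1 / c r ≤ Ω.card := by
    calc (Ω.card : ℝ) / D * ∑ r ∈ Ω, 1 / c r ≤ Ω.card / D * D :=
          mul_le_mul_of_nonneg_left hsum (by positivity)
      _ = Ω.card := by field_simp
  unfold Hx
  rw [div_le_iff₀ hN]
  calc _ ≤ _ := h1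
    _ ≤ log D * Ω.card := by linarith

/-- the constant -/
noncomputable def Ce (e : ℝ) : ℝ :=
  log 2 + (2 * Real.exp (10 ^ 8 * (2 / e + 1)) + 1) * log (200 / e)

theorem va_zero_of_not_mem (q : ℕ) (M : ℤ) (a : ℤ) (ha : a ∣ M) (hM : M ≠ 0)
    (hq : q ∉ M.natAbs.primeFactors) : va q a = 0 := by
  by_contra hcon
  unfold va at hcon
  have h1 : q ∈ a.natAbs.primeFactors := by
    rw [← Nat.support_factorization]
    exact Finsupp.mem_support_iff.2 hcon
  exact hq (Nat.primeFactors_mono (Int.natAbs_dvd_natAbs.2 ha) (Int.natAbs_ne_zero.2 hM) h1)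

/-- **Products of many sets with few sums**, logarithmic form. -/
theorem prod_log (hT : S_TEST) (hS : S_SUM) (hC : S_CHAIN) (e : ℝ) (he : 0 < e) (he1 : e ≤ 1)
    (m : ℕ) (hm : 1 ≤ m) (A P Q : Fin m → Finset ℤ) (hA : ∀ i, (A i).Nonempty)
    (h0 : ∀ i, (0 : ℤ) ∉ A i) (hP : ∀ i, (P i).Nonempty) (hQ : ∀ i, (Q i).Nonempty) :
    ∑ i, (log ((A i).card : ℝ) - (16 * (log ((A i + P i).card : ℝ) - log ((P i).card : ℝ)) +
      (2000 * D2 (P i) (Q i) + e * log ((P i).card : ℝ))) - Ce e) ≤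
      60 * m / log (m + 1) *
        log ((((Fintype.piFinset A).image fun r => ∏ i, r i)).card : ℝ) := by
  classical
  have hm1 : (1 : ℝ) ≤ m := by exact_mod_cast hm
  have hl : 0 < log ((m : ℝ) + 1) := Real.log_pos (by linarith)
  obtain ⟨M, hM⟩ : ∃ M : ℤ, M = ∏ i, ∏ a ∈ A i, a := ⟨_, rfl⟩
  have hM0 : M ≠ 0 := by
    rw [hM, Finset.prod_ne_zero_iff]
    intro i _
    rw [Finset.prod_ne_zero_iff]
    intro a ha h
    exact h0 i (h ▸ ha)
  have hdvd : ∀ i, ∀ a ∈ A i, a ∣ M := by
    intro i a ha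
    rw [hM]
    exact (Finset.dvd_prod_of_mem (fun a => a) ha).trans
      (Finset.dvd_prod_of_mem (fun i => ∏ a ∈ A i, a) (Finset.mem_univ i))
  have hind := ind hT hS hC e he he1 m hm M.natAbs.primeFactors.toList
    (fun q hq => Nat.prime_of_mem_primeFactors (Finset.mem_toList.1 hq)) A hA
    (fun i r hr h => h0 i (h ▸ hr))
    (fun i r hr r' hr' h => natAbs_eq_of_va r r' M hM0 (hdvd i r hr) (hdvd i r' hr')
      (fun q hq => h q (Finset.mem_toList.2 hq)))
  rw [Finset.sum_map_toList] at hind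
  have hsum := sum_bq e he he1 M.natAbs.primeFactors
  have hS : ∀ i, Sf e (A i) (fun r => r) / ((A i).card : ℝ) ≤
      16 * (log ((A i + P i).card : ℝ) - log ((P i).card : ℝ)) +
        (2000 * D2 (P i) (Q i) + e * log ((P i).card : ℝ)) := by
    intro i
    have hc : (0 : ℝ) < (A i).card := by exact_mod_cast (hA i).card_pos
    have h1 := Sf_le e he (A i) (fun r => r) (P i) (Q i) (hP i) (hQ i)
    have h2 := E1_le (A i) (fun r => r) (P i) (A i + P i) (hP i)
      (fun r hr p hp => Finset.add_mem_add hr hp)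
    unfold psi at h1
    rw [div_le_iff₀ hc]
    nlinarith
  have hS2 := Finset.sum_le_sum fun i (_ : i ∈ Finset.univ) => hS i
  have hx := Hx_le A hA
  have hα : 0 ≤ 60 * m / log ((m : ℝ) + 1) := by positivity
  have hx2 := mul_le_mul_of_nonneg_left hx hα
  have hC2 : (m : ℝ) * (log 2 + ∑ q ∈ M.natAbs.primeFactors, bq e q) ≤ m * Ce e := by
    unfold Ce
    refine mul_le_mul_of_nonneg_left ?_ (by linarith)
    linarith
  rw [Finset.sum_sub_distrib, Finset.sum_sub_distrib, Finset.sum_const, Finset.card_univ,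
    Fintype.card_fin, nsmul_eq_mul]
  linarith

end Pool.Agent.H64.ES
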