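import Mathlib
import Pool.Agent.H64.ES.Ind2
import Pool.Agent.H64.ES.Prod
import Pool.Agent.H64.ES.Pieces

/-!
# Multiplicative energies of sets with few sums
-/

set_option autoImplicit false
set_option linter.unusedSectionVars false

namespace Pool.Agent.H64.ES

open Finset Real
open Pool.Agent.H87.LL (gf Sf bq block bq_spec bq_nonneg Sf_nonneg part2 D2 Sf_le psi E1_le
  sum_bq natAbs_eq_of_va Piece)
open Pool.Agent.H87.FS (va)
open Pool.Agent.H64.ES.H120 (fpos)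
open Pool.Agent.Y359.LE (En En_le)
open scoped Pointwise

/-- The four numbers-free statements used below. -/
structure Parts : Prop where
  t : S_TEST
  a : S_TC1
  b : S_TC2
  c : S_NUM

variable {ι : Type}

/-- The inequality for dependent elements. -/
theorem dep_log (hp : Parts) (e : ℝ) (he : 0 < e) (he1 : e ≤ 1) (m : ℕ) (hm : 1 ≤ m)
    (R : Finset ι) (hR : R.Nonempty) (φ : ι → Fin m → ℤ) (h0 : ∀ r ∈ R, ∀ i, φ r i ≠ 0)
    (P Q S : Fin m → Finset ℤ) (hP : ∀ i, (P i).Nonempty) (hQ : ∀ i, (Q i).Nonempty)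
    (hS : ∀ r ∈ R, ∀ i, ∀ p ∈ P i, φ r i + p ∈ S i) :
    ∑ i, HR R (fun r => φ r i) ≤
      ∑ i, (16 * (log ((S i).card : ℝ) - log ((P i).card : ℝ)) +
        (2000 * D2 (P i) (Q i) + e * log ((P i).card : ℝ))) +
      60 * m / log (m + 1) * (HR R (fun r => ∏ i, φ r i) + ∑ i, HR R (fun r => φ r i) -
          HR R φ) + m * Ce e := by
  classical
  have hm1 : (1 : ℝ) ≤ m := by exact_mod_cast hm
  have hc : (0 : ℝ) < R.card := by exact_mod_cast hR.card_pos
  obtain ⟨M, hM⟩ : ∃ M : ℤ, M = ∏ r ∈ R, ∏ i, φ r i := ⟨_, rfl⟩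
  have hM0 : M ≠ 0 := by
    rw [hM, Finset.prod_ne_zero_iff]
    intro r hr
    rw [Finset.prod_ne_zero_iff]
    intro i _
    exact h0 r hr i
  have hdvd : ∀ r ∈ R, ∀ i, φ r i ∣ M := by
    intro r hr i
    rw [hM]
    exact (Finset.dvd_prod_of_mem (fun i => φ r i) (Finset.mem_univ i)).trans
      (Finset.dvd_prod_of_mem (fun r => ∏ i, φ r i) hr)
  have hind := ind2 hp.t hp.a hp.b hp.c e he he1 m hm M.natAbs.primeFactors.toList
    (fun q hq => Nat.prime_of_mem_primeFactors (Finset.mem_toList.1 hq)) R φ hR h0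
    (fun r hr r' hr' i h => natAbs_eq_of_va (φ r i) (φ r' i) M hM0 (hdvd r hr i) (hdvd r' hr' i)
      (fun q hq => h q (Finset.mem_toList.2 hq)))
  rw [Finset.sum_map_toList] at hind
  have hsum := sum_bq e he he1 M.natAbs.primeFactors
  have hS1 : ∀ i, Sf e R (fun r => φ r i) / (R.card : ℝ) ≤
      16 * (log ((S i).card : ℝ) - log ((P i).card : ℝ)) +
        (2000 * D2 (P i) (Q i) + e * log ((P i).card : ℝ)) := by
    intro i
    have h1 := Sf_le e he R (fun r => φ r i) (P i) (Q i) (hP i) (hQ i)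
    have h2 := E1_le R (fun r => φ r i) (P i) (S i) (hP i)
      (fun r hr p hp => hS r hr i p hp)
    unfold psi at h1
    rw [div_le_iff₀ hc]
    nlinarith
  have hS2 := Finset.sum_le_sum fun i (_ : i ∈ Finset.univ) => hS1 i
  have hC2 : (m : ℝ) * (log 2 + ∑ q ∈ M.natAbs.primeFactors, bq e q) ≤ m * Ce e := by
    unfold Ce
    refine mul_le_mul_of_nonneg_left ?_ (by linarith)
    linarith
  linarith

/-- pairs of tuples with the same product -/
def EM {m : ℕ} (A : Fin m → Finset ℤ) : Finset ((Fin m → ℤ) × (Fin m → ℤ)) :=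
  (Fintype.piFinset A ×ˢ Fintype.piFinset A).filter fun p => ∏ i, p.1 i = ∏ i, p.2 i

theorem EM_nonempty {m : ℕ} (A : Fin m → Finset ℤ) (hA : ∀ i, (A i).Nonempty) :
    (EM A).Nonempty := by
  obtain ⟨x, hx⟩ := Fintype.piFinset_nonempty.2 hA
  exact ⟨(x, x), Finset.mem_filter.2 ⟨Finset.mem_product.2 ⟨hx, hx⟩, rfl⟩⟩

/-- the facts about the entropies on `EM A` -/
theorem EM_facts {m : ℕ} (A : Fin m → Finset ℤ) (hA : ∀ i, (A i).Nonempty) (L : ℝ)
    (hL : L = ∑ i, log ((A i).card : ℝ)) :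
    L - (2 * L - log ((EM A).card : ℝ)) ≤ HR (EM A) (fun r => r.1) ∧
    HR (EM A) (fun r => ∏ i, r.1 i) ≤ 2 * L - log ((EM A).card : ℝ) ∧
    ∑ i, HR (EM A) (fun r => r.1 i) ≤ L := by
  have hE := EM_nonempty A hA
  have hmem : ∀ r ∈ EM A, (r.1 ∈ Fintype.piFinset A ∧ r.2 ∈ Fintype.piFinset A) ∧
      ∏ i, r.1 i = ∏ i, r.2 i := by
    intro r hr
    obtain ⟨h1, h2⟩ := Finset.mem_filter.1 hr
    exact ⟨Finset.mem_product.1 h1, h2⟩
  have hLc : log ((Fintype.piFinset A).card : ℝ) = L := by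
    rw [Fintype.card_piFinset, hL]
    push_cast
    rw [Real.log_prod]
    intro i _
    have := (hA i).card_pos
    positivity
  have h1 : HR (EM A) (fun r => r.1) ≤ L := by
    rw [← hLc]
    exact HR_le_log (EM A) hE (fun r => r.1) _ fun r hr => (hmem r hr).1.1
  have h2 : HR (EM A) (fun r => r.2) ≤ L := by
    rw [← hLc]
    exact HR_le_log (EM A) hE (fun r => r.2) _ fun r hr => (hmem r hr).1.2
  have h3 := log_card_le (EM A) hE (fun r => r.1) (fun r => r.2) (fun r => ∏ i, r.1 i)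
    (fun r _ r' _ ha hb => Prod.ext ha hb)
    (fun r _ r' _ h => by rw [h])
    (fun r hr r' hr' h => by rw [(hmem r hr).2, (hmem r' hr').2, h])
  have h4 := HR_nonneg (EM A) (fun r => ∏ i, r.1 i)
  refine ⟨by linarith, by linarith, ?_⟩
  rw [hL]
  refine Finset.sum_le_sum fun i _ => ?_
  exact HR_le_log (EM A) hE (fun r => r.1 i) _ fun r hr =>
    Fintype.mem_piFinset.1 (hmem r hr).1.1 i

/-- Multiplicative energy of sets with few sums, logarithmic form. -/
theorem energy_log (hp : Parts) (e : ℝ) (he : 0 < e) (he1 : e ≤ 1) (m : ℕ) (hm : 1 ≤ m)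
    (A P Q : Fin m → Finset ℤ) (hA : ∀ i, (A i).Nonempty) (h0 : ∀ i, (0 : ℤ) ∉ A i)
    (hP : ∀ i, (P i).Nonempty) (hQ : ∀ i, (Q i).Nonempty) :
    ∑ i, (log ((A i).card : ℝ) - (16 * (log ((A i + P i).card : ℝ) - log ((P i).card : ℝ)) +
      (2000 * D2 (P i) (Q i) + e * log ((P i).card : ℝ))) - Ce e) ≤
      (2 * (60 * m / log (m + 1)) + 1) *
        (2 * ∑ i, log ((A i).card : ℝ) - log ((EM A).card : ℝ)) := by
  classical
  have hm1 : (1 : ℝ) ≤ m := by exact_mod_cast hm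
  have hl : 0 < log ((m : ℝ) + 1) := Real.log_pos (by linarith)
  obtain ⟨L, hL⟩ : ∃ L, L = ∑ i, log ((A i).card : ℝ) := ⟨_, rfl⟩
  obtain ⟨f1, f2, f3⟩ := EM_facts A hA L hL
  have hE := EM_nonempty A hA
  have hd := dep_log hp e he he1 m hm (EM A) hE (fun r => r.1)
    (fun r hr i h => h0 i (h ▸ Fintype.mem_piFinset.1
      (Finset.mem_product.1 (Finset.mem_filter.1 hr).1).1 i)) P Q (fun i => A i + P i) hP hQ
    (fun r hr i p hp => Finset.add_mem_add (Fintype.mem_piFinset.1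
      (Finset.mem_product.1 (Finset.mem_filter.1 hr).1).1 i) hp)
  have hsub := HR_subadd (EM A) hE (fun r => r.1)
  obtain ⟨α, hα⟩ : ∃ α : ℝ, α = 60 * m / log (m + 1) := ⟨_, rfl⟩
  have hα0 : 0 ≤ α := by rw [hα]; positivity
  rw [← hα] at hd ⊢
  rw [Finset.sum_sub_distrib, Finset.sum_sub_distrib, Finset.sum_const, Finset.card_univ,
    Fintype.card_fin, nsmul_eq_mul, ← hL]
  obtain ⟨h, hh⟩ : ∃ h, h = 2 * L - log ((EM A).card : ℝ) := ⟨_, rfl⟩
  rw [← hh] at f1 f2 ⊢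
  have h5 : α * (HR (EM A) (fun r => ∏ i, r.1 i) + ∑ i, HR (EM A) (fun r => r.1 i) -
      HR (EM A) fun r => r.1) ≤ α * (2 * h) :=
    mul_le_mul_of_nonneg_left (by linarith) hα0
  linarith

/-- The same for a set covered by few sets with few sums. -/
theorem energy_pieces (hp : Parts) (e : ℝ) (he : 0 < e) (he1 : e ≤ 1) (m : ℕ) (hm : 1 ≤ m)
    (S : Finset ℤ) (hSn : S.Nonempty) (h0 : (0 : ℤ) ∉ S) (𝒟 : Finset (Finset ℤ))
    (hcov : S ⊆ 𝒟.biUnion id) (X p N : ℝ) (hN : log (𝒟.card : ℝ) ≤ N)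
    (hpc : ∀ D ∈ 𝒟, ∃ P : Finset ℤ, P.Nonempty ∧ ((D + -P).card : ℝ) ≤ Real.exp X * P.card ∧
      ((-P + P).card : ℝ) ≤ Real.exp X * P.card ∧ log (P.card : ℝ) ≤ p) :
    m * (log (S.card : ℝ) - N - 2016 * X - e * p - Ce e) ≤
      (2 * (60 * m / log (m + 1)) + 1) *
        (2 * (m * log (S.card : ℝ)) - log ((EM (fun _ : Fin m => S)).card : ℝ)) := by
  classical
  have hm1 : (1 : ℝ) ≤ m := by exact_mod_cast hm
  have hl : 0 < log ((m : ℝ) + 1) := Real.log_pos (by linarith)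
  obtain ⟨A, hAd⟩ : ∃ A : Fin m → Finset ℤ, A = fun _ => S := ⟨_, rfl⟩
  have hA : ∀ i, (A i).Nonempty := fun i => by rw [hAd]; exact hSn
  obtain ⟨L, hL⟩ : ∃ L, L = ∑ i, log ((A i).card : ℝ) := ⟨_, rfl⟩
  have hLm : L = m * log (S.card : ℝ) := by
    rw [hL, hAd]
    simp
  obtain ⟨f1, f2, f3⟩ := EM_facts A hA L hL
  have hE := EM_nonempty A hA
  obtain ⟨R, hRd⟩ : ∃ R, R = EM A := ⟨_, rfl⟩
  have hRS : EM (fun _ : Fin m => S) = R := by rw [hRd, hAd]
  rw [hRS]
  rw [← hRd] at f1 f2 f3 hE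
  have hc : (0 : ℝ) < R.card := by exact_mod_cast hE.card_pos
  have hmem : ∀ r ∈ R, ∀ i, r.1 i ∈ S := by
    intro r hr i
    rw [hRd, hAd] at hr
    exact Fintype.mem_piFinset.1 (Finset.mem_product.1 (Finset.mem_filter.1 hr).1).1 i
  -- labels
  have hlab : ∀ a : ℤ, ∃ D : Finset ℤ, a ∈ S → D ∈ 𝒟 ∧ a ∈ D := by
    intro a
    by_cases ha : a ∈ S
    · obtain ⟨D, hD, haD⟩ := Finset.mem_biUnion.1 (hcov ha)
      exact ⟨D, fun _ => ⟨hD, haD⟩⟩
    · exact ⟨∅, fun h => absurd h ha⟩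
  choose τ hτ using hlab
  have hP' : ∀ D : Finset ℤ, ∃ P : Finset ℤ, P.Nonempty ∧ (D ∈ 𝒟 →
      ((D + -P).card : ℝ) ≤ Real.exp X * P.card ∧
      ((-P + P).card : ℝ) ≤ Real.exp X * P.card ∧ log (P.card : ℝ) ≤ p) := by
    intro D
    by_cases hD : D ∈ 𝒟
    · obtain ⟨P, h1, h2, h3, h4⟩ := hpc D hD
      exact ⟨P, h1, fun _ => ⟨h2, h3, h4⟩⟩
    · exact ⟨{0}, Finset.singleton_nonempty 0, fun h => absurd h hD⟩
  choose Pf hPf1 hPf2 using hP'
  obtain ⟨κ, hκ⟩ : ∃ κ : (Fin m → ℤ) × (Fin m → ℤ) → Fin m → Finset ℤ,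
    κ = fun r i => τ (r.1 i) := ⟨_, rfl⟩
  obtain ⟨α, hα⟩ : ∃ α : ℝ, α = 60 * m / log (m + 1) := ⟨_, rfl⟩
  have hα0 : 0 ≤ α := by rw [hα]; positivity
  rw [← hα]
  obtain ⟨w, hw⟩ : ∃ w : (Fin m → Finset ℤ) → ℝ, w = fun v =>
      ((R.filter fun r => κ r = v).card : ℝ) / R.card := ⟨_, rfl⟩
  have hw0 : ∀ v, 0 ≤ w v := by intro v; rw [hw]; positivity
  have hw1 : ∑ v ∈ R.image κ, w v = 1 := by
    rw [hw]
    simp only
    rw [← Finset.sum_div, div_eq_one_iff_eq hc.ne']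
    exact_mod_cast (Finset.card_eq_sum_card_image κ R).symm
  -- on every fibre
  have hfib : ∀ v ∈ R.image κ,
      w v * ∑ i, HR (R.filter fun r => κ r = v) (fun r => r.1 i) ≤
      w v * (m * (2016 * X + e * p + Ce e) +
        α * (HR (R.filter fun r => κ r = v) (fun r => ∏ i, r.1 i) +
          ∑ i, HR (R.filter fun r => κ r = v) (fun r => r.1 i) -
          HR (R.filter fun r => κ r = v) (fun r => r.1))) := by
    intro v hv
    refine mul_le_mul_of_nonneg_left ?_ (hw0 v)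
    obtain ⟨r₀, hr₀, hrv⟩ := Finset.mem_image.1 hv
    have hne : (R.filter fun r => κ r = v).Nonempty := ⟨r₀, Finset.mem_filter.2 ⟨hr₀, hrv⟩⟩
    have hv𝒟 : ∀ i, v i ∈ 𝒟 := by
      intro i
      rw [← hrv, hκ]
      exact (hτ (r₀.1 i) (hmem r₀ hr₀ i)).1
    have hd := dep_log hp e he he1 m hm (R.filter fun r => κ r = v) hne (fun r => r.1)
      (fun r hr i h => h0 (h ▸ hmem r (Finset.mem_filter.1 hr).1 i))
      (fun i => -(Pf (v i))) (fun i => Pf (v i)) (fun i => v i + -(Pf (v i)))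
      (fun i => (hPf1 (v i)).neg) (fun i => hPf1 (v i))
      (fun r hr i p hp => by
        refine Finset.add_mem_add ?_ hp
        obtain ⟨h1, h2⟩ := Finset.mem_filter.1 hr
        rw [← h2, hκ]
        exact (hτ (r.1 i) (hmem r h1 i)).2)
    rw [← hα] at hd
    have hs : ∀ i, (16 * (log ((v i + -(Pf (v i))).card : ℝ) - log ((-(Pf (v i))).card : ℝ)) +
        (2000 * D2 (-(Pf (v i))) (Pf (v i)) + e * log ((-(Pf (v i))).card : ℝ))) ≤
        2016 * X + e * p := by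
      intro i
      obtain ⟨g1, g2, g3⟩ := hPf2 (v i) (hv𝒟 i)
      have cP : (0 : ℝ) < (Pf (v i)).card := by exact_mod_cast (hPf1 (v i)).card_pos
      have hvi : (v i).Nonempty := by
        rw [← hrv, hκ]
        exact ⟨r₀.1 i, (hτ (r₀.1 i) (hmem r₀ hr₀ i)).2⟩
      have cDP : (0 : ℝ) < (v i + -(Pf (v i))).card := by
        exact_mod_cast (hvi.add (hPf1 (v i)).neg).card_pos
      have cPP : (0 : ℝ) < (-(Pf (v i)) + Pf (v i)).card := by
        exact_mod_cast ((hPf1 (v i)).neg.add (hPf1 (v i))).card_pos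
      have e1 : log ((v i + -(Pf (v i))).card : ℝ) - log ((-(Pf (v i))).card : ℝ) ≤ X := by
        rw [Finset.card_neg]
        have := Real.log_le_log cDP g1
        rw [Real.log_mul (Real.exp_pos _).ne' cP.ne', Real.log_exp] at this
        linarith
      have e2 : D2 (-(Pf (v i))) (Pf (v i)) ≤ X := by
        unfold D2
        rw [Finset.card_neg]
        have := Real.log_le_log cPP g2
        rw [Real.log_mul (Real.exp_pos _).ne' cP.ne', Real.log_exp] at this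
        linarith
      have e3 : e * log ((-(Pf (v i))).card : ℝ) ≤ e * p := by
        rw [Finset.card_neg]
        exact mul_le_mul_of_nonneg_left g3 he.le
      linarith
    have hs2 := Finset.sum_le_sum fun i (_ : i ∈ Finset.univ) => hs i
    rw [Finset.sum_const, Finset.card_univ, Fintype.card_fin, nsmul_eq_mul] at hs2
    linarith
  have hsum := Finset.sum_le_sum hfib
  have hL1 : ∑ v ∈ R.image κ, w v * ∑ i, HR (R.filter fun r => κ r = v) (fun r => r.1 i) =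
      ∑ i, Ec R κ (fun r => r.1 i) := by
    simp_rw [Finset.mul_sum]
    rw [Finset.sum_comm]
    refine Finset.sum_congr rfl fun i _ => ?_
    rw [hw]
    rfl
  have hR2 : ∑ v ∈ R.image κ, w v * (m * (2016 * X + e * p + Ce e) +
        α * (HR (R.filter fun r => κ r = v) (fun r => ∏ i, r.1 i) +
          ∑ i, HR (R.filter fun r => κ r = v) (fun r => r.1 i) -
          HR (R.filter fun r => κ r = v) (fun r => r.1))) =
      m * (2016 * X + e * p + Ce e) +
        α * (Ec R κ (fun r => ∏ i, r.1 i) + ∑ i, Ec R κ (fun r => r.1 i) -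
          Ec R κ (fun r => r.1)) := by
    have h4 : (m : ℝ) * (2016 * X + e * p + Ce e) =
        ∑ v ∈ R.image κ, w v * (m * (2016 * X + e * p + Ce e)) := by
      rw [← Finset.sum_mul, hw1, one_mul]
    have h5 : Ec R κ (fun r => ∏ i, r.1 i) = ∑ v ∈ R.image κ, w v *
        HR (R.filter fun r => κ r = v) (fun r => ∏ i, r.1 i) := by rw [hw]; rfl
    have h6 : Ec R κ (fun r => r.1) = ∑ v ∈ R.image κ, w v *
        HR (R.filter fun r => κ r = v) (fun r => r.1) := by rw [hw]; rfl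
    conv_rhs => rw [h4]
    rw [← hL1, h5, h6, ← Finset.sum_add_distrib, ← Finset.sum_sub_distrib, Finset.mul_sum,
      ← Finset.sum_add_distrib]
    refine Finset.sum_congr rfl fun v _ => ?_
    ring
  rw [hL1, hR2] at hsum
  -- facts about the labels
  have g1 : Ec R κ (fun r => ∏ i, r.1 i) ≤ HR R (fun r => ∏ i, r.1 i) := Ec_le R hE _ κ
  have g2 : HR R (fun r => r.1) = HR R κ + Ec R κ (fun r => r.1) :=
    HR_chain R hE (fun r => r.1) κ (fun r _ r' _ h => by rw [hκ]; simp only; rw [h])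
  have g3 : ∀ i, HR R (fun r => κ r i) + Ec R κ (fun r => r.1 i) ≤ HR R (fun r => r.1 i) := by
    intro i
    refine HR_sub R hE _ κ _ ?_ ?_
    · intro r _ r' _ h
      rw [hκ]
      simp only
      rw [h]
    · intro r _ r' _ h
      rw [h]
  have g3s := Finset.sum_le_sum fun i (_ : i ∈ Finset.univ) => g3 i
  rw [Finset.sum_add_distrib] at g3s
  have g4 := HR_subadd R hE κ
  have g5 : Ec R κ (fun r => r.1) ≤ ∑ i, Ec R κ (fun r => r.1 i) := by
    rw [← hL1]
    have h6 : Ec R κ (fun r => r.1) = ∑ v ∈ R.image κ, w v *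
        HR (R.filter fun r => κ r = v) (fun r => r.1) := by rw [hw]; rfl
    rw [h6]
    refine Finset.sum_le_sum fun v hv => mul_le_mul_of_nonneg_left ?_ (hw0 v)
    obtain ⟨r₀, hr₀, hrv⟩ := Finset.mem_image.1 hv
    exact HR_subadd _ ⟨r₀, Finset.mem_filter.2 ⟨hr₀, hrv⟩⟩ (fun r => r.1)
  have g6 : HR R κ ≤ m * N := by
    refine g4.trans ?_
    have h7 : ∀ i, HR R (fun r => κ r i) ≤ N := by
      intro i
      refine (HR_le_log R hE (fun r => κ r i) 𝒟 ?_).trans hN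
      intro r hr
      rw [hκ]
      exact (hτ (r.1 i) (hmem r hr i)).1
    have h8 := Finset.sum_le_sum fun i (_ : i ∈ Finset.univ) => h7 i
    rw [Finset.sum_const, Finset.card_univ, Fintype.card_fin, nsmul_eq_mul] at h8
    exact h8
  rw [← hLm]
  obtain ⟨h, hh⟩ : ∃ h, h = 2 * L - log (R.card : ℝ) := ⟨_, rfl⟩
  rw [← hh] at f1 f2 ⊢
  have h5 : α * (Ec R κ (fun r => ∏ i, r.1 i) + ∑ i, Ec R κ (fun r => r.1 i) -
          Ec R κ (fun r => r.1)) ≤ α * (2 * h) :=
    mul_le_mul_of_nonneg_left (by linarith) hα0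
  have e2 : (m : ℝ) * (log (S.card : ℝ) - N - 2016 * X - e * p - Ce e) =
      L - m * N - m * (2016 * X + e * p + Ce e) := by rw [hLm]; ring
  rw [e2]
  linarith

end Pool.Agent.H64.ES
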