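import Pool.Agent.H64.ES.Spec

/-!
# Anticoncentration of sums of independent integer variables (project ES of helper64)
-/

set_option autoImplicit false

namespace Pool.Agent.H64.ES.H860

open Finset Real
open Pool.Agent.H64.ES

/-! ### binomial coefficients -/

theorem cb (k : ℕ) : Nat.centralBinom k ^ 2 * (2 * k + 1) ≤ 16 ^ k := by
  induction k with
  | zero => simp
  | succ k ih =>
    have h := Nat.succ_mul_centralBinom_succ k
    have h1 : (k + 1) ^ 2 * (Nat.centralBinom (k + 1) ^ 2 * (2 * (k + 1) + 1)) ≤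
        (k + 1) ^ 2 * 16 ^ (k + 1) := by
      calc (k + 1) ^ 2 * (Nat.centralBinom (k + 1) ^ 2 * (2 * (k + 1) + 1))
          = ((k + 1) * Nat.centralBinom (k + 1)) ^ 2 * (2 * k + 3) := by ring
        _ = (2 * (2 * k + 1) * Nat.centralBinom k) ^ 2 * (2 * k + 3) := by rw [h]
        _ = 4 * (2 * k + 1) * (2 * k + 3) * (Nat.centralBinom k ^ 2 * (2 * k + 1)) := by ring
        _ ≤ 4 * (2 * k + 1) * (2 * k + 3) * 16 ^ k := Nat.mul_le_mul_left _ ih
        _ ≤ (16 * (k + 1) ^ 2) * 16 ^ k := Nat.mul_le_mul_right _ (by nlinarith)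
        _ = (k + 1) ^ 2 * 16 ^ (k + 1) := by ring
    exact Nat.le_of_mul_le_mul_left h1 (by positivity)

theorem choose_half (n : ℕ) : (n.choose (n / 2)) ^ 2 * (n + 1) ≤ 4 ^ n := by
  rcases Nat.even_or_odd' n with ⟨k, rfl | rfl⟩
  · have h := cb k
    rw [Nat.mul_div_cancel_left k (by norm_num : 0 < 2), pow_mul]
    rw [Nat.centralBinom] at h
    norm_num
    exact h
  · have h := cb (k + 1)
    have e : (2 * k + 1) / 2 = k := by omega
    rw [e]
    have h2 : Nat.centralBinom (k + 1) = 2 * (2 * k + 1).choose k := by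
      rw [Nat.centralBinom, show 2 * (k + 1) = (2 * k + 1) + 1 by ring, Nat.choose_succ_succ,
        Nat.succ_eq_add_one, Nat.choose_symm_half]
      ring
    rw [h2] at h
    have e2 : 4 ^ (2 * k + 1) * 4 = 16 ^ (k + 1) := by
      rw [pow_succ, pow_mul, pow_succ]
      norm_num
      ring
    rw [← e2] at h
    nlinarith

/-! ### the theorem of Littlewood and Offord -/

theorem lo {α : Type} [Fintype α] [DecidableEq α] (d : α → ℤ) (hd : ∀ i, d i ≠ 0) (c : ℤ) :
    ((univ : Finset (Finset α)).filter (fun T => ∑ i ∈ T, d i = c)).card ≤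
      (Fintype.card α).choose (Fintype.card α / 2) := by
  obtain ⟨Ng, hNg⟩ : ∃ Ng : Finset α, Ng = univ.filter (fun i => d i < 0) := ⟨_, rfl⟩
  have key : ∀ T : Finset α, ∑ i ∈ T, d i = ∑ i ∈ symmDiff T Ng, |d i| + ∑ i ∈ Ng, d i := by
    intro T
    have e1 : ∀ (S : Finset α) (g : α → ℤ), ∑ i ∈ S, g i = ∑ i, if i ∈ S then g i else 0 := by
      intro S g
      rw [Finset.sum_ite_mem, univ_inter]
    rw [e1 T, e1 (symmDiff T Ng), e1 Ng, ← Finset.sum_add_distrib]
    refine Finset.sum_congr rfl fun i _ => ?_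
    have hi : i ∈ Ng ↔ d i < 0 := by rw [hNg]; simp
    by_cases h1 : i ∈ T <;> by_cases h2 : d i < 0 <;>
      simp [Finset.mem_symmDiff, h1, h2, hi, abs_of_neg, abs_of_nonneg, not_lt.1]
  have hinj : Function.Injective (fun T : Finset α => symmDiff T Ng) :=
    symmDiff_left_injective Ng
  rw [← card_image_of_injective _ hinj]
  apply IsAntichain.sperner
  intro A hA B hB hne hsub
  rw [Finset.mem_coe, Finset.mem_image] at hA hB
  obtain ⟨T, hT, rfl⟩ := hA
  obtain ⟨T', hT', rfl⟩ := hB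
  rw [Finset.mem_filter] at hT hT'
  have h1 := key T
  have h2 := key T'
  rw [hT.2] at h1
  rw [hT'.2] at h2
  have h3 : ∑ i ∈ symmDiff T Ng, |d i| < ∑ i ∈ symmDiff T' Ng, |d i| := by
    obtain ⟨i, hi, hi'⟩ := Finset.exists_of_ssubset (Finset.ssubset_iff_subset_ne.2 ⟨hsub, hne⟩)
    exact Finset.sum_lt_sum_of_subset hsub hi hi' (abs_pos.2 (hd i)) fun j _ _ => abs_nonneg _
  omega

theorem lo2 {m : ℕ} (d : Fin m → ℤ) (c : ℤ) :
    (((univ : Finset (Finset (Fin m))).filter (fun T => ∑ i ∈ T, d i = c)).card : ℝ) *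
      √(1 + ((univ.filter (fun i => d i ≠ 0)).card : ℝ)) ≤ 2 ^ m := by
  classical
  obtain ⟨N, hN⟩ : ∃ N, N = (univ.filter (fun i => d i ≠ 0)).card := ⟨_, rfl⟩
  obtain ⟨N0, hN0⟩ : ∃ N, N = (univ.filter (fun i => d i = 0)).card := ⟨_, rfl⟩
  have hNN : N0 + N = m := by
    rw [hN, hN0]
    have := Finset.card_filter_add_card_filter_not (s := (univ : Finset (Fin m)))
      (fun i => d i = 0)
    rw [Finset.card_univ, Fintype.card_fin] at this
    exact this
  have h1 := lo (fun i : {i // d i ≠ 0} => d i) (fun i => i.2) c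
  have hc : Fintype.card {i // d i ≠ 0} = N := by rw [Fintype.card_subtype, hN]
  rw [hc] at h1
  have h2 : ((univ : Finset (Finset (Fin m))).filter (fun T => ∑ i ∈ T, d i = c)).card ≤
      N.choose (N / 2) * 2 ^ N0 := by
    have h3 : ((univ : Finset (Finset (Fin m))).filter (fun T => ∑ i ∈ T, d i = c)).card ≤
        (((univ : Finset (Finset {i // d i ≠ 0})).filter
          (fun T : Finset {i // d i ≠ 0} => ∑ i ∈ T, d (i : Fin m) = c)) ×ˢ
          (univ.filter (fun i => d i = 0)).powerset).card := by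
      refine Finset.card_le_card_of_injOn
        (fun T => (T.subtype (fun i => d i ≠ 0), T.filter (fun i => d i = 0))) ?_ ?_
      · intro T hT
        rw [Finset.mem_coe, Finset.mem_filter] at hT
        rw [Finset.mem_coe, Finset.mem_product, Finset.mem_filter, Finset.mem_powerset]
        refine ⟨⟨mem_univ _, ?_⟩, Finset.filter_subset_filter _ (subset_univ _)⟩
        rw [Finset.sum_subtype_eq_sum_filter, Finset.sum_filter_ne_zero]
        exact hT.2
      · intro T _ T' _ h
        rw [Prod.mk.injEq] at h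
        ext i
        by_cases hi : d i = 0
        · have h3 := congrArg (fun S => i ∈ S) h.2
          simpa [hi] using h3
        · have h3 := congrArg (fun S : Finset {i // d i ≠ 0} => (⟨i, hi⟩ : {i // d i ≠ 0}) ∈ S) h.1
          simpa using h3
    refine h3.trans ?_
    rw [Finset.card_product, Finset.card_powerset, ← hN0]
    exact Nat.mul_le_mul_right _ h1
  rw [← hN]
  have h4 : ((N.choose (N / 2) : ℕ) : ℝ) * √(1 + (N : ℝ)) ≤ 2 ^ N := by
    have h5 := choose_half N
    have h6 : ((N.choose (N / 2) : ℕ) : ℝ) ^ 2 * ((N : ℝ) + 1) ≤ 4 ^ N := by exact_mod_cast h5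
    apply le_of_sq_le_sq _ (by positivity)
    rw [mul_pow, Real.sq_sqrt (by positivity), ← pow_mul, mul_comm N 2, pow_mul]
    norm_num
    linarith
  calc _ ≤ ((N.choose (N / 2) * 2 ^ N0 : ℕ) : ℝ) * √(1 + (N : ℝ)) :=
        mul_le_mul_of_nonneg_right (by exact_mod_cast h2) (Real.sqrt_nonneg _)
    _ = 2 ^ N0 * (((N.choose (N / 2) : ℕ) : ℝ) * √(1 + (N : ℝ))) := by push_cast; ring
    _ ≤ 2 ^ N0 * 2 ^ N := mul_le_mul_of_nonneg_left h4 (by positivity)
    _ = 2 ^ m := by rw [← pow_add, hNN]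

/-! ### the expectation of `1 / (c + N)` -/

theorem be {ι : Type} [DecidableEq ι] (Q : ι → ℝ) (h0 : ∀ i, 0 ≤ Q i) (h1 : ∀ i, Q i ≤ 1)
    (I : Finset ι) : ∀ c : ℝ, 1 ≤ c →
    ∑ S ∈ I.powerset, (∏ i ∈ S, Q i) * (∏ i ∈ I \ S, (1 - Q i)) * (1 / (c + S.card)) ≤
      1 / (c + (∑ i ∈ I, Q i) / 2) := by
  induction I using Finset.induction_on with
  | empty => intro c _; simp
  | insert a I ha ih =>
    intro c hc
    rw [Finset.sum_powerset_insert ha]
    have e1 : ∑ S ∈ I.powerset, (∏ i ∈ S, Q i) * (∏ i ∈ insert a I \ S, (1 - Q i)) *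
        (1 / (c + S.card)) = (1 - Q a) * ∑ S ∈ I.powerset, (∏ i ∈ S, Q i) *
          (∏ i ∈ I \ S, (1 - Q i)) * (1 / (c + S.card)) := by
      rw [Finset.mul_sum]
      refine Finset.sum_congr rfl fun S hS => ?_
      rw [Finset.mem_powerset] at hS
      have haS : a ∉ S := fun h => ha (hS h)
      rw [Finset.insert_sdiff_of_notMem _ haS, Finset.prod_insert (fun h =>
        ha (Finset.mem_sdiff.1 h).1)]
      ring
    have e2 : ∑ S ∈ I.powerset, (∏ i ∈ insert a S, Q i) *
        (∏ i ∈ insert a I \ insert a S, (1 - Q i)) * (1 / (c + (insert a S).card)) =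
        Q a * ∑ S ∈ I.powerset, (∏ i ∈ S, Q i) * (∏ i ∈ I \ S, (1 - Q i)) *
          (1 / ((c + 1) + S.card)) := by
      rw [Finset.mul_sum]
      refine Finset.sum_congr rfl fun S hS => ?_
      rw [Finset.mem_powerset] at hS
      have haS : a ∉ S := fun h => ha (hS h)
      have e3 : insert a I \ insert a S = I \ S := by
        ext i
        simp only [Finset.mem_sdiff, Finset.mem_insert]
        constructor
        · rintro ⟨h1 | h1, h2⟩
          · exact absurd (Or.inl h1) h2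
          · exact ⟨h1, fun h => h2 (Or.inr h)⟩
        · rintro ⟨h1, h2⟩
          exact ⟨Or.inr h1, fun h => h.elim (fun h => ha (h ▸ h1)) h2⟩
      rw [e3, Finset.prod_insert haS, Finset.card_insert_of_notMem haS]
      push_cast
      have e4 : c + ((S.card : ℝ) + 1) = c + 1 + S.card := by ring
      rw [e4]
      ring
    rw [e1, e2, Finset.sum_insert ha]
    have i1 := ih c hc
    have i2 := ih (c + 1) (by linarith)
    obtain ⟨D, hD⟩ : ∃ D, D = ∑ i ∈ I, Q i := ⟨_, rfl⟩
    have hD0 : 0 ≤ D := by rw [hD]; exact Finset.sum_nonneg fun i _ => h0 i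
    rw [← hD] at i1 i2 ⊢
    have q0 := h0 a
    have q1 := h1 a
    obtain ⟨x, hx⟩ : ∃ x, x = c + D / 2 := ⟨_, rfl⟩
    have hx1 : 1 ≤ x := by rw [hx]; linarith
    have hfin : (1 - Q a) * (1 / x) + Q a * (1 / (x + 1)) ≤ 1 / (x + Q a / 2) := by
      have e5 : (1 - Q a) * (1 / x) + Q a * (1 / (x + 1)) = (x + 1 - Q a) / (x * (x + 1)) := by
        field_simp
        ring
      rw [e5, div_le_div_iff₀ (by positivity) (by positivity)]
      nlinarith
    calc _ ≤ (1 - Q a) * (1 / (c + D / 2)) + Q a * (1 / (c + 1 + D / 2)) :=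
          add_le_add (mul_le_mul_of_nonneg_left i1 (by linarith))
            (mul_le_mul_of_nonneg_left i2 q0)
      _ = (1 - Q a) * (1 / x) + Q a * (1 / (x + 1)) := by
          rw [hx]
          congr 3
          ring
      _ ≤ _ := hfin
      _ = _ := by
          rw [hx]
          congr 1
          ring

/-! ### pairs of independent copies -/

section pairs

variable {m : ℕ} (F : ℕ) (p : Fin m → ℕ → ℝ)

/-- the pairs of the values -/
def ZZ (m F : ℕ) : Finset (Fin m → ℕ × ℕ) :=
  Fintype.piFinset (fun _ : Fin m => Finset.range F ×ˢ Finset.range F)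

/-- the weight -/
def WW (z : Fin m → ℕ × ℕ) : ℝ := ∏ i, (p i (z i).1 * p i (z i).2)

variable {F p}

theorem mem_ZZ {z : Fin m → ℕ × ℕ} : z ∈ ZZ m F ↔ ∀ i, (z i).1 < F ∧ (z i).2 < F := by
  unfold ZZ
  rw [Fintype.mem_piFinset]
  refine forall_congr' fun i => ?_
  rw [Finset.mem_product, Finset.mem_range, Finset.mem_range]

theorem WW_nonneg (hp : ∀ i, Pm F (p i)) (z : Fin m → ℕ × ℕ) : 0 ≤ WW p z :=
  Finset.prod_nonneg fun i _ => mul_nonneg ((hp i).nn _) ((hp i).nn _)

theorem law_eq (hp : ∀ i, Pm F (p i)) (s : ℕ) :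
    law F p s = ∑ z ∈ ZZ m F, if ∑ i, (z i).1 = s then WW p z else 0 := by
  classical
  unfold law
  rw [Finset.sum_filter]
  have hmaps : ∀ z ∈ ZZ m F, (fun i => (z i).1) ∈
      (Fintype.piFinset fun _ : Fin m => Finset.range F) := by
    intro z hz
    rw [mem_ZZ] at hz
    rw [Fintype.mem_piFinset]
    exact fun i => Finset.mem_range.2 (hz i).1
  rw [← Finset.sum_fiberwise_of_maps_to hmaps]
  refine Finset.sum_congr rfl fun v hv => ?_
  rw [Fintype.mem_piFinset] at hv
  have hset : (ZZ m F).filter (fun z => (fun i => (z i).1) = v) =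
      Fintype.piFinset (fun i => {v i} ×ˢ Finset.range F) := by
    ext z
    rw [Finset.mem_filter, mem_ZZ, Fintype.mem_piFinset]
    constructor
    · rintro ⟨h1, rfl⟩ i
      simp [h1 i]
    · intro h
      refine ⟨fun i => ?_, funext fun i => ?_⟩
      · have := h i
        simp only [Finset.mem_product, Finset.mem_singleton, Finset.mem_range] at this
        have h2 := Finset.mem_range.1 (hv i)
        exact ⟨this.1 ▸ h2, this.2⟩
      · have := h i
        simp only [Finset.mem_product, Finset.mem_singleton, Finset.mem_range] at this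
        exact this.1
  have hval : ∑ z ∈ (ZZ m F).filter (fun z => (fun i => (z i).1) = v),
      (if ∑ i, (z i).1 = s then WW p z else 0) =
      ∑ z ∈ (ZZ m F).filter (fun z => (fun i => (z i).1) = v),
        (if ∑ i, v i = s then WW p z else 0) := by
    refine Finset.sum_congr rfl fun z hz => ?_
    rw [Finset.mem_filter] at hz
    rw [← hz.2]
  rw [hval, hset]
  by_cases hs : ∑ i, v i = s
  · simp only [hs, if_true]
    unfold WW
    rw [← Finset.prod_univ_sum (fun i => {v i} ×ˢ Finset.range F)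
      (fun i (x : ℕ × ℕ) => p i x.1 * p i x.2)]
    refine Finset.prod_congr rfl fun i _ => ?_
    rw [Finset.sum_product, Finset.sum_singleton]
    simp only
    rw [← Finset.mul_sum, (hp i).sum, mul_one]
  · simp only [hs, if_false, Finset.sum_const_zero]

theorem law_swap (hp : ∀ i, Pm F (p i)) (s : ℕ) (T : Finset (Fin m)) :
    law F p s = ∑ z ∈ ZZ m F, if ∑ i, (if i ∈ T then (z i).2 else (z i).1) = s
      then WW p z else 0 := by
  classical
  rw [law_eq hp]
  refine Finset.sum_nbij' (fun z i => if i ∈ T then (z i).swap else z i)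
    (fun z i => if i ∈ T then (z i).swap else z i) ?_ ?_ ?_ ?_ ?_
  · intro z hz
    rw [mem_ZZ] at hz ⊢
    intro i
    by_cases hi : i ∈ T
    · simp [hi, hz i]
    · simp [hi, hz i]
  · intro z hz
    rw [mem_ZZ] at hz ⊢
    intro i
    by_cases hi : i ∈ T
    · simp [hi, hz i]
    · simp [hi, hz i]
  · intro z _
    funext i
    by_cases hi : i ∈ T <;> simp [hi]
  · intro z _
    funext i
    by_cases hi : i ∈ T <;> simp [hi]
  · intro z _
    have e1 : WW p (fun i => if i ∈ T then (z i).swap else z i) = WW p z := by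
      unfold WW
      refine Finset.prod_congr rfl fun i _ => ?_
      by_cases hi : i ∈ T
      · simp [hi, mul_comm]
      · simp [hi]
    have e2 : ∑ i, (if i ∈ T then ((if i ∈ T then (z i).swap else z i) : ℕ × ℕ).2 else
        ((if i ∈ T then (z i).swap else z i) : ℕ × ℕ).1) = ∑ i, (z i).1 := by
      refine Finset.sum_congr rfl fun i _ => ?_
      by_cases hi : i ∈ T <;> simp [hi]
    simp only [e1, e2]

/-- the number of the disagreements -/
def NN (z : Fin m → ℕ × ℕ) : ℕ := (univ.filter (fun i => (z i).1 ≠ (z i).2)).card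

theorem law_le (hp : ∀ i, Pm F (p i)) (s : ℕ) :
    law F p s ≤ ∑ z ∈ ZZ m F, WW p z * (1 / √(1 + (NN z : ℝ))) := by
  classical
  have h1 : (2 : ℝ) ^ m * law F p s = ∑ z ∈ ZZ m F, WW p z *
      (((univ : Finset (Finset (Fin m))).filter (fun T =>
        ∑ i, (if i ∈ T then (z i).2 else (z i).1) = s)).card : ℝ) := by
    have h2 : (2 : ℝ) ^ m * law F p s = ∑ T : Finset (Fin m), law F p s := by
      rw [Finset.sum_const, Finset.card_univ, Fintype.card_finset, Fintype.card_fin, nsmul_eq_mul]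
      push_cast
      rfl
    rw [h2, Finset.sum_congr rfl fun T _ => law_swap hp s T, Finset.sum_comm]
    refine Finset.sum_congr rfl fun z _ => ?_
    rw [← Finset.sum_filter, Finset.sum_const, nsmul_eq_mul, mul_comm]
  have h3 : ∀ z : Fin m → ℕ × ℕ, (((univ : Finset (Finset (Fin m))).filter (fun T =>
        ∑ i, (if i ∈ T then (z i).2 else (z i).1) = s)).card : ℝ) ≤
      2 ^ m * (1 / √(1 + (NN z : ℝ))) := by
    intro z
    have h4 := lo2 (fun i => ((z i).2 : ℤ) - (z i).1) ((s : ℤ) - ∑ i, ((z i).1 : ℤ))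
    have e1 : (univ.filter (fun i => ((z i).2 : ℤ) - (z i).1 ≠ 0)).card = NN z := by
      unfold NN
      congr 1
      ext i
      simp only [Finset.mem_filter, Finset.mem_univ, true_and]
      omega
    have e2 : ∀ T : Finset (Fin m), ∑ i ∈ T, (((z i).2 : ℤ) - (z i).1) =
        (s : ℤ) - ∑ i, ((z i).1 : ℤ) ↔ ∑ i, (if i ∈ T then (z i).2 else (z i).1) = s := by
      intro T
      have e3 : ((∑ i, (if i ∈ T then (z i).2 else (z i).1) : ℕ) : ℤ) =
          ∑ i ∈ T, (((z i).2 : ℤ) - (z i).1) + ∑ i, ((z i).1 : ℤ) := by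
        have e4 : ∑ i ∈ T, (((z i).2 : ℤ) - (z i).1) =
            ∑ i, if i ∈ T then (((z i).2 : ℤ) - (z i).1) else 0 := by
          rw [Finset.sum_ite_mem, univ_inter]
        rw [e4, ← Finset.sum_add_distrib]
        push_cast
        refine Finset.sum_congr rfl fun i _ => ?_
        by_cases hi : i ∈ T <;> simp [hi]
      constructor
      · intro h
        have : ((∑ i, (if i ∈ T then (z i).2 else (z i).1) : ℕ) : ℤ) = (s : ℤ) := by
          rw [e3, h]; ring
        exact_mod_cast this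
      · intro h
        rw [h] at e3
        rw [e3]; ring
    rw [e1, Finset.filter_congr (fun T _ => e2 T)] at h4
    rw [mul_one_div, le_div_iff₀ (by positivity)]
    exact h4
  have h5 : (2 : ℝ) ^ m * law F p s ≤ 2 ^ m * ∑ z ∈ ZZ m F, WW p z * (1 / √(1 + (NN z : ℝ))) := by
    rw [h1, Finset.mul_sum]
    refine Finset.sum_le_sum fun z _ => ?_
    calc _ ≤ WW p z * (2 ^ m * (1 / √(1 + (NN z : ℝ)))) :=
          mul_le_mul_of_nonneg_left (h3 z) (WW_nonneg hp z)
      _ = _ := by ring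
  exact le_of_mul_le_mul_left h5 (by positivity)

theorem dist (hp : ∀ i, Pm F (p i)) (g : ℕ → ℝ) :
    ∑ z ∈ ZZ m F, WW p z * g (NN z) = ∑ S ∈ (univ : Finset (Fin m)).powerset,
      (∏ i ∈ S, ∑ x ∈ (Finset.range F ×ˢ Finset.range F).filter (fun x => x.1 ≠ x.2),
        p i x.1 * p i x.2) *
      (∏ i ∈ univ \ S, (1 - ∑ x ∈ (Finset.range F ×ˢ Finset.range F).filter
        (fun x => x.1 ≠ x.2), p i x.1 * p i x.2)) * g S.card := by
  classical
  have hmaps : ∀ z ∈ ZZ m F, univ.filter (fun i => (z i).1 ≠ (z i).2) ∈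
      (univ : Finset (Fin m)).powerset := fun z _ => Finset.mem_powerset.2 (subset_univ _)
  rw [← Finset.sum_fiberwise_of_maps_to hmaps]
  refine Finset.sum_congr rfl fun S _ => ?_
  have hset : (ZZ m F).filter (fun z => univ.filter (fun i => (z i).1 ≠ (z i).2) = S) =
      Fintype.piFinset (fun i => (Finset.range F ×ˢ Finset.range F).filter
        (fun x => x.1 ≠ x.2 ↔ i ∈ S)) := by
    ext z
    rw [Finset.mem_filter, Fintype.mem_piFinset, ZZ, Fintype.mem_piFinset]
    constructor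
    · rintro ⟨h1, rfl⟩ i
      rw [Finset.mem_filter]
      exact ⟨h1 i, by simp⟩
    · intro h
      refine ⟨fun i => (Finset.mem_filter.1 (h i)).1, ?_⟩
      ext i
      rw [Finset.mem_filter]
      simpa using (Finset.mem_filter.1 (h i)).2
  have hval : ∑ z ∈ (ZZ m F).filter (fun z => univ.filter (fun i => (z i).1 ≠ (z i).2) = S),
      WW p z * g (NN z) =
      (∑ z ∈ (ZZ m F).filter (fun z => univ.filter (fun i => (z i).1 ≠ (z i).2) = S),
        WW p z) * g S.card := by
    rw [Finset.sum_mul]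
    refine Finset.sum_congr rfl fun z hz => ?_
    rw [Finset.mem_filter] at hz
    unfold NN
    rw [hz.2]
  rw [hval, hset]
  congr 1
  unfold WW
  rw [← Finset.prod_univ_sum (fun i => (Finset.range F ×ˢ Finset.range F).filter
        (fun x : ℕ × ℕ => x.1 ≠ x.2 ↔ i ∈ S))
      (fun i (x : ℕ × ℕ) => p i x.1 * p i x.2)]
  rw [← Finset.prod_mul_prod_compl S, Finset.compl_eq_univ_sdiff]
  congr 1
  · refine Finset.prod_congr rfl fun i hi => ?_
    simp only [hi, iff_true]
  · refine Finset.prod_congr rfl fun i hi => ?_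
    rw [Finset.mem_sdiff] at hi
    simp only [hi.2, iff_false, not_not]
    have h1 := Finset.sum_filter_add_sum_filter_not (Finset.range F ×ˢ Finset.range F)
      (fun x : ℕ × ℕ => x.1 = x.2) (fun x => p i x.1 * p i x.2)
    have h2 : ∑ x ∈ Finset.range F ×ˢ Finset.range F, p i x.1 * p i x.2 = 1 := by
      rw [Finset.sum_product]
      simp only
      rw [← Finset.sum_mul_sum, (hp i).sum, mul_one]
    rw [h2] at h1
    linarith

end pairs

theorem S_AC_holds : S_AC := by
  classical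
  intro m F p hp a₀ ha₀ hmax s
  obtain ⟨Q, hQ⟩ : ∃ Q : Fin m → ℝ, Q = fun i =>
    ∑ x ∈ (Finset.range F ×ˢ Finset.range F).filter (fun x => x.1 ≠ x.2), p i x.1 * p i x.2 :=
    ⟨_, rfl⟩
  have hQi : ∀ i, Q i = 1 - ∑ a ∈ Finset.range F, p i a ^ 2 := by
    intro i
    rw [hQ]
    simp only
    have h1 := Finset.sum_filter_add_sum_filter_not (Finset.range F ×ˢ Finset.range F)
      (fun x : ℕ × ℕ => x.1 = x.2) (fun x => p i x.1 * p i x.2)
    have h2 : ∑ x ∈ Finset.range F ×ˢ Finset.range F, p i x.1 * p i x.2 = 1 := by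
      rw [Finset.sum_product]
      simp only
      rw [← Finset.sum_mul_sum, (hp i).sum, mul_one]
    have h3 : ∑ x ∈ (Finset.range F ×ˢ Finset.range F).filter (fun x => x.1 = x.2),
        p i x.1 * p i x.2 = ∑ a ∈ Finset.range F, p i a ^ 2 := by
      rw [Finset.sum_filter, Finset.sum_product]
      refine Finset.sum_congr rfl fun a ha => ?_
      simp only
      rw [Finset.sum_ite_eq, if_pos ha, sq]
    rw [h2, h3] at h1
    simp only [← ne_eq] at h1
    linarith
  have hQ0 : ∀ i, 0 ≤ Q i := by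
    intro i
    rw [hQ]
    exact Finset.sum_nonneg fun x _ => mul_nonneg ((hp i).nn _) ((hp i).nn _)
  have hQ1 : ∀ i, Q i ≤ 1 := by
    intro i
    rw [hQi]
    have : 0 ≤ ∑ a ∈ Finset.range F, p i a ^ 2 := Finset.sum_nonneg fun a _ => sq_nonneg _
    linarith
  have hQg : ∀ i, 1 - p i (a₀ i) ≤ Q i := by
    intro i
    rw [hQi]
    have h1 : ∑ a ∈ Finset.range F, p i a ^ 2 ≤ ∑ a ∈ Finset.range F, p i (a₀ i) * p i a := by
      refine Finset.sum_le_sum fun a ha => ?_
      rw [sq]
      exact mul_le_mul_of_nonneg_right (hmax i a (Finset.mem_range.1 ha)) ((hp i).nn a)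
    rw [← Finset.mul_sum, (hp i).sum, mul_one] at h1
    linarith
  obtain ⟨D, hD⟩ : ∃ D, D = ∑ i, (1 - p i (a₀ i)) := ⟨_, rfl⟩
  have hp1 : ∀ i, p i (a₀ i) ≤ 1 := by
    intro i
    rw [← (hp i).sum]
    exact Finset.single_le_sum (f := fun a => p i a) (fun a _ => (hp i).nn a)
      (Finset.mem_range.2 (ha₀ i))
  have hD0 : 0 ≤ D := by
    rw [hD]
    exact Finset.sum_nonneg fun i _ => by linarith [hp1 i]
  have hDQ : D ≤ ∑ i, Q i := by
    rw [hD]
    exact Finset.sum_le_sum fun i _ => hQg i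
  rw [← hD]
  have hE : ∑ z ∈ ZZ m F, WW p z * (1 / (1 + (NN z : ℝ))) ≤ 1 / (1 + D / 2) := by
    rw [dist hp (fun n => 1 / (1 + (n : ℝ)))]
    have h1 := be Q hQ0 hQ1 univ 1 le_rfl
    rw [hQ] at h1
    refine h1.trans ?_
    apply one_div_le_one_div_of_le (by positivity)
    have h2 := hDQ
    rw [hQ] at h2
    linarith
  have hW1 : ∑ z ∈ ZZ m F, WW p z = 1 := by
    unfold ZZ WW
    rw [← Finset.prod_univ_sum (fun _ : Fin m => Finset.range F ×ˢ Finset.range F)
      (fun i (x : ℕ × ℕ) => p i x.1 * p i x.2)]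
    refine Finset.prod_eq_one fun i _ => ?_
    rw [Finset.sum_product]
    simp only
    rw [← Finset.sum_mul_sum, (hp i).sum, mul_one]
  obtain ⟨a, ha⟩ : ∃ a, a = √(1 + D / 2) := ⟨_, rfl⟩
  have ha0 : 0 < a := by rw [ha]; positivity
  have ha2 : a ^ 2 = 1 + D / 2 := by rw [ha, Real.sq_sqrt (by positivity)]
  rw [← ha]
  have hpt : ∀ z : Fin m → ℕ × ℕ, 1 / √(1 + (NN z : ℝ)) ≤
      (a * (1 / (1 + (NN z : ℝ))) + 1 / a) / 2 := by
    intro z
    obtain ⟨y, hy⟩ : ∃ y, y = 1 / √(1 + (NN z : ℝ)) := ⟨_, rfl⟩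
    have hy2 : 1 / (1 + (NN z : ℝ)) = y ^ 2 := by
      rw [hy, div_pow, one_pow, Real.sq_sqrt (by positivity)]
    rw [hy2, ← hy]
    have h1 : 0 ≤ (a * y - 1) ^ 2 / (2 * a) := by positivity
    have h2 : (a * y - 1) ^ 2 / (2 * a) = (a * y ^ 2 + 1 / a) / 2 - y := by
      field_simp
      ring
    linarith
  have h1 : law F p s ≤ (a * (1 / (1 + D / 2)) + 1 / a) / 2 := by
    calc law F p s ≤ ∑ z ∈ ZZ m F, WW p z * (1 / √(1 + (NN z : ℝ))) := law_le hp s
      _ ≤ ∑ z ∈ ZZ m F, WW p z * ((a * (1 / (1 + (NN z : ℝ))) + 1 / a) / 2) :=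
          Finset.sum_le_sum fun z _ => mul_le_mul_of_nonneg_left (hpt z) (WW_nonneg hp z)
      _ = (a * (∑ z ∈ ZZ m F, WW p z * (1 / (1 + (NN z : ℝ)))) +
          (∑ z ∈ ZZ m F, WW p z) * (1 / a)) / 2 := by
          rw [Finset.mul_sum, Finset.sum_mul, ← Finset.sum_add_distrib, Finset.sum_div]
          refine Finset.sum_congr rfl fun z _ => ?_
          ring
      _ ≤ (a * (1 / (1 + D / 2)) + 1 * (1 / a)) / 2 := by
          rw [hW1]
          have := mul_le_mul_of_nonneg_left hE ha0.le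
          linarith
      _ = _ := by rw [one_mul]
  rw [← ha2] at h1
  have h2 : (a * (1 / a ^ 2) + 1 / a) / 2 = 1 / a := by
    field_simp
    ring
  rw [h2] at h1
  rwa [le_div_iff₀ ha0] at h1

end Pool.Agent.H64.ES.H860
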