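import Pool.Agent.H64.ES.Spec

/-!
# Project ES (helper64): entropy of a sum of nearly deterministic independent variables
-/

set_option autoImplicit false

namespace Pool.Agent.H64.ES.H740

open Finset Real Pool.Agent.H64.ES

section

variable {m F : ℕ} {p : Fin m → ℕ → ℝ}

theorem tot (hp : ∀ i, Pm F (p i)) :
    ∑ v ∈ Fintype.piFinset (fun _ : Fin m => range F), ∏ i, p i (v i) = 1 := by
  rw [← Finset.prod_univ_sum]
  rw [Finset.prod_congr rfl (fun i _ => (hp i).sum), Finset.prod_const_one]

theorem W_nn (hp : ∀ i, Pm F (p i)) (v : Fin m → ℕ) : 0 ≤ ∏ i, p i (v i) :=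
  Finset.prod_nonneg fun i _ => (hp i).nn _

theorem law_nn (hp : ∀ i, Pm F (p i)) (s : ℕ) : 0 ≤ law F p s :=
  Finset.sum_nonneg fun v _ => W_nn hp v

theorem sum_law (hp : ∀ i, Pm F (p i)) : ∑ s ∈ range (m * F + 1), law F p s = 1 := by
  rw [← tot hp]
  unfold law
  refine Finset.sum_fiberwise_of_maps_to (fun v hv => ?_) _
  rw [mem_range, Nat.lt_succ_iff]
  have h1 : ∑ i : Fin m, v i ≤ ∑ _i : Fin m, F := by
    refine Finset.sum_le_sum fun i _ => ?_
    exact (mem_range.1 (Fintype.mem_piFinset.1 hv i)).le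
  simpa using h1

theorem one_sub_le_prod {ι : Type*} (t : Finset ι) (e : ι → ℝ) (h0 : ∀ i ∈ t, 0 ≤ e i)
    (h1 : ∀ i ∈ t, e i ≤ 1) : 1 - ∑ i ∈ t, e i ≤ ∏ i ∈ t, (1 - e i) := by
  classical
  induction t using Finset.induction_on with
  | empty => simp
  | insert a t ha ih =>
    rw [sum_insert ha, prod_insert ha]
    have i1 := ih (fun i hi => h0 i (mem_insert_of_mem hi)) (fun i hi => h1 i (mem_insert_of_mem hi))
    have i2 := h0 a (mem_insert_self _ _)
    have i3 := h1 a (mem_insert_self _ _)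
    have i4 : 0 ≤ ∑ i ∈ t, e i := sum_nonneg fun i hi => h0 i (mem_insert_of_mem hi)
    have i5 : (1 - e a) * (1 - ∑ i ∈ t, e i) ≤ (1 - e a) * ∏ i ∈ t, (1 - e i) :=
      mul_le_mul_of_nonneg_left i1 (by linarith)
    nlinarith [mul_nonneg i2 i4]

theorem p_le_one (hp : ∀ i, Pm F (p i)) (i : Fin m) {a : ℕ} (ha : a < F) : p i a ≤ 1 := by
  rw [← (hp i).sum]
  exact Finset.single_le_sum (f := p i) (fun b _ => (hp i).nn b) (mem_range.2 ha)

theorem rest (hp : ∀ i, Pm F (p i)) (i : Fin m) {a : ℕ} (ha : a < F) :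
    ∑ b ∈ (range F).erase a, p i b = 1 - p i a := by
  have := Finset.add_sum_erase (range F) (p i) (mem_range.2 ha)
  rw [(hp i).sum] at this
  linarith

theorem low (hp : ∀ i, Pm F (p i)) {a₀ : Fin m → ℕ} (ha : ∀ i, a₀ i < F) :
    1 - ∑ i, (1 - p i (a₀ i)) ≤ law F p (∑ i, a₀ i) := by
  have h1 : ∏ i, p i (a₀ i) ≤ law F p (∑ i, a₀ i) := by
    unfold law
    refine Finset.single_le_sum (f := fun v : Fin m → ℕ => ∏ i, p i (v i))
      (fun v _ => W_nn hp v) ?_
    rw [mem_filter, Fintype.mem_piFinset]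
    exact ⟨fun i => mem_range.2 (ha i), rfl⟩
  refine le_trans ?_ h1
  have h2 := one_sub_le_prod univ (fun i => 1 - p i (a₀ i))
    (fun i _ => by have := p_le_one hp i (ha i); linarith)
    (fun i _ => by have := (hp i).nn (a₀ i); linarith)
  simpa using h2

theorem up (hp : ∀ i, Pm F (p i)) {a₀ : Fin m → ℕ} (ha : ∀ i, a₀ i < F) {D : ℝ}
    (hD : D = ∑ i, (1 - p i (a₀ i))) : D * (1 - D) ≤ 1 - law F p (∑ i, a₀ i) := by
  classical
  set Ω := Fintype.piFinset (fun _ : Fin m => range F) with hΩ
  set W : (Fin m → ℕ) → ℝ := fun v => ∏ i, p i (v i) with hW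
  have e0 : ∀ i, 0 ≤ 1 - p i (a₀ i) := fun i => by
    have := p_le_one hp i (ha i); linarith
  have e1 : ∑ v ∈ Ω.filter (fun v => ¬ ∑ i, v i = ∑ i, a₀ i), W v =
      1 - law F p (∑ i, a₀ i) := by
    have h1 := Finset.sum_filter_add_sum_filter_not Ω (fun v => ∑ i, v i = ∑ i, a₀ i) W
    rw [hΩ, hW, tot hp] at h1
    have h2 : ∑ v ∈ (Fintype.piFinset (fun _ : Fin m => range F)).filter
      (fun v => ∑ i, v i = ∑ i, a₀ i), ∏ i, p i (v i) = law F p (∑ i, a₀ i) := rfl
    rw [h2] at h1
    linarith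
  rw [← e1]
  set T : Finset (Σ _ : Fin m, ℕ) := univ.sigma (fun i => (range F).erase (a₀ i)) with hT
  set g : (Σ _ : Fin m, ℕ) → (Fin m → ℕ) := fun x => Function.update a₀ x.1 x.2 with hg
  have hinj : Set.InjOn g T := by
    intro x hx y hy hxy
    have hx1 := (mem_erase.1 (mem_sigma.1 (mem_coe.1 hx)).2).1
    have hy1 := (mem_erase.1 (mem_sigma.1 (mem_coe.1 hy)).2).1
    obtain ⟨i, a⟩ := x
    obtain ⟨j, b⟩ := y
    simp only at hx1 hy1
    have hij : i = j := by
      by_contra hne
      have h1 := congrFun hxy i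
      simp only [hg] at h1
      rw [Function.update_self, Function.update_of_ne hne] at h1
      exact hx1 h1
    subst hij
    have h1 := congrFun hxy i
    simp only [hg] at h1
    rw [Function.update_self, Function.update_self] at h1
    rw [h1]
  have hsub : T.image g ⊆ Ω.filter (fun v => ¬ ∑ i, v i = ∑ i, a₀ i) := by
    intro v hv
    obtain ⟨⟨i, a⟩, hx, rfl⟩ := mem_image.1 hv
    obtain ⟨hx1, hx2⟩ := mem_erase.1 (mem_sigma.1 hx).2
    simp only at hx1 hx2
    rw [mem_filter, Fintype.mem_piFinset]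
    constructor
    · intro j
      simp only [hg]
      by_cases hj : j = i
      · subst hj; rw [Function.update_self]; exact hx2
      · rw [Function.update_of_ne hj]; exact mem_range.2 (ha j)
    · simp only [hg]
      rw [Finset.sum_update_of_mem (mem_univ _)]
      have h1 := Finset.add_sum_erase univ a₀ (mem_univ i)
      rw [← h1, Finset.sdiff_singleton_eq_erase]
      intro h2
      exact hx1 (Nat.add_right_cancel h2)
  have hD0 : 0 ≤ D := by rw [hD]; exact sum_nonneg fun i _ => e0 i
  calc D * (1 - D) = ∑ i, (1 - D) * (1 - p i (a₀ i)) := by rw [← mul_sum, ← hD]; ring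
    _ ≤ ∑ x ∈ T, W (g x) := by
        rw [hT, Finset.sum_sigma]
        refine sum_le_sum fun i _ => ?_
        rw [← rest hp i (ha i), mul_sum]
        refine sum_le_sum fun a haa => ?_
        simp only [hW, hg]
        rw [← Finset.mul_prod_erase univ _ (mem_univ i), Function.update_self, mul_comm]
        refine mul_le_mul_of_nonneg_left ?_ ((hp i).nn a)
        have h1 : ∏ j ∈ univ.erase i, p j (Function.update a₀ i a j) =
            ∏ j ∈ univ.erase i, (1 - (1 - p j (a₀ j))) := by
          refine prod_congr rfl fun j hj => ?_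
          rw [Function.update_of_ne (ne_of_mem_erase hj)]; ring
        rw [h1]
        refine le_trans ?_ (one_sub_le_prod _ _ (fun j _ => e0 j)
          (fun j _ => by have := (hp j).nn (a₀ j); linarith))
        have h2 : ∑ j ∈ univ.erase i, (1 - p j (a₀ j)) ≤ D := by
          rw [hD]
          exact sum_le_sum_of_subset_of_nonneg (erase_subset _ _) fun j _ _ => e0 j
        linarith
    _ = ∑ v ∈ T.image g, W v := (sum_image hinj).symm
    _ ≤ ∑ v ∈ Ω.filter (fun v => ¬ ∑ i, v i = ∑ i, a₀ i), W v :=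
        sum_le_sum_of_subset_of_nonneg hsub fun v _ _ => W_nn hp v

end

theorem S_SMALL_holds : Pool.Agent.H64.ES.S_SMALL := by
  classical
  intro m F p hp a₀ ha _ D hD hD2
  set s0 := ∑ i, a₀ i with hs0
  have hmem : s0 ∈ range (m * F + 1) := by
    rw [mem_range, Nat.lt_succ_iff]
    have h1 : ∑ i : Fin m, a₀ i ≤ ∑ _i : Fin m, F := Finset.sum_le_sum fun i _ => (ha i).le
    simpa using h1
  have hlow := low hp ha
  have hup := up hp ha hD
  rw [← hD] at hlow
  rw [← hs0] at hlow hup
  have hD0 : 0 ≤ D := by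
    rw [hD]
    exact sum_nonneg fun i _ => by have := p_le_one hp i (ha i); linarith
  set r : ℝ := 1 - law F p s0 with hr
  have hr1 : D / 2 ≤ r := by nlinarith
  have hr2 : r ≤ 1 / 2 := by linarith
  have hsum : ∑ s ∈ (range (m * F + 1)).erase s0, law F p s = r := by
    have := Finset.add_sum_erase (range (m * F + 1)) (law F p) hmem
    rw [sum_law hp] at this
    linarith
  have hHS : Real.negMulLog (1 - r) + Real.negMulLog r ≤ HS F p := by
    unfold HS
    rw [← Finset.add_sum_erase _ _ hmem]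
    have e1 : 1 - r = law F p s0 := by rw [hr]; ring
    rw [e1]
    refine add_le_add le_rfl ?_
    have e2 : Real.negMulLog r = ∑ s ∈ (range (m * F + 1)).erase s0, law F p s * (-Real.log r) := by
      rw [← sum_mul, hsum, Real.negMulLog]; ring
    rw [e2]
    refine sum_le_sum fun s hs => ?_
    have h0 := law_nn hp s
    have h1 : law F p s ≤ r := by
      rw [← hsum]
      exact Finset.single_le_sum (f := law F p) (fun s _ => law_nn hp s) hs
    rcases h0.eq_or_lt with h | h
    · rw [← h]; simp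
    · rw [Real.negMulLog, neg_mul, ← mul_neg]
      refine mul_le_mul_of_nonneg_left ?_ h0
      exact neg_le_neg (Real.log_le_log h h1)
  have hbin : Real.binEntropy (D / 2) ≤ Real.binEntropy r := by
    refine Real.binEntropy_strictMonoOn.monotoneOn ?_ ?_ hr1
    · constructor
      · linarith
      · norm_num; linarith
    · constructor
      · linarith
      · norm_num; linarith
  rw [Real.binEntropy_eq_negMulLog_add_negMulLog_one_sub,
    Real.binEntropy_eq_negMulLog_add_negMulLog_one_sub] at hbin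
  have h3 : 0 ≤ Real.negMulLog (1 - D / 2) :=
    Real.negMulLog_nonneg (by linarith) (by linarith)
  have h4 : D / 2 * (Real.log 2 - Real.log D) = Real.negMulLog (D / 2) := by
    rcases hD0.eq_or_lt with h | h
    · rw [← h]; simp
    · rw [Real.negMulLog, Real.log_div h.ne' (by norm_num)]; ring
  rw [h4]
  linarith

end Pool.Agent.H64.ES.H740
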