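import Pool.Agent.H64.ES.Spec

/-! ES-SUM for helper64: the entropy of the sum against the uncovered entropies. -/

set_option autoImplicit false

namespace Pool.Agent.H64.ES.H747

open Finset Real
open Pool.Agent.H64.ES

/-! ### Numerical facts -/

theorem U_zero : U 0 = 0 := by
  simp [U]

theorem U_le_one {x : ℝ} (h0 : 0 ≤ x) : U x ≤ 1 := by
  rcases eq_or_lt_of_le h0 with h | h
  · rw [← h, U_zero]
    exact zero_le_one
  · have h1 := Real.one_sub_inv_le_log_of_pos h
    have h2 : x * (1 - Real.log x) ≤ x * x⁻¹ := mul_le_mul_of_nonneg_left (by linarith) h0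
    rw [mul_inv_cancel₀ h.ne'] at h2
    exact h2

theorem U_le_sqrt {x : ℝ} (h0 : 0 ≤ x) : U x ≤ 2 * √x := by
  rcases eq_or_lt_of_le h0 with h | h
  · rw [← h, U_zero, Real.sqrt_zero, mul_zero]
  · set y := √x with hy
    have hy0 : 0 < y := Real.sqrt_pos.2 h
    have hxy : x = y ^ 2 := (Real.sq_sqrt h0).symm
    have h1 := Real.one_sub_inv_le_log_of_pos hy0
    unfold U
    rw [hxy, Real.log_pow]
    push_cast
    have h2 : y ^ 2 * (1 - 2 * Real.log y) ≤ y ^ 2 * (2 * y⁻¹ - 1) :=
      mul_le_mul_of_nonneg_left (by linarith) (by positivity)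
    have h3 : y ^ 2 * (2 * y⁻¹ - 1) = 2 * y - y ^ 2 := by
      field_simp
    rw [h3] at h2
    nlinarith [sq_nonneg y]

/-- `log (1 + m) ≤ 4 log (1 + √m / 2)` -/
theorem log_A {m : ℝ} (hm : 0 ≤ m) : Real.log (m + 1) ≤ 4 * Real.log (1 + √m / 2) := by
  set y := √m with hy
  have hy0 : 0 ≤ y := Real.sqrt_nonneg m
  have hym : m = y ^ 2 := (Real.sq_sqrt hm).symm
  have h1 : (4 : ℝ) * Real.log (1 + y / 2) = Real.log ((1 + y / 2) ^ 4) := by
    rw [Real.log_pow]
    push_cast
    ring
  rw [h1]
  apply Real.log_le_log (by positivity)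
  rw [hym]
  have h2 : 0 ≤ y ^ 3 := by positivity
  have h3 : 0 ≤ y ^ 4 := by positivity
  nlinarith

theorem log_54 : 2 / 9 ≤ Real.log (5 / 4) := by
  have h1 : (2 : ℝ) = Real.log (Real.exp 1 ^ 2) := by
    rw [← Real.exp_nat_mul, Real.log_exp]
    norm_num
  have h2 : 9 * Real.log (5 / 4) = Real.log ((5 / 4) ^ 9) := by
    rw [Real.log_pow]
    push_cast
    ring
  have h3 : (2 : ℝ) ≤ 9 * Real.log (5 / 4) := by
    rw [h2, h1]
    apply Real.log_le_log (by positivity)
    have h4 := Real.exp_one_lt_d9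
    have h5 := Real.exp_pos 1
    have h6 : Real.exp 1 ^ 2 ≤ 2.7182818286 ^ 2 := pow_le_pow_left₀ h5.le h4.le 2
    refine h6.trans ?_
    norm_num
  linarith

/-- `log (1 + z⁴) ≤ 5 z / 3` for `z⁴` a natural number -/
theorem log_B {m : ℕ} (hm : 1 ≤ m) : Real.log ((m : ℝ) + 1) ≤ 5 / 3 * √(√(m : ℝ)) := by
  rcases Nat.lt_or_ge m 2 with h | h
  · have h1 : m = 1 := by omega
    subst h1
    rw [Nat.cast_one, Real.sqrt_one, Real.sqrt_one]
    have := Real.log_two_lt_d9
    norm_num
    linarith
  · have hm2 : (2 : ℝ) ≤ m := by exact_mod_cast h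
    set z := √(√(m : ℝ)) with hz
    have hz0 : 0 ≤ z := Real.sqrt_nonneg _
    have hz4 : z ^ 4 = m := by
      have e1 : z ^ 2 = √(m : ℝ) := Real.sq_sqrt (Real.sqrt_nonneg _)
      calc z ^ 4 = (z ^ 2) ^ 2 := by ring
        _ = (m : ℝ) := by rw [e1, Real.sq_sqrt (by linarith)]
    set w := √(√((m : ℝ) + 1)) with hw
    have hw0 : 0 < w := Real.sqrt_pos.2 (Real.sqrt_pos.2 (by linarith))
    have hw4 : w ^ 4 = (m : ℝ) + 1 := by
      have e1 : w ^ 2 = √((m : ℝ) + 1) := Real.sq_sqrt (Real.sqrt_nonneg _)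
      calc w ^ 4 = (w ^ 2) ^ 2 := by ring
        _ = (m : ℝ) + 1 := by rw [e1, Real.sq_sqrt (by linarith)]
    have he := Real.exp_one_gt_d9
    have he0 := Real.exp_pos 1
    have h1 : Real.log ((m : ℝ) + 1) = 4 * Real.log w := by
      rw [← hw4, Real.log_pow]
      push_cast
      ring
    have h2 : Real.log w ≤ w / Real.exp 1 := by
      have h3 := Real.log_le_sub_one_of_pos (show 0 < w / Real.exp 1 by positivity)
      rw [Real.log_div hw0.ne' he0.ne', Real.log_exp] at h3
      linarith
    have h4 : w ≤ 5 * Real.exp 1 / 12 * z := by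
      have h5 : w ^ 4 ≤ (5 * Real.exp 1 / 12 * z) ^ 4 := by
        rw [mul_pow, hw4, hz4]
        have h6 : (3 / 2 : ℝ) ≤ (5 * Real.exp 1 / 12) ^ 4 := by
          have h7 : (5 * 2.7182818283 / 12 : ℝ) ≤ 5 * Real.exp 1 / 12 := by linarith
          have h8 := pow_le_pow_left₀ (by norm_num : (0 : ℝ) ≤ 5 * 2.7182818283 / 12) h7 4
          refine le_trans ?_ h8
          norm_num
        have h9 : (3 / 2 : ℝ) * m ≤ (5 * Real.exp 1 / 12) ^ 4 * m :=
          mul_le_mul_of_nonneg_right h6 (by linarith)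
        linarith
      exact le_of_pow_le_pow_left₀ (by norm_num) (by positivity) h5
    rw [h1]
    have h10 : w / Real.exp 1 ≤ 5 / 12 * z := by
      rw [div_le_iff₀ he0]
      linarith
    linarith

/-- `(1 + log m) log (m + 1) ≤ 4 m` -/
theorem log_C {m : ℝ} (hm : 1 ≤ m) : (1 + Real.log m) * Real.log (m + 1) ≤ 4 * m := by
  set y := √m with hy
  have hy1 : 1 ≤ y := Real.one_le_sqrt.2 hm
  have hym : y ^ 2 = m := Real.sq_sqrt (by linarith)
  have h1 : Real.log m ≤ 2 * y - 2 := by
    rw [← hym, Real.log_pow]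
    have := Real.log_le_sub_one_of_pos (show 0 < y by linarith)
    push_cast
    linarith
  have h2 : Real.log (m + 1) ≤ 2 * y := by
    have h3 : m + 1 ≤ (y + 1) ^ 2 := by nlinarith
    refine (Real.log_le_log (by linarith) h3).trans ?_
    rw [Real.log_pow]
    have := Real.log_le_sub_one_of_pos (show 0 < y + 1 by linarith)
    push_cast
    linarith
  have h4 : 0 ≤ Real.log (m + 1) := Real.log_nonneg (by linarith)
  calc (1 + Real.log m) * Real.log (m + 1) ≤ (2 * y) * (2 * y) :=
        mul_le_mul (by linarith) h2 h4 (by linarith)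
    _ = 4 * m := by rw [← hym]; ring

/-! ### The law of the sum -/

theorem law_nonneg {m F : ℕ} {p : Fin m → ℕ → ℝ} (hp : ∀ i, Pm F (p i)) (s : ℕ) :
    0 ≤ law F p s :=
  sum_nonneg fun v _ => prod_nonneg fun i _ => (hp i).nn (v i)

theorem law_sum {m F : ℕ} {p : Fin m → ℕ → ℝ} (hp : ∀ i, Pm F (p i)) :
    ∑ s ∈ range (m * F + 1), law F p s = 1 := by
  unfold law
  rw [sum_fiberwise_of_maps_to]
  · have h1 := Finset.prod_univ_sum (fun _ : Fin m => range F) (fun i a => p i a)
    rw [← h1]
    exact prod_eq_one fun i _ => (hp i).sum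
  · intro v hv
    rw [mem_range, Nat.lt_succ_iff]
    have h2 : ∑ i, v i ≤ ∑ _i : Fin m, F := sum_le_sum fun i _ =>
      (mem_range.1 (Fintype.mem_piFinset.1 hv i)).le
    refine h2.trans (le_of_eq ?_)
    rw [sum_const, card_univ, Fintype.card_fin, smul_eq_mul]

/-- **The lower bound for the entropy of the sum.** -/
theorem HS_lower (hAC : S_AC) {m F : ℕ} {p : Fin m → ℕ → ℝ} (hp : ∀ i, Pm F (p i))
    (a₀ : Fin m → ℕ) (h1 : ∀ i, a₀ i < F) (h2 : ∀ i, ∀ a < F, p i a ≤ p i (a₀ i))
    (hD : 0 ≤ ∑ i, (1 - p i (a₀ i))) :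
    1 / 2 * Real.log (1 + (∑ i, (1 - p i (a₀ i))) / 2) ≤ HS F p := by
  set D := ∑ i, (1 - p i (a₀ i)) with hDdef
  have h3 : ∀ s ∈ range (m * F + 1), law F p s * (1 / 2 * Real.log (1 + D / 2)) ≤
      Real.negMulLog (law F p s) := by
    intro s _
    have h4 := hAC m F p hp a₀ h1 h2 s
    rw [← hDdef] at h4
    rcases eq_or_lt_of_le (law_nonneg hp s) with h | h
    · rw [← h, zero_mul, Real.negMulLog_zero]
    · have h5 : 0 < √(1 + D / 2) := Real.sqrt_pos.2 (by linarith)
      have h6 := Real.log_le_log (mul_pos h h5) h4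
      rw [Real.log_mul h.ne' h5.ne', Real.log_one, Real.log_sqrt (by linarith)] at h6
      rw [Real.negMulLog, neg_mul, ← mul_neg]
      exact mul_le_mul_of_nonneg_left (by linarith) h.le
  have h7 := sum_le_sum h3
  rw [← sum_mul, law_sum hp, one_mul] at h7
  exact h7

theorem S_SUM_holds (hAC : S_AC) (hSM : S_SMALL) : S_SUM := by
  intro m F p hm hp a₀ ha₀ hmax
  have hm1 : (1 : ℝ) ≤ m := by exact_mod_cast hm
  have het0 : ∀ i, 0 ≤ 1 - p i (a₀ i) := by
    intro i
    have h1 : p i (a₀ i) ≤ ∑ a ∈ range F, p i a :=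
      single_le_sum (fun a _ => (hp i).nn a) (mem_range.2 (ha₀ i))
    rw [(hp i).sum] at h1
    linarith
  have het1 : ∀ i, 1 - p i (a₀ i) ≤ 1 := fun i => by
    have := (hp i).nn (a₀ i)
    linarith
  set et : Fin m → ℝ := fun i => 1 - p i (a₀ i) with het
  have hetd : ∀ i, et i = 1 - p i (a₀ i) := fun i => rfl
  have hD0 : 0 ≤ ∑ i, et i := sum_nonneg fun i _ => het0 i
  have hHS := HS_lower hAC hp a₀ ha₀ hmax hD0
  change 1 / 2 * Real.log (1 + (∑ i, et i) / 2) ≤ HS F p at hHS
  have hSM' := hSM m F p hp a₀ ha₀ hmax (∑ i, et i) rfl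
  change (∑ i, U (et i)) * Real.log (m + 1) ≤ 30 * m * HS F p
  have het0 : ∀ i, 0 ≤ et i := het0
  clear_value et
  set D := ∑ i, et i with hDdef
  have hl0 : 0 ≤ Real.log ((m : ℝ) + 1) := Real.log_nonneg (by linarith)
  rcases le_or_gt (√(m : ℝ)) D with hA | hA
  · -- case A
    have h1 : ∑ i, U (et i) ≤ m := by
      have h2 : ∑ i, U (et i) ≤ ∑ _i : Fin m, (1 : ℝ) := sum_le_sum fun i _ => U_le_one (het0 i)
      rw [sum_const, card_univ, Fintype.card_fin, nsmul_eq_mul, mul_one] at h2
      exact h2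
    have h2 := log_A (show (0 : ℝ) ≤ m by linarith)
    have h3 : Real.log (1 + √(m : ℝ) / 2) ≤ Real.log (1 + D / 2) :=
      Real.log_le_log (by positivity) (by linarith)
    have h4 : Real.log ((m : ℝ) + 1) ≤ 30 * HS F p := by
      have h5 : 0 ≤ Real.log (1 + D / 2) := Real.log_nonneg (by linarith)
      linarith
    calc (∑ i, U (et i)) * Real.log (m + 1) ≤ m * Real.log (m + 1) :=
          mul_le_mul_of_nonneg_right h1 hl0
      _ ≤ m * (30 * HS F p) := mul_le_mul_of_nonneg_left h4 (by linarith)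
      _ = 30 * m * HS F p := by ring
  rcases lt_or_ge D (1 / 2) with hC | hC
  · -- case C
    rcases eq_or_lt_of_le hD0 with hz | hpos
    · have h1 : ∀ i, et i = 0 := by
        intro i
        have h2 := (sum_eq_zero_iff_of_nonneg (fun i _ => het0 i)).1 hz.symm
        exact h2 i (mem_univ i)
      have h2 : ∑ i, U (et i) = 0 := sum_eq_zero fun i _ => by rw [h1 i, U_zero]
      rw [h2, zero_mul]
      have h3 : 0 ≤ HS F p := by
        rw [← hz, zero_div, add_zero, Real.log_one, mul_zero] at hHS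
        exact hHS
      positivity
    · have hSM2 := hSM' hC.le
      have hm0 : (0 : ℝ) < m := by linarith
      have hlm : 0 ≤ Real.log m := Real.log_nonneg hm1
      have hlD : Real.log D ≤ -Real.log 2 := by
        have h1 := Real.log_le_log hpos hC.le
        rw [one_div, Real.log_inv] at h1
        exact h1
      have h1 : ∑ i, U (et i) ≤ D * (1 + Real.log m - Real.log D) := by
        have h2 : ∀ i ∈ (univ : Finset (Fin m)), U (et i) ≤
            et i * (1 + Real.log m - Real.log D) + (D / m - et i) := by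
          intro i _
          rcases eq_or_lt_of_le (het0 i) with h | h
          · have h3 : et i = 0 := h.symm
            rw [h3, U_zero, zero_mul, sub_zero, zero_add]
            positivity
          · have h3 : 0 < et i := h
            have h4 := Real.log_le_sub_one_of_pos (show 0 < D / m / et i by positivity)
            rw [Real.log_div (by positivity) h3.ne', Real.log_div hpos.ne' hm0.ne'] at h4
            have h5 := mul_le_mul_of_nonneg_left h4 h3.le
            have h6 : et i * (D / m / et i - 1) = D / m - et i := by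
              field_simp
            rw [h6] at h5
            unfold U
            linarith
        have h3 := sum_le_sum h2
        rw [sum_add_distrib, ← sum_mul, sum_sub_distrib, sum_const, card_univ, Fintype.card_fin,
          nsmul_eq_mul, ← hDdef, mul_div_cancel₀ _ hm0.ne', sub_self, add_zero] at h3
        exact h3
      have h2 : D * (1 + Real.log m - Real.log D) ≤ D * ((1 + Real.log m) * (1 - Real.log D)) := by
        refine mul_le_mul_of_nonneg_left ?_ hpos.le
        have h3 : 0 ≤ Real.log m * (-Real.log D) :=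
          mul_nonneg hlm (by have := Real.log_two_gt_d9; linarith)
        nlinarith
      have h3 : 4 / 5 * (1 - Real.log D) ≤ Real.log 2 - Real.log D := by
        have := Real.log_two_gt_d9
        linarith
      have h4 := log_C hm1
      have h5 : 0 ≤ 1 - Real.log D := by
        have := Real.log_two_gt_d9
        linarith
      calc (∑ i, U (et i)) * Real.log (m + 1)
          ≤ (D * ((1 + Real.log m) * (1 - Real.log D))) * Real.log (m + 1) :=
            mul_le_mul_of_nonneg_right (h1.trans h2) hl0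
        _ = D * (1 - Real.log D) * ((1 + Real.log m) * Real.log (m + 1)) := by ring
        _ ≤ D * (1 - Real.log D) * (4 * m) :=
            mul_le_mul_of_nonneg_left h4 (mul_nonneg hpos.le h5)
        _ = 10 * m * (D / 2 * (4 / 5 * (1 - Real.log D))) := by ring
        _ ≤ 10 * m * (D / 2 * (Real.log 2 - Real.log D)) := by
            refine mul_le_mul_of_nonneg_left (mul_le_mul_of_nonneg_left h3 ?_) ?_
            · linarith
            · linarith
        _ ≤ 30 * m * (D / 2 * (Real.log 2 - Real.log D)) := by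
            refine mul_le_mul_of_nonneg_right (by linarith) ?_
            refine mul_nonneg (by linarith) ?_
            linarith
        _ ≤ 30 * m * HS F p := mul_le_mul_of_nonneg_left hSM2 (by linarith)
  · -- case B
    have h1 : ∑ i, U (et i) ≤ 2 * √(m * D) := by
      have h2 : ∑ i, U (et i) ≤ ∑ i, 2 * √(et i) := sum_le_sum fun i _ => U_le_sqrt (het0 i)
      rw [← mul_sum] at h2
      refine h2.trans (mul_le_mul_of_nonneg_left ?_ (by norm_num))
      apply Real.le_sqrt_of_sq_le
      have h3 := sq_sum_le_card_mul_sum_sq (s := (univ : Finset (Fin m))) (f := fun i => √(et i))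
      rw [card_univ, Fintype.card_fin] at h3
      refine h3.trans (le_of_eq ?_)
      congr 1
      exact sum_congr rfl fun i _ => Real.sq_sqrt (het0 i)
    set z := √(√(m : ℝ)) with hz
    have hz0 : 0 ≤ z := Real.sqrt_nonneg _
    have hz2 : z ^ 2 = √(m : ℝ) := Real.sq_sqrt (Real.sqrt_nonneg _)
    have hz4 : z ^ 4 = m := by
      calc z ^ 4 = (z ^ 2) ^ 2 := by ring
        _ = (m : ℝ) := by rw [hz2, Real.sq_sqrt (by linarith)]
    have h2 : √(m * D) ≤ z ^ 3 := by
      apply Real.sqrt_le_iff.2 ⟨by positivity, ?_⟩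
      have h3 : (m : ℝ) * D ≤ m * z ^ 2 := by
        rw [hz2]
        exact mul_le_mul_of_nonneg_left hA.le (by linarith)
      calc (m : ℝ) * D ≤ m * z ^ 2 := h3
        _ = (z ^ 3) ^ 2 := by rw [← hz4]; ring
    have h4 := log_B hm
    rw [← hz] at h4
    have h5 : 1 / 9 ≤ HS F p := by
      have h6 : Real.log (5 / 4) ≤ Real.log (1 + D / 2) :=
        Real.log_le_log (by norm_num) (by linarith)
      have := log_54
      linarith
    calc (∑ i, U (et i)) * Real.log (m + 1) ≤ (2 * z ^ 3) * (5 / 3 * z) :=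
          mul_le_mul (h1.trans (mul_le_mul_of_nonneg_left h2 (by norm_num))) h4 hl0 (by positivity)
      _ = 10 / 3 * m := by rw [← hz4]; ring
      _ = 30 * m * (1 / 9) := by ring
      _ ≤ 30 * m * HS F p := mul_le_mul_of_nonneg_left h5 (by linarith)

end Pool.Agent.H64.ES.H747
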