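import Pool.Agent.H64.ES.Spec

/-!
# `S_TEST`: the entropy of an integer variable minus the gains of its tests
-/

set_option autoImplicit false

namespace Pool.Agent.H64.ES.H233

open Finset Real
open Pool.Agent.H64.ES
open Pool.Agent.H87.LL (gf bin_le)

theorem log_term' (x z : ℝ) (hx : 0 < x) (hz : 0 ≤ z) :
    z * -log (z / x) = z * log x - z * log z := by
  rcases hz.eq_or_lt with h | h
  · rw [← h]; simp
  · rw [Real.log_div h.ne' hx.ne']
    ring

theorem ent_term' (x y : ℝ) (hy : 0 ≤ y) (hxy : y ≤ x) :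
    x * Real.binEntropy (y / x) = x * log x - (x - y) * log (x - y) - y * log y := by
  rcases (hy.trans hxy).eq_or_lt with h | h
  · have : y = 0 := by linarith
    rw [← h, this]; simp
  · have h1 := log_term' x y h hy
    have h2 := log_term' x (x - y) h (by linarith)
    have h3 : 1 - y / x = (x - y) / x := by field_simp
    rw [Real.binEntropy, h3, Real.log_inv, Real.log_inv]
    have h4 : x * (y / x * -log (y / x) + (x - y) / x * -log ((x - y) / x)) =
        y * -log (y / x) + (x - y) * -log ((x - y) / x) := by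
      field_simp
    rw [h4, h1, h2]
    ring

theorem tele_ent' (n : ℕ → ℝ) (hn : Antitone n) (hn0 : ∀ v, 0 ≤ n v) (F : ℕ) :
    ∑ v ∈ Finset.range F, n v * Real.binEntropy (n (v + 1) / n v) =
      n 0 * log (n 0) - n F * log (n F) -
        ∑ v ∈ Finset.range F, (n v - n (v + 1)) * log (n v - n (v + 1)) := by
  induction F with
  | zero => simp
  | succ b ih =>
    rw [Finset.sum_range_succ, Finset.sum_range_succ, ih,
      ent_term' (n b) (n (b + 1)) (hn0 _) (hn (Nat.le_succ b))]
    ring

theorem U_mono (x y : ℝ) (hx : 0 ≤ x) (hxy : x ≤ y) (hy : y ≤ 1) : U x ≤ U y := by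
  unfold U
  have hy0 : 0 ≤ y := hx.trans hxy
  have hly : log y ≤ 0 := Real.log_nonpos hy0 hy
  rcases hx.eq_or_lt with h | h
  · rw [← h, zero_mul]
    exact mul_nonneg hy0 (by linarith)
  · have hy1 : 0 < y := lt_of_lt_of_le h hxy
    have h1 : log (y / x) ≤ y / x - 1 := Real.log_le_sub_one_of_pos (div_pos hy1 h)
    rw [Real.log_div hy1.ne' h.ne'] at h1
    have h2 : x * (log y - log x) ≤ x * (y / x - 1) := mul_le_mul_of_nonneg_left h1 hx
    have h3 : x * (y / x - 1) = y - x := by field_simp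
    rw [h3] at h2
    nlinarith [mul_nonneg (sub_nonneg.2 hxy) (neg_nonneg.2 hly)]

/-- the uncovered part of the test `f` -/
noncomputable def Dn (n : ℕ → ℝ) (f : ℕ) : ℝ :=
  n f * Real.binEntropy (n (f + 1) / n f) - n f * gf (n (f + 1) / n f)

theorem Dn_zero (n : ℕ → ℝ) (f : ℕ) (h : ¬ n (f + 1) / n f < 1 / 2) : Dn n f = 0 := by
  unfold Dn gf
  rw [if_neg h]
  ring

theorem Dn_le (n : ℕ → ℝ) (hn0 : ∀ v, 0 ≤ n v) (f : ℕ) (h : n (f + 1) / n f < 1 / 2) :
    Dn n f ≤ n (f + 1) * (log (n f) - log (n (f + 1))) ∨ n f = 0 := by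
  rcases (hn0 f).eq_or_lt with h0 | h0
  · right; exact h0.symm
  left
  unfold Dn gf
  rw [if_pos h]
  have h1 := bin_le (n (f + 1) / n f) (by linarith)
  have h2 := mul_le_mul_of_nonneg_left h1 h0.le
  have h3 := log_term' (n f) (n (f + 1)) h0 (hn0 _)
  have h4 : n f * (n (f + 1) / n f * -log (n (f + 1) / n f) + n (f + 1) / n f) =
      n (f + 1) * -log (n (f + 1) / n f) + n f * (n (f + 1) / n f) := by
    field_simp
  rw [h4, h3] at h2
  linarith

/-- the tail bound -/
theorem tailA (n : ℕ → ℝ) (hn : Antitone n) (hn0 : ∀ v, 0 ≤ n v) (F d : ℕ) :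
    ∀ a, a + d = F → ∑ f ∈ Finset.Ico a F, Dn n f ≤ n a := by
  induction d with
  | zero =>
    intro a ha
    have : a = F := by omega
    rw [this]
    simpa using hn0 F
  | succ d ih =>
    intro a ha
    rw [Finset.sum_eq_sum_Ico_succ_bot (by omega)]
    have h1 := ih (a + 1) (by omega)
    have h2 : n (a + 1) ≤ n a := hn (Nat.le_succ a)
    by_cases hθ : n (a + 1) / n a < 1 / 2
    · rcases Dn_le n hn0 a hθ with h3 | h3
      · rcases (hn0 (a + 1)).eq_or_lt with h4 | h4
        · rw [← h4, zero_mul] at h3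
          linarith
        · have h5 : 0 < n a := lt_of_lt_of_le h4 h2
          have h6 : log (n a / n (a + 1)) ≤ n a / n (a + 1) - 1 :=
            Real.log_le_sub_one_of_pos (div_pos h5 h4)
          rw [Real.log_div h5.ne' h4.ne'] at h6
          have h7 := mul_le_mul_of_nonneg_left h6 h4.le
          have h8 : n (a + 1) * (n a / n (a + 1) - 1) = n a - n (a + 1) := by field_simp
          rw [h8] at h7
          linarith
      · have h4 : Dn n a = 0 := by unfold Dn; rw [h3]; ring
        rw [h4]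
        linarith
    · rw [Dn_zero n a hθ]
      linarith

/-- the tail bound when the tails are small -/
theorem tailB (n : ℕ → ℝ) (hn : Antitone n) (hn0 : ∀ v, 0 ≤ n v) (hn1 : ∀ v, n v ≤ 1)
    (F d a₀ : ℕ) (η : ℝ) (h0 : 0 ≤ η) (h1 : η ≤ 1) (hη : ∀ f, a₀ ≤ f → n (f + 1) ≤ η) :
    ∀ a, a + d = F → a₀ ≤ a → ∑ f ∈ Finset.Ico a F, Dn n f ≤ U η := by
  have hU : 0 ≤ U η := by
    have := U_mono 0 η le_rfl h0 h1
    simpa [U] using this
  induction d with
  | zero =>
    intro a ha _
    have : a = F := by omega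
    rw [this]
    simpa using hU
  | succ d ih =>
    intro a ha haa
    by_cases hθ : n (a + 1) / n a < 1 / 2
    · have hA := tailA n hn hn0 F d (a + 1) (by omega)
      rw [Finset.sum_eq_sum_Ico_succ_bot (by omega)]
      have h2 : n (a + 1) ≤ n a := hn (Nat.le_succ a)
      have h9 : U (n (a + 1)) ≤ U η := U_mono _ _ (hn0 _) (hη a haa) h1
      have h10 : U (n (a + 1)) = n (a + 1) - n (a + 1) * log (n (a + 1)) := by
        unfold U; ring
      rcases Dn_le n hn0 a hθ with h3 | h3
      · have h4 : log (n a) ≤ 0 := Real.log_nonpos (hn0 a) (hn1 a)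
        have h5 := mul_nonneg (hn0 (a + 1)) (neg_nonneg.2 h4)
        nlinarith
      · have h4 : Dn n a = 0 := by unfold Dn; rw [h3]; ring
        have h5 : n (a + 1) = 0 := le_antisymm (h2.trans h3.le) (hn0 _)
        rw [h5] at hA
        rw [h4]
        linarith
    · rw [Finset.sum_eq_sum_Ico_succ_bot (by omega), Dn_zero n a hθ, zero_add]
      exact ih (a + 1) (by omega) (by omega)

theorem S_TEST_holds : Pool.Agent.H64.ES.S_TEST := by
  intro F p hp a₀ ha₀ hmax
  set n : ℕ → ℝ := tl F p with hn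
  have hanti : Antitone n := by
    intro a b hab
    refine Finset.sum_le_sum_of_subset_of_nonneg (Finset.Ico_subset_Ico_left hab) ?_
    intro i _ _
    exact hp.nn i
  have hnn : ∀ v, 0 ≤ n v := fun v => Finset.sum_nonneg fun i _ => hp.nn i
  have hn0 : n 0 = 1 := by
    have := hp.sum
    rw [Finset.range_eq_Ico] at this
    exact this
  have hnF : n F = 0 := by simp [hn, tl]
  have hn1 : ∀ v, n v ≤ 1 := fun v => hn0 ▸ hanti (Nat.zero_le v)
  have hstep : ∀ f < F, n f - n (f + 1) = p f := by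
    intro f hf
    simp only [hn, tl]
    rw [Finset.sum_eq_sum_Ico_succ_bot hf]
    ring
  have hH : Hp F p = ∑ v ∈ Finset.range F, n v * Real.binEntropy (n (v + 1) / n v) := by
    rw [tele_ent' n hanti hnn F, hn0, hnF, Hp]
    rw [Real.log_one, Real.log_zero, mul_zero, mul_zero, sub_zero, zero_sub,
      ← Finset.sum_neg_distrib]
    refine Finset.sum_congr rfl fun f hf => ?_
    rw [hstep f (Finset.mem_range.1 hf), Real.negMulLog]
    ring
  have hD : Hp F p - Gp F p = ∑ f ∈ Finset.Ico 0 F, Dn n f := by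
    rw [hH, Gp, ← Finset.sum_sub_distrib, Finset.range_eq_Ico]
    rfl
  rw [hD]
  have hp1 : p a₀ ≤ 1 := by
    rw [← hstep a₀ ha₀]
    have := hnn (a₀ + 1)
    have := hn1 a₀
    linarith
  have hp0 := hp.nn a₀
  set η := 1 - p a₀ with hη
  have hη0 : 0 ≤ η := by linarith
  have hη1 : η ≤ 1 := by linarith
  have hl : log η ≤ 0 := Real.log_nonpos hη0 hη1
  have hUη : η ≤ U η := by
    unfold U
    nlinarith [mul_nonneg hη0 (neg_nonneg.2 hl)]
  by_cases hc : 1 / 2 ≤ η
  · have := tailA n hanti hnn F F 0 (by omega)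
    rw [hn0] at this
    linarith
  · push Not at hc
    rw [← Finset.sum_Ico_consecutive _ (Nat.zero_le a₀) ha₀.le]
    have h1 : ∑ f ∈ Finset.Ico 0 a₀, Dn n f = 0 := by
      refine Finset.sum_eq_zero fun f hf => ?_
      have hf' := (Finset.mem_Ico.1 hf).2
      refine Dn_zero n f ?_
      have h2 : n a₀ ≤ n (f + 1) := hanti hf'
      have h3 := hstep a₀ ha₀
      have h4 := hnn (a₀ + 1)
      have h5 : 1 / 2 < n (f + 1) := by linarith
      have h6 : n (f + 1) ≤ n f := hanti (Nat.le_succ f)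
      have h7 : 0 < n f := by linarith
      rw [div_lt_iff₀ h7]
      have := hn1 f
      linarith
    have h2 := tailB n hanti hnn hn1 F (F - a₀) a₀ η hη0 hη1 (by
      intro f hf
      have h3 : n (f + 1) ≤ n (a₀ + 1) := hanti (by omega)
      have h4 := hstep a₀ ha₀
      have h5 := hn1 a₀
      linarith) a₀ (by omega) le_rfl
    rw [h1, zero_add]
    linarith

end Pool.Agent.H64.ES.H233
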