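import Mathlib
import Pool.Agent.H64.ES.Prod
import Pool.Agent.H64.ES.Pieces
import Pool.Agent.H64.ES.STest
import Pool.Agent.H64.ES.SSmall
import Pool.Agent.H64.ES.SAC
import Pool.Agent.H64.ES.SSum
import Pool.Agent.H64.ES.SChain

/-!
# Sums and products: the exponent `c log k`
-/

set_option autoImplicit false
set_option linter.unusedSectionVars false

namespace Pool.Agent.H64.ES

open Finset Real
open Pool.Agent.H87.LL (D2 Piece)
open Pool.Agent.Y359.LE (En En_le En_young')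
open scoped Pointwise

theorem sTEST : S_TEST := H233.S_TEST_holds
theorem sCHAIN : S_CHAIN := H120.S_CHAIN_holds
theorem sSUM : S_SUM :=
  H747.S_SUM_holds H860.S_AC_holds H740.S_SMALL_holds

/-- products of `m` elements -/
def pr {m : ℕ} (A : Fin m → Finset ℤ) : Finset ℤ := (Fintype.piFinset A).image fun f => ∏ i, f i

theorem Ce_pos (e : ℝ) (he : 0 < e) (he1 : e ≤ 1) : 0 ≤ Ce e := by
  unfold Ce
  have h1 : 0 ≤ log (200 / e) := by
    refine Real.log_nonneg ?_
    rw [le_div_iff₀ he]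
    linarith
  have h2 : 0 ≤ log 2 := Real.log_nonneg (by norm_num)
  positivity

theorem Ce_le (e : ℝ) (he : 0 < e) (he1 : e ≤ 1) : Ce e ≤ Real.exp (10 ^ 9 / e) := by
  unfold Ce
  have hy : 1 ≤ 1 / e := by rw [le_div_iff₀ he]; linarith
  obtain ⟨y, hyd⟩ : ∃ y, y = 1 / e := ⟨_, rfl⟩
  rw [← hyd] at hy
  have e1 : 2 / e = 2 * y := by rw [hyd]; ring
  have e2 : 200 / e = 200 * y := by rw [hyd]; ring
  have e3 : 10 ^ 9 / e = 10 ^ 9 * y := by rw [hyd]; ring
  rw [e1, e2, e3]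
  have h1 : log (200 * y) ≤ Real.exp (200 * y) := by
    have h2 := Real.log_le_sub_one_of_pos (show 0 < 200 * y by positivity)
    have h3 := Real.add_one_le_exp (200 * y)
    linarith
  have h0 : 0 ≤ log (200 * y) := Real.log_nonneg (by linarith)
  have h2 : 2 * Real.exp (10 ^ 8 * (2 * y + 1)) + 1 ≤ 3 * Real.exp (3 * 10 ^ 8 * y) := by
    have h3 : Real.exp (10 ^ 8 * (2 * y + 1)) ≤ Real.exp (3 * 10 ^ 8 * y) :=
      Real.exp_le_exp.2 (by nlinarith)
    have h4 : 1 ≤ Real.exp (3 * 10 ^ 8 * y) := Real.one_le_exp (by positivity)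
    linarith
  have h5 : (2 * Real.exp (10 ^ 8 * (2 * y + 1)) + 1) * log (200 * y) ≤
      3 * Real.exp (3 * 10 ^ 8 * y) * Real.exp (200 * y) :=
    mul_le_mul h2 h1 h0 (by positivity)
  have h6 : log 2 ≤ 1 := by
    have := Real.log_two_lt_d9
    linarith
  have h7 : 3 * Real.exp (3 * 10 ^ 8 * y) * Real.exp (200 * y) =
      3 * Real.exp (3 * 10 ^ 8 * y + 200 * y) := by rw [mul_assoc, ← Real.exp_add]
  have h8 : 1 ≤ Real.exp (3 * 10 ^ 8 * y + 200 * y) := Real.one_le_exp (by positivity)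
  have h9 : 4 * Real.exp (3 * 10 ^ 8 * y + 200 * y) ≤ Real.exp (10 ^ 9 * y) := by
    have h10 : (4 : ℝ) ≤ Real.exp 3 := by
      have := Real.add_one_le_exp (3 : ℝ)
      linarith
    calc 4 * Real.exp (3 * 10 ^ 8 * y + 200 * y) ≤
        Real.exp 3 * Real.exp (3 * 10 ^ 8 * y + 200 * y) :=
          mul_le_mul_of_nonneg_right h10 (Real.exp_pos _).le
      _ = Real.exp (3 + (3 * 10 ^ 8 * y + 200 * y)) := by rw [← Real.exp_add]
      _ ≤ Real.exp (10 ^ 9 * y) := Real.exp_le_exp.2 (by nlinarith)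
  rw [h7] at h5
  linarith

/-- Part 1, products of sets with few sums. -/
theorem part1 (m : ℕ) (hm : 1 ≤ m) (e : ℝ) (he : 0 < e) (he1 : e ≤ 1)
    (A P Q : Fin m → Finset ℤ) (hA : ∀ i, (A i).Nonempty)
    (h0 : ∀ i, (0 : ℤ) ∉ A i) (hP : ∀ i, (P i).Nonempty) (hQ : ∀ i, (Q i).Nonempty) :
    ∏ i, (((A i).card : ℝ) / (Real.exp (Real.exp (10 ^ 9 / e)) * ((P i).card : ℝ) ^ e *
      (((A i + P i).card : ℝ) / (P i).card) ^ 16 *
      (((P i + Q i).card : ℝ) / √(((P i).card : ℝ) * (Q i).card)) ^ 2000)) ^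
        (Real.log (m + 1) / (60 * m)) ≤ ((pr A).card : ℝ) := by
  have hm1 : (1 : ℝ) ≤ m := by exact_mod_cast hm
  have hl : 0 < log ((m : ℝ) + 1) := Real.log_pos (by linarith)
  have hmain := prod_log sTEST sSUM sCHAIN e he he1 m hm A P Q hA h0 hP hQ
  have cA : ∀ i, (0 : ℝ) < (A i).card := fun i => by exact_mod_cast (hA i).card_pos
  have cP : ∀ i, (0 : ℝ) < (P i).card := fun i => by exact_mod_cast (hP i).card_pos
  have cQ : ∀ i, (0 : ℝ) < (Q i).card := fun i => by exact_mod_cast (hQ i).card_pos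
  have cAP : ∀ i, (0 : ℝ) < (A i + P i).card := fun i => by
    exact_mod_cast ((hA i).add (hP i)).card_pos
  have cPQ : ∀ i, (0 : ℝ) < (P i + Q i).card := fun i => by
    exact_mod_cast ((hP i).add (hQ i)).card_pos
  have cpr : (0 : ℝ) < (pr A).card := by
    have h1 : (pr A).Nonempty := (Fintype.piFinset_nonempty.2 hA).image _
    exact_mod_cast h1.card_pos
  obtain ⟨T, hT⟩ : ∃ T : Fin m → ℝ, T = fun i => (((A i).card : ℝ) /
      (Real.exp (Real.exp (10 ^ 9 / e)) * ((P i).card : ℝ) ^ e *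
      (((A i + P i).card : ℝ) / (P i).card) ^ 16 *
      (((P i + Q i).card : ℝ) / √(((P i).card : ℝ) * (Q i).card)) ^ 2000)) := ⟨_, rfl⟩
  have hTpos : ∀ i, 0 < T i := by
    intro i
    rw [hT]
    have h1 := cA i
    have h2 := cP i
    have h3 := cQ i
    have h4 := cAP i
    have h5 := cPQ i
    positivity
  have hTlog : ∀ i, log (T i) = log ((A i).card : ℝ) -
      (16 * (log ((A i + P i).card : ℝ) - log ((P i).card : ℝ)) +
      (2000 * D2 (P i) (Q i) + e * log ((P i).card : ℝ))) - Real.exp (10 ^ 9 / e) := by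
    intro i
    have h1 := cA i
    have h2 := cP i
    have h3 := cQ i
    have h4 := cAP i
    have h5 := cPQ i
    have hs : 0 < √(((P i).card : ℝ) * (Q i).card) := by positivity
    rw [hT]
    simp only
    rw [Real.log_div h1.ne' (by positivity), Real.log_mul (by positivity) (by positivity),
      Real.log_mul (by positivity) (by positivity), Real.log_mul (by positivity) (by positivity),
      Real.log_exp, Real.log_rpow h2, Real.log_pow, Real.log_pow,
      Real.log_div h4.ne' h2.ne', Real.log_div h5.ne' hs.ne', Real.log_sqrt (by positivity),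
      Real.log_mul h2.ne' h3.ne']
    unfold D2
    push_cast
    ring
  have hsum : ∑ i, log (T i) ≤ 60 * m / log (m + 1) * log ((pr A).card : ℝ) := by
    refine le_trans (Finset.sum_le_sum fun i _ => ?_) hmain
    rw [hTlog i]
    have := Ce_le e he he1
    linarith
  have hgoal : ∏ i, (T i) ^ (Real.log (m + 1) / (60 * m)) ≤ ((pr A).card : ℝ) := by
    rw [← Real.log_le_log_iff (Finset.prod_pos fun i _ => Real.rpow_pos_of_pos (hTpos i) _) cpr,
      Real.log_prod (fun i _ => (Real.rpow_pos_of_pos (hTpos i) _).ne')]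
    have h1 : ∑ i, log ((T i) ^ (Real.log (m + 1) / (60 * m))) =
        Real.log (m + 1) / (60 * m) * ∑ i, log (T i) := by
      rw [Finset.mul_sum]
      exact Finset.sum_congr rfl fun i _ => Real.log_rpow (hTpos i) _
    rw [h1]
    have h2 := mul_le_mul_of_nonneg_left hsum
      (show 0 ≤ Real.log ((m : ℝ) + 1) / (60 * m) by positivity)
    refine h2.trans (le_of_eq ?_)
    field_simp
  rw [hT] at hgoal
  exact hgoal

/-- products of `m` elements of one set -/
def pw (A : Finset ℤ) (m : ℕ) : Finset ℤ :=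
  (Fintype.piFinset fun _ : Fin m => A).image fun f => ∏ i, f i

/-- sums of `m` elements of one set -/
def sw (A : Finset ℤ) (m : ℕ) : Finset ℤ :=
  (Fintype.piFinset fun _ : Fin m => A).image fun f => ∑ i, f i

theorem pw_mono {A B : Finset ℤ} (h : A ⊆ B) (m : ℕ) : pw A m ⊆ pw B m := by
  unfold pw
  exact Finset.image_subset_image (Fintype.piFinset_subset _ _ fun _ => h)

theorem sw_mono {A B : Finset ℤ} (h : A ⊆ B) (m : ℕ) : sw A m ⊆ sw B m := by
  unfold sw
  exact Finset.image_subset_image (Fintype.piFinset_subset _ _ fun _ => h)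

theorem pw_pos {A : Finset ℤ} (h : A.Nonempty) (m : ℕ) : (1 : ℝ) ≤ (pw A m).card := by
  have h1 : (pw A m).Nonempty := (Fintype.piFinset_nonempty.2 fun _ => h).image _
  exact_mod_cast h1.card_pos

/-- one set with few sums -/
theorem one_set (m : ℕ) (hm : 1 ≤ m) (e : ℝ) (he : 0 < e) (he1 : e ≤ 1)
    (D P : Finset ℤ) (hD : D.Nonempty) (h0 : (0 : ℤ) ∉ D) (hP : P.Nonempty) (X p : ℝ)
    (h1 : ((D + -P).card : ℝ) ≤ Real.exp X * P.card)
    (h2 : ((-P + P).card : ℝ) ≤ Real.exp X * P.card) (h3 : log (P.card : ℝ) ≤ p) :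
    Real.log (m + 1) / 60 * (log (D.card : ℝ) - 2016 * X - e * p - Ce e) ≤
      log ((pw D m).card : ℝ) := by
  have hm1 : (1 : ℝ) ≤ m := by exact_mod_cast hm
  have hl : 0 < log ((m : ℝ) + 1) := Real.log_pos (by linarith)
  have hmain := prod_log sTEST sSUM sCHAIN e he he1 m hm (fun _ => D) (fun _ => -P) (fun _ => P)
    (fun _ => hD) (fun _ => h0) (fun _ => hP.neg) (fun _ => hP)
  rw [Finset.sum_const, Finset.card_univ, Fintype.card_fin, nsmul_eq_mul] at hmain
  have cP : (0 : ℝ) < P.card := by exact_mod_cast hP.card_pos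
  have cDP : (0 : ℝ) < (D + -P).card := by exact_mod_cast (hD.add hP.neg).card_pos
  have cPP : (0 : ℝ) < (-P + P).card := by exact_mod_cast (hP.neg.add hP).card_pos
  have e1 : log ((D + -P).card : ℝ) - log ((-P).card : ℝ) ≤ X := by
    rw [Finset.card_neg]
    have := Real.log_le_log cDP h1
    rw [Real.log_mul (Real.exp_pos _).ne' cP.ne', Real.log_exp] at this
    linarith
  have e2 : D2 (-P) P ≤ X := by
    unfold D2
    rw [Finset.card_neg]
    have := Real.log_le_log cPP h2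
    rw [Real.log_mul (Real.exp_pos _).ne' cP.ne', Real.log_exp] at this
    linarith
  have e3 : e * log ((-P).card : ℝ) ≤ e * p := by
    rw [Finset.card_neg]
    exact mul_le_mul_of_nonneg_left h3 he.le
  have h4 : (m : ℝ) * (log (D.card : ℝ) - 2016 * X - e * p - Ce e) ≤
      60 * m / log (m + 1) * log ((pw D m).card : ℝ) := by
    refine le_trans (mul_le_mul_of_nonneg_left ?_ (by linarith)) hmain
    linarith
  have h5 := mul_le_mul_of_nonneg_left h4 (show 0 ≤ Real.log ((m : ℝ) + 1) / (60 * m) by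
    positivity)
  have e4 : Real.log ((m : ℝ) + 1) / (60 * m) * ((m : ℝ) *
      (log (D.card : ℝ) - 2016 * X - e * p - Ce e)) =
      Real.log (m + 1) / 60 * (log (D.card : ℝ) - 2016 * X - e * p - Ce e) := by
    field_simp
  have e5 : Real.log ((m : ℝ) + 1) / (60 * m) * (60 * m / log (m + 1) *
      log ((pw D m).card : ℝ)) = log ((pw D m).card : ℝ) := by
    field_simp
  rw [e4, e5] at h5
  exact h5

/-- Part 2, the decomposition. -/
theorem part2 (J : ℕ) : ∃ C : ℕ → ℝ, (∀ m, 0 < C m) ∧ ∀ A : Finset ℤ, ∃ B ⊆ A,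
    (∀ j ≤ J, ∀ k : ℕ, 2 ^ j ≤ k →
      (En B k : ℝ) ≤ (A.card : ℝ) ^ (2 * (k : ℝ) - 1 - j / (2 * 10 ^ 5))) ∧
    ∀ S ⊆ A \ B, ∀ m : ℕ, 1 ≤ m →
      C m * ((S.card : ℝ) / (A.card : ℝ) ^ (1 / 4 : ℝ)) ^ (Real.log (m + 1) / 60) ≤
        ((pw S m).card : ℝ) := by
  classical
  obtain ⟨δ, hδd⟩ : ∃ δ : ℝ, δ = 1 / (2 * 10 ^ 5) := ⟨_, rfl⟩
  have hδ : 0 < δ := by rw [hδd]; positivity
  obtain ⟨t₀, ht₀, hpc⟩ := pieces J δ hδ
  obtain ⟨e, hed⟩ : ∃ e : ℝ, e = 1 / (64 * 2 ^ J) := ⟨_, rfl⟩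
  have h2J : (1 : ℝ) ≤ 2 ^ J := one_le_pow₀ (by norm_num)
  have he : 0 < e := by rw [hed]; positivity
  have he1 : e ≤ 1 := by
    rw [hed, div_le_one (by positivity)]
    linarith
  have hCe := Ce_pos e he he1
  have hlog2 : 0 < log 2 := Real.log_pos (by norm_num)
  refine ⟨fun m => Real.exp (-(Real.log (m + 1) / 60 * (t₀ + Ce e + log 2))),
    fun m => Real.exp_pos _, ?_⟩
  intro A
  by_cases hsmall : Real.log A.card < t₀
  · refine ⟨∅, Finset.empty_subset _, ?_, ?_⟩
    · intro j _ m hm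
      have hm1 : 1 ≤ m := Nat.one_le_two_pow.trans hm
      have h1 : En ∅ m ≤ 0 := by
        refine (En_le ∅ m).trans ?_
        have : 2 * m ≠ 0 := by omega
        simp [this]
      have h2 : (En ∅ m : ℝ) ≤ 0 := by exact_mod_cast h1
      exact h2.trans (Real.rpow_nonneg (Nat.cast_nonneg _) _)
    · intro S hS m hm
      have hm1 : (1 : ℝ) ≤ m := by exact_mod_cast hm
      have hl : 0 < log ((m : ℝ) + 1) := Real.log_pos (by linarith)
      have hx : 0 < Real.log ((m : ℝ) + 1) / 60 := by positivity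
      rcases S.eq_empty_or_nonempty with h0 | hSn
      · rw [h0]
        simp only [Finset.card_empty, Nat.cast_zero, zero_div]
        rw [Real.zero_rpow hx.ne', mul_zero]
        positivity
      · refine le_trans ?_ (pw_pos hSn m)
        have hSA : S ⊆ A := hS.trans Finset.sdiff_subset
        have cA : (1 : ℝ) ≤ A.card := by exact_mod_cast (hSn.mono hSA).card_pos
        have cS : (0 : ℝ) < S.card := by exact_mod_cast hSn.card_pos
        have h1 : (S.card : ℝ) / (A.card : ℝ) ^ (1 / 4 : ℝ) ≤ Real.exp t₀ := by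
          have h2 : (1 : ℝ) ≤ (A.card : ℝ) ^ (1 / 4 : ℝ) := Real.one_le_rpow cA (by norm_num)
          have h3 : (S.card : ℝ) / (A.card : ℝ) ^ (1 / 4 : ℝ) ≤ S.card :=
            div_le_self cS.le h2
          have h4 : (S.card : ℝ) ≤ A.card := by exact_mod_cast Finset.card_le_card hSA
          have h5 : (A.card : ℝ) ≤ Real.exp t₀ := by
            rw [← Real.log_le_iff_le_exp (by linarith)]
            exact hsmall.le
          linarith
        have h6 := Real.rpow_le_rpow (by positivity) h1 hx.le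
        rw [← Real.exp_mul] at h6
        calc _ ≤ Real.exp (-(Real.log (m + 1) / 60 * (t₀ + Ce e + log 2))) *
              Real.exp (t₀ * (Real.log (m + 1) / 60)) :=
              mul_le_mul_of_nonneg_left h6 (Real.exp_pos _).le
          _ = Real.exp (-(Real.log (m + 1) / 60 * (Ce e + log 2))) := by
              rw [← Real.exp_add]; congr 1; ring
          _ ≤ 1 := by
              rw [Real.exp_le_one_iff]
              have : 0 ≤ Real.log ((m : ℝ) + 1) / 60 * (Ce e + log 2) := by positivity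
              linarith
  push Not at hsmall
  obtain ⟨B, hBA, hEn, 𝒟, h𝒟c, h𝒟u, h𝒟p⟩ := hpc A hsmall
  obtain ⟨ℓ, hℓ⟩ : ∃ ℓ, ℓ = Real.log A.card := ⟨_, rfl⟩
  rw [← hℓ] at h𝒟c h𝒟p hsmall
  have hℓ1 : 1 ≤ ℓ := ht₀.trans hsmall
  refine ⟨B, hBA, ?_, ?_⟩
  · intro j hj k hk
    have h := hEn j hj k hk
    rw [hδd] at h
    refine h.trans (le_of_eq ?_)
    congr 1
    ring
  · intro S hS m hm
    have hm1 : (1 : ℝ) ≤ m := by exact_mod_cast hm
    have hl : 0 < log ((m : ℝ) + 1) := Real.log_pos (by linarith)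
    obtain ⟨x, hxd⟩ : ∃ x, x = Real.log ((m : ℝ) + 1) / 60 := ⟨_, rfl⟩
    have hx : 0 < x := by rw [hxd]; positivity
    beta_reduce
    rw [← hxd]
    rcases S.eq_empty_or_nonempty with h0 | hSn
    · rw [h0]
      simp only [Finset.card_empty, Nat.cast_zero, zero_div]
      rw [Real.zero_rpow hx.ne', mul_zero]
      positivity
    have hSA : S ⊆ A := hS.trans Finset.sdiff_subset
    have cA : (1 : ℝ) ≤ A.card := by exact_mod_cast (hSn.mono hSA).card_pos
    have cA0 : (0 : ℝ) < A.card := by linarith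
    have cS : (0 : ℝ) < S.card := by exact_mod_cast hSn.card_pos
    have cS1 : (1 : ℝ) ≤ S.card := by exact_mod_cast hSn.card_pos
    have hAexp : (A.card : ℝ) ^ (1 / 4 : ℝ) = Real.exp (ℓ / 4) := by
      rw [Real.rpow_def_of_pos cA0, ← hℓ]; congr 1; ring
    have hlhs : Real.exp (-(x * (t₀ + Ce e + log 2))) *
        ((S.card : ℝ) / (A.card : ℝ) ^ (1 / 4 : ℝ)) ^ x =
        Real.exp (x * (log (S.card : ℝ) - ℓ / 4 - (t₀ + Ce e + log 2))) := by
      rw [hAexp, Real.rpow_def_of_pos (by positivity),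
        Real.log_div cS.ne' (Real.exp_pos _).ne', Real.log_exp, ← Real.exp_add]
      congr 1
      ring
    rw [hlhs]
    have cpw := pw_pos hSn m
    -- remove zero
    obtain ⟨S', hS'd⟩ : ∃ S', S' = S.erase 0 := ⟨_, rfl⟩
    have hS'S : S' ⊆ S := by rw [hS'd]; exact Finset.erase_subset _ _
    have hS'0 : (0 : ℤ) ∉ S' := by rw [hS'd]; exact Finset.notMem_erase 0 S
    have hS'c : (S.card : ℝ) ≤ S'.card + 1 := by
      have h1 : S.card ≤ S'.card + 1 := by
        rw [hS'd]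
        have := Finset.pred_card_le_card_erase (s := S) (a := (0 : ℤ))
        omega
      exact_mod_cast h1
    rcases S'.eq_empty_or_nonempty with h0 | hS'n
    · rw [h0] at hS'c
      simp only [Finset.card_empty, Nat.cast_zero, zero_add] at hS'c
      have h1 : log (S.card : ℝ) ≤ 0 := Real.log_nonpos cS.le hS'c
      refine le_trans ?_ cpw
      rw [Real.exp_le_one_iff]
      have h2 : log (S.card : ℝ) - ℓ / 4 - (t₀ + Ce e + log 2) ≤ 0 := by linarith
      nlinarith
    have cS' : (1 : ℝ) ≤ S'.card := by exact_mod_cast hS'n.card_pos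
    have hS'2 : (S.card : ℝ) ≤ 2 * S'.card := by linarith
    -- the best piece
    obtain ⟨D, hD𝒟, hDbig⟩ : ∃ D ∈ 𝒟, (S'.card : ℝ) ≤ 𝒟.card * ((S' ∩ D).card : ℝ) := by
      by_contra hcon
      push Not at hcon
      have h1 : S' ⊆ 𝒟.biUnion fun D => S' ∩ D := by
        intro s hs
        have h2 := h𝒟u (hS (hS'S hs))
        obtain ⟨D, hD, hsD⟩ := Finset.mem_biUnion.1 h2
        exact Finset.mem_biUnion.2 ⟨D, hD, Finset.mem_inter.2 ⟨hs, hsD⟩⟩
      have h𝒟n : 𝒟.Nonempty := by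
        obtain ⟨s, hs⟩ := hS'n
        obtain ⟨D, hD, -⟩ := Finset.mem_biUnion.1 (h1 hs)
        exact ⟨D, hD⟩
      have h2 : (S'.card : ℝ) ≤ ∑ D ∈ 𝒟, ((S' ∩ D).card : ℝ) := by
        exact_mod_cast (Finset.card_le_card h1).trans Finset.card_biUnion_le
      have c𝒟 : (0 : ℝ) < 𝒟.card := by exact_mod_cast h𝒟n.card_pos
      have h3 : 𝒟.card * ∑ D ∈ 𝒟, ((S' ∩ D).card : ℝ) < 𝒟.card * S'.card := by
        rw [Finset.mul_sum]
        calc ∑ D ∈ 𝒟, (𝒟.card : ℝ) * ((S' ∩ D).card : ℝ) < ∑ _D ∈ 𝒟, (S'.card : ℝ) :=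
              Finset.sum_lt_sum_of_nonempty h𝒟n fun D hD => hcon D hD
          _ = 𝒟.card * S'.card := by rw [Finset.sum_const, nsmul_eq_mul]
      have h4 := lt_of_mul_lt_mul_left h3 c𝒟.le
      linarith
    have c𝒟 : (0 : ℝ) < 𝒟.card := by
      have : 𝒟.Nonempty := ⟨D, hD𝒟⟩
      exact_mod_cast this.card_pos
    have hDn : (S' ∩ D).Nonempty := by
      by_contra h
      rw [Finset.not_nonempty_iff_eq_empty] at h
      rw [h] at hDbig
      simp only [Finset.card_empty, Nat.cast_zero, mul_zero] at hDbig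
      linarith
    have cDn : (0 : ℝ) < (S' ∩ D).card := by exact_mod_cast hDn.card_pos
    obtain ⟨P, hPn, hP1, hP2, hP3⟩ := h𝒟p D hD𝒟
    have cP : (0 : ℝ) < P.card := by exact_mod_cast hPn.card_pos
    have hP1' : ((S' ∩ D + -P).card : ℝ) ≤ Real.exp (21 * δ * ℓ) * P.card := by
      refine le_trans ?_ hP1
      exact_mod_cast Finset.card_le_card (Finset.add_subset_add_right Finset.inter_subset_right)
    have hPl : log (P.card : ℝ) ≤ 2 ^ J * ℓ := by
      have h1 := Real.log_le_log cP hP3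
      rw [Real.log_pow, ← hℓ] at h1
      push_cast at h1
      exact h1
    have hone := one_set m hm e he he1 (S' ∩ D) P hDn
      (fun h => hS'0 (Finset.mem_inter.1 h).1) hPn (21 * δ * ℓ) (2 ^ J * ℓ) hP1' hP2 hPl
    rw [← hxd] at hone
    have hmono : log ((pw (S' ∩ D) m).card : ℝ) ≤ log ((pw S m).card : ℝ) := by
      refine Real.log_le_log (by linarith [pw_pos hDn m]) ?_
      exact_mod_cast Finset.card_le_card
        (pw_mono ((Finset.inter_subset_left).trans hS'S) m)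
    have hDlog : log (S.card : ℝ) - log 2 - 6 * δ * ℓ ≤ log ((S' ∩ D).card : ℝ) := by
      have h1 : (S.card : ℝ) ≤ 2 * (Real.exp (6 * δ * ℓ) * ((S' ∩ D).card : ℝ)) := by
        have h2 : (𝒟.card : ℝ) * ((S' ∩ D).card : ℝ) ≤
            Real.exp (6 * δ * ℓ) * ((S' ∩ D).card : ℝ) :=
          mul_le_mul_of_nonneg_right h𝒟c cDn.le
        linarith
      have h3 := Real.log_le_log cS h1
      rw [Real.log_mul (by norm_num) (by positivity),
        Real.log_mul (Real.exp_pos _).ne' cDn.ne', Real.log_exp] at h3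
      linarith
    have he2 : e * (2 ^ J * ℓ) = ℓ / 64 := by
      rw [hed]
      field_simp
    have hfin : log (S.card : ℝ) - ℓ / 4 - (t₀ + Ce e + log 2) ≤
        log ((S' ∩ D).card : ℝ) - 2016 * (21 * δ * ℓ) - e * (2 ^ J * ℓ) - Ce e := by
      rw [he2, hδd]
      rw [hδd] at hDlog
      linarith
    have h8 : x * (log (S.card : ℝ) - ℓ / 4 - (t₀ + Ce e + log 2)) ≤
        log ((pw S m).card : ℝ) :=
      (mul_le_mul_of_nonneg_left hfin hx.le).trans (hone.trans hmono)
    rw [← Real.le_log_iff_exp_le (by linarith)]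
    exact h8

/-- Cauchy–Schwarz: energies and sumsets -/
theorem card_pow_le (B : Finset ℤ) (k : ℕ) :
    (B.card : ℝ) ^ (2 * k) ≤ ((sw B k).card : ℝ) * En B k := by
  have h1 := Pool.Agent.Y359.LE.rep_total B k (sw B k) (Finset.Subset.refl _)
  have h2 := Pool.Agent.Y359.LE.En_eq B k (sw B k) (Finset.Subset.refl _)
  have h3 := sq_sum_le_card_mul_sum_sq (s := sw B k)
    (f := fun z => (Pool.Agent.Y359.LE.rep B k z : ℝ))
  have h4 : ∑ z ∈ sw B k, (Pool.Agent.Y359.LE.rep B k z : ℝ) = (B.card : ℝ) ^ k := by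
    exact_mod_cast h1
  have h5 : ∑ z ∈ sw B k, (Pool.Agent.Y359.LE.rep B k z : ℝ) ^ 2 = (En B k : ℝ) := by
    rw [h2]
    push_cast
    rfl
  rw [h4, h5] at h3
  calc (B.card : ℝ) ^ (2 * k) = ((B.card : ℝ) ^ k) ^ 2 := by rw [← pow_mul]; ring_nf
    _ ≤ _ := h3

theorem log_le_natlog (k : ℕ) (hk : 1 ≤ k) : Real.log k / 2 ≤ (Nat.log 2 k : ℝ) := by
  rcases Nat.eq_zero_or_pos (Nat.log 2 k) with h | h
  · have h1 : k = 1 := by
      have h2 : k < 2 := by
        have := Nat.lt_pow_succ_log_self (b := 2) (by norm_num) k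
        rw [h] at this
        simpa using this
      omega
    rw [h1]
    simp
  · have h1 : k < 2 ^ (Nat.log 2 k + 1) := Nat.lt_pow_succ_log_self (by norm_num) k
    have h2 : (k : ℝ) ≤ 2 ^ (Nat.log 2 k + 1) := by exact_mod_cast h1.le
    have h3 := Real.log_le_log (by exact_mod_cast hk) h2
    rw [Real.log_pow] at h3
    push_cast at h3
    have h4 : (1 : ℝ) ≤ Nat.log 2 k := by exact_mod_cast h
    have h5 := Real.log_two_lt_d9
    have h6 : ((Nat.log 2 k : ℝ) + 1) * log 2 ≤ ((Nat.log 2 k : ℝ) + 1) * 0.6931471808 :=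
      mul_le_mul_of_nonneg_left h5.le (by linarith)
    norm_num at h6
    linarith

/-- Part 3, sums and products. -/
theorem part3 (k m : ℕ) (hk : 1 ≤ k) (hm : 1 ≤ m) : ∃ c : ℝ, 0 < c ∧
    ∀ A : Finset ℤ, A.Nonempty →
      c * (A.card : ℝ) ^ (1 + Real.log k / (4 * 10 ^ 5)) ≤ ((sw A k).card : ℝ) ∨
      c * (A.card : ℝ) ^ (Real.log (m + 1) / 80) ≤ ((pw A m).card : ℝ) := by
  classical
  obtain ⟨J, hJ⟩ : ∃ J, J = Nat.log 2 k := ⟨_, rfl⟩
  obtain ⟨C, hC0, hC⟩ := part2 J
  have hm1 : (1 : ℝ) ≤ m := by exact_mod_cast hm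
  have hl : 0 < log ((m : ℝ) + 1) := Real.log_pos (by linarith)
  have hk1 : (1 : ℝ) ≤ k := by exact_mod_cast hk
  obtain ⟨x, hxd⟩ : ∃ x, x = Real.log ((m : ℝ) + 1) / 60 := ⟨_, rfl⟩
  have hx : 0 < x := by rw [hxd]; positivity
  have hJk : 2 ^ J ≤ k := by
    rw [hJ]
    exact Nat.pow_log_le_self 2 (by omega)
  have hJl : Real.log k / 2 ≤ (J : ℝ) := by
    rw [hJ]
    exact log_le_natlog k hk
  refine ⟨min ((1 / 4) ^ k) (C m * (1 / 2 : ℝ) ^ x), lt_min (by positivity)
    (mul_pos (hC0 m) (by positivity)), ?_⟩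
  intro A hA
  have cA : (1 : ℝ) ≤ A.card := by exact_mod_cast hA.card_pos
  have cA0 : (0 : ℝ) < A.card := by linarith
  obtain ⟨B, hBA, hEn, hS⟩ := hC A
  rcases le_or_gt (A.card : ℝ) (2 * B.card) with hcase | hcase
  · left
    have h1 := card_pow_le B k
    have h2 := hEn J le_rfl k hJk
    have h3 : ((sw B k).card : ℝ) ≤ (sw A k).card := by
      exact_mod_cast Finset.card_le_card (sw_mono hBA k)
    have h4 : ((A.card : ℝ) / 2) ^ (2 * k) ≤ (B.card : ℝ) ^ (2 * k) :=
      pow_le_pow_left₀ (by positivity) (by linarith) _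
    have h5 : ((sw B k).card : ℝ) * En B k ≤ ((sw A k).card : ℝ) *
        (A.card : ℝ) ^ (2 * (k : ℝ) - 1 - J / (2 * 10 ^ 5)) :=
      mul_le_mul h3 h2 (Nat.cast_nonneg _) (Nat.cast_nonneg _)
    have h6 : (1 / 4 : ℝ) ^ k * (A.card : ℝ) ^ (1 + (J : ℝ) / (2 * 10 ^ 5)) *
        (A.card : ℝ) ^ (2 * (k : ℝ) - 1 - J / (2 * 10 ^ 5)) = ((A.card : ℝ) / 2) ^ (2 * k) := by
      rw [mul_assoc, ← Real.rpow_add cA0]
      have e1 : 1 + (J : ℝ) / (2 * 10 ^ 5) + (2 * (k : ℝ) - 1 - J / (2 * 10 ^ 5)) =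
          ((2 * k : ℕ) : ℝ) := by push_cast; ring
      have e2 : (1 / 4 : ℝ) ^ k = (1 / 2 : ℝ) ^ (2 * k) := by
        rw [pow_mul]; norm_num
      rw [e1, Real.rpow_natCast, e2, ← mul_pow]
      congr 1
      ring
    have h7 : (1 / 4 : ℝ) ^ k * (A.card : ℝ) ^ (1 + (J : ℝ) / (2 * 10 ^ 5)) ≤
        ((sw A k).card : ℝ) := by
      have h8 : 0 < (A.card : ℝ) ^ (2 * (k : ℝ) - 1 - J / (2 * 10 ^ 5)) :=
        Real.rpow_pos_of_pos cA0 _
      refine le_of_mul_le_mul_right ?_ h8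
      rw [h6]
      linarith
    refine le_trans ?_ h7
    refine mul_le_mul (min_le_left _ _) ?_ (by positivity) (by positivity)
    refine Real.rpow_le_rpow_of_exponent_le cA ?_
    have : Real.log k / (4 * 10 ^ 5) ≤ (J : ℝ) / (2 * 10 ^ 5) := by
      rw [div_le_div_iff₀ (by positivity) (by positivity)]
      nlinarith
    linarith
  · right
    have h1 := hS (A \ B) (Finset.Subset.refl _) m hm
    have h2 : (A.card : ℝ) / 2 ≤ ((A \ B).card : ℝ) := by
      have h3 : (A.card : ℝ) = (A \ B).card + B.card := by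
        exact_mod_cast (Finset.card_sdiff_add_card_eq_card hBA).symm
      linarith
    have h3 : ((pw (A \ B) m).card : ℝ) ≤ (pw A m).card := by
      exact_mod_cast Finset.card_le_card (pw_mono Finset.sdiff_subset m)
    refine le_trans ?_ (h1.trans h3)
    rw [← hxd]
    have h4 : (1 / 2 : ℝ) * (A.card : ℝ) ^ (3 / 4 : ℝ) ≤
        ((A \ B).card : ℝ) / (A.card : ℝ) ^ (1 / 4 : ℝ) := by
      rw [le_div_iff₀ (Real.rpow_pos_of_pos cA0 _), mul_assoc, ← Real.rpow_add cA0]
      norm_num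
      linarith
    have h5 := Real.rpow_le_rpow (by positivity) h4 hx.le
    rw [Real.mul_rpow (by norm_num) (Real.rpow_nonneg cA0.le _), ← Real.rpow_mul cA0.le] at h5
    have e1 : (3 / 4 : ℝ) * x = Real.log (m + 1) / 80 := by rw [hxd]; ring
    rw [e1] at h5
    calc min ((1 / 4) ^ k) (C m * (1 / 2 : ℝ) ^ x) * (A.card : ℝ) ^ (Real.log (m + 1) / 80) ≤
        (C m * (1 / 2 : ℝ) ^ x) * (A.card : ℝ) ^ (Real.log (m + 1) / 80) :=
          mul_le_mul_of_nonneg_right (min_le_right _ _) (Real.rpow_nonneg cA0.le _)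
      _ = C m * ((1 / 2 : ℝ) ^ x * (A.card : ℝ) ^ (Real.log (m + 1) / 80)) := by ring
      _ ≤ _ := mul_le_mul_of_nonneg_left h5 (hC0 m).le

end Pool.Agent.H64.ES
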