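import Mathlib
import Pool.Agent.H64.ES.Energy
import Pool.Agent.H64.ES.Final

/-!
# The low energy decomposition with exponent `c log k`
-/

set_option autoImplicit false
set_option linter.unusedSectionVars false

namespace Pool.Agent.H64.ES

open Finset Real
open Pool.Agent.H87.LL (D2 Piece Fac fac_union divisor)
open Pool.Agent.Y359.LE (En En_le En_young')
open scoped Pointwise

theorem EM_card_le {m : ℕ} (A : Fin m → Finset ℤ) :
    ((EM A).card : ℝ) ≤ (∏ i, ((A i).card : ℝ)) ^ 2 := by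
  have h1 : (EM A).card ≤ (∏ i, (A i).card) * ∏ i, (A i).card := by
    unfold EM
    refine (Finset.card_filter_le _ _).trans ?_
    rw [Finset.card_product, Fintype.card_piFinset]
  have h2 : ((EM A).card : ℝ) ≤ (∏ i, ((A i).card : ℝ)) * ∏ i, ((A i).card : ℝ) := by
    exact_mod_cast h1
  rw [sq]
  exact h2

theorem alpha_ge (m : ℕ) (hm : 1 ≤ m) : (1 : ℝ) ≤ 60 * m / log (m + 1) := by
  have hm1 : (1 : ℝ) ≤ m := by exact_mod_cast hm
  have hl : 0 < log ((m : ℝ) + 1) := Real.log_pos (by linarith)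
  rw [le_div_iff₀ hl]
  have := Real.log_le_sub_one_of_pos (show 0 < (m : ℝ) + 1 by linarith)
  linarith

/-- from `m y ≤ (2 α + 1) h` to `h ≥ (log (m + 1) / 180) y` -/
theorem conv_h (m : ℕ) (hm : 1 ≤ m) (y h : ℝ) (h0 : 0 ≤ h)
    (hy : y ≤ (2 * (60 * m / log (m + 1)) + 1) * h) :
    Real.log (m + 1) / (180 * m) * y ≤ h := by
  have hm1 : (1 : ℝ) ≤ m := by exact_mod_cast hm
  have hl : 0 < log ((m : ℝ) + 1) := Real.log_pos (by linarith)
  have hα := alpha_ge m hm
  have h1 : y ≤ 3 * (60 * m / log (m + 1)) * h := by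
    refine hy.trans (mul_le_mul_of_nonneg_right (by linarith) h0)
  have h2 := mul_le_mul_of_nonneg_left h1 (show 0 ≤ Real.log ((m : ℝ) + 1) / (180 * m) by
    positivity)
  refine h2.trans (le_of_eq ?_)
  field_simp
  ring

/-- Multiplicative energies of sets with few sums. -/
theorem energy_part (hp : Parts) (m : ℕ) (hm : 1 ≤ m) (e : ℝ) (he : 0 < e) (he1 : e ≤ 1)
    (A P Q : Fin m → Finset ℤ) (hA : ∀ i, (A i).Nonempty)
    (h0 : ∀ i, (0 : ℤ) ∉ A i) (hP : ∀ i, (P i).Nonempty) (hQ : ∀ i, (Q i).Nonempty) :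
    ((EM A).card : ℝ) ≤ (∏ i, ((A i).card : ℝ) ^ 2) *
      ∏ i, ((Real.exp (Real.exp (10 ^ 9 / e)) * ((P i).card : ℝ) ^ e *
      (((A i + P i).card : ℝ) / (P i).card) ^ 16 *
      (((P i + Q i).card : ℝ) / √(((P i).card : ℝ) * (Q i).card)) ^ 2000) / ((A i).card : ℝ)) ^
        (Real.log (m + 1) / (180 * m)) := by
  have hm1 : (1 : ℝ) ≤ m := by exact_mod_cast hm
  have hl : 0 < log ((m : ℝ) + 1) := Real.log_pos (by linarith)
  have hmain := energy_log hp e he he1 m hm A P Q hA h0 hP hQ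
  have cA : ∀ i, (0 : ℝ) < (A i).card := fun i => by exact_mod_cast (hA i).card_pos
  have cP : ∀ i, (0 : ℝ) < (P i).card := fun i => by exact_mod_cast (hP i).card_pos
  have cQ : ∀ i, (0 : ℝ) < (Q i).card := fun i => by exact_mod_cast (hQ i).card_pos
  have cAP : ∀ i, (0 : ℝ) < (A i + P i).card := fun i => by
    exact_mod_cast ((hA i).add (hP i)).card_pos
  have cPQ : ∀ i, (0 : ℝ) < (P i + Q i).card := fun i => by
    exact_mod_cast ((hP i).add (hQ i)).card_pos
  have cE : (0 : ℝ) < (EM A).card := by exact_mod_cast (EM_nonempty A hA).card_pos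
  obtain ⟨T, hT⟩ : ∃ T : Fin m → ℝ, T = fun i => ((Real.exp (Real.exp (10 ^ 9 / e)) *
      ((P i).card : ℝ) ^ e *
      (((A i + P i).card : ℝ) / (P i).card) ^ 16 *
      (((P i + Q i).card : ℝ) / √(((P i).card : ℝ) * (Q i).card)) ^ 2000) / ((A i).card : ℝ)) :=
    ⟨_, rfl⟩
  have hTpos : ∀ i, 0 < T i := by
    intro i
    rw [hT]
    have h1 := cA i
    have h2 := cP i
    have h3 := cQ i
    have h4 := cAP i
    have h5 := cPQ i
    positivity
  have hTlog : ∀ i, -log (T i) = log ((A i).card : ℝ) -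
      (16 * (log ((A i + P i).card : ℝ) - log ((P i).card : ℝ)) +
      (2000 * D2 (P i) (Q i) + e * log ((P i).card : ℝ))) - Real.exp (10 ^ 9 / e) := by
    intro i
    have h1 := cA i
    have h2 := cP i
    have h3 := cQ i
    have h4 := cAP i
    have h5 := cPQ i
    have hs : 0 < √(((P i).card : ℝ) * (Q i).card) := by positivity
    rw [hT]
    simp only
    rw [Real.log_div (by positivity) h1.ne', Real.log_mul (by positivity) (by positivity),
      Real.log_mul (by positivity) (by positivity), Real.log_mul (by positivity) (by positivity),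
      Real.log_exp, Real.log_rpow h2, Real.log_pow, Real.log_pow,
      Real.log_div h4.ne' h2.ne', Real.log_div h5.ne' hs.ne', Real.log_sqrt (by positivity),
      Real.log_mul h2.ne' h3.ne']
    unfold D2
    push_cast
    ring
  obtain ⟨h, hh⟩ : ∃ h, h = 2 * ∑ i, log ((A i).card : ℝ) - log ((EM A).card : ℝ) := ⟨_, rfl⟩
  rw [← hh] at hmain
  have hh0 : 0 ≤ h := by
    have h1 := Real.log_le_log cE (EM_card_le A)
    rw [Real.log_pow, Real.log_prod (fun i _ => (cA i).ne')] at h1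
    push_cast at h1
    linarith
  have hsum : -∑ i, log (T i) ≤ (2 * (60 * m / log (m + 1)) + 1) * h := by
    rw [← Finset.sum_neg_distrib]
    refine le_trans (Finset.sum_le_sum fun i _ => ?_) hmain
    rw [hTlog i]
    have := Ce_le e he he1
    linarith
  have hfin := conv_h m hm _ h hh0 hsum
  have hgoal : ((EM A).card : ℝ) ≤ (∏ i, ((A i).card : ℝ) ^ 2) *
      ∏ i, (T i) ^ (Real.log (m + 1) / (180 * m)) := by
    have hprod : 0 < ∏ i, (T i) ^ (Real.log ((m : ℝ) + 1) / (180 * m)) :=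
      Finset.prod_pos fun i _ => Real.rpow_pos_of_pos (hTpos i) _
    have hprod2 : 0 < ∏ i, ((A i).card : ℝ) ^ 2 :=
      Finset.prod_pos fun i _ => pow_pos (cA i) 2
    rw [← Real.log_le_log_iff cE (mul_pos hprod2 hprod), Real.log_mul hprod2.ne' hprod.ne',
      Real.log_prod (fun i _ => (Real.rpow_pos_of_pos (hTpos i) _).ne'),
      Real.log_prod (fun i _ => (pow_pos (cA i) 2).ne')]
    have h1 : ∑ i, log ((T i) ^ (Real.log ((m : ℝ) + 1) / (180 * m))) =
        Real.log (m + 1) / (180 * m) * ∑ i, log (T i) := by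
      rw [Finset.mul_sum]
      exact Finset.sum_congr rfl fun i _ => Real.log_rpow (hTpos i) _
    have h2 : ∑ i, log (((A i).card : ℝ) ^ 2) = 2 * ∑ i, log ((A i).card : ℝ) := by
      rw [Finset.mul_sum]
      exact Finset.sum_congr rfl fun i _ => by rw [Real.log_pow]; push_cast; ring
    rw [h1, h2]
    rw [mul_neg] at hfin
    linarith
  rw [hT] at hgoal
  exact hgoal

/-- small sets -/
theorem fac_small (A : Finset ℤ) (t₀ : ℝ) (ht₀ : 0 ≤ t₀) (hsmall : Real.log A.card < t₀)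
    (J : ℕ) (δ : ℝ) (hδ : 0 < δ) :
    ∀ k : ℕ, 1 ≤ k → ∀ ε : ℝ, 0 < ε → ε ≤ 1 → ∀ u : ℤ, u ≠ 0 →
        ((Fac (fun _ : Fin k => A \ ∅) u).card : ℝ) ≤
          Real.exp (k * t₀ + Real.exp (10 ^ 9 * log (2 * k) / (ε / (k * (2 ^ J : ℕ))))) *
            (A.card : ℝ) ^ (ε + 2 * 10 ^ 5 * k * log (2 * k) * δ) := by
  intro k hk ε hε _ u _
  rw [Finset.sdiff_empty]
  have hk0 : (1 : ℝ) ≤ k := by exact_mod_cast hk
  have hL0 : 0 < log (2 * (k : ℝ)) := Real.log_pos (by linarith)
  rcases A.eq_empty_or_nonempty with h0 | hA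
  · have h1 : Fac (fun _ : Fin k => A) u = ∅ := by
      rw [Finset.eq_empty_iff_forall_notMem]
      intro f hf
      have := Fintype.mem_piFinset.1 (Finset.mem_filter.1 hf).1 ⟨0, hk⟩
      rw [h0] at this
      exact absurd this (Finset.notMem_empty _)
    rw [h1]
    simp only [Finset.card_empty, Nat.cast_zero]
    positivity
  · have cA : (1 : ℝ) ≤ A.card := by exact_mod_cast hA.card_pos
    have h1 : ((Fac (fun _ : Fin k => A) u).card : ℝ) ≤ (A.card : ℝ) ^ k := by
      have h2 : (Fac (fun _ : Fin k => A) u).card ≤ A.card ^ k := by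
        unfold Fac
        refine (Finset.card_filter_le _ _).trans ?_
        rw [Fintype.card_piFinset]
        simp
      exact_mod_cast h2
    have h2 : (A.card : ℝ) ^ k ≤ Real.exp (k * t₀) := by
      rw [Real.exp_nat_mul]
      apply pow_le_pow_left₀ (by linarith)
      rw [← Real.log_le_iff_le_exp (by linarith)]
      exact hsmall.le
    have h3 : (1 : ℝ) ≤ (A.card : ℝ) ^ (ε + 2 * 10 ^ 5 * k * log (2 * k) * δ) :=
      Real.one_le_rpow cA (by positivity)
    have h4 : Real.exp (k * t₀) ≤ Real.exp (k * t₀ +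
        Real.exp (10 ^ 9 * log (2 * k) / (ε / (k * (2 ^ J : ℕ))))) := by
      rw [Real.exp_le_exp]
      have := Real.exp_pos (10 ^ 9 * log (2 * (k : ℝ)) / (ε / (k * (2 ^ J : ℕ))))
      linarith
    calc ((Fac (fun _ : Fin k => A) u).card : ℝ) ≤ Real.exp (k * t₀ +
        Real.exp (10 ^ 9 * log (2 * k) / (ε / (k * (2 ^ J : ℕ))))) * 1 := by
          rw [mul_one]
          linarith
      _ ≤ _ := mul_le_mul_of_nonneg_left h3 (Real.exp_pos _).le

/-- Few factorisations in a union of pieces (the second half of the proof of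
`Pool.Agent.H87.LL.decomposition`). -/
theorem fac_pieces (A : Finset ℤ) (hℓ1 : 1 ≤ Real.log A.card) (J : ℕ) (δ : ℝ) (hδ : 0 < δ)
    (t₀ : ℝ) (ht₀ : 0 ≤ t₀) (C : Finset ℤ) (𝒟 : Finset (Finset ℤ)) (h𝒟2 : C ⊆ 𝒟.biUnion id)
    (hcardD : (𝒟.card : ℝ) ≤ Real.exp (6 * δ * Real.log A.card))
    (h𝒟1 : ∀ D ∈ 𝒟, Piece (Real.exp (21 * δ * Real.log A.card)) ((A.card : ℝ) ^ (2 ^ J : ℕ)) D) :
    ∀ k : ℕ, 1 ≤ k → ∀ ε : ℝ, 0 < ε → ε ≤ 1 → ∀ u : ℤ, u ≠ 0 →
        ((Fac (fun _ : Fin k => C) u).card : ℝ) ≤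
          Real.exp (k * t₀ + Real.exp (10 ^ 9 * log (2 * k) / (ε / (k * (2 ^ J : ℕ))))) *
            (A.card : ℝ) ^ (ε + 2 * 10 ^ 5 * k * log (2 * k) * δ) := by
  classical
  obtain ⟨M, hMd⟩ : ∃ M : ℕ, M = 2 ^ J := ⟨_, rfl⟩
  rw [← hMd] at h𝒟1 ⊢
  have hM1 : 1 ≤ M := by rw [hMd]; exact Nat.one_le_two_pow
  have hMr : (1 : ℝ) ≤ M := by exact_mod_cast hM1
  obtain ⟨ℓ, hℓ⟩ : ∃ ℓ, ℓ = Real.log A.card := ⟨_, rfl⟩
  rw [← hℓ] at hcardD h𝒟1 hℓ1
  have hAne : A.Nonempty := by
    by_contra h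
    rw [Finset.not_nonempty_iff_eq_empty] at h
    rw [hℓ, h] at hℓ1
    simp at hℓ1
    linarith
  have cA0 : (0 : ℝ) < A.card := by exact_mod_cast hAne.card_pos
  have hpow : ∀ x : ℝ, (A.card : ℝ) ^ x = Real.exp (x * ℓ) := fun x => by
    rw [Real.rpow_def_of_pos cA0, hℓ]; congr 1; ring
  intro k hk ε hε hε1 u hu
  have hk0 : (1 : ℝ) ≤ k := by exact_mod_cast hk
  obtain ⟨L, hL⟩ : ∃ L, L = log (2 * (k : ℝ)) := ⟨_, rfl⟩
  have hL2 : 0.69 ≤ L := by
    have h1 : log 2 ≤ L := by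
      rw [hL]
      exact Real.log_le_log (by norm_num) (by linarith)
    have := Real.log_two_gt_d9
    norm_num at this ⊢
    linarith
  have hL0 : 0 < L := by
    norm_num at hL2
    linarith
  rw [← hL]
  -- one choice of the pieces
  obtain ⟨ε', hε'⟩ : ∃ ε', ε' = ε / (k * M) := ⟨_, rfl⟩
  have hε'0 : 0 < ε' := by rw [hε']; positivity
  have hε'1 : ε' ≤ 1 := by
    rw [hε', div_le_one (by positivity)]
    nlinarith
  set W : ℝ := Real.exp (Real.exp (10 ^ 9 * L / ε')) with hW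
  have hW0 : 0 < W := Real.exp_pos _
  set Y : ℝ := Real.exp (ε' * (M * ℓ) + 8064 * L * (21 * δ * ℓ)) with hY
  have hpieces : ∀ Δ : Fin k → Finset ℤ, (∀ i, Δ i ∈ 𝒟) →
      ((Fac Δ u).card : ℝ) ≤ W * Y ^ k := by
    intro Δ hΔ
    have hP := fun i => h𝒟1 (Δ i) (hΔ i)
    choose P hPne hPs1 hPs2 hPc using hP
    refine (divisor k hk ε' hε'0 hε'1 Δ (fun i => -(P i)) P (fun i => (hPne i).neg) hPne u
      hu).trans ?_
    rw [← hL, ← hW]
    refine mul_le_mul_of_nonneg_left ?_ hW0.le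
    have hbd : ∀ i : Fin k, (((-P i).card : ℝ) ^ ε' *
        (((Δ i + -P i).card : ℝ) / (-P i).card) ^ (64 * L) *
        (((-P i + P i).card : ℝ) / √(((-P i).card : ℝ) * (P i).card)) ^ (8000 * L)) ≤ Y := by
      intro i
      have cP : (1 : ℝ) ≤ (P i).card := by exact_mod_cast (hPne i).card_pos
      have cP0 : (0 : ℝ) < (P i).card := by linarith
      rw [Finset.card_neg, Real.sqrt_mul_self cP0.le]
      have e1 : ((P i).card : ℝ) ^ ε' ≤ Real.exp (ε' * (M * ℓ)) := by
        have h1 : ((P i).card : ℝ) ≤ Real.exp (M * ℓ) := by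
          refine (hPc i).trans (le_of_eq ?_)
          rw [← Real.rpow_natCast, hpow]
        calc ((P i).card : ℝ) ^ ε' ≤ (Real.exp (M * ℓ)) ^ ε' :=
              Real.rpow_le_rpow cP0.le h1 hε'0.le
          _ = Real.exp (ε' * (M * ℓ)) := by rw [← Real.exp_mul]; congr 1; ring
      have e2 : ((Δ i + -P i).card : ℝ) / (P i).card ≤ Real.exp (21 * δ * ℓ) := by
        rw [div_le_iff₀ cP0]
        exact hPs1 i
      have e3 : ((-P i + P i).card : ℝ) / (P i).card ≤ Real.exp (21 * δ * ℓ) := by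
        rw [div_le_iff₀ cP0]
        exact hPs2 i
      have e4 := Real.rpow_le_rpow (by positivity) e2 (show 0 ≤ 64 * L by positivity)
      have e5 := Real.rpow_le_rpow (by positivity) e3 (show 0 ≤ 8000 * L by positivity)
      rw [← Real.exp_mul] at e4 e5
      calc _ ≤ Real.exp (ε' * (M * ℓ)) * Real.exp (21 * δ * ℓ * (64 * L)) *
            Real.exp (21 * δ * ℓ * (8000 * L)) :=
            mul_le_mul (mul_le_mul e1 e4 (by positivity) (by positivity)) e5 (by positivity)
              (by positivity)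
        _ = Y := by
            rw [hY, ← Real.exp_add, ← Real.exp_add]
            congr 1
            ring
    calc _ ≤ ∏ _i : Fin k, Y :=
          Finset.prod_le_prod (fun i _ => by positivity) fun i _ => hbd i
      _ = Y ^ k := by simp
  have h1 := fac_union k C 𝒟 h𝒟2 u (W * Y ^ k) hpieces
  refine h1.trans ?_
  have h2 : (𝒟.card : ℝ) ^ k * Y ^ k ≤
      (A.card : ℝ) ^ (ε + 2 * 10 ^ 5 * k * L * δ) := by
    have h3 : (𝒟.card : ℝ) ^ k ≤ Real.exp (6 * δ * ℓ) ^ k :=
      pow_le_pow_left₀ (by positivity) hcardD k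
    calc (𝒟.card : ℝ) ^ k * Y ^ k ≤ Real.exp (6 * δ * ℓ) ^ k * Y ^ k :=
          mul_le_mul_of_nonneg_right h3 (by positivity)
      _ = Real.exp ((k * M * ε') * ℓ + k * (6 + 169344 * L) * δ * ℓ) := by
          rw [hY, ← Real.exp_nat_mul, ← Real.exp_nat_mul, ← Real.exp_add]
          congr 1
          ring
      _ ≤ (A.card : ℝ) ^ (ε + 2 * 10 ^ 5 * k * L * δ) := by
          rw [hpow, Real.exp_le_exp]
          have h4 : (k * M * ε') = ε := by
            rw [hε']
            field_simp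
          rw [h4]
          have h5 : (6 + 169344 * L) ≤ 2 * 10 ^ 5 * L := by
            norm_num at hL2 ⊢
            linarith
          have h6 : k * (6 + 169344 * L) * (δ * ℓ) ≤ k * (2 * 10 ^ 5 * L) * (δ * ℓ) :=
            mul_le_mul_of_nonneg_right (mul_le_mul_of_nonneg_left h5 (by linarith))
              (by positivity)
          linarith
  have h3 : W ≤ Real.exp (k * t₀ + Real.exp (10 ^ 9 * L / ε')) := by
    rw [hW, Real.exp_le_exp]
    have : 0 ≤ k * t₀ := by positivity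
    linarith
  rw [← hε']
  calc (𝒟.card : ℝ) ^ k * (W * Y ^ k) = W * ((𝒟.card : ℝ) ^ k * Y ^ k) := by ring
    _ ≤ Real.exp (k * t₀ + Real.exp (10 ^ 9 * L / ε')) *
        (A.card : ℝ) ^ (ε + 2 * 10 ^ 5 * k * L * δ) :=
        mul_le_mul h3 h2 (by positivity) (Real.exp_pos _).le

/-- The decomposition, all scales. -/
theorem decomp3 (hp : Parts) (J : ℕ) (δ : ℝ) (hδ : 0 < δ) (hδd : δ ≤ 1 / (2 * 10 ^ 5)) :
    ∃ C : ℕ → ℝ, ∃ W : ℕ → ℝ → ℝ, (∀ m, 0 < C m) ∧ (∀ k ε, 0 < W k ε) ∧ ∀ A : Finset ℤ,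
    (0 : ℤ) ∉ A → ∃ B ⊆ A,
    (∀ j ≤ J, ∀ k : ℕ, 2 ^ j ≤ k →
      (En B k : ℝ) ≤ (A.card : ℝ) ^ (2 * (k : ℝ) - 1 - j * δ)) ∧
    (∀ S ⊆ A \ B, ∀ m : ℕ, 1 ≤ m →
      ((EM (fun _ : Fin m => S)).card : ℝ) ≤
        C m * (S.card : ℝ) ^ (2 * (m : ℝ) - Real.log (m + 1) / 180) *
          (A.card : ℝ) ^ (Real.log (m + 1) / 720)) ∧
    (∀ k : ℕ, 1 ≤ k → ∀ ε : ℝ, 0 < ε → ε ≤ 1 → ∀ u : ℤ, u ≠ 0 →
        ((Fac (fun _ : Fin k => A \ B) u).card : ℝ) ≤
          W k ε * (A.card : ℝ) ^ (ε + 2 * 10 ^ 5 * k * log (2 * k) * δ)) := by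
  classical
  obtain ⟨t₀, ht₀, hpc⟩ := pieces J δ hδ
  obtain ⟨e, hed⟩ : ∃ e : ℝ, e = 1 / (64 * 2 ^ J) := ⟨_, rfl⟩
  have h2J : (1 : ℝ) ≤ 2 ^ J := one_le_pow₀ (by norm_num)
  have he : 0 < e := by rw [hed]; positivity
  have he1 : e ≤ 1 := by
    rw [hed, div_le_one (by positivity)]
    linarith
  have hCe := Ce_pos e he he1
  refine ⟨fun m => Real.exp (Real.log (m + 1) / 180 * (t₀ + Ce e)),
    fun k ε => Real.exp (k * t₀ +
      Real.exp (10 ^ 9 * log (2 * k) / (ε / (k * (2 ^ J : ℕ))))),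
    fun m => Real.exp_pos _, fun k ε => Real.exp_pos _, ?_⟩
  intro A hA0
  -- a convenient form of the goal
  have hred : ∀ S ⊆ A, ∀ m : ℕ, 1 ≤ m → (S.Nonempty →
      Real.log (m + 1) / 180 * (log (S.card : ℝ) - log (A.card : ℝ) / 4 - (t₀ + Ce e)) ≤
        2 * (m * log (S.card : ℝ)) - log ((EM (fun _ : Fin m => S)).card : ℝ)) →
      ((EM (fun _ : Fin m => S)).card : ℝ) ≤
        Real.exp (Real.log (m + 1) / 180 * (t₀ + Ce e)) *
          (S.card : ℝ) ^ (2 * (m : ℝ) - Real.log (m + 1) / 180) *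
          (A.card : ℝ) ^ (Real.log (m + 1) / 720) := by
    intro S hSA m hm h
    rcases S.eq_empty_or_nonempty with hS | hS
    · have h1 : (EM (fun _ : Fin m => S)) = ∅ := by
        rw [Finset.eq_empty_iff_forall_notMem]
        intro r hr
        have h2 := (Finset.mem_product.1 (Finset.mem_filter.1 hr).1).1
        have h3 := Fintype.mem_piFinset.1 h2 ⟨0, hm⟩
        rw [hS] at h3
        exact absurd h3 (Finset.notMem_empty _)
      rw [h1]
      simp only [Finset.card_empty, Nat.cast_zero]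
      positivity
    · have cS : (0 : ℝ) < S.card := by exact_mod_cast hS.card_pos
      have cA : (0 : ℝ) < A.card := by exact_mod_cast (hS.mono hSA).card_pos
      have cE : (0 : ℝ) < (EM (fun _ : Fin m => S)).card := by
        exact_mod_cast (EM_nonempty (fun _ : Fin m => S) fun _ => hS).card_pos
      have h1 := h hS
      rw [← Real.log_le_log_iff cE (by positivity), Real.log_mul (by positivity) (by positivity),
        Real.log_mul (by positivity) (by positivity), Real.log_exp, Real.log_rpow cS,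
        Real.log_rpow cA]
      have e1 : Real.log ((m : ℝ) + 1) / 180 * (t₀ + Ce e) +
          (2 * (m : ℝ) - Real.log (m + 1) / 180) * log (S.card : ℝ) +
          Real.log (m + 1) / 720 * log (A.card : ℝ) =
          2 * (m * log (S.card : ℝ)) - Real.log (m + 1) / 180 *
            (log (S.card : ℝ) - log (A.card : ℝ) / 4 - (t₀ + Ce e)) := by ring
      rw [e1]
      linarith
  have hh0 : ∀ S : Finset ℤ, S.Nonempty → ∀ m : ℕ,
      0 ≤ 2 * (m * log (S.card : ℝ)) - log ((EM (fun _ : Fin m => S)).card : ℝ) := by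
    intro S hS m
    have cE : (0 : ℝ) < (EM (fun _ : Fin m => S)).card := by
      exact_mod_cast (EM_nonempty (fun _ : Fin m => S) fun _ => hS).card_pos
    have h1 := Real.log_le_log cE (EM_card_le (fun _ : Fin m => S))
    rw [Real.log_pow, Finset.prod_const, Finset.card_univ, Fintype.card_fin, Real.log_pow] at h1
    push_cast at h1
    linarith
  by_cases hsmall : Real.log A.card < t₀
  · refine ⟨∅, Finset.empty_subset _, ?_, ?_, fac_small A t₀ (by linarith) hsmall J δ hδ⟩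
    · intro j _ m hm
      have hm1 : 1 ≤ m := Nat.one_le_two_pow.trans hm
      have h1 : En ∅ m ≤ 0 := by
        refine (En_le ∅ m).trans ?_
        have : 2 * m ≠ 0 := by omega
        simp [this]
      have h2 : (En ∅ m : ℝ) ≤ 0 := by exact_mod_cast h1
      exact h2.trans (Real.rpow_nonneg (Nat.cast_nonneg _) _)
    · intro S hS m hm
      have hSA : S ⊆ A := hS.trans Finset.sdiff_subset
      refine hred S hSA m hm fun hSn => ?_
      have hm1 : (1 : ℝ) ≤ m := by exact_mod_cast hm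
      have hl : 0 < log ((m : ℝ) + 1) := Real.log_pos (by linarith)
      refine le_trans ?_ (hh0 S hSn m)
      have cS : (0 : ℝ) < S.card := by exact_mod_cast hSn.card_pos
      have cA : (1 : ℝ) ≤ A.card := by exact_mod_cast (hSn.mono hSA).card_pos
      have h2 : log (S.card : ℝ) ≤ log (A.card : ℝ) :=
        Real.log_le_log cS (by exact_mod_cast Finset.card_le_card hSA)
      have h3 : 0 ≤ log (A.card : ℝ) := Real.log_nonneg cA
      exact mul_nonpos_of_nonneg_of_nonpos (by positivity) (by linarith)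
  push Not at hsmall
  obtain ⟨B, hBA, hEn, 𝒟, h𝒟c, h𝒟u, h𝒟p⟩ := hpc A hsmall
  obtain ⟨ℓ, hℓ⟩ : ∃ ℓ, ℓ = Real.log A.card := ⟨_, rfl⟩
  rw [← hℓ] at h𝒟c h𝒟p hsmall
  have hℓ1 : 1 ≤ ℓ := ht₀.trans hsmall
  refine ⟨B, hBA, hEn, ?_, ?_⟩
  rotate_left
  · rw [hℓ] at h𝒟c h𝒟p hℓ1
    exact fac_pieces A hℓ1 J δ hδ t₀ (by linarith) (A \ B) 𝒟 h𝒟u h𝒟c h𝒟p
  · intro S hS m hm
    have hSA : S ⊆ A := hS.trans Finset.sdiff_subset
    refine hred S hSA m hm fun hSn => ?_
    have hm1 : (1 : ℝ) ≤ m := by exact_mod_cast hm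
    have hl : 0 < log ((m : ℝ) + 1) := Real.log_pos (by linarith)
    have hcov : S ⊆ 𝒟.biUnion id := hS.trans h𝒟u
    have h𝒟n : 𝒟.Nonempty := by
      obtain ⟨s, hs⟩ := hSn
      obtain ⟨D, hD, -⟩ := Finset.mem_biUnion.1 (hcov hs)
      exact ⟨D, hD⟩
    have c𝒟 : (0 : ℝ) < 𝒟.card := by exact_mod_cast h𝒟n.card_pos
    have hN : log (𝒟.card : ℝ) ≤ 6 * δ * ℓ := by
      have h1 := Real.log_le_log c𝒟 h𝒟c
      rwa [Real.log_exp] at h1
    have hpcs : ∀ D ∈ 𝒟, ∃ P : Finset ℤ, P.Nonempty ∧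
        ((D + -P).card : ℝ) ≤ Real.exp (21 * δ * ℓ) * P.card ∧
        ((-P + P).card : ℝ) ≤ Real.exp (21 * δ * ℓ) * P.card ∧
        log (P.card : ℝ) ≤ 2 ^ J * ℓ := by
      intro D hD
      obtain ⟨P, h1, h2, h3, h4⟩ := h𝒟p D hD
      have cP : (0 : ℝ) < P.card := by exact_mod_cast h1.card_pos
      refine ⟨P, h1, h2, h3, ?_⟩
      have h5 := Real.log_le_log cP h4
      rw [Real.log_pow, ← hℓ] at h5
      push_cast at h5
      exact h5
    have hmain := energy_pieces hp e he he1 m hm S hSn (fun h => hA0 (hSA h)) 𝒟 hcov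
      (21 * δ * ℓ) (2 ^ J * ℓ) (6 * δ * ℓ) hN hpcs
    have hh := hh0 S hSn m
    have hfin := conv_h m hm _ _ hh hmain
    refine le_trans ?_ hfin
    have he2 : e * (2 ^ J * ℓ) = ℓ / 64 := by
      rw [hed]
      field_simp
    have e1 : Real.log ((m : ℝ) + 1) / (180 * m) *
        (m * (log (S.card : ℝ) - 6 * δ * ℓ - 2016 * (21 * δ * ℓ) - e * (2 ^ J * ℓ) - Ce e)) =
        Real.log (m + 1) / 180 *
        (log (S.card : ℝ) - 6 * δ * ℓ - 2016 * (21 * δ * ℓ) - e * (2 ^ J * ℓ) - Ce e) := by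
      field_simp
    rw [e1, ← hℓ]
    refine mul_le_mul_of_nonneg_left ?_ (by positivity)
    rw [he2]
    have h9 : δ * ℓ ≤ 1 / (2 * 10 ^ 5) * ℓ := mul_le_mul_of_nonneg_right hδd (by linarith)
    nlinarith

/-- The decomposition, all scales. -/
theorem decomp2 (hp : Parts) (J : ℕ) : ∃ C : ℕ → ℝ, (∀ m, 0 < C m) ∧ ∀ A : Finset ℤ,
    (0 : ℤ) ∉ A → ∃ B ⊆ A,
    (∀ j ≤ J, ∀ k : ℕ, 2 ^ j ≤ k →
      (En B k : ℝ) ≤ (A.card : ℝ) ^ (2 * (k : ℝ) - 1 - j / (2 * 10 ^ 5))) ∧
    ∀ S ⊆ A \ B, ∀ m : ℕ, 1 ≤ m →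
      ((EM (fun _ : Fin m => S)).card : ℝ) ≤
        C m * (S.card : ℝ) ^ (2 * (m : ℝ) - Real.log (m + 1) / 180) *
          (A.card : ℝ) ^ (Real.log (m + 1) / 720) := by
  obtain ⟨C, W, hC0, hW0, h⟩ := decomp3 hp J (1 / (2 * 10 ^ 5)) (by positivity) le_rfl
  refine ⟨C, hC0, fun A hA => ?_⟩
  obtain ⟨B, hBA, h1, h2, h3⟩ := h A hA
  refine ⟨B, hBA, fun j hj k hk => ?_, h2⟩
  refine (h1 j hj k hk).trans (le_of_eq ?_)
  congr 1
  ring

/-- The number of pairs of tuples with equal products, from the number of factorisations. -/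
theorem EM_le_fac (k : ℕ) (S : Finset ℤ) (h0 : (0 : ℤ) ∉ S) (Y : ℝ)
    (hY : ∀ u : ℤ, u ≠ 0 → ((Fac (fun _ : Fin k => S) u).card : ℝ) ≤ Y) :
    ((EM (fun _ : Fin k => S)).card : ℝ) ≤ (S.card : ℝ) ^ k * Y := by
  classical
  have h1 : (EM (fun _ : Fin k => S)).card = ∑ x ∈ Fintype.piFinset (fun _ : Fin k => S),
      (Fac (fun _ : Fin k => S) (∏ i, x i)).card := by
    unfold EM
    rw [Finset.card_eq_sum_card_fiberwise (f := fun p : (Fin k → ℤ) × (Fin k → ℤ) => p.1)
      (t := Fintype.piFinset (fun _ : Fin k => S))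
      (fun p hp => (Finset.mem_product.1 (Finset.mem_filter.1 hp).1).1)]
    refine Finset.sum_congr rfl fun x hx => ?_
    refine Finset.card_bij' (fun p _ => p.2) (fun y _ => (x, y)) ?_ ?_ ?_ ?_
    · intro p hp
      obtain ⟨h2, h3⟩ := Finset.mem_filter.1 hp
      obtain ⟨h4, h5⟩ := Finset.mem_filter.1 h2
      refine Finset.mem_filter.2 ⟨(Finset.mem_product.1 h4).2, ?_⟩
      rw [← h5, h3]
    · intro y hy
      obtain ⟨h2, h3⟩ := Finset.mem_filter.1 hy
      refine Finset.mem_filter.2 ⟨Finset.mem_filter.2 ⟨Finset.mem_product.2 ⟨hx, h2⟩, ?_⟩, rfl⟩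
      exact h3.symm
    · intro p hp
      obtain ⟨h2, h3⟩ := Finset.mem_filter.1 hp
      exact Prod.ext h3.symm rfl
    · intro y hy
      rfl
  have h2 : ((EM (fun _ : Fin k => S)).card : ℝ) ≤
      ∑ _x ∈ Fintype.piFinset (fun _ : Fin k => S), Y := by
    rw [h1]
    push_cast
    refine Finset.sum_le_sum fun x hx => hY _ ?_
    rw [Finset.prod_ne_zero_iff]
    intro i _ h
    exact h0 (h ▸ Fintype.mem_piFinset.1 hx i)
  rw [Finset.sum_const, Fintype.card_piFinset, Finset.prod_const, Finset.card_univ,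
    Fintype.card_fin, nsmul_eq_mul] at h2
  push_cast at h2
  exact h2

/-- The symmetric decomposition. -/
theorem decomp1 (hp : Parts) (K : ℕ) : ∃ C : ℝ, 0 < C ∧ ∀ A : Finset ℤ,
    (0 : ℤ) ∉ A → ∃ B ⊆ A, ∀ k : ℕ, 1 ≤ k → k ≤ K →
      (En B k : ℝ) ≤ (A.card : ℝ) ^ (2 * (k : ℝ) - 1 - Real.log k / (4 * 10 ^ 8)) ∧
      ((EM (fun _ : Fin k => A \ B)).card : ℝ) ≤
        C * (A.card : ℝ) ^ (2 * (k : ℝ) - 1 - Real.log k / (4 * 10 ^ 8)) := by
  classical
  obtain ⟨Cf, W, hC0, hW0, hdec⟩ := decomp3 hp (Nat.log 2 K) (1 / (2 * 10 ^ 8)) (by positivity)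
    (by norm_num)
  obtain ⟨C, hCd⟩ : ∃ C : ℝ, C = 1 + ∑ k ∈ Finset.range (K + 1), (Cf k + W k (1 / 10)) :=
    ⟨_, rfl⟩
  have hsum0 : ∀ k ∈ Finset.range (K + 1), 0 ≤ Cf k + W k (1 / 10) := fun k _ =>
    add_nonneg (hC0 k).le (hW0 k _).le
  have hC1 : 1 ≤ C := by
    rw [hCd]
    have := Finset.sum_nonneg hsum0
    linarith
  have hCk : ∀ k ≤ K, Cf k ≤ C ∧ W k (1 / 10) ≤ C := by
    intro k hk
    have h1 := Finset.single_le_sum hsum0 (Finset.mem_range.2 (Nat.lt_succ_of_le hk))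
    have h2 := hC0 k
    have h3 := hW0 k (1 / 10)
    rw [hCd]
    constructor <;> linarith
  refine ⟨C, by linarith, ?_⟩
  intro A hA0
  obtain ⟨B, hBA, hEn, hS, hF⟩ := hdec A hA0
  refine ⟨B, hBA, ?_⟩
  intro k hk hkK
  have hk1 : (1 : ℝ) ≤ k := by exact_mod_cast hk
  have hl0 : 0 ≤ log (k : ℝ) := Real.log_nonneg hk1
  rcases A.eq_empty_or_nonempty with hA | hA
  · have hB : B = ∅ := by rw [hA] at hBA; exact Finset.subset_empty.1 hBA
    have h2 : En B k ≤ 0 := by
      rw [hB]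
      refine (En_le ∅ k).trans ?_
      have : 2 * k ≠ 0 := by omega
      simp [this]
    have h3 : (En B k : ℝ) ≤ 0 := by exact_mod_cast h2
    have h4 : EM (fun _ : Fin k => A \ B) = ∅ := by
      rw [Finset.eq_empty_iff_forall_notMem]
      intro r hr
      have h2 := (Finset.mem_product.1 (Finset.mem_filter.1 hr).1).1
      have h3 := Fintype.mem_piFinset.1 h2 ⟨0, hk⟩
      rw [hA, Finset.empty_sdiff] at h3
      exact absurd h3 (Finset.notMem_empty _)
    refine ⟨h3.trans (Real.rpow_nonneg (Nat.cast_nonneg _) _), ?_⟩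
    rw [h4]
    simp only [Finset.card_empty, Nat.cast_zero]
    exact mul_nonneg (by linarith) (Real.rpow_nonneg (Nat.cast_nonneg _) _)
  have cA : (1 : ℝ) ≤ A.card := by exact_mod_cast hA.card_pos
  have cA0 : (0 : ℝ) < A.card := by linarith
  have hSA : ((A \ B).card : ℝ) ≤ A.card := by
    exact_mod_cast Finset.card_le_card Finset.sdiff_subset
  constructor
  · have h1 := hEn (Nat.log 2 k) (Nat.log_mono_right hkK) k (Nat.pow_log_le_self 2 (by omega))
    refine h1.trans (Real.rpow_le_rpow_of_exponent_le cA ?_)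
    have h2 := log_le_natlog k hk
    have h3 : Real.log k / (4 * 10 ^ 8) ≤ (Nat.log 2 k : ℝ) * (1 / (2 * 10 ^ 8)) := by
      rw [mul_one_div, div_le_div_iff₀ (by positivity) (by positivity)]
      nlinarith
    linarith
  · have h0' : (0 : ℤ) ∉ A \ B := fun h => hA0 (Finset.mem_sdiff.1 h).1
    by_cases hbig : 1 + Real.log k / (4 * 10 ^ 8) ≤ Real.log (k + 1) / 240
    · have h1 := hS (A \ B) (Finset.Subset.refl _) k hk
      have hl : 0 < log ((k : ℝ) + 1) := Real.log_pos (by linarith)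
      have hl2 : log ((k : ℝ) + 1) ≤ k := by
        have := Real.log_le_sub_one_of_pos (show 0 < (k : ℝ) + 1 by linarith)
        linarith
      have h3 := Real.rpow_le_rpow (Nat.cast_nonneg _) hSA
        (show 0 ≤ 2 * (k : ℝ) - Real.log (k + 1) / 180 by linarith)
      refine h1.trans ?_
      calc Cf k * ((A \ B).card : ℝ) ^ (2 * (k : ℝ) - Real.log (k + 1) / 180) *
            (A.card : ℝ) ^ (Real.log (k + 1) / 720) ≤
          Cf k * (A.card : ℝ) ^ (2 * (k : ℝ) - Real.log (k + 1) / 180) *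
            (A.card : ℝ) ^ (Real.log (k + 1) / 720) :=
            mul_le_mul_of_nonneg_right (mul_le_mul_of_nonneg_left h3 (hC0 k).le) (by positivity)
        _ = Cf k * (A.card : ℝ) ^ (2 * (k : ℝ) - Real.log (k + 1) / 240) := by
            rw [mul_assoc, ← Real.rpow_add_of_nonneg (Nat.cast_nonneg _) (by linarith)
              (by positivity)]
            congr 2
            ring
        _ ≤ C * (A.card : ℝ) ^ (2 * (k : ℝ) - 1 - Real.log k / (4 * 10 ^ 8)) := by
            refine mul_le_mul (hCk k hkK).1 ?_ (by positivity) (by linarith)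
            exact Real.rpow_le_rpow_of_exponent_le cA (by linarith)
    · push Not at hbig
      rcases Nat.lt_or_ge k 2 with hk2 | hk2
      · -- `k = 1`
        have hk' : k = 1 := by omega
        subst hk'
        have h1 : ((EM (fun _ : Fin 1 => A \ B)).card : ℝ) ≤ (A.card : ℝ) := by
          have h2 : (EM (fun _ : Fin 1 => A \ B)).card ≤ (A \ B).card := by
            refine Finset.card_le_card_of_injOn (fun p => p.1 0) ?_ ?_
            · intro p hp
              exact Fintype.mem_piFinset.1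
                (Finset.mem_product.1 (Finset.mem_filter.1 (Finset.mem_coe.1 hp)).1).1 0
            · intro p hp q hq hpq
              have e1 := (Finset.mem_filter.1 (Finset.mem_coe.1 hp)).2
              have e2 := (Finset.mem_filter.1 (Finset.mem_coe.1 hq)).2
              simp only [Fin.prod_univ_one] at e1 e2
              simp only at hpq
              have e3 : p.1 = q.1 := by
                funext i
                rw [Fin.eq_zero i]
                exact hpq
              have e4 : p.2 = q.2 := by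
                funext i
                rw [Fin.eq_zero i, ← e1, ← e2]
                exact hpq
              exact Prod.ext e3 e4
          have h3 : ((EM (fun _ : Fin 1 => A \ B)).card : ℝ) ≤ (A \ B).card := by
            exact_mod_cast h2
          linarith
        have e1 : (2 * ((1 : ℕ) : ℝ) - 1 - Real.log ((1 : ℕ) : ℝ) / (4 * 10 ^ 8)) = 1 := by
          push_cast
          rw [Real.log_one]
          norm_num
        rw [e1, Real.rpow_one]
        nlinarith
      · have hk2' : (2 : ℝ) ≤ k := by exact_mod_cast hk2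
        have h1 := EM_le_fac k (A \ B) h0' _ (fun u hu => hF k hk (1 / 10) (by norm_num)
          (by norm_num) u hu)
        have hlk : log (k : ℝ) ≤ log ((k : ℝ) + 1) := Real.log_le_log (by linarith) (by linarith)
        have hlog : log ((k : ℝ) + 1) ≤ 241 := by
          have : log (k : ℝ) / (4 * 10 ^ 8) ≤ log ((k : ℝ) + 1) / (4 * 10 ^ 8) :=
            div_le_div_of_nonneg_right hlk (by norm_num)
          linarith
        have hlog2 : log (2 * (k : ℝ)) ≤ 242 := by
          rw [Real.log_mul (by norm_num) (by linarith)]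
          have := Real.log_two_lt_d9
          linarith
        refine h1.trans ?_
        have h2 : ((A \ B).card : ℝ) ^ k ≤ (A.card : ℝ) ^ (k : ℝ) := by
          rw [Real.rpow_natCast]
          exact pow_le_pow_left₀ (Nat.cast_nonneg _) hSA k
        have hW := hW0 k (1 / 10)
        calc ((A \ B).card : ℝ) ^ k * (W k (1 / 10) *
              (A.card : ℝ) ^ (1 / 10 + 2 * 10 ^ 5 * k * log (2 * k) * (1 / (2 * 10 ^ 8)))) ≤
            (A.card : ℝ) ^ (k : ℝ) * (W k (1 / 10) *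
              (A.card : ℝ) ^ (1 / 10 + 2 * 10 ^ 5 * k * log (2 * k) * (1 / (2 * 10 ^ 8)))) :=
              mul_le_mul_of_nonneg_right h2 (by positivity)
          _ = W k (1 / 10) * (A.card : ℝ) ^ ((k : ℝ) +
              (1 / 10 + 2 * 10 ^ 5 * k * log (2 * k) * (1 / (2 * 10 ^ 8)))) := by
              rw [Real.rpow_add cA0 (k : ℝ)]
              ring
          _ ≤ C * (A.card : ℝ) ^ (2 * (k : ℝ) - 1 - Real.log k / (4 * 10 ^ 8)) := by
              refine mul_le_mul (hCk k hkK).2 ?_ (by positivity) (by linarith)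
              refine Real.rpow_le_rpow_of_exponent_le cA ?_
              have h3 : (k : ℝ) * log (2 * k) ≤ k * 242 :=
                mul_le_mul_of_nonneg_left hlog2 (by linarith)
              linarith

end Pool.Agent.H64.ES
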