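import Mathlib
import Pool.Agent.H87.PT.Dec
import Pool.Agent.H64.ES.Final2

/-!
# The low energy decomposition with better constants

From helper87's decomposition with the saving `s (k, t)` (`Pool.Agent.H87.PT.decG`), used with `t = 32`.
-/

set_option autoImplicit false

namespace Pool.Agent.H64.ES.Better

open Finset Real
open Pool.Agent.H87.LL (Fac)
open Pool.Agent.Y359.LE (En En_le)
open Pool.Agent.H87.PT (decG tau)

theorem natlog_delta (k : ℕ) (hk : 1 ≤ k) :
    Real.log k / 10 ^ 6 ≤ (Nat.log 2 k : ℝ) * (1 / 800000) := by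
  have hk1 : (1 : ℝ) ≤ k := by exact_mod_cast hk
  have hl2 := Real.log_two_lt_d9
  obtain ⟨j, hj⟩ : ∃ j, j = Nat.log 2 k := ⟨_, rfl⟩
  have hkj : k < 2 ^ (j + 1) := by
    rw [hj]
    exact Nat.lt_pow_succ_log_self (by norm_num) k
  rw [← hj]
  rcases Nat.lt_or_ge j 2 with hj2 | hj2
  · rcases Nat.lt_or_ge j 1 with hj1 | hj1
    · have : j = 0 := by omega
      subst this
      have : k = 1 := by omega
      subst this
      simp
    · have hj' : j = 1 := by omega
      subst hj'
      have hk3 : k ≤ 3 := by omega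
      have hk3' : (k : ℝ) ≤ 3 := by exact_mod_cast hk3
      have h1 : Real.log k ≤ Real.log 3 := Real.log_le_log (by linarith) hk3'
      have h2 : Real.log 3 = Real.log 2 + Real.log (3 / 2) := by
        rw [← Real.log_mul (by norm_num) (by norm_num)]
        norm_num
      have h3 : Real.log (3 / 2) ≤ 3 / 2 - 1 := Real.log_le_sub_one_of_pos (by norm_num)
      push_cast
      rw [div_le_iff₀ (by norm_num)]
      linarith
  · have hkj' : (k : ℝ) ≤ 2 ^ (j + 1) := by exact_mod_cast hkj.le
    have h1 : Real.log k ≤ Real.log (2 ^ (j + 1)) := Real.log_le_log (by linarith) hkj'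
    rw [Real.log_pow] at h1
    push_cast at h1
    have hj2' : (2 : ℝ) ≤ j := by exact_mod_cast hj2
    rw [div_le_iff₀ (by norm_num)]
    nlinarith

/-- the exponent for the products, `k ≥ 2`, `t = 32`, `ε = 1 / 100`, `δ = 1 / 800000` -/
theorem expo (k : ℕ) (hk : 2 ≤ k) :
    (k : ℝ) - k * tau k 32 + 1 / 100 +
      50000 * (3 + Real.log 32) * (1 / 800000) * (k * tau k 32) ≤ k - 1 - Real.log k / 4 := by
  have hk1 : (2 : ℝ) ≤ k := by exact_mod_cast hk
  have hk0 : (k : ℝ) ≠ 0 := by positivity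
  have hl2 := Real.log_two_lt_d9
  have hl2' := Real.log_two_gt_d9
  have h32 : Real.log 32 = 5 * Real.log 2 := by
    rw [show (32 : ℝ) = 2 ^ 5 by norm_num, Real.log_pow]
    norm_num
  have hs : (k : ℝ) * tau k 32 = 2 * (1 + (Real.log k - Real.log 2)) := by
    unfold tau
    have : (16 : ℝ) * k / 32 = k / 2 := by ring
    rw [this, Real.log_div hk0 (by norm_num)]
    field_simp
    ring
  have hlk : Real.log 2 ≤ Real.log k := Real.log_le_log (by norm_num) hk1
  rw [hs, h32]
  nlinarith

/-- **The decomposition.** -/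
theorem decomp (K : ℕ) : ∃ C : ℝ, 0 < C ∧ ∀ A : Finset ℤ,
    (0 : ℤ) ∉ A → ∃ B ⊆ A, ∀ k : ℕ, 1 ≤ k → k ≤ K →
      (En B k : ℝ) ≤ (A.card : ℝ) ^ (2 * (k : ℝ) - 1 - Real.log k / 10 ^ 6) ∧
      ((EM (fun _ : Fin k => A \ B)).card : ℝ) ≤
        C * (A.card : ℝ) ^ (2 * (k : ℝ) - 1 - Real.log k / 4) := by
  classical
  obtain ⟨W, hW0, hdec⟩ := decG (Nat.log 2 K) (1 / 800000) (by norm_num)
  obtain ⟨C, hCd⟩ : ∃ C : ℝ, C = 1 + ∑ k ∈ Finset.range (K + 1), W k (1 / 100) 32 := ⟨_, rfl⟩
  have hsum0 : ∀ k ∈ Finset.range (K + 1), 0 ≤ W k (1 / 100) 32 := fun k _ => (hW0 k _ _).le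
  have hC1 : 1 ≤ C := by
    rw [hCd]
    have := Finset.sum_nonneg hsum0
    linarith
  have hCk : ∀ k ≤ K, W k (1 / 100) 32 ≤ C := by
    intro k hk
    have h1 := Finset.single_le_sum hsum0 (Finset.mem_range.2 (Nat.lt_succ_of_le hk))
    rw [hCd]
    linarith
  refine ⟨C, by linarith, ?_⟩
  intro A hA0
  obtain ⟨B, hBA, hEn, hF⟩ := hdec A
  refine ⟨B, hBA, ?_⟩
  intro k hk hkK
  have hk1 : (1 : ℝ) ≤ k := by exact_mod_cast hk
  have hl0 : 0 ≤ log (k : ℝ) := Real.log_nonneg hk1
  rcases A.eq_empty_or_nonempty with hA | hA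
  · have hB : B = ∅ := by rw [hA] at hBA; exact Finset.subset_empty.1 hBA
    have h2 : En B k ≤ 0 := by
      rw [hB]
      refine (En_le ∅ k).trans ?_
      have : 2 * k ≠ 0 := by omega
      simp [this]
    have h3 : (En B k : ℝ) ≤ 0 := by exact_mod_cast h2
    have h4 : EM (fun _ : Fin k => A \ B) = ∅ := by
      rw [Finset.eq_empty_iff_forall_notMem]
      intro r hr
      have h2 := (Finset.mem_product.1 (Finset.mem_filter.1 hr).1).1
      have h3 := Fintype.mem_piFinset.1 h2 ⟨0, hk⟩
      rw [hA, Finset.empty_sdiff] at h3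
      exact absurd h3 (Finset.notMem_empty _)
    refine ⟨h3.trans (Real.rpow_nonneg (Nat.cast_nonneg _) _), ?_⟩
    rw [h4]
    simp only [Finset.card_empty, Nat.cast_zero]
    exact mul_nonneg (by linarith) (Real.rpow_nonneg (Nat.cast_nonneg _) _)
  have cA : (1 : ℝ) ≤ A.card := by exact_mod_cast hA.card_pos
  have cA0 : (0 : ℝ) < A.card := by linarith
  have hSA : ((A \ B).card : ℝ) ≤ A.card := by
    exact_mod_cast Finset.card_le_card Finset.sdiff_subset
  constructor
  · have h1 := hEn (Nat.log 2 k) (Nat.log_mono_right hkK) k (Nat.pow_log_le_self 2 (by omega))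
    refine h1.trans (Real.rpow_le_rpow_of_exponent_le cA ?_)
    have h2 := natlog_delta k hk
    linarith
  · have h0' : (0 : ℤ) ∉ A \ B := fun h => hA0 (Finset.mem_sdiff.1 h).1
    rcases Nat.lt_or_ge k 2 with hk2 | hk2
    · -- `k = 1`
      have hk' : k = 1 := by omega
      subst hk'
      have h1 : ((EM (fun _ : Fin 1 => A \ B)).card : ℝ) ≤ (A.card : ℝ) := by
        have h2 : (EM (fun _ : Fin 1 => A \ B)).card ≤ (A \ B).card := by
          refine Finset.card_le_card_of_injOn (fun p => p.1 0) ?_ ?_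
          · intro p hp
            exact Fintype.mem_piFinset.1
              (Finset.mem_product.1 (Finset.mem_filter.1 (Finset.mem_coe.1 hp)).1).1 0
          · intro p hp q hq hpq
            have e1 := (Finset.mem_filter.1 (Finset.mem_coe.1 hp)).2
            have e2 := (Finset.mem_filter.1 (Finset.mem_coe.1 hq)).2
            simp only [Fin.prod_univ_one] at e1 e2
            simp only at hpq
            have e3 : p.1 = q.1 := by
              funext i
              rw [Fin.eq_zero i]
              exact hpq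
            have e4 : p.2 = q.2 := by
              funext i
              rw [Fin.eq_zero i, ← e1, ← e2]
              exact hpq
            exact Prod.ext e3 e4
        have h3 : ((EM (fun _ : Fin 1 => A \ B)).card : ℝ) ≤ (A \ B).card := by
          exact_mod_cast h2
        linarith
      have e1 : (2 * ((1 : ℕ) : ℝ) - 1 - Real.log ((1 : ℕ) : ℝ) / 4) = 1 := by
        push_cast
        rw [Real.log_one]
        norm_num
      rw [e1, Real.rpow_one]
      nlinarith
    · have hk2' : (2 : ℝ) ≤ k := by exact_mod_cast hk2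
      have h1 := EM_le_fac k (A \ B) h0' _ (fun u hu => hF k hk (1 / 100) (by norm_num)
        (by norm_num) 32 (by norm_num) (by linarith) u hu)
      refine h1.trans ?_
      have h2 : ((A \ B).card : ℝ) ^ k ≤ (A.card : ℝ) ^ (k : ℝ) := by
        rw [Real.rpow_natCast]
        exact pow_le_pow_left₀ (Nat.cast_nonneg _) hSA k
      have hW := hW0 k (1 / 100) 32
      have hx := expo k hk2
      obtain ⟨X, hX⟩ : ∃ X : ℝ, X = (k : ℝ) - k * tau k 32 + 1 / 100 +
        50000 * (3 + Real.log 32) * (1 / 800000) * (k * tau k 32) := ⟨_, rfl⟩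
      rw [← hX] at hx ⊢
      calc ((A \ B).card : ℝ) ^ k * (W k (1 / 100) 32 * (A.card : ℝ) ^ X) ≤
          (A.card : ℝ) ^ (k : ℝ) * (W k (1 / 100) 32 * (A.card : ℝ) ^ X) :=
            mul_le_mul_of_nonneg_right h2 (by positivity)
        _ = W k (1 / 100) 32 * (A.card : ℝ) ^ ((k : ℝ) + X) := by
            rw [Real.rpow_add cA0 (k : ℝ)]
            ring
        _ ≤ C * (A.card : ℝ) ^ (2 * (k : ℝ) - 1 - Real.log k / 4) := by
            refine mul_le_mul (hCk k hkK) ?_ (by positivity) (by linarith)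
            exact Real.rpow_le_rpow_of_exponent_le cA (by linarith)

end Pool.Agent.H64.ES.Better
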