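import Mathlib
import Pool.Agent.H64.ES.Better

/-!
# The low energy decomposition with better constants, second version

`Pool.Agent.H87.PT.decG` with `t = min (16 k) (16 * 5792)`.
-/

set_option autoImplicit false

namespace Pool.Agent.H64.ES.Better

open Finset Real
open Pool.Agent.H87.LL (Fac)
open Pool.Agent.Y359.LE (En En_le)
open Pool.Agent.H87.PT (decG tau)

theorem log5792 : Real.log 5792 ≤ 25 / 2 * Real.log 2 := by
  have h1 : Real.log (5792 ^ 2) ≤ Real.log (2 ^ 25) :=
    Real.log_le_log (by norm_num) (by norm_num)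
  rw [Real.log_pow, Real.log_pow] at h1
  push_cast at h1
  linarith

/-- the parameter -/
noncomputable def tk (k : ℕ) : ℝ := min (16 * k) (16 * 5792)

theorem tk_one (k : ℕ) (hk : 1 ≤ k) : 1 ≤ tk k := by
  have hk1 : (1 : ℝ) ≤ k := by exact_mod_cast hk
  unfold tk
  exact le_min (by linarith) (by norm_num)

theorem tk_le (k : ℕ) : tk k ≤ 16 * k := min_le_left _ _

theorem expo2 (k : ℕ) (hk : 2 ≤ k) :
    (k : ℝ) - k * tau k (tk k) + 1 / 200 +
      50000 * (3 + Real.log (tk k)) * (1 / 800000) * (k * tau k (tk k)) ≤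
      k - 1 - min ((k : ℝ) / 11) (60 * Real.log k) := by
  have hk1 : (2 : ℝ) ≤ k := by exact_mod_cast hk
  have hk0 : (k : ℝ) ≠ 0 := by positivity
  have hl2 := Real.log_two_lt_d9
  have hl2' := Real.log_two_gt_d9
  have h5 := log5792
  have h16 : Real.log 16 = 4 * Real.log 2 := by
    rw [show (16 : ℝ) = 2 ^ 4 by norm_num, Real.log_pow]
    norm_num
  rcases Nat.lt_or_ge 5792 k with hlt | hge
  · -- large `k`
    have hkR : (5792 : ℝ) ≤ k := by exact_mod_cast hlt.le
    have ht : tk k = 16 * 5792 := by
      unfold tk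
      exact min_eq_right (by linarith)
    have hs : (k : ℝ) * tau k (16 * 5792) = 5792 * (1 + (Real.log k - Real.log 5792)) := by
      unfold tau
      have : (16 : ℝ) * k / (16 * 5792) = k / 5792 := by
        rw [mul_div_mul_left _ _ (by norm_num)]
      rw [this, Real.log_div hk0 (by norm_num)]
      field_simp
    have hlog : Real.log (16 * 5792) = 4 * Real.log 2 + Real.log 5792 := by
      rw [Real.log_mul (by norm_num) (by norm_num), h16]
    have hlk : Real.log 5792 ≤ Real.log k := Real.log_le_log (by norm_num) hkR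
    have hmin : min ((k : ℝ) / 11) (60 * Real.log k) ≤ 60 * Real.log k := min_le_right _ _
    rw [ht, hs, hlog]
    have hb : 0 ≤ 13 - (4 * Real.log 2 + Real.log 5792) - 1.563 := by linarith
    have hc : 0 ≤ (13 - (4 * Real.log 2 + Real.log 5792) - 1.563) *
        (1 + (Real.log k - Real.log 5792)) := mul_nonneg hb (by linarith)
    nlinarith
  · -- small `k`
    have hkR : (k : ℝ) ≤ 5792 := by exact_mod_cast hge
    have ht : tk k = 16 * k := by
      unfold tk
      exact min_eq_left (by linarith)
    have hs : (k : ℝ) * tau k (16 * k) = k := by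
      unfold tau
      rw [div_self (by positivity), Real.log_one]
      field_simp
      ring
    have hlog : Real.log (16 * (k : ℝ)) = 4 * Real.log 2 + Real.log k := by
      rw [Real.log_mul (by norm_num) hk0, h16]
    have hmin : min ((k : ℝ) / 11) (60 * Real.log k) ≤ (k : ℝ) / 11 := min_le_left _ _
    rw [ht, hs, hlog]
    have hmain : 1 + 1 / 200 + (k : ℝ) / 11 + (3 + (4 * Real.log 2 + Real.log k)) / 16 * k ≤ k := by
      rcases Nat.lt_or_ge 10 k with h10 | h10
      · have h10R : (10 : ℝ) ≤ k := by exact_mod_cast h10.le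
        rcases Nat.lt_or_ge 1024 k with h1024 | h1024
        · have h1024R : (1024 : ℝ) ≤ k := by exact_mod_cast h1024.le
          have hlk : Real.log k ≤ 25 / 2 * Real.log 2 :=
            (Real.log_le_log (by linarith) hkR).trans h5
          nlinarith
        · have h1024R : (k : ℝ) ≤ 1024 := by exact_mod_cast h1024
          have hlk : Real.log k ≤ 10 * Real.log 2 := by
            have h1 : Real.log k ≤ Real.log (2 ^ 10) :=
              Real.log_le_log (by linarith) (by norm_num; exact_mod_cast h1024)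
            rw [Real.log_pow] at h1
            push_cast at h1
            exact h1
          nlinarith
      · have h10R : (k : ℝ) ≤ 10 := by exact_mod_cast h10
        have hlk : Real.log k ≤ Real.log 2 + (k / 2 - 1) := by
          have h1 : Real.log ((k : ℝ) / 2) ≤ k / 2 - 1 :=
            Real.log_le_sub_one_of_pos (by positivity)
          rw [Real.log_div hk0 (by norm_num)] at h1
          linarith
        have hq : 0 ≤ ((k : ℝ) - 2) * (10 - k) := mul_nonneg (by linarith) (by linarith)
        have hm := mul_le_mul_of_nonneg_right hlk (show (0 : ℝ) ≤ k by linarith)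
        nlinarith
    linarith

/-- **The decomposition.** -/
theorem decomp' (K : ℕ) : ∃ C : ℝ, 0 < C ∧ ∀ A : Finset ℤ,
    (0 : ℤ) ∉ A → ∃ B ⊆ A, ∀ k : ℕ, 1 ≤ k → k ≤ K →
      (En B k : ℝ) ≤ (A.card : ℝ) ^ (2 * (k : ℝ) - 1 - Real.log k / 10 ^ 6) ∧
      ((EM (fun _ : Fin k => A \ B)).card : ℝ) ≤
        C * (A.card : ℝ) ^ (2 * (k : ℝ) - 1 - min ((k : ℝ) / 11) (60 * Real.log k)) := by
  classical
  obtain ⟨W, hW0, hdec⟩ := decG (Nat.log 2 K) (1 / 800000) (by norm_num)
  obtain ⟨C, hCd⟩ : ∃ C : ℝ, C = 1 + ∑ k ∈ Finset.range (K + 1), W k (1 / 200) (tk k) := ⟨_, rfl⟩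
  have hsum0 : ∀ k ∈ Finset.range (K + 1), 0 ≤ W k (1 / 200) (tk k) := fun k _ => (hW0 k _ _).le
  have hC1 : 1 ≤ C := by
    rw [hCd]
    have := Finset.sum_nonneg hsum0
    linarith
  have hCk : ∀ k ≤ K, W k (1 / 200) (tk k) ≤ C := by
    intro k hk
    have h1 := Finset.single_le_sum hsum0 (Finset.mem_range.2 (Nat.lt_succ_of_le hk))
    rw [hCd]
    linarith
  refine ⟨C, by linarith, ?_⟩
  intro A hA0
  obtain ⟨B, hBA, hEn, hF⟩ := hdec A
  refine ⟨B, hBA, ?_⟩
  intro k hk hkK
  have hk1 : (1 : ℝ) ≤ k := by exact_mod_cast hk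
  have hl0 : 0 ≤ log (k : ℝ) := Real.log_nonneg hk1
  rcases A.eq_empty_or_nonempty with hA | hA
  · have hB : B = ∅ := by rw [hA] at hBA; exact Finset.subset_empty.1 hBA
    have h2 : En B k ≤ 0 := by
      rw [hB]
      refine (En_le ∅ k).trans ?_
      have : 2 * k ≠ 0 := by omega
      simp [this]
    have h3 : (En B k : ℝ) ≤ 0 := by exact_mod_cast h2
    have h4 : EM (fun _ : Fin k => A \ B) = ∅ := by
      rw [Finset.eq_empty_iff_forall_notMem]
      intro r hr
      have h2 := (Finset.mem_product.1 (Finset.mem_filter.1 hr).1).1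
      have h3 := Fintype.mem_piFinset.1 h2 ⟨0, hk⟩
      rw [hA, Finset.empty_sdiff] at h3
      exact absurd h3 (Finset.notMem_empty _)
    refine ⟨h3.trans (Real.rpow_nonneg (Nat.cast_nonneg _) _), ?_⟩
    rw [h4]
    simp only [Finset.card_empty, Nat.cast_zero]
    exact mul_nonneg (by linarith) (Real.rpow_nonneg (Nat.cast_nonneg _) _)
  have cA : (1 : ℝ) ≤ A.card := by exact_mod_cast hA.card_pos
  have cA0 : (0 : ℝ) < A.card := by linarith
  have hSA : ((A \ B).card : ℝ) ≤ A.card := by
    exact_mod_cast Finset.card_le_card Finset.sdiff_subset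
  constructor
  · have h1 := hEn (Nat.log 2 k) (Nat.log_mono_right hkK) k (Nat.pow_log_le_self 2 (by omega))
    refine h1.trans (Real.rpow_le_rpow_of_exponent_le cA ?_)
    have h2 := natlog_delta k hk
    linarith
  · have h0' : (0 : ℤ) ∉ A \ B := fun h => hA0 (Finset.mem_sdiff.1 h).1
    rcases Nat.lt_or_ge k 2 with hk2 | hk2
    · -- `k = 1`
      have hk' : k = 1 := by omega
      subst hk'
      have h1 : ((EM (fun _ : Fin 1 => A \ B)).card : ℝ) ≤ (A.card : ℝ) := by
        have h2 : (EM (fun _ : Fin 1 => A \ B)).card ≤ (A \ B).card := by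
          refine Finset.card_le_card_of_injOn (fun p => p.1 0) ?_ ?_
          · intro p hp
            exact Fintype.mem_piFinset.1
              (Finset.mem_product.1 (Finset.mem_filter.1 (Finset.mem_coe.1 hp)).1).1 0
          · intro p hp q hq hpq
            have e1 := (Finset.mem_filter.1 (Finset.mem_coe.1 hp)).2
            have e2 := (Finset.mem_filter.1 (Finset.mem_coe.1 hq)).2
            simp only [Fin.prod_univ_one] at e1 e2
            simp only at hpq
            have e3 : p.1 = q.1 := by
              funext i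
              rw [Fin.eq_zero i]
              exact hpq
            have e4 : p.2 = q.2 := by
              funext i
              rw [Fin.eq_zero i, ← e1, ← e2]
              exact hpq
            exact Prod.ext e3 e4
        have h3 : ((EM (fun _ : Fin 1 => A \ B)).card : ℝ) ≤ (A \ B).card := by
          exact_mod_cast h2
        linarith
      have e1 : (2 * ((1 : ℕ) : ℝ) - 1 -
          min (((1 : ℕ) : ℝ) / 11) (60 * Real.log ((1 : ℕ) : ℝ))) = 1 := by
        push_cast
        rw [Real.log_one, mul_zero, min_eq_right (by norm_num)]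
        norm_num
      rw [e1, Real.rpow_one]
      nlinarith
    · have hk2' : (2 : ℝ) ≤ k := by exact_mod_cast hk2
      have h1 := EM_le_fac k (A \ B) h0' _ (fun u hu => hF k hk (1 / 200) (by norm_num)
        (by norm_num) (tk k) (tk_one k hk) (tk_le k) u hu)
      refine h1.trans ?_
      have h2 : ((A \ B).card : ℝ) ^ k ≤ (A.card : ℝ) ^ (k : ℝ) := by
        rw [Real.rpow_natCast]
        exact pow_le_pow_left₀ (Nat.cast_nonneg _) hSA k
      have hW := hW0 k (1 / 200) (tk k)
      have hx := expo2 k hk2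
      obtain ⟨X, hX⟩ : ∃ X : ℝ, X = (k : ℝ) - k * tau k (tk k) + 1 / 200 +
        50000 * (3 + Real.log (tk k)) * (1 / 800000) * (k * tau k (tk k)) := ⟨_, rfl⟩
      rw [← hX] at hx ⊢
      calc ((A \ B).card : ℝ) ^ k * (W k (1 / 200) (tk k) * (A.card : ℝ) ^ X) ≤
          (A.card : ℝ) ^ (k : ℝ) * (W k (1 / 200) (tk k) * (A.card : ℝ) ^ X) :=
            mul_le_mul_of_nonneg_right h2 (by positivity)
        _ = W k (1 / 200) (tk k) * (A.card : ℝ) ^ ((k : ℝ) + X) := by
            rw [Real.rpow_add cA0 (k : ℝ)]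
            ring
        _ ≤ C * (A.card : ℝ) ^ (2 * (k : ℝ) - 1 - min ((k : ℝ) / 11) (60 * Real.log k)) := by
            refine mul_le_mul (hCk k hkK) ?_ (by positivity) (by linarith)
            exact Real.rpow_le_rpow_of_exponent_le cA (by linarith)

end Pool.Agent.H64.ES.Better
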