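import Pool.Agent.H64.ES.Spec2
import Pool.Agent.H64.ES.SSum

/-! ES2-NUM for helper64: the numerical combination. -/

set_option autoImplicit false

namespace Pool.Agent.H64.ES.S_NUM

open Finset Real
open Pool.Agent.H64.ES Pool.Agent.H64.ES.H747

/-- `(1 + log m) log (m + 1) ≤ (6 / 5) m` -/
theorem log_D {m : ℕ} (hm : 1 ≤ m) :
    (1 + Real.log (m : ℝ)) * Real.log ((m : ℝ) + 1) ≤ 6 / 5 * m := by
  rcases Nat.lt_or_ge m 2 with h | h
  · have h1 : m = 1 := by omega
    subst h1
    have := Real.log_two_lt_d9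
    rw [Nat.cast_one, Real.log_one, add_zero, one_mul]
    norm_num
    linarith
  · have hm2 : (2 : ℝ) ≤ m := by exact_mod_cast h
    have hm0 : (0 : ℝ) < m := by linarith
    have he := Real.exp_one_gt_d9
    have he0 := Real.exp_pos 1
    have key : ∀ y : ℝ, 0 < y → Real.log y ≤ 2 * √y / Real.exp 1 := by
      intro y hy
      have hs : 0 < √y := Real.sqrt_pos.2 hy
      have h3 := Real.log_le_sub_one_of_pos (show 0 < √y / Real.exp 1 by positivity)
      rw [Real.log_div hs.ne' he0.ne', Real.log_exp, Real.log_sqrt hy.le] at h3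
      have h4 : 2 * √y / Real.exp 1 = 2 * (√y / Real.exp 1) := by ring
      rw [h4]
      linarith
    have h1 : 1 + Real.log (m : ℝ) ≤ 2 * √(Real.exp 1 * m) / Real.exp 1 := by
      have h2 := key (Real.exp 1 * m) (by positivity)
      rw [Real.log_mul he0.ne' hm0.ne', Real.log_exp] at h2
      exact h2
    have h2 := key ((m : ℝ) + 1) (by linarith)
    have h3 : 0 ≤ Real.log ((m : ℝ) + 1) := Real.log_nonneg (by linarith)
    have h4 : (1 + Real.log (m : ℝ)) * Real.log ((m : ℝ) + 1) ≤
        (2 * √(Real.exp 1 * m) / Real.exp 1) * (2 * √((m : ℝ) + 1) / Real.exp 1) :=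
      mul_le_mul h1 h2 h3 (by positivity)
    refine h4.trans ?_
    apply le_of_sq_le_sq _ (by positivity)
    have h5 : ((2 * √(Real.exp 1 * m) / Real.exp 1) * (2 * √((m : ℝ) + 1) / Real.exp 1)) ^ 2 =
        16 * (m * (m + 1)) / Real.exp 1 ^ 3 := by
      have e1 : √(Real.exp 1 * m) ^ 2 = Real.exp 1 * m := Real.sq_sqrt (by positivity)
      have e2 : √((m : ℝ) + 1) ^ 2 = m + 1 := Real.sq_sqrt (by positivity)
      calc ((2 * √(Real.exp 1 * m) / Real.exp 1) * (2 * √((m : ℝ) + 1) / Real.exp 1)) ^ 2
          = 16 * (√(Real.exp 1 * m) ^ 2 * √((m : ℝ) + 1) ^ 2) / Real.exp 1 ^ 4 := by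
            field_simp
            ring
        _ = 16 * (m * (m + 1)) / Real.exp 1 ^ 3 := by
            rw [e1, e2]
            field_simp
    rw [h5, div_le_iff₀ (by positivity)]
    have h6 : (20 : ℝ) ≤ Real.exp 1 ^ 3 := by
      have h7 := pow_le_pow_left₀ (by norm_num : (0 : ℝ) ≤ 2.7182818283) he.le 3
      refine le_trans ?_ h7
      norm_num
    have h8 : (6 / 5 * (m : ℝ)) ^ 2 * 20 ≤ (6 / 5 * (m : ℝ)) ^ 2 * Real.exp 1 ^ 3 :=
      mul_le_mul_of_nonneg_left h6 (by positivity)
    nlinarith

theorem S_NUM_holds : Pool.Agent.H64.ES.S_NUM := by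
  intro m et T hm het0 _ hHS hSM'
  have hm1 : (1 : ℝ) ≤ m := by exact_mod_cast hm
  have hD0 : 0 ≤ ∑ i, et i := sum_nonneg fun i _ => het0 i
  set D := ∑ i, et i with hDdef
  have hl0 : 0 ≤ Real.log ((m : ℝ) + 1) := Real.log_nonneg (by linarith)
  rcases le_or_gt (√(m : ℝ)) D with hA | hA
  · -- case A
    have h1 : ∑ i, U (et i) ≤ m := by
      have h2 : ∑ i, U (et i) ≤ ∑ _i : Fin m, (1 : ℝ) := sum_le_sum fun i _ => U_le_one (het0 i)
      rw [sum_const, card_univ, Fintype.card_fin, nsmul_eq_mul, mul_one] at h2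
      exact h2
    have h2 := log_A (show (0 : ℝ) ≤ m by linarith)
    have h3 : Real.log (1 + √(m : ℝ) / 2) ≤ Real.log (1 + D / 2) :=
      Real.log_le_log (by positivity) (by linarith)
    have h4 : Real.log ((m : ℝ) + 1) ≤ 30 * T := by
      have h5 : 0 ≤ Real.log (1 + D / 2) := Real.log_nonneg (by linarith)
      linarith
    calc (∑ i, U (et i)) * Real.log (m + 1) ≤ m * Real.log (m + 1) :=
          mul_le_mul_of_nonneg_right h1 hl0
      _ ≤ m * (30 * T) := mul_le_mul_of_nonneg_left h4 (by linarith)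
      _ = 30 * m * T := by ring
  rcases lt_or_ge D (1 / 2) with hC | hC
  · -- case C
    rcases eq_or_lt_of_le hD0 with hz | hpos
    · have h1 : ∀ i, et i = 0 := by
        intro i
        have h2 := (sum_eq_zero_iff_of_nonneg (fun i _ => het0 i)).1 hz.symm
        exact h2 i (mem_univ i)
      have h2 : ∑ i, U (et i) = 0 := sum_eq_zero fun i _ => by rw [h1 i, U_zero]
      rw [h2, zero_mul]
      have h3 : 0 ≤ T := by
        rw [← hz, zero_div, add_zero, Real.log_one, mul_zero] at hHS
        exact hHS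
      positivity
    · have hSM2 := hSM' hC.le
      have hm0 : (0 : ℝ) < m := by linarith
      have hlm : 0 ≤ Real.log m := Real.log_nonneg hm1
      have hlD : Real.log D ≤ 0 := Real.log_nonpos hD0 (by linarith)
      have h1 : ∑ i, U (et i) ≤ D * (1 + Real.log m - Real.log D) := by
        have h2 : ∀ i ∈ (univ : Finset (Fin m)), U (et i) ≤
            et i * (1 + Real.log m - Real.log D) + (D / m - et i) := by
          intro i _
          rcases eq_or_lt_of_le (het0 i) with h | h
          · have h3 : et i = 0 := h.symm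
            rw [h3, U_zero, zero_mul, sub_zero, zero_add]
            positivity
          · have h3 : 0 < et i := h
            have h4 := Real.log_le_sub_one_of_pos (show 0 < D / m / et i by positivity)
            rw [Real.log_div (by positivity) h3.ne', Real.log_div hpos.ne' hm0.ne'] at h4
            have h5 := mul_le_mul_of_nonneg_left h4 h3.le
            have h6 : et i * (D / m / et i - 1) = D / m - et i := by
              field_simp
            rw [h6] at h5
            unfold U
            linarith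
        have h3 := sum_le_sum h2
        rw [sum_add_distrib, ← sum_mul, sum_sub_distrib, sum_const, card_univ, Fintype.card_fin,
          nsmul_eq_mul, ← hDdef, mul_div_cancel₀ _ hm0.ne', sub_self, add_zero] at h3
        exact h3
      have h2 : D * (1 + Real.log m - Real.log D) ≤ D * ((1 + Real.log m) * (1 - Real.log D)) := by
        refine mul_le_mul_of_nonneg_left ?_ hpos.le
        have h3 : 0 ≤ Real.log m * (-Real.log D) :=
          mul_nonneg hlm (by linarith)
        nlinarith
      have h4 := log_D hm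
      calc (∑ i, U (et i)) * Real.log (m + 1)
          ≤ (D * ((1 + Real.log m) * (1 - Real.log D))) * Real.log (m + 1) :=
            mul_le_mul_of_nonneg_right (h1.trans h2) hl0
        _ = U D * ((1 + Real.log m) * Real.log (m + 1)) := by unfold U; ring
        _ ≤ U D * (6 / 5 * m) :=
            mul_le_mul_of_nonneg_left h4 (mul_nonneg hpos.le (by linarith))
        _ = 30 * m * (1 / 25 * U D) := by ring
        _ ≤ 30 * m * T := mul_le_mul_of_nonneg_left hSM2 (by linarith)
  · -- case B
    have h1 : ∑ i, U (et i) ≤ 2 * √(m * D) := by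
      have h2 : ∑ i, U (et i) ≤ ∑ i, 2 * √(et i) := sum_le_sum fun i _ => U_le_sqrt (het0 i)
      rw [← mul_sum] at h2
      refine h2.trans (mul_le_mul_of_nonneg_left ?_ (by norm_num))
      apply Real.le_sqrt_of_sq_le
      have h3 := sq_sum_le_card_mul_sum_sq (s := (univ : Finset (Fin m))) (f := fun i => √(et i))
      rw [card_univ, Fintype.card_fin] at h3
      refine h3.trans (le_of_eq ?_)
      congr 1
      exact sum_congr rfl fun i _ => Real.sq_sqrt (het0 i)
    set z := √(√(m : ℝ)) with hz
    have hz0 : 0 ≤ z := Real.sqrt_nonneg _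
    have hz2 : z ^ 2 = √(m : ℝ) := Real.sq_sqrt (Real.sqrt_nonneg _)
    have hz4 : z ^ 4 = m := by
      calc z ^ 4 = (z ^ 2) ^ 2 := by ring
        _ = (m : ℝ) := by rw [hz2, Real.sq_sqrt (by linarith)]
    have h2 : √(m * D) ≤ z ^ 3 := by
      apply Real.sqrt_le_iff.2 ⟨by positivity, ?_⟩
      have h3 : (m : ℝ) * D ≤ m * z ^ 2 := by
        rw [hz2]
        exact mul_le_mul_of_nonneg_left hA.le (by linarith)
      calc (m : ℝ) * D ≤ m * z ^ 2 := h3
        _ = (z ^ 3) ^ 2 := by rw [← hz4]; ring
    have h4 := log_B hm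
    rw [← hz] at h4
    have h5 : 1 / 9 ≤ T := by
      have h6 : Real.log (5 / 4) ≤ Real.log (1 + D / 2) :=
        Real.log_le_log (by norm_num) (by linarith)
      have := log_54
      linarith
    calc (∑ i, U (et i)) * Real.log (m + 1) ≤ (2 * z ^ 3) * (5 / 3 * z) :=
          mul_le_mul (h1.trans (mul_le_mul_of_nonneg_left h2 (by norm_num))) h4 hl0 (by positivity)
      _ = 10 / 3 * m := by rw [← hz4]; ring
      _ = 30 * m * (1 / 9) := by ring
      _ ≤ 30 * m * T := mul_le_mul_of_nonneg_left h5 (by linarith)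

end Pool.Agent.H64.ES.S_NUM
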