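import Pool.Agent.H64.ES.Spec2
import Pool.Agent.H64.ES.SAC

/-!
# ES2-TC1: entropy of a sum plus total correlation, the large case
-/

set_option autoImplicit false

namespace Pool.Agent.H64.ES.S_TC1

open Finset Real
open Pool.Agent.H64.ES

section gen

variable {ι κ : Type} [DecidableEq κ]

theorem card_fib_pos {R : Finset ι} (f : ι → κ) {r : ι} (hr : r ∈ R) :
    (0 : ℝ) < ((R.filter fun r' => f r' = f r).card : ℝ) := by
  have h : 0 < (R.filter fun r' => f r' = f r).card :=
    Finset.card_pos.2 ⟨r, Finset.mem_filter.2 ⟨hr, rfl⟩⟩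
  exact_mod_cast h

/-- summation over the values -/
theorem sum_group (R : Finset ι) (f : ι → κ) (g : κ → ℝ) :
    ∑ r ∈ R, g (f r) / ((R.filter fun r' => f r' = f r).card : ℝ) = ∑ v ∈ R.image f, g v := by
  rw [← Finset.sum_fiberwise_of_maps_to (s := R) (t := R.image f) (g := f)
    (fun r hr => Finset.mem_image_of_mem f hr)]
  refine Finset.sum_congr rfl fun v hv => ?_
  obtain ⟨r0, hr0, hr0v⟩ := Finset.mem_image.1 hv
  have h1 : ∀ r ∈ R.filter (fun r => f r = v),
      g (f r) / ((R.filter fun r' => f r' = f r).card : ℝ) =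
        g v / ((R.filter fun r' => f r' = v).card : ℝ) := by
    intro r hr
    rw [(Finset.mem_filter.1 hr).2]
  rw [Finset.sum_congr rfl h1, Finset.sum_const, nsmul_eq_mul]
  have h2 := card_fib_pos f hr0
  rw [hr0v] at h2
  rw [mul_div_cancel₀ _ h2.ne']

theorem card_mul_HR {R : Finset ι} (hR : R.Nonempty) (f : ι → κ) :
    (R.card : ℝ) * HR R f =
      ∑ r ∈ R, (Real.log R.card - Real.log ((R.filter fun r' => f r' = f r).card : ℝ)) := by
  have hN : (0 : ℝ) < R.card := by exact_mod_cast Finset.card_pos.2 hR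
  unfold HR
  rw [mul_div_cancel₀ _ hN.ne']
  refine Finset.sum_congr rfl fun r hr => ?_
  rw [Real.log_div hN.ne' (card_fib_pos f hr).ne']

end gen

theorem pm_pR {ι : Type} {R : Finset ι} (hR : R.Nonempty) {F : ℕ} (V : ι → ℕ)
    (hV : ∀ r ∈ R, V r < F) : Pm F (pR R V) := by
  have hN : (0 : ℝ) < R.card := by exact_mod_cast Finset.card_pos.2 hR
  refine ⟨fun a => div_nonneg (Nat.cast_nonneg _) hN.le, ?_⟩
  unfold pR
  rw [← Finset.sum_div, div_eq_one_iff_eq hN.ne']
  have h := Finset.card_eq_sum_card_fiberwise (s := R) (t := Finset.range F) (f := V)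
    (fun r hr => Finset.mem_coe.2 (Finset.mem_range.2 (hV r hr)))
  rw [h]
  push_cast
  rfl

/-- **TC1** -/
theorem S_TC1_holds : Pool.Agent.H64.ES.S_TC1 := by
  intro ι m F R V hR hV a₀ ha₀ hmax
  have hN : (0 : ℝ) < R.card := by exact_mod_cast Finset.card_pos.2 hR
  obtain ⟨p, hp⟩ : ∃ p : Fin m → ℕ → ℝ, p = fun i => pR R (fun r => V r i) := ⟨_, rfl⟩
  have hpi : ∀ i a, p i a = ((R.filter fun r => V r i = a).card : ℝ) / R.card := by
    intro i a
    rw [hp]
    rfl
  have hPm : ∀ i, Pm F (p i) := by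
    intro i
    rw [hp]
    exact pm_pR hR _ fun r hr => hV r hr i
  obtain ⟨D, hD⟩ : ∃ D : ℝ, D = ∑ i, (1 - p i (a₀ i)) := ⟨_, rfl⟩
  have hle1 : ∀ i a, a < F → p i a ≤ 1 := by
    intro i a ha
    rw [← (hPm i).sum]
    exact Finset.single_le_sum (fun b _ => (hPm i).nn b) (Finset.mem_range.2 ha)
  have hD0 : 0 ≤ D := by
    rw [hD]
    exact Finset.sum_nonneg fun i _ => sub_nonneg.2 (hle1 i _ (ha₀ i))
  have hAC : ∀ s, law F p s * √(1 + D / 2) ≤ 1 := by
    intro s
    rw [hD]
    refine Pool.Agent.H64.ES.H860.S_AC_holds m F p hPm a₀ ha₀ ?_ s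
    intro i a ha
    rw [hp]
    exact hmax i a ha
  -- the product of the marginals
  obtain ⟨P, hP⟩ : ∃ P : (Fin m → ℕ) → ℝ, P = fun v => ∏ i, p i (v i) := ⟨_, rfl⟩
  have hPnn : ∀ v, 0 ≤ P v := by
    intro v
    rw [hP]
    exact Finset.prod_nonneg fun i _ => (hPm i).nn _
  have hcI : ∀ r ∈ R, ∀ i, (0 : ℝ) < ((R.filter fun r' => V r' i = V r i).card : ℝ) :=
    fun r hr i => card_fib_pos (fun r' => V r' i) hr
  have hPpos : ∀ r ∈ R, 0 < P (V r) := by
    intro r hr
    rw [hP]
    refine Finset.prod_pos fun i _ => ?_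
    rw [hpi]
    exact div_pos (hcI r hr i) hN
  have hmem : ∀ r ∈ R, V r ∈ (Fintype.piFinset fun _ : Fin m => Finset.range F).filter
      (fun v => ∑ i, v i = ∑ i, V r i) := by
    intro r hr
    rw [Finset.mem_filter, Fintype.mem_piFinset]
    exact ⟨fun i => Finset.mem_range.2 (hV r hr i), rfl⟩
  have hlaw : ∀ s, law F p s = ∑ v ∈ (Fintype.piFinset fun _ : Fin m => Finset.range F).filter
      (fun v => ∑ i, v i = s), P v := by
    intro s
    rw [hP]
    rfl
  have hlawpos : ∀ r ∈ R, 0 < law F p (∑ i, V r i) := by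
    intro r hr
    rw [hlaw]
    exact (hPpos r hr).trans_le (Finset.single_le_sum (fun v _ => hPnn v) (hmem r hr))
  -- the counting functions
  obtain ⟨cS, hcS⟩ : ∃ cS : ℕ → ℝ, cS = fun s => ((R.filter fun r' => ∑ i, V r' i = s).card : ℝ) :=
    ⟨_, rfl⟩
  have hcSpos : ∀ r ∈ R, 0 < cS (∑ i, V r i) := by
    intro r hr
    rw [hcS]
    exact card_fib_pos (fun r' => ∑ i, V r' i) hr
  have hcSnn : ∀ s, 0 ≤ cS s := by
    intro s
    rw [hcS]
    exact Nat.cast_nonneg _
  have hsumcS : ∑ s ∈ R.image (fun r => ∑ i, V r i), cS s = R.card := by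
    rw [hcS]
    have h := Finset.card_eq_sum_card_image (fun r => ∑ i, V r i) R
    rw [h]
    push_cast
    rfl
  -- the main estimate
  have hmain : ∑ r ∈ R, (P (V r) * cS (∑ i, V r i) / law F p (∑ i, V r i)) /
      ((R.filter fun r' => V r' = V r).card : ℝ) ≤ R.card := by
    rw [sum_group R V (fun v => P v * cS (∑ i, v i) / law F p (∑ i, v i)), ← hsumcS]
    rw [← Finset.sum_fiberwise_of_maps_to (s := R.image V) (t := R.image (fun r => ∑ i, V r i))
      (g := fun v => ∑ i, v i) (by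
        intro v hv
        obtain ⟨r, hr, rfl⟩ := Finset.mem_image.1 hv
        exact Finset.mem_image_of_mem _ hr)]
    refine Finset.sum_le_sum fun s hs => ?_
    obtain ⟨r0, hr0, hr0s⟩ := Finset.mem_image.1 hs
    have hls : 0 < law F p s := by
      rw [← hr0s]
      exact hlawpos r0 hr0
    have h1 : ∀ v ∈ (R.image V).filter (fun v => ∑ i, v i = s),
        P v * cS (∑ i, v i) / law F p (∑ i, v i) = P v * (cS s / law F p s) := by
      intro v hv
      rw [(Finset.mem_filter.1 hv).2, mul_div_assoc]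
    rw [Finset.sum_congr rfl h1, ← Finset.sum_mul]
    have h2 : ∑ v ∈ (R.image V).filter (fun v => ∑ i, v i = s), P v ≤ law F p s := by
      rw [hlaw]
      refine Finset.sum_le_sum_of_subset_of_nonneg ?_ fun v _ _ => hPnn v
      intro v hv
      obtain ⟨hv1, hv2⟩ := Finset.mem_filter.1 hv
      obtain ⟨r, hr, rfl⟩ := Finset.mem_image.1 hv1
      rw [← hv2]
      exact hmem r hr
    calc (∑ v ∈ (R.image V).filter (fun v => ∑ i, v i = s), P v) * (cS s / law F p s)
        ≤ law F p s * (cS s / law F p s) :=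
          mul_le_mul_of_nonneg_right h2 (div_nonneg (hcSnn s) hls.le)
      _ = cS s := mul_div_cancel₀ _ hls.ne'
  -- the entropies
  have hTT : (R.card : ℝ) * TT R V = ∑ r ∈ R,
      (Real.log ((R.filter fun r' => V r' = V r).card : ℝ) - Real.log (cS (∑ i, V r i)) -
        Real.log (P (V r))) := by
    unfold TT
    rw [mul_sub, mul_add, Finset.mul_sum, card_mul_HR hR, card_mul_HR hR]
    have h1 : ∑ i, (R.card : ℝ) * HR R (fun r => V r i) = ∑ r ∈ R, (- Real.log (P (V r))) := by
      rw [Finset.sum_congr rfl fun i _ => card_mul_HR hR (fun r => V r i), Finset.sum_comm]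
      refine Finset.sum_congr rfl fun r hr => ?_
      rw [hP]
      simp only
      rw [Real.log_prod fun i _ => (by
        rw [hpi]
        exact (div_pos (hcI r hr i) hN).ne' : p i (V r i) ≠ 0), ← Finset.sum_neg_distrib]
      refine Finset.sum_congr rfl fun i _ => ?_
      rw [hpi, Real.log_div (hcI r hr i).ne' hN.ne']
      ring
    rw [h1, ← Finset.sum_add_distrib, ← Finset.sum_sub_distrib]
    refine Finset.sum_congr rfl fun r hr => ?_
    rw [hcS]
    simp only
    ring
  have hlogs : ∀ r ∈ R, 1 / 2 * Real.log (1 + D / 2) + 1 -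
      (P (V r) * cS (∑ i, V r i) / law F p (∑ i, V r i)) /
        ((R.filter fun r' => V r' = V r).card : ℝ) ≤
      Real.log ((R.filter fun r' => V r' = V r).card : ℝ) - Real.log (cS (∑ i, V r i)) -
        Real.log (P (V r)) := by
    intro r hr
    have a1 := hPpos r hr
    have a2 := hcSpos r hr
    have a3 := hlawpos r hr
    have a4 := card_fib_pos V hr
    have h1 := Real.log_le_sub_one_of_pos (div_pos (div_pos (mul_pos a1 a2) a3) a4)
    rw [Real.log_div (div_pos (mul_pos a1 a2) a3).ne' a4.ne', Real.log_div (mul_pos a1 a2).ne' a3.ne',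
      Real.log_mul a1.ne' a2.ne'] at h1
    have h2 : Real.log (law F p (∑ i, V r i)) + 1 / 2 * Real.log (1 + D / 2) ≤ 0 := by
      have h3 : (0 : ℝ) < 1 + D / 2 := by positivity
      have h4 : 0 < √(1 + D / 2) := Real.sqrt_pos.2 h3
      have h5 := Real.log_nonpos (mul_pos a3 h4).le (hAC (∑ i, V r i))
      rw [Real.log_mul a3.ne' h4.ne', Real.log_sqrt h3.le] at h5
      linarith
    linarith
  have hfin : (R.card : ℝ) * (1 / 2 * Real.log (1 + D / 2)) ≤ (R.card : ℝ) * TT R V := by
    rw [hTT]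
    have h1 := Finset.sum_le_sum hlogs
    rw [Finset.sum_sub_distrib, Finset.sum_const, nsmul_eq_mul] at h1
    linarith
  have h2 := le_of_mul_le_mul_left hfin hN
  rw [hD, hp] at h2
  exact h2

end Pool.Agent.H64.ES.S_TC1
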