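import Pool.Agent.H64.ES.Spec2

/-!
# Project ES2 (helper64), task TC2: entropy of a sum plus total correlation, small case
-/

set_option autoImplicit false

namespace Pool.Agent.H64.ES.S_TC2

open Finset Real
open Pool.Agent.H64.ES

/-! ### product measures -/

section prodm

variable {m F : ℕ} {p : Fin m → ℕ → ℝ}

theorem tot (hp : ∀ i, Pm F (p i)) :
    ∑ v ∈ Fintype.piFinset (fun _ : Fin m => range F), ∏ i, p i (v i) = 1 := by
  rw [← Finset.prod_univ_sum]
  rw [Finset.prod_congr rfl (fun i _ => (hp i).sum), Finset.prod_const_one]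

theorem W_nn (hp : ∀ i, Pm F (p i)) (v : Fin m → ℕ) : 0 ≤ ∏ i, p i (v i) :=
  Finset.prod_nonneg fun i _ => (hp i).nn _

theorem law_nn (hp : ∀ i, Pm F (p i)) (s : ℕ) : 0 ≤ law F p s :=
  Finset.sum_nonneg fun v _ => W_nn hp v

theorem sum_law (hp : ∀ i, Pm F (p i)) : ∑ s ∈ range (m * F + 1), law F p s = 1 := by
  rw [← tot hp]
  unfold law
  refine Finset.sum_fiberwise_of_maps_to (fun v hv => ?_) _
  rw [mem_range, Nat.lt_succ_iff]
  have h1 : ∑ i : Fin m, v i ≤ ∑ _i : Fin m, F := by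
    refine Finset.sum_le_sum fun i _ => ?_
    exact (mem_range.1 (Fintype.mem_piFinset.1 hv i)).le
  simpa using h1

theorem one_sub_le_prod {ι : Type*} (t : Finset ι) (e : ι → ℝ) (h0 : ∀ i ∈ t, 0 ≤ e i)
    (h1 : ∀ i ∈ t, e i ≤ 1) : 1 - ∑ i ∈ t, e i ≤ ∏ i ∈ t, (1 - e i) := by
  classical
  induction t using Finset.induction_on with
  | empty => simp
  | insert a t ha ih =>
    rw [sum_insert ha, prod_insert ha]
    have i1 := ih (fun i hi => h0 i (mem_insert_of_mem hi)) (fun i hi => h1 i (mem_insert_of_mem hi))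
    have i2 := h0 a (mem_insert_self _ _)
    have i3 := h1 a (mem_insert_self _ _)
    have i4 : 0 ≤ ∑ i ∈ t, e i := sum_nonneg fun i hi => h0 i (mem_insert_of_mem hi)
    have i5 : (1 - e a) * (1 - ∑ i ∈ t, e i) ≤ (1 - e a) * ∏ i ∈ t, (1 - e i) :=
      mul_le_mul_of_nonneg_left i1 (by linarith)
    nlinarith [mul_nonneg i2 i4]

theorem p_le_one (hp : ∀ i, Pm F (p i)) (i : Fin m) {a : ℕ} (ha : a < F) : p i a ≤ 1 := by
  rw [← (hp i).sum]
  exact Finset.single_le_sum (f := p i) (fun b _ => (hp i).nn b) (mem_range.2 ha)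

theorem low (hp : ∀ i, Pm F (p i)) {a₀ : Fin m → ℕ} (ha : ∀ i, a₀ i < F) :
    1 - ∑ i, (1 - p i (a₀ i)) ≤ law F p (∑ i, a₀ i) := by
  have h1 : ∏ i, p i (a₀ i) ≤ law F p (∑ i, a₀ i) := by
    unfold law
    refine Finset.single_le_sum (f := fun v : Fin m → ℕ => ∏ i, p i (v i))
      (fun v _ => W_nn hp v) ?_
    rw [mem_filter, Fintype.mem_piFinset]
    exact ⟨fun i => mem_range.2 (ha i), rfl⟩
  refine le_trans ?_ h1
  have h2 := one_sub_le_prod univ (fun i => 1 - p i (a₀ i))
    (fun i _ => by have := p_le_one hp i (ha i); linarith)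
    (fun i _ => by have := (hp i).nn (a₀ i); linarith)
  simpa using h2

/-- the law of the sum at a point different from the most probable one -/
theorem law_le (hp : ∀ i, Pm F (p i)) {a₀ : Fin m → ℕ} (ha : ∀ i, a₀ i < F) {s : ℕ}
    (hs : s ≠ ∑ i, a₀ i) : law F p s ≤ ∑ i, (1 - p i (a₀ i)) := by
  have hmem : ∑ i, a₀ i ∈ range (m * F + 1) := by
    rw [mem_range, Nat.lt_succ_iff]
    have h1 : ∑ i : Fin m, a₀ i ≤ ∑ _i : Fin m, F := Finset.sum_le_sum fun i _ => (ha i).le
    simpa using h1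
  have h1 := Finset.add_sum_erase (range (m * F + 1)) (law F p) hmem
  rw [sum_law hp] at h1
  have h2 := low hp ha
  have h4 : 0 ≤ ∑ i, (1 - p i (a₀ i)) := sum_nonneg fun i _ => by
    have := p_le_one hp i (ha i); linarith
  by_cases hs' : s ∈ range (m * F + 1)
  · have h3 : law F p s ≤ ∑ s ∈ (range (m * F + 1)).erase (∑ i, a₀ i), law F p s :=
      Finset.single_le_sum (f := law F p) (fun s _ => law_nn hp s) (mem_erase.2 ⟨hs, hs'⟩)
    linarith
  · have h3 : law F p s = 0 := by
      unfold law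
      rw [Finset.filter_eq_empty_iff.2, sum_empty]
      intro v hv hvs
      apply hs'
      rw [mem_range, Nat.lt_succ_iff, ← hvs]
      have h5 : ∑ i : Fin m, v i ≤ ∑ _i : Fin m, F :=
        Finset.sum_le_sum fun i _ => (mem_range.1 (Fintype.mem_piFinset.1 hv i)).le
      simpa using h5
    rw [h3]; exact h4

theorem law_le_one (hp : ∀ i, Pm F (p i)) (s : ℕ) : law F p s ≤ 1 := by
  rw [← tot hp]
  exact sum_le_sum_of_subset_of_nonneg (filter_subset _ _) fun v _ _ => W_nn hp v

/-- number of coordinates different from `a₀` -/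
def nd (a₀ v : Fin m → ℕ) : ℕ := (univ.filter fun i => v i ≠ a₀ i).card

theorem nd_real (a₀ v : Fin m → ℕ) : (nd a₀ v : ℝ) = ∑ i, if v i = a₀ i then (0 : ℝ) else 1 := by
  unfold nd
  rw [card_filter]
  push_cast
  refine sum_congr rfl fun i _ => ?_
  by_cases h : v i = a₀ i <;> simp [h]

theorem pow_nd (a₀ v : Fin m → ℕ) (x : ℝ) :
    x ^ nd a₀ v = ∏ i, if v i = a₀ i then (1 : ℝ) else x := by
  unfold nd
  rw [← prod_const, prod_filter]
  refine prod_congr rfl fun i _ => ?_
  by_cases h : v i = a₀ i <;> simp [h]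

theorem sum_ite_p (hp : ∀ i, Pm F (p i)) {a₀ : Fin m → ℕ} (ha : ∀ i, a₀ i < F) (i : Fin m)
    (x y : ℝ) : ∑ a ∈ range F, p i a * (if a = a₀ i then x else y) =
      y + (x - y) * p i (a₀ i) := by
  have h1 : ∀ a ∈ range F, p i a * (if a = a₀ i then x else y) =
      p i a * y + (if a = a₀ i then p i a * (x - y) else 0) := by
    intro a _
    by_cases h : a = a₀ i
    · simp only [h, if_true]; ring
    · simp only [h, if_false]; ring
  rw [sum_congr rfl h1, sum_add_distrib, ← sum_mul, (hp i).sum, sum_ite_eq' (range F) (a₀ i),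
    if_pos (mem_range.2 (ha i))]
  ring

theorem sum_pow (hp : ∀ i, Pm F (p i)) {a₀ : Fin m → ℕ} (ha : ∀ i, a₀ i < F) (z : ℝ) :
    ∑ v ∈ Fintype.piFinset (fun _ : Fin m => range F), (∏ i, p i (v i)) * (1 + z) ^ nd a₀ v =
      ∏ i, (1 + z * (1 - p i (a₀ i))) := by
  have h1 : ∀ v ∈ Fintype.piFinset (fun _ : Fin m => range F),
      (∏ i, p i (v i)) * (1 + z) ^ nd a₀ v =
        ∏ i, (p i (v i) * (if v i = a₀ i then (1 : ℝ) else 1 + z)) := by
    intro v _
    rw [pow_nd, ← prod_mul_distrib]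
  rw [sum_congr rfl h1]
  rw [← Finset.prod_univ_sum (fun _ : Fin m => range F)
    (fun i a => p i a * (if a = a₀ i then (1 : ℝ) else 1 + z))]
  refine prod_congr rfl fun i _ => ?_
  rw [sum_ite_p hp ha i]
  ring

theorem sum_nd (hp : ∀ i, Pm F (p i)) {a₀ : Fin m → ℕ} (ha : ∀ i, a₀ i < F) :
    ∑ v ∈ Fintype.piFinset (fun _ : Fin m => range F), (∏ i, p i (v i)) * (nd a₀ v : ℝ) =
      ∑ i, (1 - p i (a₀ i)) := by
  classical
  have h1 : ∀ v ∈ Fintype.piFinset (fun _ : Fin m => range F),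
      (∏ i, p i (v i)) * (nd a₀ v : ℝ) =
        ∑ i, ∏ j, (p j (v j) * (if j = i then (if v j = a₀ j then (0 : ℝ) else 1) else 1)) := by
    intro v _
    rw [nd_real, mul_sum]
    refine sum_congr rfl fun i _ => ?_
    rw [prod_mul_distrib]
    congr 1
    rw [prod_ite_eq' univ i]
    rw [if_pos (mem_univ i)]
  rw [sum_congr rfl h1, sum_comm]
  refine sum_congr rfl fun i _ => ?_
  rw [← Finset.prod_univ_sum (fun _ : Fin m => range F)
    (fun j a => p j a * (if j = i then (if a = a₀ j then (0 : ℝ) else 1) else 1))]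
  rw [prod_eq_single i]
  · simp only [if_true]
    rw [sum_ite_p hp ha i]
    ring
  · intro j _ hj
    simp only [hj, if_false, mul_one]
    exact (hp j).sum
  · intro h
    exact absurd (mem_univ i) h

end prodm

/-! ### the empirical laws -/

section emp

variable {ι : Type} {m F : ℕ}

/-- the marginals -/
noncomputable def mp (R : Finset ι) (V : ι → Fin m → ℕ) (i : Fin m) (a : ℕ) : ℝ :=
  pR R (fun r => V r i) a

theorem frac_pos {κ : Type} [DecidableEq κ] (R : Finset ι) (f : ι → κ) {r : ι} (hr : r ∈ R) :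
    0 < ((R.filter fun r' => f r' = f r).card : ℝ) / R.card := by
  have h1 : 0 < (R.filter fun r' => f r' = f r).card :=
    card_pos.2 ⟨r, mem_filter.2 ⟨hr, rfl⟩⟩
  have h2 : 0 < R.card := card_pos.2 ⟨r, hr⟩
  positivity

theorem frac_le_one {κ : Type} [DecidableEq κ] (R : Finset ι) (f : ι → κ) (a : κ) :
    ((R.filter fun r' => f r' = a).card : ℝ) / R.card ≤ 1 := by
  apply div_le_one_of_le₀ _ (by positivity)
  exact_mod_cast card_filter_le _ _

theorem mp_Pm {R : Finset ι} (hR : R.Nonempty) {V : ι → Fin m → ℕ}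
    (hV : ∀ r ∈ R, ∀ i, V r i < F) (i : Fin m) : Pm F (mp R V i) where
  nn := fun a => by unfold mp pR; positivity
  sum := by
    unfold mp pR
    rw [← sum_div]
    have h1 : R.card = ∑ a ∈ range F, (R.filter fun r => V r i = a).card :=
      card_eq_sum_card_fiberwise (fun r hr => by
        simp only [coe_range, Set.mem_Iio]
        exact hV r hr i)
    rw [← Nat.cast_sum, ← h1]
    have : (0 : ℝ) < R.card := by exact_mod_cast hR.card_pos
    exact div_self this.ne'

theorem HR_mul {κ : Type} [DecidableEq κ] {R : Finset ι} (hR : R.Nonempty) (f : ι → κ) :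
    (R.card : ℝ) * HR R f =
      ∑ r ∈ R, -Real.log (((R.filter fun r' => f r' = f r).card : ℝ) / R.card) := by
  have hK : (0 : ℝ) < R.card := by exact_mod_cast hR.card_pos
  unfold HR
  rw [mul_div_cancel₀ _ hK.ne']
  refine sum_congr rfl fun r _ => ?_
  rw [← Real.log_inv, inv_div]

/-- weights of tuples under the product of the marginals -/
noncomputable def PP (R : Finset ι) (V : ι → Fin m → ℕ) (v : Fin m → ℕ) : ℝ := ∏ i, mp R V i (v i)

/-- the joint law -/
noncomputable def QQ (R : Finset ι) (V : ι → Fin m → ℕ) (v : Fin m → ℕ) : ℝ :=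
  ((R.filter fun r => V r = v).card : ℝ) / R.card

/-- the law of the sum -/
noncomputable def qS (R : Finset ι) (V : ι → Fin m → ℕ) (s : ℕ) : ℝ :=
  ((R.filter fun r => ∑ i, V r i = s).card : ℝ) / R.card

theorem PP_pos (R : Finset ι) (V : ι → Fin m → ℕ) {r : ι} (hr : r ∈ R) : 0 < PP R V (V r) :=
  prod_pos fun i _ => frac_pos R (fun r => V r i) hr

theorem QQ_pos (R : Finset ι) (V : ι → Fin m → ℕ) {r : ι} (hr : r ∈ R) : 0 < QQ R V (V r) :=
  frac_pos R V hr

theorem qS_pos (R : Finset ι) (V : ι → Fin m → ℕ) {r : ι} (hr : r ∈ R) :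
    0 < qS R V (∑ i, V r i) :=
  frac_pos R (fun r => ∑ i, V r i) hr

theorem PP_nn (R : Finset ι) (V : ι → Fin m → ℕ) (v : Fin m → ℕ) : 0 ≤ PP R V v :=
  prod_nonneg fun i _ => by unfold mp pR; positivity

theorem TT_mul {R : Finset ι} (hR : R.Nonempty) (V : ι → Fin m → ℕ) :
    (R.card : ℝ) * TT R V = ∑ r ∈ R, (-Real.log (qS R V (∑ i, V r i)) +
      (Real.log (QQ R V (V r)) - Real.log (PP R V (V r)))) := by
  unfold TT
  rw [mul_sub, mul_add, mul_sum]
  rw [HR_mul hR (fun r => ∑ i, V r i), HR_mul hR V]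
  have h1 : ∑ i, (R.card : ℝ) * HR R (fun r => V r i) =
      ∑ r ∈ R, -Real.log (PP R V (V r)) := by
    rw [sum_congr rfl (fun i _ => HR_mul hR (fun r => V r i)), sum_comm]
    refine sum_congr rfl fun r hr => ?_
    unfold PP
    have h2 : ∀ i ∈ (univ : Finset (Fin m)), mp R V i (V r i) ≠ 0 := fun i _ =>
      (frac_pos R (fun r => V r i) hr).ne'
    rw [Real.log_prod h2, ← sum_neg_distrib]
    rfl
  rw [h1, ← sum_add_distrib, ← sum_sub_distrib]
  refine sum_congr rfl fun r _ => ?_
  unfold qS QQ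
  ring

/-- **Donsker-Varadhan** -/
theorem dv {R : Finset ι} (hR : R.Nonempty) {V : ι → Fin m → ℕ}
    (hV : ∀ r ∈ R, ∀ i, V r i < F) (G : (Fin m → ℕ) → ℝ)
    (hG0 : ∀ v ∈ Fintype.piFinset (fun _ : Fin m => range F), 0 ≤ G v)
    (hG1 : ∀ r ∈ R, 0 < G (V r)) :
    ∑ r ∈ R, Real.log (G (V r)) ≤
      ∑ r ∈ R, (Real.log (QQ R V (V r)) - Real.log (PP R V (V r))) +
      R.card * (∑ v ∈ Fintype.piFinset (fun _ : Fin m => range F), PP R V v * G v - 1) := by
  classical
  have hK : (0 : ℝ) < R.card := by exact_mod_cast hR.card_pos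
  have h1 : ∀ r ∈ R, Real.log (G (V r)) - (Real.log (QQ R V (V r)) - Real.log (PP R V (V r))) ≤
      PP R V (V r) * G (V r) / QQ R V (V r) - 1 := by
    intro r hr
    have hP := PP_pos R V hr
    have hQ := QQ_pos R V hr
    have hG := hG1 r hr
    have h2 := Real.log_le_sub_one_of_pos (show 0 < PP R V (V r) * G (V r) / QQ R V (V r) by
      positivity)
    rw [Real.log_div (by positivity) hQ.ne', Real.log_mul hP.ne' hG.ne'] at h2
    linarith
  have h2 := sum_le_sum h1
  rw [sum_sub_distrib, sum_sub_distrib (f := fun r => PP R V (V r) * G (V r) / QQ R V (V r))] at h2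
  have h3 : ∑ r ∈ R, PP R V (V r) * G (V r) / QQ R V (V r) ≤
      R.card * ∑ v ∈ Fintype.piFinset (fun _ : Fin m => range F), PP R V v * G v := by
    have hmaps : ∀ r ∈ R, V r ∈ Fintype.piFinset (fun _ : Fin m => range F) := fun r hr =>
      Fintype.mem_piFinset.2 fun i => mem_range.2 (hV r hr i)
    rw [← sum_fiberwise_of_maps_to hmaps, mul_sum]
    refine sum_le_sum fun v hv => ?_
    have h4 : ∀ r ∈ R.filter (fun r => V r = v), PP R V (V r) * G (V r) / QQ R V (V r) =
        PP R V v * G v / QQ R V v := by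
      intro r hr
      rw [(mem_filter.1 hr).2]
    rw [sum_congr rfl h4, sum_const, nsmul_eq_mul]
    have hPG : 0 ≤ PP R V v * G v := mul_nonneg (PP_nn R V v) (hG0 v hv)
    rcases Nat.eq_zero_or_pos (R.filter (fun r => V r = v)).card with h | h
    · rw [h, Nat.cast_zero, zero_mul]
      positivity
    · have h' : (0 : ℝ) < (R.filter (fun r => V r = v)).card := by exact_mod_cast h
      apply le_of_eq
      unfold QQ
      field_simp
  have h5 : ∑ _r ∈ R, (1 : ℝ) = R.card := by simp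
  rw [h5] at h2
  linarith

/-- the lower bound with the law of the sum of independent variables -/
theorem TT_law {R : Finset ι} (hR : R.Nonempty) {V : ι → Fin m → ℕ}
    (hV : ∀ r ∈ R, ∀ i, V r i < F) :
    ∑ r ∈ R, -Real.log (law F (mp R V) (∑ i, V r i)) ≤ R.card * TT R V := by
  classical
  have hK : (0 : ℝ) < R.card := by exact_mod_cast hR.card_pos
  have hp := fun i => mp_Pm hR hV i
  have hlaw : ∀ r ∈ R, 0 < law F (mp R V) (∑ i, V r i) := by
    intro r hr
    have h1 : PP R V (V r) ≤ law F (mp R V) (∑ i, V r i) := by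
      unfold law
      refine Finset.single_le_sum (f := fun v : Fin m → ℕ => ∏ i, mp R V i (v i))
        (fun v _ => W_nn hp v) ?_
      rw [mem_filter, Fintype.mem_piFinset]
      exact ⟨fun i => mem_range.2 (hV r hr i), rfl⟩
    exact (PP_pos R V hr).trans_le h1
  have hq0 : ∀ s, 0 ≤ qS R V s := fun s => by unfold qS; positivity
  have h1 := dv hR hV (fun v => qS R V (∑ i, v i) / law F (mp R V) (∑ i, v i))
    (fun v _ => div_nonneg (hq0 _) (law_nn hp _))
    (fun r hr => div_pos (qS_pos R V hr) (hlaw r hr))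
  have h2 : ∑ v ∈ Fintype.piFinset (fun _ : Fin m => range F),
      PP R V v * (qS R V (∑ i, v i) / law F (mp R V) (∑ i, v i)) ≤ 1 := by
    have hmaps : ∀ v ∈ Fintype.piFinset (fun _ : Fin m => range F),
        ∑ i, v i ∈ range (m * F + 1) := by
      intro v hv
      rw [mem_range, Nat.lt_succ_iff]
      have h5 : ∑ i : Fin m, v i ≤ ∑ _i : Fin m, F :=
        Finset.sum_le_sum fun i _ => (mem_range.1 (Fintype.mem_piFinset.1 hv i)).le
      simpa using h5
    rw [← sum_fiberwise_of_maps_to hmaps]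
    have h3 : ∀ s ∈ range (m * F + 1),
        ∑ v ∈ (Fintype.piFinset (fun _ : Fin m => range F)).filter (fun v => ∑ i, v i = s),
          PP R V v * (qS R V (∑ i, v i) / law F (mp R V) (∑ i, v i)) ≤ qS R V s := by
      intro s _
      have h4 : ∀ v ∈ (Fintype.piFinset (fun _ : Fin m => range F)).filter
          (fun v => ∑ i, v i = s),
          PP R V v * (qS R V (∑ i, v i) / law F (mp R V) (∑ i, v i)) =
            (∏ i, mp R V i (v i)) * (qS R V s / law F (mp R V) s) := by
        intro v hv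
        rw [(mem_filter.1 hv).2]
        rfl
      rw [sum_congr rfl h4, ← sum_mul]
      change law F (mp R V) s * (qS R V s / law F (mp R V) s) ≤ qS R V s
      rcases (law_nn hp s).eq_or_lt with h | h
      · rw [← h, zero_mul]; exact hq0 s
      · rw [mul_div_cancel₀ _ h.ne']
    refine (sum_le_sum h3).trans ?_
    unfold qS
    rw [← sum_div, ← Nat.cast_sum]
    have h6 : R.card = ∑ s ∈ range (m * F + 1), (R.filter fun r => ∑ i, V r i = s).card :=
      card_eq_sum_card_fiberwise (fun r hr => by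
        simp only [coe_range, Set.mem_Iio, Nat.lt_succ_iff]
        have h5 : ∑ i : Fin m, V r i ≤ ∑ _i : Fin m, F :=
          Finset.sum_le_sum fun i _ => (hV r hr i).le
        simpa using h5)
    rw [← h6]
    exact (div_self hK.ne').le
  have h3 : ∀ r ∈ R, Real.log (qS R V (∑ i, V r i) / law F (mp R V) (∑ i, V r i)) =
      Real.log (qS R V (∑ i, V r i)) - Real.log (law F (mp R V) (∑ i, V r i)) := fun r hr =>
    Real.log_div (qS_pos R V hr).ne' (hlaw r hr).ne'
  rw [sum_congr rfl h3, sum_sub_distrib] at h1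
  have h4 : (R.card : ℝ) * (∑ v ∈ Fintype.piFinset (fun _ : Fin m => range F),
      PP R V v * (qS R V (∑ i, v i) / law F (mp R V) (∑ i, v i)) - 1) ≤ 0 :=
    mul_nonpos_of_nonneg_of_nonpos hK.le (by linarith)
  rw [TT_mul hR V, sum_add_distrib, sum_neg_distrib, sum_neg_distrib]
  linarith

/-- total correlation bounds `TT` -/
theorem TT_tc {R : Finset ι} (hR : R.Nonempty) (V : ι → Fin m → ℕ) :
    ∑ r ∈ R, (Real.log (QQ R V (V r)) - Real.log (PP R V (V r))) ≤ R.card * TT R V := by
  rw [TT_mul hR V]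
  refine sum_le_sum fun r hr => ?_
  have h1 : Real.log (qS R V (∑ i, V r i)) ≤ 0 :=
    Real.log_nonpos (qS_pos R V hr).le (frac_le_one R (fun r => ∑ i, V r i) _)
  linarith

theorem sum_nd_R {R : Finset ι} (hR : R.Nonempty) (V : ι → Fin m → ℕ) (a₀ : Fin m → ℕ) :
    ∑ r ∈ R, (nd a₀ (V r) : ℝ) = R.card * ∑ i, (1 - mp R V i (a₀ i)) := by
  have hK : (0 : ℝ) < R.card := by exact_mod_cast hR.card_pos
  rw [sum_congr rfl (fun r _ => nd_real a₀ (V r)), sum_comm, mul_sum]
  refine sum_congr rfl fun i _ => ?_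
  have h1 : ∀ r ∈ R, (if V r i = a₀ i then (0 : ℝ) else 1) =
      1 - (if V r i = a₀ i then (1 : ℝ) else 0) := by
    intro r _
    by_cases h : V r i = a₀ i <;> simp [h]
  rw [sum_congr rfl h1, sum_sub_distrib, sum_boole]
  unfold mp pR
  simp only [sum_const, nsmul_eq_mul, mul_one]
  field_simp

end emp

/-! ### elementary inequalities -/

theorem binom_low {z : ℝ} (hz : 0 ≤ z) : ∀ n : ℕ, 2 ≤ n → 1 + n * z + z ^ n ≤ (1 + z) ^ n := by
  intro n hn
  induction n, hn using Nat.le_induction with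
  | base => norm_num; nlinarith
  | succ n hn ih =>
    have h1 : (1 + n * z + z ^ n) * (1 + z) ≤ (1 + z) ^ n * (1 + z) :=
      mul_le_mul_of_nonneg_right ih (by linarith)
    rw [pow_succ (1 + z)]
    refine le_trans ?_ h1
    have h2 : 0 ≤ z ^ n := by positivity
    have h3 : (0 : ℝ) ≤ n * z ^ 2 := by positivity
    push_cast
    have h4 : z ^ (n + 1) = z ^ n * z := pow_succ z n
    rw [h4]
    nlinarith

theorem one_le_G {z : ℝ} (hz : 0 ≤ z) (n : ℕ) : 1 ≤ (1 + z) ^ n - z * n := by
  have := one_add_mul_le_pow (show (-2 : ℝ) ≤ z by linarith) n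
  linarith

theorem prod_le_exp {ι : Type*} (t : Finset ι) (e : ι → ℝ) (h0 : ∀ i ∈ t, 0 ≤ e i) :
    ∏ i ∈ t, (1 + e i) ≤ Real.exp (∑ i ∈ t, e i) := by
  rw [Real.exp_sum]
  refine prod_le_prod (fun i hi => by have := h0 i hi; linarith) fun i _ => ?_
  have := Real.add_one_le_exp (e i)
  linarith

/-- exactly one coordinate differs, so the sums differ -/
theorem sum_ne_of_nd_one {m : ℕ} (a₀ v : Fin m → ℕ) (h : nd a₀ v = 1) :
    ∑ i, v i ≠ ∑ i, a₀ i := by
  classical
  unfold nd at h
  obtain ⟨i, hi⟩ := card_eq_one.1 h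
  have hi' : v i ≠ a₀ i := by
    have : i ∈ univ.filter (fun i => v i ≠ a₀ i) := by rw [hi]; exact mem_singleton_self i
    exact (mem_filter.1 this).2
  intro hs
  rw [← Finset.add_sum_erase univ v (mem_univ i), ← Finset.add_sum_erase univ a₀ (mem_univ i)] at hs
  have h2 : ∑ j ∈ univ.erase i, v j = ∑ j ∈ univ.erase i, a₀ j := by
    refine sum_congr rfl fun j hj => ?_
    by_contra hne
    have : j ∈ univ.filter (fun i => v i ≠ a₀ i) := mem_filter.2 ⟨mem_univ j, hne⟩
    rw [hi, mem_singleton] at this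
    exact (mem_erase.1 hj).1 this
  rw [h2] at hs
  exact hi' (Nat.add_right_cancel hs)

theorem S_TC2_holds (h1 : S_TC1) : Pool.Agent.H64.ES.S_TC2 := by
  classical
  intro ι m F R V hR hV a₀ ha hmax D hD hD2
  have hK : (0 : ℝ) < R.card := by exact_mod_cast hR.card_pos
  have hp := fun i => mp_Pm hR hV i
  have hT1 := h1 ι m F R V hR hV a₀ ha hmax
  change D = ∑ i, (1 - mp R V i (a₀ i)) at hD
  change 1 / 2 * Real.log (1 + (∑ i, (1 - mp R V i (a₀ i))) / 2) ≤ TT R V at hT1
  rw [← hD] at hT1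
  have hD0 : 0 ≤ D := by
    rw [hD]
    exact sum_nonneg fun i _ => by have := p_le_one hp i (ha i); linarith
  have hT2 : D / 5 ≤ TT R V := by
    refine le_trans ?_ hT1
    have h2 := Real.one_sub_inv_le_log_of_pos (show 0 < 1 + D / 2 by linarith)
    have h3 : 4 / 5 * (D / 2) ≤ 1 - (1 + D / 2)⁻¹ := by
      have h4 : 1 - (1 + D / 2)⁻¹ = (D / 2) / (1 + D / 2) := by
        field_simp
        ring
      rw [h4, le_div_iff₀ (by linarith)]
      nlinarith
    linarith
  rcases hD0.eq_or_lt with h0 | hDpos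
  · rw [← h0]
    unfold U
    rw [← h0] at hT2
    simpa using hT2
  rcases le_or_gt (-Real.log D) 4 with hL | hL
  · unfold U
    nlinarith
  -- the main case
  set L := -Real.log D with hLdef
  have hU : U D = D * (1 + L) := by unfold U; rw [hLdef]; ring
  rw [hU]
  -- (c)
  set B := R.filter (fun r => ∑ i, V r i ≠ ∑ i, a₀ i) with hB
  have hc : (B.card : ℝ) * L ≤ R.card * TT R V := by
    refine le_trans ?_ (TT_law hR hV)
    have h2 : ∑ r ∈ B, L ≤ ∑ r ∈ B, -Real.log (law F (mp R V) (∑ i, V r i)) := by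
      refine sum_le_sum fun r hr => ?_
      obtain ⟨hrR, hrs⟩ := mem_filter.1 hr
      have h3 : law F (mp R V) (∑ i, V r i) ≤ D := by
        rw [hD]; exact law_le hp ha hrs
      have h4 : 0 < law F (mp R V) (∑ i, V r i) := by
        have h5 : PP R V (V r) ≤ law F (mp R V) (∑ i, V r i) := by
          unfold law
          refine Finset.single_le_sum (f := fun v : Fin m → ℕ => ∏ i, mp R V i (v i))
            (fun v _ => W_nn hp v) ?_
          rw [mem_filter, Fintype.mem_piFinset]
          exact ⟨fun i => mem_range.2 (hV r hrR i), rfl⟩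
        exact (PP_pos R V hrR).trans_le h5
      rw [hLdef]
      exact neg_le_neg (Real.log_le_log h4 h3)
    rw [sum_const, nsmul_eq_mul] at h2
    refine h2.trans ?_
    refine sum_le_sum_of_subset_of_nonneg (filter_subset _ _) fun r _ _ => ?_
    have := Real.log_nonpos (law_nn hp (∑ i, V r i)) (law_le_one hp (∑ i, V r i))
    linarith
  rcases le_or_gt (R.card * (D / 8)) (B.card : ℝ) with hB8 | hB8
  · have h2 : R.card * (D / 8) * L ≤ R.card * TT R V :=
      (mul_le_mul_of_nonneg_right hB8 (by linarith)).trans hc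
    have h3 : D / 8 * L ≤ TT R V := by
      rw [mul_assoc] at h2
      exact le_of_mul_le_mul_left h2 hK
    nlinarith
  -- (d)
  set z := (√D)⁻¹ with hz
  have hsq : 0 < √D := Real.sqrt_pos.2 hDpos
  have hz0 : 0 < z := inv_pos.2 hsq
  have hsD : √D * √D = D := Real.mul_self_sqrt hD0
  have hzD : z * D = √D := by
    rw [hz]
    rw [inv_mul_eq_iff_eq_mul₀ hsq.ne']
    exact hsD.symm
  have hlogz : Real.log z = L / 2 := by
    rw [hz, Real.log_inv, Real.log_sqrt hD0, hLdef]
    ring
  have hzD1 : z * D ≤ 1 := by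
    rw [hzD]
    exact Real.sqrt_le_iff.2 ⟨by norm_num, by linarith⟩
  have hG := dv hR hV (fun v => (1 + z) ^ nd a₀ v - z * nd a₀ v)
    (fun v _ => le_trans zero_le_one (one_le_G hz0.le _))
    (fun r _ => lt_of_lt_of_le zero_lt_one (one_le_G hz0.le _))
  have hZ : ∑ v ∈ Fintype.piFinset (fun _ : Fin m => range F),
      PP R V v * ((1 + z) ^ nd a₀ v - z * nd a₀ v) ≤ 1 + D := by
    have e1 : ∀ v ∈ Fintype.piFinset (fun _ : Fin m => range F),
        PP R V v * ((1 + z) ^ nd a₀ v - z * nd a₀ v) =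
        (∏ i, mp R V i (v i)) * (1 + z) ^ nd a₀ v - z * ((∏ i, mp R V i (v i)) * nd a₀ v) := by
      intro v _
      unfold PP
      ring
    rw [sum_congr rfl e1, sum_sub_distrib, ← mul_sum, sum_pow hp ha, sum_nd hp ha, ← hD]
    have e2 : ∏ i, (1 + z * (1 - mp R V i (a₀ i))) ≤ Real.exp (z * D) := by
      rw [hD, mul_sum]
      refine prod_le_exp univ (fun i => z * (1 - mp R V i (a₀ i))) fun i _ => ?_
      have := p_le_one hp i (ha i)
      exact mul_nonneg hz0.le (by linarith)
    have e3 := Real.abs_exp_sub_one_sub_id_le (x := z * D) (by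
      rw [abs_of_nonneg (by positivity)]; exact hzD1)
    have e4 : (z * D) ^ 2 = D := by rw [hzD]; exact Real.sq_sqrt hD0
    rw [e4] at e3
    have e5 := (abs_le.1 e3).2
    linarith
  have hlow : L / 2 * (R.card * D - B.card) ≤
      ∑ r ∈ R, Real.log ((1 + z) ^ nd a₀ (V r) - z * nd a₀ (V r)) := by
    have e1 : L / 2 * (R.card * D - B.card) =
        ∑ r ∈ R, (L / 2 * (nd a₀ (V r) : ℝ) -
          L / 2 * (if ∑ i, V r i ≠ ∑ i, a₀ i then (1 : ℝ) else 0)) := by
      rw [sum_sub_distrib, ← mul_sum, ← mul_sum, sum_nd_R hR V a₀, ← hD, sum_boole]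
      ring
    rw [e1]
    refine sum_le_sum fun r _ => ?_
    have hL2 : 0 ≤ L / 2 := by linarith
    have hlog0 : 0 ≤ Real.log ((1 + z) ^ nd a₀ (V r) - z * nd a₀ (V r)) :=
      Real.log_nonneg (one_le_G hz0.le _)
    rcases Nat.lt_or_ge (nd a₀ (V r)) 2 with hn | hn
    · have hn' : nd a₀ (V r) = 0 ∨ nd a₀ (V r) = 1 := by omega
      rcases hn' with hn' | hn'
      · rw [hn'] at hlog0 ⊢
        have h6 : 0 ≤ L / 2 * (if ∑ i, V r i ≠ ∑ i, a₀ i then (1 : ℝ) else 0) := by
          split_ifs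
          · linarith
          · simp
        simp only [Nat.cast_zero, mul_zero] at hlog0 ⊢
        linarith
      · have h6 := sum_ne_of_nd_one a₀ (V r) hn'
        rw [if_pos h6, hn']
        rw [hn'] at hlog0
        simp only [Nat.cast_one, mul_one] at hlog0 ⊢
        linarith
    · have h6 : 0 ≤ L / 2 * (if ∑ i, V r i ≠ ∑ i, a₀ i then (1 : ℝ) else 0) := by
        split_ifs
        · linarith
        · simp
      have h7 : L / 2 * (nd a₀ (V r) : ℝ) ≤
          Real.log ((1 + z) ^ nd a₀ (V r) - z * nd a₀ (V r)) := by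
        have h8 : L / 2 * (nd a₀ (V r) : ℝ) = Real.log (z ^ nd a₀ (V r)) := by
          rw [Real.log_pow, hlogz]
          ring
        rw [h8]
        refine Real.log_le_log (by positivity) ?_
        have h9 := binom_low hz0.le _ hn
        linarith
      linarith
  have hTC := TT_tc hR V
  have hfin : L / 2 * (R.card * D - B.card) ≤ R.card * TT R V + R.card * D := by
    have h6 : (R.card : ℝ) * (∑ v ∈ Fintype.piFinset (fun _ : Fin m => range F),
      PP R V v * ((1 + z) ^ nd a₀ v - z * nd a₀ v) - 1) ≤ R.card * D :=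
      mul_le_mul_of_nonneg_left (by linarith) hK.le
    linarith
  have h10 : L / 2 * (R.card * (7 / 8 * D)) ≤ L / 2 * (R.card * D - B.card) :=
    mul_le_mul_of_nonneg_left (by linarith) (by linarith)
  have h11 : R.card * (L / 2 * (7 / 8 * D) - D) ≤ R.card * TT R V := by
    linarith
  have h12 := le_of_mul_le_mul_left h11 hK
  nlinarith

end Pool.Agent.H64.ES.S_TC2
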