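import Mathlib
import Pool.Agent.H64.ES.Final2
import Pool.Agent.H64.ES.STC1
import Pool.Agent.H64.ES.STC2
import Pool.Agent.H64.ES.SNum
import Pool.Agent.H64.ES.STest

/-!
# The four ingredients, and the inequality for dependent elements
-/

set_option autoImplicit false

namespace Pool.Agent.H64.ES

open Finset Real
open Pool.Agent.H87.LL (D2)
open scoped Pointwise

theorem parts : Parts where
  t := H233.S_TEST_holds
  a := S_TC1.S_TC1_holds
  b := S_TC2.S_TC2_holds S_TC1.S_TC1_holds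
  c := S_NUM.S_NUM_holds

/-- The inequality for dependent elements. -/
theorem dep_part (ι : Type) (m : ℕ) (hm : 1 ≤ m) (e : ℝ) (he : 0 < e) (he1 : e ≤ 1)
    (R : Finset ι) (hR : R.Nonempty) (x : ι → Fin m → ℤ) (h0 : ∀ r ∈ R, ∀ i, x r i ≠ 0)
    (P Q S : Fin m → Finset ℤ) (hP : ∀ i, (P i).Nonempty) (hQ : ∀ i, (Q i).Nonempty)
    (hS : ∀ r ∈ R, ∀ i, ∀ p ∈ P i, x r i + p ∈ S i) :
    log (m + 1) / (60 * m) * ∑ i, (HR R (fun r => x r i) -
        16 * log (((S i).card : ℝ) / (P i).card) -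
        2000 * log (((P i + Q i).card : ℝ) / √(((P i).card : ℝ) * (Q i).card)) -
        e * log ((P i).card : ℝ) - Real.exp (10 ^ 9 / e)) ≤
      HR R (fun r => ∏ i, x r i) + ∑ i, HR R (fun r => x r i) - HR R x := by
  have hm1 : (1 : ℝ) ≤ m := by exact_mod_cast hm
  have hl : 0 < log ((m : ℝ) + 1) := Real.log_pos (by linarith)
  have hmain := dep_log parts e he he1 m hm R hR x h0 P Q S hP hQ hS
  have hCe := Ce_le e he he1
  have cP : ∀ i, (0 : ℝ) < (P i).card := fun i => by exact_mod_cast (hP i).card_pos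
  have cQ : ∀ i, (0 : ℝ) < (Q i).card := fun i => by exact_mod_cast (hQ i).card_pos
  have cPQ : ∀ i, (0 : ℝ) < (P i + Q i).card := fun i => by
    exact_mod_cast ((hP i).add (hQ i)).card_pos
  have cS : ∀ i, (0 : ℝ) < (S i).card := fun i => by
    obtain ⟨r, hr⟩ := hR
    obtain ⟨p, hp⟩ := hP i
    exact_mod_cast Finset.card_pos.2 ⟨_, hS r hr i p hp⟩
  obtain ⟨T, hT⟩ : ∃ T : ℝ, T = HR R (fun r => ∏ i, x r i) + ∑ i, HR R (fun r => x r i) - HR R x :=
    ⟨_, rfl⟩
  have e1 : ∑ i, (HR R (fun r => x r i) -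
        16 * log (((S i).card : ℝ) / (P i).card) -
        2000 * log (((P i + Q i).card : ℝ) / √(((P i).card : ℝ) * (Q i).card)) -
        e * log ((P i).card : ℝ) - Real.exp (10 ^ 9 / e)) ≤ 60 * m / log (m + 1) * T := by
    have e2 : ∑ i, (HR R (fun r => x r i) -
        16 * log (((S i).card : ℝ) / (P i).card) -
        2000 * log (((P i + Q i).card : ℝ) / √(((P i).card : ℝ) * (Q i).card)) -
        e * log ((P i).card : ℝ) - Real.exp (10 ^ 9 / e)) ≤
        ∑ i, (HR R (fun r => x r i) - (16 * (log ((S i).card : ℝ) - log ((P i).card : ℝ)) +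
        (2000 * D2 (P i) (Q i) + e * log ((P i).card : ℝ))) - Ce e) := by
      refine Finset.sum_le_sum fun i _ => ?_
      rw [Real.log_div (cS i).ne' (cP i).ne',
        Real.log_div (cPQ i).ne' (Real.sqrt_pos.2 (mul_pos (cP i) (cQ i))).ne',
        Real.log_sqrt (mul_pos (cP i) (cQ i)).le, Real.log_mul (cP i).ne' (cQ i).ne']
      unfold D2
      linarith
    refine e2.trans ?_
    rw [Finset.sum_sub_distrib, Finset.sum_sub_distrib, Finset.sum_const, Finset.card_univ,
      Fintype.card_fin, nsmul_eq_mul, hT]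
    linarith
  rw [← hT]
  have e3 := mul_le_mul_of_nonneg_left e1 (show 0 ≤ log ((m : ℝ) + 1) / (60 * m) by positivity)
  refine e3.trans (le_of_eq ?_)
  field_simp

end Pool.Agent.H64.ES
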