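import Mathlib
import Pool.Agent.H64.ES.Final3

/-!
# Sums and products of different sets
-/

set_option autoImplicit false

namespace Pool.Agent.H64.ES.Diff

open Finset Real
open Pool.Agent.H87.LL (D2)
open Pool.Agent.H64.ES
open scoped Pointwise

/-- The dyadic tree of the partial sums. -/
def T (A : ℕ → Finset ℤ) : ℕ → ℕ → Finset ℤ
  | 0, v => A v
  | i + 1, v => T A i (2 * v) + T A i (2 * v + 1)

theorem T_ne (A : ℕ → Finset ℤ) (hA : ∀ j, (A j).Nonempty) (i : ℕ) : ∀ v, (T A i v).Nonempty := by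
  induction i with
  | zero => exact fun v => hA v
  | succ i ih => exact fun v => (ih _).add (ih _)

theorem card_le_add (X Y : Finset ℤ) (hY : Y.Nonempty) : X.card ≤ (X + Y).card :=
  Finset.card_le_card_add_right hY

/-- absorption -/
theorem absorb (A : ℕ → Finset ℤ) (hA : ∀ j, (A j).Nonempty) (j : ℕ) (i : ℕ) :
    ∀ P : Finset ℤ, (A j + P).card ≤ (T A i (j / 2 ^ i) + P).card := by
  induction i with
  | zero => intro P; simp [T]
  | succ i ih =>
    intro P
    have h2 : j / 2 ^ (i + 1) = (j / 2 ^ i) / 2 := by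
      rw [pow_succ, Nat.div_div_eq_div_mul]
    rw [h2]
    refine (ih P).trans ?_
    obtain ⟨v, hv⟩ : ∃ v, v = j / 2 ^ i := ⟨_, rfl⟩
    rw [← hv]
    rcases Nat.even_or_odd' v with ⟨w, hw | hw⟩
    · have hw2 : v / 2 = w := by omega
      rw [hw2]
      change _ ≤ ((T A i (2 * w) + T A i (2 * w + 1)) + P).card
      rw [add_right_comm, ← hw]
      exact card_le_add _ _ (T_ne A hA i _)
    · have hw2 : v / 2 = w := by omega
      rw [hw2]
      change _ ≤ ((T A i (2 * w) + T A i (2 * w + 1)) + P).card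
      rw [add_comm (T A i (2 * w)), add_right_comm, ← hw]
      exact card_le_add _ _ (T_ne A hA i _)

theorem T_mono (A : ℕ → Finset ℤ) (hA : ∀ j, (A j).Nonempty) (i v : ℕ) :
    (T A i v).card ≤ (T A (i + 1) (v / 2)).card := by
  rcases Nat.even_or_odd' v with ⟨w, hw | hw⟩
  · have hw2 : v / 2 = w := by omega
    rw [hw2, hw]
    exact card_le_add _ _ (T_ne A hA i _)
  · have hw2 : v / 2 = w := by omega
    rw [hw2, hw]
    change _ ≤ (T A i (2 * w) + T A i (2 * w + 1)).card
    rw [add_comm (T A i (2 * w))]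
    exact card_le_add _ _ (T_ne A hA i _)

theorem T_root (A : ℕ → Finset ℤ) (hA : ∀ j, (A j).Nonempty) (J d : ℕ) :
    ∀ i v, i + d = J → v < 2 ^ d → (T A i v).card ≤ (T A J 0).card := by
  induction d with
  | zero =>
    intro i v hi hv
    have : v = 0 := by simpa using hv
    subst this
    have : i = J := by omega
    rw [this]
  | succ d ih =>
    intro i v hi hv
    refine (T_mono A hA i v).trans (ih (i + 1) (v / 2) (by omega) ?_)
    rw [pow_succ] at hv
    omega

/-- elements of the tree are sums -/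
theorem mem_T (A : ℕ → Finset ℤ) (hA : ∀ j, (A j).Nonempty) (i : ℕ) : ∀ v x, x ∈ T A i v →
    ∃ f : ℕ → ℤ, (∀ j, f j ∈ A j) ∧ x = ∑ j ∈ range (2 ^ i), f (v * 2 ^ i + j) := by
  induction i with
  | zero =>
    intro v x hx
    classical
    choose g hg using hA
    refine ⟨fun j => if j = v then x else g j, fun j => ?_, by simp⟩
    by_cases hj : j = v
    · simp only [hj, if_true]; exact hx
    · simp only [hj, if_false]; exact hg j
  | succ i ih =>
    intro v x hx
    obtain ⟨y, hy, z, hz, rfl⟩ := Finset.mem_add.1 hx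
    obtain ⟨f, hf, rfl⟩ := ih _ _ hy
    obtain ⟨g, hg, rfl⟩ := ih _ _ hz
    refine ⟨fun j => if j < (2 * v + 1) * 2 ^ i then f j else g j, fun j => ?_, ?_⟩
    · dsimp only
      split_ifs
      · exact hf j
      · exact hg j
    · rw [pow_succ, mul_two, Finset.sum_range_add]
      congr 1
      · refine Finset.sum_congr rfl fun j hj => ?_
        have hj' := Finset.mem_range.1 hj
        have e1 : v * (2 ^ i + 2 ^ i) + j = 2 * v * 2 ^ i + j := by ring
        rw [e1]
        have h3 : 2 * v * 2 ^ i + j < (2 * v + 1) * 2 ^ i := by nlinarith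
        simp only [h3, if_true]
      · refine Finset.sum_congr rfl fun j hj => ?_
        have e1 : v * (2 ^ i + 2 ^ i) + (2 ^ i + j) = (2 * v + 1) * 2 ^ i + j := by ring
        rw [e1]
        have h3 : ¬ (2 * v + 1) * 2 ^ i + j < (2 * v + 1) * 2 ^ i := by omega
        simp only [h3, if_false]

theorem sum_div (a b : ℕ) (ha : 0 < a) (h : ℕ → ℝ) :
    ∑ j ∈ range (a * b), h (j / a) = a * ∑ w ∈ range b, h w := by
  induction b with
  | zero => simp
  | succ b ih =>
    rw [Nat.mul_succ, Finset.sum_range_add, ih, Finset.sum_range_succ, mul_add]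
    congr 1
    rw [Finset.sum_congr rfl (g := fun _ => h b), Finset.sum_const, Finset.card_range,
      nsmul_eq_mul]
    intro j hj
    have hj' := Finset.mem_range.1 hj
    rw [Nat.mul_add_div ha, Nat.div_eq_of_lt hj', add_zero]

theorem sum_two (b : ℕ) (h : ℕ → ℝ) :
    ∑ v ∈ range (2 * b), h v = ∑ w ∈ range b, (h (2 * w) + h (2 * w + 1)) := by
  induction b with
  | zero => simp
  | succ b ih =>
    rw [Nat.mul_succ, Finset.sum_range_succ, Finset.sum_range_succ, ih, Finset.sum_range_succ]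
    ring

/-- pigeonhole -/
theorem exists_level (J : ℕ) (hJ : 1 ≤ J) (G : ℕ → ℝ) (hG : 0 ≤ G 0) :
    ∃ i < J, G (i + 1) - G i ≤ G J / J := by
  by_contra hcon
  push Not at hcon
  have h1 : ∑ i ∈ range J, (G J / J) < ∑ i ∈ range J, (G (i + 1) - G i) :=
    Finset.sum_lt_sum_of_nonempty ⟨0, Finset.mem_range.2 (by omega)⟩
      fun i hi => hcon i (Finset.mem_range.1 hi)
  rw [Finset.sum_range_sub, Finset.sum_const, Finset.card_range, nsmul_eq_mul] at h1
  have hJ' : (0 : ℝ) < J := by exact_mod_cast hJ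
  have h2 : (J : ℝ) * (G J / J) = G J := by field_simp
  rw [h2] at h1
  linarith

/-- the sibling -/
def sib (v : ℕ) : ℕ := if v % 2 = 0 then v + 1 else v - 1

theorem tree (J : ℕ) (hJ : 1 ≤ J) (k : ℕ) (hk : k ≤ 2 ^ J) (A : ℕ → Finset ℤ)
    (hA : ∀ j, (A j).Nonempty) :
    ∃ i < J, ∃ D : ℕ → ℝ, (∀ w, 0 ≤ D w) ∧
      (∀ j < k, log ((A j + T A i (sib (j / 2 ^ i))).card : ℝ) -
        log ((T A i (sib (j / 2 ^ i))).card : ℝ) ≤ D j) ∧
      (∀ j < k, D2 (T A i (sib (j / 2 ^ i))) (T A i (j / 2 ^ i)) ≤ D j / 2) ∧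
      (∀ j < k, log ((T A i (sib (j / 2 ^ i))).card : ℝ) ≤ log ((T A J 0).card : ℝ)) ∧
      ∑ j ∈ range k, D j ≤ 2 * (2 ^ J * log ((T A J 0).card : ℝ) / J) := by
  obtain ⟨l, hl⟩ : ∃ l : ℕ → ℕ → ℝ, l = fun i v => log ((T A i v).card : ℝ) := ⟨_, rfl⟩
  have hcp : ∀ i v, (0 : ℝ) < (T A i v).card := fun i v => by
    exact_mod_cast (T_ne A hA i v).card_pos
  have hl0 : ∀ i v, 0 ≤ l i v := fun i v => by
    rw [hl]
    exact Real.log_nonneg (by exact_mod_cast (T_ne A hA i v).card_pos)
  obtain ⟨G, hG⟩ : ∃ G : ℕ → ℝ, G = fun i => 2 ^ i * ∑ v ∈ range (2 ^ (J - i)), l i v := ⟨_, rfl⟩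
  have hG0 : 0 ≤ G 0 := by
    rw [hG]
    exact mul_nonneg (by positivity) (Finset.sum_nonneg fun v _ => hl0 0 v)
  obtain ⟨i, hi, hGi⟩ := exists_level J hJ G hG0
  have hmono1 : ∀ w, l i (2 * w) ≤ l (i + 1) w := fun w => by
    have := T_mono A hA i (2 * w)
    rw [show 2 * w / 2 = w by omega] at this
    rw [hl]
    exact Real.log_le_log (hcp _ _) (by exact_mod_cast this)
  have hmono2 : ∀ w, l i (2 * w + 1) ≤ l (i + 1) w := fun w => by
    have := T_mono A hA i (2 * w + 1)
    rw [show (2 * w + 1) / 2 = w by omega] at this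
    rw [hl]
    exact Real.log_le_log (hcp _ _) (by exact_mod_cast this)
  obtain ⟨E, hE⟩ : ∃ E : ℕ → ℝ, E = fun w => 2 * l (i + 1) w - l i (2 * w) - l i (2 * w + 1) :=
    ⟨_, rfl⟩
  have hE0 : ∀ w, 0 ≤ E w := fun w => by
    rw [hE]
    have := hmono1 w
    have := hmono2 w
    dsimp only
    linarith
  -- the sums
  have hsum : ∑ j ∈ range (2 ^ J), E (j / 2 ^ (i + 1)) = 2 * (G (i + 1) - G i) := by
    have e1 : 2 ^ J = 2 ^ (i + 1) * 2 ^ (J - (i + 1)) := by
      rw [← pow_add]; congr 1; omega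
    rw [e1, sum_div _ _ (by positivity)]
    have e2 : 2 ^ (J - i) = 2 * 2 ^ (J - (i + 1)) := by
      rw [← pow_succ']; congr 1; omega
    rw [hG]
    dsimp only
    rw [e2, sum_two, hE]
    dsimp only
    rw [Finset.sum_sub_distrib, Finset.sum_sub_distrib, ← Finset.mul_sum, Finset.sum_add_distrib,
      pow_succ]
    push_cast
    ring
  have hGJ : G J = 2 ^ J * log ((T A J 0).card : ℝ) := by
    rw [hG, hl]
    simp
  refine ⟨i, hi, fun j => E (j / 2 ^ (i + 1)), fun w => hE0 _, ?_, ?_, ?_, ?_⟩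
  · intro j hj
    have h1 := absorb A hA j i (T A i (sib (j / 2 ^ i)))
    have h2 : j / 2 ^ (i + 1) = (j / 2 ^ i) / 2 := by
      rw [pow_succ, Nat.div_div_eq_div_mul]
    dsimp only
    rw [h2]
    obtain ⟨v, hv⟩ : ∃ v, v = j / 2 ^ i := ⟨_, rfl⟩
    rw [← hv] at h1 ⊢
    have hpos : (0 : ℝ) < (A j + T A i (sib v)).card := by
      exact_mod_cast ((hA j).add (T_ne A hA i _)).card_pos
    have h3 : log ((A j + T A i (sib v)).card : ℝ) ≤
        log ((T A i v + T A i (sib v)).card : ℝ) := Real.log_le_log hpos (by exact_mod_cast h1)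
    rcases Nat.even_or_odd' v with ⟨w, hw | hw⟩
    · have hw2 : v / 2 = w := by omega
      have hs : sib v = 2 * w + 1 := by unfold sib; rw [if_pos (by omega), hw]
      rw [hw2]
      rw [hs] at h3 ⊢
      rw [hw] at h3
      have h4 : log ((T A i (2 * w) + T A i (2 * w + 1)).card : ℝ) = l (i + 1) w := by
        rw [hl]; rfl
      have h5 : log ((T A i (2 * w + 1)).card : ℝ) = l i (2 * w + 1) := by rw [hl]
      rw [h4] at h3
      rw [h5, hE]
      have := hmono1 w
      dsimp only
      linarith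
    · have hw2 : v / 2 = w := by omega
      have hs : sib v = 2 * w := by unfold sib; rw [if_neg (by omega), hw]; rfl
      rw [hw2]
      rw [hs] at h3 ⊢
      rw [hw, add_comm (T A i (2 * w + 1))] at h3
      have h4 : log ((T A i (2 * w) + T A i (2 * w + 1)).card : ℝ) = l (i + 1) w := by
        rw [hl]; rfl
      have h5 : log ((T A i (2 * w)).card : ℝ) = l i (2 * w) := by rw [hl]
      rw [h4] at h3
      rw [h5, hE]
      have := hmono2 w
      dsimp only
      linarith
  · intro j hj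
    have h2 : j / 2 ^ (i + 1) = (j / 2 ^ i) / 2 := by
      rw [pow_succ, Nat.div_div_eq_div_mul]
    dsimp only
    rw [h2]
    obtain ⟨v, hv⟩ : ∃ v, v = j / 2 ^ i := ⟨_, rfl⟩
    rw [← hv]
    rcases Nat.even_or_odd' v with ⟨w, hw | hw⟩
    · have hw2 : v / 2 = w := by omega
      have hs : sib v = 2 * w + 1 := by unfold sib; rw [if_pos (by omega), hw]
      rw [hw2, hs, hw]
      have h4 : log ((T A i (2 * w) + T A i (2 * w + 1)).card : ℝ) = l (i + 1) w := by
        rw [hl]; rfl
      have h5 : log ((T A i (2 * w + 1)).card : ℝ) = l i (2 * w + 1) := by rw [hl]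
      have h6 : log ((T A i (2 * w)).card : ℝ) = l i (2 * w) := by rw [hl]
      unfold D2
      rw [add_comm (T A i (2 * w + 1)), h4, h5, h6, hE]
      dsimp only
      linarith
    · have hw2 : v / 2 = w := by omega
      have hs : sib v = 2 * w := by unfold sib; rw [if_neg (by omega), hw]; rfl
      rw [hw2, hs, hw]
      have h4 : log ((T A i (2 * w) + T A i (2 * w + 1)).card : ℝ) = l (i + 1) w := by
        rw [hl]; rfl
      have h5 : log ((T A i (2 * w + 1)).card : ℝ) = l i (2 * w + 1) := by rw [hl]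
      have h6 : log ((T A i (2 * w)).card : ℝ) = l i (2 * w) := by rw [hl]
      unfold D2
      rw [h4, h5, h6, hE]
      dsimp only
      linarith
  · intro j hj
    refine Real.log_le_log (hcp _ _) ?_
    have h1 : j / 2 ^ i < 2 ^ (J - i) := by
      rw [Nat.div_lt_iff_lt_mul (by positivity), ← pow_add]
      rw [show J - i + i = J by omega]
      omega
    have h2 : sib (j / 2 ^ i) < 2 ^ (J - i) := by
      have h3 : 2 ^ (J - i) = 2 * 2 ^ (J - i - 1) := by
        rw [← pow_succ']; congr 1; omega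
      obtain ⟨v, hv⟩ : ∃ v, v = j / 2 ^ i := ⟨_, rfl⟩
      obtain ⟨X, hX⟩ : ∃ X, X = 2 ^ (J - i - 1) := ⟨_, rfl⟩
      rw [← hv] at h1 ⊢
      rw [← hX] at h3
      rw [h3] at h1 ⊢
      unfold sib
      split_ifs with h
      · omega
      · omega
    exact_mod_cast T_root A hA J (J - i) i _ (by omega) h2
  · have h1 : ∑ j ∈ range k, E (j / 2 ^ (i + 1)) ≤ ∑ j ∈ range (2 ^ J), E (j / 2 ^ (i + 1)) :=
      Finset.sum_le_sum_of_subset_of_nonneg (Finset.range_subset_range.2 hk)
        fun j _ _ => hE0 _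
    rw [hsum] at h1
    rw [hGJ] at hGi
    dsimp only
    linarith

/-- Sets `A_1, …, A_k` with few sums have small multiplicative energy. -/
theorem few_sums (k : ℕ) (hk : 1 ≤ k) : ∃ C : ℝ, 0 < C ∧ ∀ A : Fin k → Finset ℤ,
    (∀ i, (A i).Nonempty) → (∀ i, (0 : ℤ) ∉ A i) →
      (∏ i, ((A i).card : ℝ)) ^ (log k / (6000 * k)) ≤
        (((Fintype.piFinset A).image fun f => ∑ i, f i).card : ℝ) ∨
      ((EM A).card : ℝ) ≤
        C * (∏ i, ((A i).card : ℝ)) ^ (2 - log (k + 1) / (360 * k)) := by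
  obtain ⟨e, he⟩ : ∃ e : ℝ, e = 1 / (1 + log k) := ⟨_, rfl⟩
  have hk1 : (1 : ℝ) ≤ k := by exact_mod_cast hk
  have hlk : 0 ≤ log (k : ℝ) := Real.log_nonneg hk1
  have he0 : 0 < e := by rw [he]; positivity
  have he1 : e ≤ 1 := by
    rw [he, div_le_one (by positivity)]
    linarith
  refine ⟨Real.exp (k * Ce e), Real.exp_pos _, fun A hA h0 => ?_⟩
  rw [or_iff_not_imp_left]
  intro hcon
  push Not at hcon
  obtain ⟨N, hN⟩ : ∃ N, N = ∑ i, log ((A i).card : ℝ) := ⟨_, rfl⟩
  have cA : ∀ i, (0 : ℝ) < (A i).card := fun i => by exact_mod_cast (hA i).card_pos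
  have hlA : ∀ i, 0 ≤ log ((A i).card : ℝ) := fun i =>
    Real.log_nonneg (by exact_mod_cast (hA i).card_pos)
  have hN0 : 0 ≤ N := by rw [hN]; exact Finset.sum_nonneg fun i _ => hlA i
  have hprod : ∏ i, ((A i).card : ℝ) = Real.exp N := by
    rw [hN, Real.exp_sum]
    exact Finset.prod_congr rfl fun i _ => (Real.exp_log (cA i)).symm
  rw [hprod] at hcon ⊢
  rw [← Real.exp_mul] at hcon ⊢
  -- `k ≥ 2`
  have hk2 : 2 ≤ k := by
    by_contra hlt
    have h1 : k = 1 := by omega
    subst h1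
    have h2 : (1 : ℝ) ≤ (((Fintype.piFinset A).image fun f => ∑ i, f i).card : ℝ) := by
      exact_mod_cast Finset.card_pos.2 ((Fintype.piFinset_nonempty.2 hA).image _)
    have h3 : N * (log ((1 : ℕ) : ℝ) / (6000 * ((1 : ℕ) : ℝ))) = 0 := by simp
    rw [h3, Real.exp_zero] at hcon
    linarith
  obtain ⟨J, hJ⟩ : ∃ J, J = Nat.clog 2 k := ⟨_, rfl⟩
  have hJ1 : 1 ≤ J := by
    rw [hJ]
    exact Nat.clog_pos (by norm_num) hk2
  have hkJ : k ≤ 2 ^ J := by
    rw [hJ]
    exact Nat.le_pow_clog (by norm_num) k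
  have hJk : 2 ^ J < 2 * k := by
    have h1 := Nat.pow_pred_clog_lt_self (b := 2) (by norm_num) (x := k) (by omega)
    rw [← hJ, Nat.pred_eq_sub_one] at h1
    have h2 : 2 ^ J = 2 * 2 ^ (J - 1) := by rw [← pow_succ']; congr 1; omega
    omega
  -- the padded sets
  obtain ⟨A', hA'⟩ : ∃ A' : ℕ → Finset ℤ, A' = fun j => if h : j < k then A ⟨j, h⟩ else {1} :=
    ⟨_, rfl⟩
  have hA'ne : ∀ j, (A' j).Nonempty := fun j => by
    rw [hA']
    dsimp only
    split_ifs with h
    · exact hA _
    · exact Finset.singleton_nonempty _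
  have hAA' : ∀ i : Fin k, A' i = A i := fun i => by
    rw [hA']
    simp
  obtain ⟨i, hi, D, hD0, h1, h2, h3, h4⟩ := tree J hJ1 k hkJ A' hA'ne
  -- the number of sums
  have hS : (T A' J 0).card ≤ ((Fintype.piFinset A).image fun f => ∑ i, f i).card := by
    have h5 : T A' J 0 ⊆ ((Fintype.piFinset A).image fun f => ∑ i, f i).image
        fun x => x + ((2 ^ J - k : ℕ) : ℤ) := by
      intro x hx
      obtain ⟨f, hf, rfl⟩ := mem_T A' hA'ne J 0 x hx
      rw [Finset.mem_image]
      refine ⟨∑ i : Fin k, f i, ?_, ?_⟩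
      · rw [Finset.mem_image]
        refine ⟨fun i => f i, ?_, rfl⟩
        rw [Fintype.mem_piFinset]
        intro i
        rw [← hAA' i]
        exact hf i
      · have h6 : 2 ^ J = k + (2 ^ J - k) := by omega
        rw [h6, Finset.sum_range_add, ← h6]
        have h7 : ∑ j ∈ range (2 ^ J - k), f (0 * 2 ^ J + (k + j)) = ((2 ^ J - k : ℕ) : ℤ) := by
          rw [Finset.sum_congr rfl (g := fun _ => 1)]
          · simp
          · intro j hj
            have h8 := hf (0 * 2 ^ J + (k + j))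
            rw [hA'] at h8
            dsimp only at h8
            rw [dif_neg (by omega)] at h8
            simpa using h8
        rw [h7, Finset.sum_range]
        simp
    exact (Finset.card_le_card h5).trans Finset.card_image_le
  have hR : log ((T A' J 0).card : ℝ) ≤ N * (log k / (6000 * k)) := by
    have hp : (0 : ℝ) < (T A' J 0).card := by exact_mod_cast (T_ne A' hA'ne J 0).card_pos
    rw [Real.log_le_iff_le_exp hp]
    have : ((T A' J 0).card : ℝ) ≤ (((Fintype.piFinset A).image fun f => ∑ i, f i).card : ℝ) := by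
      exact_mod_cast hS
    linarith
  have hR0 : 0 ≤ log ((T A' J 0).card : ℝ) :=
    Real.log_nonneg (by exact_mod_cast (T_ne A' hA'ne J 0).card_pos)
  obtain ⟨R, hRdef⟩ : ∃ R, R = log ((T A' J 0).card : ℝ) := ⟨_, rfl⟩
  rw [← hRdef] at hR hR0 h4
  simp only [← hRdef] at h3
  -- the energy
  obtain ⟨α, hα⟩ : ∃ α : ℝ, α = 2 * (60 * k / log (k + 1)) + 1 := ⟨_, rfl⟩
  have hen := energy_log parts e he0 he1 k hk A
    (fun j => T A' i (sib (j / 2 ^ i))) (fun j => T A' i (j / 2 ^ i)) hA h0
    (fun j => T_ne A' hA'ne i _) (fun j => T_ne A' hA'ne i _)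
  rw [← hα, ← hN] at hen
  have hsumD : ∑ j : Fin k, D j ≤ N * (1 / 2160) := by
    rw [← Finset.sum_range (fun j => D j)]
    refine h4.trans ?_
    have hJ0 : (0 : ℝ) < J := by exact_mod_cast hJ1
    have hkp : (0 : ℝ) < k := by linarith
    have g1 : ((2 : ℝ) ^ J) ≤ 2 * k := by exact_mod_cast hJk.le
    have g2 : log (k : ℝ) ≤ J * 0.6931471808 := by
      have g3 : log (k : ℝ) ≤ log ((2 : ℝ) ^ J) :=
        Real.log_le_log hkp (by exact_mod_cast hkJ)
      rw [Real.log_pow] at g3
      have := Real.log_two_lt_d9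
      nlinarith
    have g4 : 2 ^ J * R / J ≤ 2 * k * (N * (log k / (6000 * k))) / J := by
      gcongr
    have g5 : 2 * k * (N * (log k / (6000 * k))) / J = N * (log k / J) / 3000 := by
      field_simp
      ring
    have g6 : log k / J ≤ 0.6931471808 := by
      rw [div_le_iff₀ hJ0]
      linarith
    have g7 : N * (log k / J) ≤ N * 0.6931471808 := mul_le_mul_of_nonneg_left g6 hN0
    rw [g5] at g4
    linarith
  have hterm : ∀ j : Fin k, log ((A j).card : ℝ) - 1016 * D j - e * R - Ce e ≤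
      log ((A j).card : ℝ) - (16 * (log ((A j + T A' i (sib (j / 2 ^ i))).card : ℝ) -
        log ((T A' i (sib (j / 2 ^ i))).card : ℝ)) +
        (2000 * D2 (T A' i (sib (j / 2 ^ i))) (T A' i (j / 2 ^ i)) +
          e * log ((T A' i (sib (j / 2 ^ i))).card : ℝ))) - Ce e := by
    intro j
    have t1 := h1 j j.2
    have t2 := h2 j j.2
    have t3 := mul_le_mul_of_nonneg_left (h3 j j.2) he0.le
    rw [hAA' j] at t1
    linarith
  have hen2 := (Finset.sum_le_sum fun j (_ : j ∈ (Finset.univ : Finset (Fin k))) => hterm j).trans hen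
  rw [Finset.sum_sub_distrib, Finset.sum_sub_distrib, Finset.sum_sub_distrib, ← Finset.mul_sum,
    Finset.sum_const, Finset.sum_const, Finset.card_univ, Fintype.card_fin, nsmul_eq_mul,
    nsmul_eq_mul, ← hN] at hen2
  have heR : k * (e * R) ≤ N / 6000 := by
    have hkp : (0 : ℝ) < k := by linarith
    have t1 : e * R ≤ e * (N * (log k / (6000 * k))) := mul_le_mul_of_nonneg_left hR he0.le
    have t2 : e * log k ≤ 1 := by
      rw [he, one_div, inv_mul_le_iff₀ (by positivity)]
      linarith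
    have t3 : k * (e * (N * (log k / (6000 * k)))) = N / 6000 * (e * log k) := by
      field_simp
    have t4 : N / 6000 * (e * log k) ≤ N / 6000 * 1 :=
      mul_le_mul_of_nonneg_left t2 (by positivity)
    calc k * (e * R) ≤ k * (e * (N * (log k / (6000 * k)))) :=
          mul_le_mul_of_nonneg_left t1 (by linarith)
      _ ≤ N / 6000 := by rw [t3]; linarith
  have hfin : N / 2 - k * Ce e ≤ α * (2 * N - log ((EM A).card : ℝ)) := by
    linarith
  -- conclusion
  have hl1 : 0 < log ((k : ℝ) + 1) := Real.log_pos (by linarith)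
  have hα1 : 1 ≤ α := by
    rw [hα]
    have : 0 ≤ 60 * (k : ℝ) / log (k + 1) := by positivity
    linarith
  have hα2 : α * (log (k + 1) / (180 * k)) ≤ 1 := by
    rw [hα]
    have t1 : log ((k : ℝ) + 1) ≤ k := by
      have := Real.log_le_sub_one_of_pos (show (0 : ℝ) < (k : ℝ) + 1 by linarith)
      linarith
    have t2 : (2 * (60 * k / log (k + 1)) + 1) * (log (k + 1) / (180 * k)) =
        2 / 3 + log (k + 1) / (180 * k) := by
      field_simp
      ring
    rw [t2]
    have t3 : log ((k : ℝ) + 1) / (180 * k) ≤ 1 / 180 := by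
      rw [div_le_div_iff₀ (by positivity) (by norm_num)]
      linarith
    linarith
  have hCe : 0 ≤ Ce e := by
    unfold Ce
    have t1 : 0 < log 2 := Real.log_pos (by norm_num)
    have t2 : 0 ≤ log (200 / e) := Real.log_nonneg (by
      rw [le_div_iff₀ he0]
      linarith)
    positivity
  have hcE : (0 : ℝ) < (EM A).card := by exact_mod_cast (EM_nonempty A hA).card_pos
  have hlogE : log ((EM A).card : ℝ) ≤ k * Ce e + N * (2 - log (k + 1) / (360 * k)) := by
    -- `2 N - log E ≥ (N / 2 - k Ce) / α`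
    have t1 : (N / 2 - k * Ce e) / α ≤ 2 * N - log ((EM A).card : ℝ) := by
      rw [div_le_iff₀ (by linarith)]
      linarith
    have t2 : N / 2 * (log (k + 1) / (180 * k)) ≤ N / 2 / α := by
      rw [le_div_iff₀ (by linarith)]
      have : N / 2 * (log (k + 1) / (180 * k)) * α = N / 2 * (α * (log (k + 1) / (180 * k))) := by
        ring
      rw [this]
      have := mul_le_mul_of_nonneg_left hα2 (show 0 ≤ N / 2 by linarith)
      linarith
    have t3 : k * Ce e / α ≤ k * Ce e := div_le_self (by positivity) hα1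
    have t4 : (N / 2 - k * Ce e) / α = N / 2 / α - k * Ce e / α := sub_div _ _ _
    have t5 : N / 2 * (log (k + 1) / (180 * k)) = N * (log (k + 1) / (360 * k)) := by
      field_simp
      ring
    rw [t4] at t1
    rw [t5] at t2
    linarith
  rw [← Real.exp_add]
  exact (Real.log_le_iff_le_exp hcE).1 hlogE

/-- Cauchy–Schwarz: many products if the energy is small. -/
theorem sq_le (k : ℕ) (A : Fin k → Finset ℤ) :
    (∏ i, ((A i).card : ℝ)) ^ 2 ≤
      (((Fintype.piFinset A).image fun f => ∏ i, f i).card : ℝ) * ((EM A).card : ℝ) := by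
  classical
  obtain ⟨I, hI⟩ : ∃ I, I = (Fintype.piFinset A).image fun f => ∏ i, f i := ⟨_, rfl⟩
  have h1 : (Fintype.piFinset A).card =
      ∑ y ∈ I, ((Fintype.piFinset A).filter fun f => ∏ i, f i = y).card :=
    Finset.card_eq_sum_card_fiberwise fun f hf => by
      rw [hI]
      exact Finset.mem_image_of_mem _ hf
  have h2 : (EM A).card =
      ∑ y ∈ I, ((Fintype.piFinset A).filter fun f => ∏ i, f i = y).card ^ 2 := by
    have h3 : (EM A).card = ∑ y ∈ I, ((EM A).filter fun p => ∏ i, p.1 i = y).card :=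
      Finset.card_eq_sum_card_fiberwise fun p hp => by
        rw [hI]
        exact Finset.mem_image_of_mem _
          (Finset.mem_product.1 (Finset.mem_filter.1 hp).1).1
    rw [h3]
    refine Finset.sum_congr rfl fun y _ => ?_
    rw [sq, ← Finset.card_product]
    congr 1
    ext p
    unfold EM
    simp only [Finset.mem_filter, Finset.mem_product]
    constructor
    · rintro ⟨⟨⟨a, b⟩, c⟩, d⟩
      exact ⟨⟨a, d⟩, b, c ▸ d⟩
    · rintro ⟨⟨a, d⟩, b, e⟩
      exact ⟨⟨⟨a, b⟩, d.trans e.symm⟩, d⟩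
  have h4 := sq_sum_le_card_mul_sum_sq (s := I)
    (f := fun y => (((Fintype.piFinset A).filter fun f => ∏ i, f i = y).card : ℝ))
  have h5 : ∑ y ∈ I, (((Fintype.piFinset A).filter fun f => ∏ i, f i = y).card : ℝ) =
      ∏ i, ((A i).card : ℝ) := by
    rw [← Nat.cast_sum, ← h1, Fintype.card_piFinset]
    push_cast
    rfl
  have h6 : ∑ y ∈ I, (((Fintype.piFinset A).filter fun f => ∏ i, f i = y).card : ℝ) ^ 2 =
      ((EM A).card : ℝ) := by
    rw [h2]
    push_cast
    rfl
  rw [h5, h6] at h4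
  rw [← hI]
  exact h4

/-- Sums and products of different sets. -/
theorem sums_products (k : ℕ) (hk : 1 ≤ k) : ∃ c : ℝ, 0 < c ∧ ∀ A : Fin k → Finset ℤ,
    (∀ i, (A i).Nonempty) → (∀ i, (0 : ℤ) ∉ A i) →
      c * (∏ i, ((A i).card : ℝ)) ^ (log k / (6000 * k)) ≤
        max (((Fintype.piFinset A).image fun f => ∑ i, f i).card : ℝ)
          (((Fintype.piFinset A).image fun f => ∏ i, f i).card : ℝ) := by
  obtain ⟨C, hC, h⟩ := few_sums k hk
  have hk1 : (1 : ℝ) ≤ k := by exact_mod_cast hk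
  have hlk : 0 ≤ log (k : ℝ) := Real.log_nonneg hk1
  refine ⟨min 1 C⁻¹, lt_min one_pos (inv_pos.2 hC), fun A hA h0 => ?_⟩
  have cA : ∀ i, (1 : ℝ) ≤ (A i).card := fun i => by exact_mod_cast (hA i).card_pos
  obtain ⟨X, hX⟩ : ∃ X : ℝ, X = ∏ i, ((A i).card : ℝ) := ⟨_, rfl⟩
  have hX1 : 1 ≤ X := by
    rw [hX, ← Finset.prod_const_one (s := (Finset.univ : Finset (Fin k)))]
    exact Finset.prod_le_prod (fun _ _ => zero_le_one) fun i _ => cA i
  have hX0 : 0 < X := by linarith
  have hsq := sq_le k A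
  have hc := h A hA h0
  rw [← hX] at hc hsq ⊢
  have hXp : 0 ≤ X ^ (log k / (6000 * k)) := Real.rpow_nonneg hX0.le _
  rcases hc with hc | hc
  · refine le_trans ?_ (le_max_left _ _)
    refine le_trans (mul_le_mul_of_nonneg_right (min_le_left _ _) hXp) ?_
    rw [one_mul]
    exact hc
  · refine le_trans ?_ (le_max_right _ _)
    refine le_trans (mul_le_mul_of_nonneg_right (min_le_right _ _) hXp) ?_
    obtain ⟨Y, hY⟩ : ∃ Y : ℝ, Y = (((Fintype.piFinset A).image fun f => ∏ i, f i).card : ℝ) :=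
      ⟨_, rfl⟩
    rw [← hY] at hsq ⊢
    have hY0 : 0 ≤ Y := by rw [hY]; exact Nat.cast_nonneg _
    have h1 : X ^ 2 ≤ Y * (C * X ^ (2 - log (k + 1) / (360 * k))) :=
      hsq.trans (mul_le_mul_of_nonneg_left hc hY0)
    have h2 : X ^ (2 - log (k + 1) / (360 * k)) = X ^ 2 / X ^ (log (k + 1) / (360 * k)) := by
      rw [Real.rpow_sub hX0, Real.rpow_ofNat]
    have hZ : 0 < X ^ (log (k + 1) / (360 * k)) := Real.rpow_pos_of_pos hX0 _
    have h3 : X ^ (log (k + 1) / (360 * k)) ≤ Y * C := by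
      rw [h2] at h1
      have h4 : Y * (C * (X ^ 2 / X ^ (log (k + 1) / (360 * k)))) =
          (Y * C * X ^ 2) / X ^ (log (k + 1) / (360 * k)) := by ring
      rw [h4, le_div_iff₀ hZ] at h1
      have h5 : 0 < X ^ 2 := by positivity
      nlinarith
    have h4 : X ^ (log k / (6000 * k)) ≤ X ^ (log (k + 1) / (360 * k)) := by
      refine Real.rpow_le_rpow_of_exponent_le hX1 ?_
      have h5 : log (k : ℝ) ≤ log ((k : ℝ) + 1) := Real.log_le_log (by linarith) (by linarith)
      rw [div_le_div_iff₀ (by linarith) (by linarith)]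
      nlinarith
    rw [inv_mul_le_iff₀ hC]
    linarith

/-- Sums of arbitrary dilates and products of arbitrary translates. -/
theorem dilates_translates (k : ℕ) (hk : 1 ≤ k) : ∃ c : ℝ, 0 < c ∧ ∀ A : Finset ℤ,
    ∀ l t : Fin k → ℤ, (∀ i, l i ≠ 0) → (∀ i, -t i ∉ A) → A.Nonempty →
      c * (A.card : ℝ) ^ (log k / 6000) ≤
        max (((Fintype.piFinset fun _ : Fin k => A).image fun f => ∑ i, l i * f i).card : ℝ)
          (((Fintype.piFinset fun _ : Fin k => A).image fun f => ∏ i, (f i + t i)).card : ℝ) := by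
  obtain ⟨c, hc, h⟩ := sums_products k hk
  refine ⟨c, hc, fun A l t hl ht hA => ?_⟩
  have hk1 : (1 : ℝ) ≤ k := by exact_mod_cast hk
  obtain ⟨B, hB⟩ : ∃ B : Fin k → Finset ℤ, B = fun i => A.image fun a => l i * (a + t i) :=
    ⟨_, rfl⟩
  have hBc : ∀ i, (B i).card = A.card := fun i => by
    rw [hB]
    refine Finset.card_image_of_injective _ fun a b hab => ?_
    have := mul_left_cancel₀ (hl i) hab
    linarith
  have h1 := h B (fun i => by rw [hB]; exact hA.image _) (fun i h0 => by
    rw [hB] at h0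
    obtain ⟨a, ha, ha0⟩ := Finset.mem_image.1 h0
    rcases mul_eq_zero.1 ha0 with h2 | h2
    · exact hl i h2
    · exact ht i (by rwa [show -t i = a by linarith]))
  have e1 : (∏ i, ((B i).card : ℝ)) ^ (log k / (6000 * k)) = (A.card : ℝ) ^ (log k / 6000) := by
    rw [Finset.prod_congr rfl (g := fun _ => (A.card : ℝ)) (fun i _ => by rw [hBc i]),
      Finset.prod_const, Finset.card_univ, Fintype.card_fin, ← Real.rpow_natCast,
      ← Real.rpow_mul (Nat.cast_nonneg _)]
    congr 1
    field_simp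
  have e2 : ((Fintype.piFinset B).image fun f => ∑ i, f i).card ≤
      ((Fintype.piFinset fun _ : Fin k => A).image fun f => ∑ i, l i * f i).card := by
    have h2 : (Fintype.piFinset B).image (fun f => ∑ i, f i) ⊆
        ((Fintype.piFinset fun _ : Fin k => A).image fun f => ∑ i, l i * f i).image
          fun x => x + ∑ i, l i * t i := by
      intro x hx
      obtain ⟨f, hf, rfl⟩ := Finset.mem_image.1 hx
      have h3 : ∀ i, ∃ a ∈ A, l i * (a + t i) = f i := fun i => by
        have := Fintype.mem_piFinset.1 hf i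
        rw [hB] at this
        exact Finset.mem_image.1 this
      choose g hg hg2 using h3
      rw [Finset.mem_image]
      refine ⟨∑ i, l i * g i, Finset.mem_image.2 ⟨g, Fintype.mem_piFinset.2 hg, rfl⟩, ?_⟩
      rw [← Finset.sum_add_distrib]
      exact Finset.sum_congr rfl fun i _ => by rw [← hg2 i]; ring
    exact (Finset.card_le_card h2).trans Finset.card_image_le
  have e3 : ((Fintype.piFinset B).image fun f => ∏ i, f i).card ≤
      ((Fintype.piFinset fun _ : Fin k => A).image fun f => ∏ i, (f i + t i)).card := by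
    have h2 : (Fintype.piFinset B).image (fun f => ∏ i, f i) ⊆
        ((Fintype.piFinset fun _ : Fin k => A).image fun f => ∏ i, (f i + t i)).image
          fun x => (∏ i, l i) * x := by
      intro x hx
      obtain ⟨f, hf, rfl⟩ := Finset.mem_image.1 hx
      have h3 : ∀ i, ∃ a ∈ A, l i * (a + t i) = f i := fun i => by
        have := Fintype.mem_piFinset.1 hf i
        rw [hB] at this
        exact Finset.mem_image.1 this
      choose g hg hg2 using h3
      rw [Finset.mem_image]
      refine ⟨∏ i, (g i + t i), Finset.mem_image.2 ⟨g, Fintype.mem_piFinset.2 hg, rfl⟩, ?_⟩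
      rw [← Finset.prod_mul_distrib]
      exact Finset.prod_congr rfl fun i _ => hg2 i
    exact (Finset.card_le_card h2).trans Finset.card_image_le
  rw [e1] at h1
  refine h1.trans (max_le_max ?_ ?_)
  · exact_mod_cast e2
  · exact_mod_cast e3

end Pool.Agent.H64.ES.Diff
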