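import Mathlib
import Pool.Agent.H64.ES.Diff

/-!
# Few sums of different sets: all products of translates of half of the sets are numerous
-/

set_option autoImplicit false

namespace Pool.Agent.H64.ES.Diff

open Finset Real
open Pool.Agent.H87.LL (D2)
open Pool.Agent.H64.ES
open scoped Pointwise

theorem translate_add (A P : Finset ℤ) (t : ℤ) :
    ((A.image fun a => a + t) + P).card = (A + P).card := by
  have h : (A.image fun a => a + t) + P = (A + P).image fun a => a + t := by
    ext x
    simp only [Finset.mem_add, Finset.mem_image]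
    constructor
    · rintro ⟨y, ⟨a, ha, rfl⟩, p, hp, rfl⟩
      exact ⟨a + p, ⟨a, ha, p, hp, rfl⟩, by ring⟩
    · rintro ⟨y, ⟨a, ha, p, hp, rfl⟩, rfl⟩
      exact ⟨a + t, ⟨a, ha, rfl⟩, p, hp, by ring⟩
  rw [h]
  exact Finset.card_image_of_injective _ (add_left_injective t)

theorem half_sets (k : ℕ) (hk : 1 ≤ k) : ∃ C : ℝ, 0 < C ∧ ∀ A : Fin k → Finset ℤ,
    (∀ i, (A i).Nonempty) →
      (∏ i, ((A i).card : ℝ)) ^ (log k / (12000 * k)) ≤
        (((Fintype.piFinset A).image fun f => ∑ i, f i).card : ℝ) ∨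
      ∃ I : Finset (Fin k), (∏ i, ((A i).card : ℝ)) ≤ (∏ i ∈ I, ((A i).card : ℝ)) ^ 2 ∧
        ∀ m : ℕ, 1 ≤ m → ∀ (i : Fin m → Fin k) (t : Fin m → ℤ), (∀ j, i j ∈ I) →
          (∀ j, -t j ∉ A (i j)) →
            ((EM fun j => (A (i j)).image fun a => a + t j).card : ℝ) ≤
              (m + 1) ^ C * (∏ j, ((A (i j)).card : ℝ)) ^ (2 - log (m + 1) / (360 * m)) := by
  obtain ⟨e, he⟩ : ∃ e : ℝ, e = 1 / (1 + log k) := ⟨_, rfl⟩
  have hk1 : (1 : ℝ) ≤ k := by exact_mod_cast hk
  have hlk : 0 ≤ log (k : ℝ) := Real.log_nonneg hk1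
  have he0 : 0 < e := by rw [he]; positivity
  have he1 : e ≤ 1 := by
    rw [he, div_le_one (by positivity)]
    linarith
  have hCe : 0 ≤ Ce e := by
    unfold Ce
    have t1 : 0 < log 2 := Real.log_pos (by norm_num)
    have t2 : 0 ≤ log (200 / e) := Real.log_nonneg (by
      rw [le_div_iff₀ he0]
      linarith)
    positivity
  refine ⟨Ce e / 120 + 1, by positivity, fun A hA => ?_⟩
  rw [or_iff_not_imp_left]
  intro hcon
  push Not at hcon
  obtain ⟨N, hN⟩ : ∃ N, N = ∑ i, log ((A i).card : ℝ) := ⟨_, rfl⟩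
  have cA : ∀ i, (0 : ℝ) < (A i).card := fun i => by exact_mod_cast (hA i).card_pos
  have hlA : ∀ i, 0 ≤ log ((A i).card : ℝ) := fun i =>
    Real.log_nonneg (by exact_mod_cast (hA i).card_pos)
  have hN0 : 0 ≤ N := by rw [hN]; exact Finset.sum_nonneg fun i _ => hlA i
  have hprod : ∏ i, ((A i).card : ℝ) = Real.exp N := by
    rw [hN, Real.exp_sum]
    exact Finset.prod_congr rfl fun i _ => (Real.exp_log (cA i)).symm
  rw [hprod] at hcon ⊢
  rw [← Real.exp_mul] at hcon
  -- `k ≥ 2`
  have hk2 : 2 ≤ k := by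
    by_contra hlt
    have h1 : k = 1 := by omega
    subst h1
    have h2 : (1 : ℝ) ≤ (((Fintype.piFinset A).image fun f => ∑ i, f i).card : ℝ) := by
      exact_mod_cast Finset.card_pos.2 ((Fintype.piFinset_nonempty.2 hA).image _)
    have h3 : N * (log ((1 : ℕ) : ℝ) / (12000 * ((1 : ℕ) : ℝ))) = 0 := by simp
    rw [h3, Real.exp_zero] at hcon
    linarith
  obtain ⟨J, hJ⟩ : ∃ J, J = Nat.clog 2 k := ⟨_, rfl⟩
  have hJ1 : 1 ≤ J := by
    rw [hJ]
    exact Nat.clog_pos (by norm_num) hk2
  have hkJ : k ≤ 2 ^ J := by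
    rw [hJ]
    exact Nat.le_pow_clog (by norm_num) k
  have hJk : 2 ^ J < 2 * k := by
    have h1 := Nat.pow_pred_clog_lt_self (b := 2) (by norm_num) (x := k) (by omega)
    rw [← hJ, Nat.pred_eq_sub_one] at h1
    have h2 : 2 ^ J = 2 * 2 ^ (J - 1) := by rw [← pow_succ']; congr 1; omega
    omega
  -- the padded sets
  obtain ⟨A', hA'⟩ : ∃ A' : ℕ → Finset ℤ, A' = fun j => if h : j < k then A ⟨j, h⟩ else {1} :=
    ⟨_, rfl⟩
  have hA'ne : ∀ j, (A' j).Nonempty := fun j => by
    rw [hA']
    dsimp only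
    split_ifs with h
    · exact hA _
    · exact Finset.singleton_nonempty _
  have hAA' : ∀ i : Fin k, A' i = A i := fun i => by
    rw [hA']
    simp
  obtain ⟨i, hi, D, hD0, h1, h2, h3, h4⟩ := tree J hJ1 k hkJ A' hA'ne
  -- the number of sums
  have hS : (T A' J 0).card ≤ ((Fintype.piFinset A).image fun f => ∑ i, f i).card := by
    have h5 : T A' J 0 ⊆ ((Fintype.piFinset A).image fun f => ∑ i, f i).image
        fun x => x + ((2 ^ J - k : ℕ) : ℤ) := by
      intro x hx
      obtain ⟨f, hf, rfl⟩ := mem_T A' hA'ne J 0 x hx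
      rw [Finset.mem_image]
      refine ⟨∑ i : Fin k, f i, ?_, ?_⟩
      · rw [Finset.mem_image]
        refine ⟨fun i => f i, ?_, rfl⟩
        rw [Fintype.mem_piFinset]
        intro i
        rw [← hAA' i]
        exact hf i
      · have h6 : 2 ^ J = k + (2 ^ J - k) := by omega
        rw [h6, Finset.sum_range_add, ← h6]
        have h7 : ∑ j ∈ range (2 ^ J - k), f (0 * 2 ^ J + (k + j)) = ((2 ^ J - k : ℕ) : ℤ) := by
          rw [Finset.sum_congr rfl (g := fun _ => 1)]
          · simp
          · intro j hj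
            have h8 := hf (0 * 2 ^ J + (k + j))
            rw [hA'] at h8
            dsimp only at h8
            rw [dif_neg (by omega)] at h8
            simpa using h8
        rw [h7, Finset.sum_range]
        simp
    exact (Finset.card_le_card h5).trans Finset.card_image_le
  have hR : log ((T A' J 0).card : ℝ) ≤ N * (log k / (12000 * k)) := by
    have hp : (0 : ℝ) < (T A' J 0).card := by exact_mod_cast (T_ne A' hA'ne J 0).card_pos
    rw [Real.log_le_iff_le_exp hp]
    have : ((T A' J 0).card : ℝ) ≤ (((Fintype.piFinset A).image fun f => ∑ i, f i).card : ℝ) := by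
      exact_mod_cast hS
    linarith
  have hR0 : 0 ≤ log ((T A' J 0).card : ℝ) :=
    Real.log_nonneg (by exact_mod_cast (T_ne A' hA'ne J 0).card_pos)
  obtain ⟨R, hRdef⟩ : ∃ R, R = log ((T A' J 0).card : ℝ) := ⟨_, rfl⟩
  rw [← hRdef] at hR hR0 h4
  simp only [← hRdef] at h3
  have hsumD : ∑ j : Fin k, D j ≤ N * (1 / 4320) := by
    rw [← Finset.sum_range (fun j => D j)]
    refine h4.trans ?_
    have hJ0 : (0 : ℝ) < J := by exact_mod_cast hJ1
    have hkp : (0 : ℝ) < k := by linarith
    have g1 : ((2 : ℝ) ^ J) ≤ 2 * k := by exact_mod_cast hJk.le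
    have g2 : log (k : ℝ) ≤ J * 0.6931471808 := by
      have g3 : log (k : ℝ) ≤ log ((2 : ℝ) ^ J) :=
        Real.log_le_log hkp (by exact_mod_cast hkJ)
      rw [Real.log_pow] at g3
      have := Real.log_two_lt_d9
      nlinarith
    have g4 : 2 ^ J * R / J ≤ 2 * k * (N * (log k / (12000 * k))) / J := by
      gcongr
    have g5 : 2 * k * (N * (log k / (12000 * k))) / J = N * (log k / J) / 6000 := by
      field_simp
      ring
    have g6 : log k / J ≤ 0.6931471808 := by
      rw [div_le_iff₀ hJ0]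
      linarith
    have g7 : N * (log k / J) ≤ N * 0.6931471808 := mul_le_mul_of_nonneg_left g6 hN0
    rw [g5] at g4
    linarith
  have heR : k * (e * R) ≤ N / 12000 := by
    have hkp : (0 : ℝ) < k := by linarith
    have t1 : e * R ≤ e * (N * (log k / (12000 * k))) := mul_le_mul_of_nonneg_left hR he0.le
    have t2 : e * log k ≤ 1 := by
      rw [he, one_div, inv_mul_le_iff₀ (by positivity)]
      linarith
    have t3 : k * (e * (N * (log k / (12000 * k)))) = N / 12000 * (e * log k) := by
      field_simp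
    have t4 : N / 12000 * (e * log k) ≤ N / 12000 * 1 :=
      mul_le_mul_of_nonneg_left t2 (by positivity)
    calc k * (e * R) ≤ k * (e * (N * (log k / (12000 * k)))) :=
          mul_le_mul_of_nonneg_left t1 (by linarith)
      _ ≤ N / 12000 := by rw [t3]; linarith
  -- the good indices
  classical
  obtain ⟨I, hI⟩ : ∃ I : Finset (Fin k),
      I = Finset.univ.filter fun j : Fin k => 1016 * D j + e * R ≤ log ((A j).card : ℝ) / 2 := ⟨_, rfl⟩
  refine ⟨I, ?_, ?_⟩
  · have hprodI : ∏ i ∈ I, ((A i).card : ℝ) = Real.exp (∑ i ∈ I, log ((A i).card : ℝ)) := by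
      rw [Real.exp_sum]
      exact Finset.prod_congr rfl fun i _ => (Real.exp_log (cA i)).symm
    rw [hprodI, ← Real.exp_nat_mul, Real.exp_le_exp]
    have hsplit := Finset.sum_filter_add_sum_filter_not (Finset.univ : Finset (Fin k))
      (fun j : Fin k => 1016 * D j + e * R ≤ log ((A j).card : ℝ) / 2)
      (fun j => log ((A j).card : ℝ))
    rw [← hI, ← hN] at hsplit
    have hbad : ∑ j ∈ Finset.univ.filter (fun j : Fin k => ¬ (1016 * D j + e * R ≤
        log ((A j).card : ℝ) / 2)), log ((A j).card : ℝ) ≤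
        ∑ j : Fin k, 2 * (1016 * D j + e * R) := by
      refine (Finset.sum_le_sum fun j hj => ?_).trans
        (Finset.sum_le_sum_of_subset_of_nonneg (Finset.filter_subset _ _) fun j _ _ => ?_)
      · have := (Finset.mem_filter.1 hj).2
        push Not at this
        linarith
      · have := hD0 j
        positivity
    rw [← Finset.mul_sum, Finset.sum_add_distrib, ← Finset.mul_sum, Finset.sum_const,
      Finset.card_univ, Fintype.card_fin, nsmul_eq_mul] at hbad
    push_cast
    linarith
  · intro m hm ix t hix ht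
    obtain ⟨B, hB⟩ : ∃ B : Fin m → Finset ℤ, B = fun j => (A (ix j)).image fun a => a + t j :=
      ⟨_, rfl⟩
    rw [← hB]
    have hBc : ∀ j, (B j).card = (A (ix j)).card := fun j => by
      rw [hB]
      exact Finset.card_image_of_injective _ (add_left_injective (t j))
    have hBne : ∀ j, (B j).Nonempty := fun j => by
      rw [hB]
      exact (hA _).image _
    have hB0 : ∀ j, (0 : ℤ) ∉ B j := fun j h0 => by
      rw [hB] at h0
      obtain ⟨a, ha, ha0⟩ := Finset.mem_image.1 h0
      exact ht j (by rwa [show -t j = a by linarith])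
    have hm1 : (1 : ℝ) ≤ m := by exact_mod_cast hm
    obtain ⟨α, hα⟩ : ∃ α : ℝ, α = 2 * (60 * m / log (m + 1)) + 1 := ⟨_, rfl⟩
    have hen := energy_log parts e he0 he1 m hm B
      (fun j => T A' i (sib (ix j / 2 ^ i))) (fun j => T A' i (ix j / 2 ^ i)) hBne hB0
      (fun j => T_ne A' hA'ne i _) (fun j => T_ne A' hA'ne i _)
    obtain ⟨N', hN'⟩ : ∃ N', N' = ∑ j, log ((B j).card : ℝ) := ⟨_, rfl⟩
    rw [← hα, ← hN'] at hen
    have hN'0 : 0 ≤ N' := by
      rw [hN']
      exact Finset.sum_nonneg fun j _ => by rw [hBc j]; exact hlA _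
    have hterm : ∀ j : Fin m, log ((B j).card : ℝ) / 2 - Ce e ≤
        log ((B j).card : ℝ) - (16 * (log ((B j + T A' i (sib (ix j / 2 ^ i))).card : ℝ) -
          log ((T A' i (sib (ix j / 2 ^ i))).card : ℝ)) +
          (2000 * D2 (T A' i (sib (ix j / 2 ^ i))) (T A' i (ix j / 2 ^ i)) +
            e * log ((T A' i (sib (ix j / 2 ^ i))).card : ℝ))) - Ce e := by
      intro j
      have t1 := h1 (ix j) (ix j).2
      have t2 := h2 (ix j) (ix j).2
      have t3 := mul_le_mul_of_nonneg_left (h3 (ix j) (ix j).2) he0.le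
      rw [hAA' (ix j)] at t1
      have t4 := hix j
      rw [hI] at t4
      have t5 := (Finset.mem_filter.1 t4).2
      have t6 : (B j + T A' i (sib (ix j / 2 ^ i))).card =
          (A (ix j) + T A' i (sib (ix j / 2 ^ i))).card := by
        rw [hB]
        exact translate_add _ _ _
      rw [t6, hBc j]
      linarith
    have hen2 := (Finset.sum_le_sum fun j (_ : j ∈ (Finset.univ : Finset (Fin m))) =>
      hterm j).trans hen
    rw [Finset.sum_sub_distrib, Finset.sum_const, Finset.card_univ, Fintype.card_fin,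
      nsmul_eq_mul, ← Finset.sum_div, ← hN'] at hen2
    have hl1 : 0 < log ((m : ℝ) + 1) := Real.log_pos (by linarith)
    have hα0 : 0 < α := by
      rw [hα]
      positivity
    have hα2 : α * (log (m + 1) / (180 * m)) ≤ 1 := by
      rw [hα]
      have t1 : log ((m : ℝ) + 1) ≤ m := by
        have := Real.log_le_sub_one_of_pos (show (0 : ℝ) < (m : ℝ) + 1 by linarith)
        linarith
      have t2 : (2 * (60 * m / log (m + 1)) + 1) * (log (m + 1) / (180 * m)) =
          2 / 3 + log (m + 1) / (180 * m) := by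
        field_simp
        ring
      rw [t2]
      have t3 : log ((m : ℝ) + 1) / (180 * m) ≤ 1 / 180 := by
        rw [div_le_div_iff₀ (by positivity) (by norm_num)]
        linarith
      linarith
    have hα3 : m / α ≤ log (m + 1) / 120 := by
      rw [div_le_iff₀ hα0, hα]
      have : log ((m : ℝ) + 1) / 120 * (2 * (60 * m / log (m + 1)) + 1) =
          m + log (m + 1) / 120 := by
        field_simp
        ring
      rw [this]
      have : 0 ≤ log ((m : ℝ) + 1) / 120 := by positivity
      linarith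
    have hcE : (0 : ℝ) < (EM B).card := by exact_mod_cast (EM_nonempty B hBne).card_pos
    have hlogE : log ((EM B).card : ℝ) ≤
        log (m + 1) * (Ce e / 120 + 1) + N' * (2 - log (m + 1) / (360 * m)) := by
      have t1 : (N' / 2 - m * Ce e) / α ≤ 2 * N' - log ((EM B).card : ℝ) := by
        rw [div_le_iff₀ hα0]
        linarith
      have t2 : N' / 2 * (log (m + 1) / (180 * m)) ≤ N' / 2 / α := by
        rw [le_div_iff₀ hα0]
        have : N' / 2 * (log (m + 1) / (180 * m)) * α =
            N' / 2 * (α * (log (m + 1) / (180 * m))) := by ring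
        rw [this]
        have := mul_le_mul_of_nonneg_left hα2 (show 0 ≤ N' / 2 by linarith)
        linarith
      have t3 : m * Ce e / α ≤ log (m + 1) / 120 * Ce e := by
        have : m * Ce e / α = m / α * Ce e := by ring
        rw [this]
        exact mul_le_mul_of_nonneg_right hα3 hCe
      have t4 : (N' / 2 - m * Ce e) / α = N' / 2 / α - m * Ce e / α := sub_div _ _ _
      have t5 : N' / 2 * (log (m + 1) / (180 * m)) = N' * (log (m + 1) / (360 * m)) := by
        field_simp
        ring
      rw [t4] at t1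
      rw [t5] at t2
      nlinarith
    have hprodB : ∏ j, ((A (ix j)).card : ℝ) = Real.exp N' := by
      rw [hN', Real.exp_sum]
      exact Finset.prod_congr rfl fun j _ => by rw [hBc j]; exact (Real.exp_log (cA _)).symm
    rw [hprodB, ← Real.exp_mul, Real.rpow_def_of_pos (by linarith), ← Real.exp_add]
    exact (Real.log_le_iff_le_exp hcE).1 hlogE

end Pool.Agent.H64.ES.Diff
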