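import Mathlib
import Pool.Agent.H87.PT.Point
import Pool.Agent.H64.ES.Diff2

/-!
# Few sums of different sets: a bound for the number of factorisations with a trade-off

The tree argument of `Pool.Agent.H64.ES.Diff` with helper87's pointwise bound
(`Pool.Agent.H87.PT.point_log`).
-/

set_option autoImplicit false

namespace Pool.Agent.H64.ES.Diff

open Finset Real
open Pool.Agent.H87.LL (D2 Fac)
open Pool.Agent.H87.PT (WL tau point_log tau_nonneg tau_le_one good_t)
open scoped Pointwise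

/-- The tree argument. -/
theorem core (k : ℕ) (hk2 : 2 ≤ k) (A : Fin k → Finset ℤ) (hA : ∀ i, (A i).Nonempty) :
    ∃ (P Q : Fin k → Finset ℤ) (D : Fin k → ℝ) (R : ℝ), (∀ j, (P j).Nonempty) ∧
      (∀ j, (Q j).Nonempty) ∧ (∀ j, 0 ≤ D j) ∧
      (∀ j, log ((A j + P j).card : ℝ) - log ((P j).card : ℝ) ≤ D j) ∧
      (∀ j, D2 (P j) (Q j) ≤ D j / 2) ∧ (∀ j, log ((P j).card : ℝ) ≤ R) ∧ 0 ≤ R ∧
      R ≤ log (((Fintype.piFinset A).image fun f => ∑ i, f i).card : ℝ) ∧
      log k * ∑ j, D j ≤ 2.7726 * k * R := by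
  have hk1 : (2 : ℝ) ≤ k := by exact_mod_cast hk2
  have hlk : 0 ≤ log (k : ℝ) := Real.log_nonneg (by linarith)
  obtain ⟨J, hJ⟩ : ∃ J, J = Nat.clog 2 k := ⟨_, rfl⟩
  have hJ1 : 1 ≤ J := by
    rw [hJ]
    exact Nat.clog_pos (by norm_num) hk2
  have hkJ : k ≤ 2 ^ J := by
    rw [hJ]
    exact Nat.le_pow_clog (by norm_num) k
  have hJk : 2 ^ J < 2 * k := by
    have h1 := Nat.pow_pred_clog_lt_self (b := 2) (by norm_num) (x := k) (by omega)
    rw [← hJ, Nat.pred_eq_sub_one] at h1
    have h2 : 2 ^ J = 2 * 2 ^ (J - 1) := by rw [← pow_succ']; congr 1; omega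
    omega
  -- the padded sets
  obtain ⟨A', hA'⟩ : ∃ A' : ℕ → Finset ℤ, A' = fun j => if h : j < k then A ⟨j, h⟩ else {1} :=
    ⟨_, rfl⟩
  have hA'ne : ∀ j, (A' j).Nonempty := fun j => by
    rw [hA']
    dsimp only
    split_ifs with h
    · exact hA _
    · exact Finset.singleton_nonempty _
  have hAA' : ∀ i : Fin k, A' i = A i := fun i => by
    rw [hA']
    simp
  obtain ⟨i, hi, D, hD0, h1, h2, h3, h4⟩ := tree J hJ1 k hkJ A' hA'ne
  -- the number of sums
  have hS : (T A' J 0).card ≤ ((Fintype.piFinset A).image fun f => ∑ i, f i).card := by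
    have h5 : T A' J 0 ⊆ ((Fintype.piFinset A).image fun f => ∑ i, f i).image
        fun x => x + ((2 ^ J - k : ℕ) : ℤ) := by
      intro x hx
      obtain ⟨f, hf, rfl⟩ := mem_T A' hA'ne J 0 x hx
      rw [Finset.mem_image]
      refine ⟨∑ i : Fin k, f i, ?_, ?_⟩
      · rw [Finset.mem_image]
        refine ⟨fun i => f i, ?_, rfl⟩
        rw [Fintype.mem_piFinset]
        intro i
        rw [← hAA' i]
        exact hf i
      · have h6 : 2 ^ J = k + (2 ^ J - k) := by omega
        rw [h6, Finset.sum_range_add, ← h6]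
        have h7 : ∑ j ∈ range (2 ^ J - k), f (0 * 2 ^ J + (k + j)) = ((2 ^ J - k : ℕ) : ℤ) := by
          rw [Finset.sum_congr rfl (g := fun _ => 1)]
          · simp
          · intro j hj
            have h8 := hf (0 * 2 ^ J + (k + j))
            rw [hA'] at h8
            dsimp only at h8
            rw [dif_neg (by omega)] at h8
            simpa using h8
        rw [h7, Finset.sum_range]
        simp
    exact (Finset.card_le_card h5).trans Finset.card_image_le
  have hp : (0 : ℝ) < (T A' J 0).card := by exact_mod_cast (T_ne A' hA'ne J 0).card_pos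
  have hR0 : 0 ≤ log ((T A' J 0).card : ℝ) :=
    Real.log_nonneg (by exact_mod_cast (T_ne A' hA'ne J 0).card_pos)
  refine ⟨fun j => T A' i (sib (j / 2 ^ i)), fun j => T A' i (j / 2 ^ i), fun j => D j,
    log ((T A' J 0).card : ℝ), fun j => T_ne A' hA'ne i _, fun j => T_ne A' hA'ne i _,
    fun j => hD0 j, fun j => ?_, fun j => h2 j j.2, fun j => h3 j j.2, hR0,
    Real.log_le_log hp (by exact_mod_cast hS), ?_⟩
  · have := h1 j j.2
    rw [hAA' j] at this
    exact this
  · rw [← Finset.sum_range (fun j => D j)]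
    have hJ0 : (0 : ℝ) < J := by exact_mod_cast hJ1
    have hkp : (0 : ℝ) < k := by linarith
    have g1 : ((2 : ℝ) ^ J) ≤ 2 * k := by exact_mod_cast hJk.le
    have g2 : log (k : ℝ) ≤ J * 0.6931471808 := by
      have g3 : log (k : ℝ) ≤ log ((2 : ℝ) ^ J) :=
        Real.log_le_log hkp (by exact_mod_cast hkJ)
      rw [Real.log_pow] at g3
      have := Real.log_two_lt_d9
      nlinarith
    obtain ⟨R, hR⟩ : ∃ R, R = log ((T A' J 0).card : ℝ) := ⟨_, rfl⟩
    rw [← hR] at h4 hR0 ⊢
    have hS0 : 0 ≤ ∑ j ∈ range k, D j := Finset.sum_nonneg fun j _ => hD0 j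
    have g3 : log (k : ℝ) * ∑ j ∈ range k, D j ≤ J * 0.6931471808 * ∑ j ∈ range k, D j :=
      mul_le_mul_of_nonneg_right g2 hS0
    have g4 : (J : ℝ) * ∑ j ∈ range k, D j ≤ J * (2 * (2 ^ J * R / J)) :=
      mul_le_mul_of_nonneg_left h4 hJ0.le
    have g5 : (J : ℝ) * (2 * (2 ^ J * R / J)) = 2 * (2 ^ J * R) := by field_simp
    have g6 : (2 : ℝ) ^ J * R ≤ 2 * k * R := mul_le_mul_of_nonneg_right g1 hR0
    rw [g5] at g4
    have g7 : 0 ≤ (k : ℝ) * R := mul_nonneg hkp.le hR0
    nlinarith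

theorem wl_le (e : ℝ) (he : 0 ≤ e) (A P Q : Finset ℤ) (b : ℤ) (D R : ℝ)
    (h1 : log ((A + P).card : ℝ) - log (P.card : ℝ) ≤ D) (h2 : D2 P Q ≤ D / 2)
    (h3 : log (P.card : ℝ) ≤ R) :
    WL e (A.image fun a => a + b) P Q ≤ 1016 * D + e * R + Real.exp (10 ^ 9 / e) := by
  unfold WL
  rw [translate_add]
  have := mul_le_mul_of_nonneg_left h3 he
  linarith

theorem filter_le_fac (m : ℕ) (A : Fin m → Finset ℤ) (b : Fin m → ℤ) (x : ℤ) :
    ((Fintype.piFinset A).filter fun f => ∏ i, (f i + b i) = x).card ≤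
      (Fac (fun i => (A i).image fun a => a + b i) x).card := by
  refine Finset.card_le_card_of_injOn (fun f i => f i + b i) ?_ ?_
  · intro f hf
    obtain ⟨h1, h2⟩ := Finset.mem_filter.1 (Finset.mem_coe.1 hf)
    refine Finset.mem_coe.2 (Finset.mem_filter.2 ⟨Fintype.mem_piFinset.2 fun i => ?_, h2⟩)
    exact Finset.mem_image_of_mem _ (Fintype.mem_piFinset.1 h1 i)
  · intro f _ g _ h
    funext i
    have := congrFun h i
    simpa using this

theorem fac_bound (m : ℕ) (hm : 1 ≤ m) (e : ℝ) (he : 0 < e) (he1 : e ≤ 1) (t : ℝ) (ht : 1 ≤ t)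
    (htm : t ≤ 16 * m) (A P Q : Fin m → Finset ℤ) (b : Fin m → ℤ)
    (hP : ∀ i, (P i).Nonempty) (hQ : ∀ i, (Q i).Nonempty) (w : Fin m → ℝ)
    (hw : ∀ i, WL e ((A i).image fun a => a + b i) (P i) (Q i) ≤ w i) (x : ℤ) (hx : x ≠ 0) :
    (((Fintype.piFinset A).filter fun f => ∏ i, (f i + b i) = x).card : ℝ) ≤
      Real.exp (∑ i, ((1 - tau m t) * log ((A i).card : ℝ) +
        tau m t * ((3 + log t) * w i))) := by
  have hm0 : (0 : ℝ) < m := by exact_mod_cast hm
  have ht0 : 0 < t := by linarith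
  have h1 : (((Fintype.piFinset A).filter fun f => ∏ i, (f i + b i) = x).card : ℝ) ≤
      (Fac (fun i => (A i).image fun a => a + b i) x).card := by
    exact_mod_cast filter_le_fac m A b x
  refine h1.trans ?_
  rcases (Fac (fun i => (A i).image fun a => a + b i) x).eq_empty_or_nonempty with h0 | hne
  · rw [h0, Finset.card_empty, Nat.cast_zero]
    exact (Real.exp_pos _).le
  have hc : (0 : ℝ) < (Fac (fun i => (A i).image fun a => a + b i) x).card := by
    exact_mod_cast hne.card_pos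
  have h2 := point_log e he he1 (log t) (Real.log_nonneg ht) m hm (tau m t)
    (tau_nonneg m t hm0 ht0 htm) (tau_le_one m t hm0 ht0) (good_t m t hm0 ht0 htm)
    (fun i => (A i).image fun a => a + b i) P Q hP hQ x hx hne
  rw [← Real.log_le_iff_le_exp hc]
  refine h2.trans (Finset.sum_le_sum fun i _ => ?_)
  have h3 : ((A i).image fun a => a + b i).card = (A i).card :=
    Finset.card_image_of_injective _ (add_left_injective (b i))
  rw [h3]
  have h4 := mul_le_mul_of_nonneg_left (mul_le_mul_of_nonneg_left (hw i)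
    (show 0 ≤ 3 + log t by linarith [Real.log_nonneg ht])) (tau_nonneg m t hm0 ht0 htm)
  linarith

/-- the numerical facts if there are few sums -/
theorem few_num (k : ℕ) (hk2 : 2 ≤ k) (d L M N S R e : ℝ) (hd : 0 < d) (hL : 0 < L) (hM : 0 < M)
    (hN : 0 ≤ N) (he : e = 1 / (1 + log k)) (hR : R ≤ N * (d * log k / (M * L * k)))
    (hS : log k * S ≤ 2.7726 * k * R) :
    L * (1016 * S + k * (e * R)) ≤ 2818 / M * (d * N) := by
  have hk1 : (2 : ℝ) ≤ k := by exact_mod_cast hk2
  have hk0 : (0 : ℝ) < k := by linarith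
  have hlk : 0 < log (k : ℝ) := Real.log_pos (by linarith)
  have he0 : 0 < e := by rw [he]; positivity
  have h1 : S ≤ 2.7726 * (N * d / (M * L)) := by
    have h2 : 2.7726 * k * R ≤ 2.7726 * k * (N * (d * log k / (M * L * k))) :=
      mul_le_mul_of_nonneg_left hR (by positivity)
    have h3 : 2.7726 * k * (N * (d * log k / (M * L * k))) =
        log k * (2.7726 * (N * d / (M * L))) := by
      field_simp
    rw [h3] at h2
    exact le_of_mul_le_mul_left (hS.trans h2) hlk
  have h2 : k * (e * R) ≤ N * d / (M * L) := by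
    have t1 : e * R ≤ e * (N * (d * log k / (M * L * k))) := mul_le_mul_of_nonneg_left hR he0.le
    have t2 : e * log k ≤ 1 := by
      rw [he, one_div, inv_mul_le_iff₀ (by positivity)]
      linarith
    have t3 : k * (e * (N * (d * log k / (M * L * k)))) = N * d / (M * L) * (e * log k) := by
      field_simp
    have t4 : N * d / (M * L) * (e * log k) ≤ N * d / (M * L) * 1 :=
      mul_le_mul_of_nonneg_left t2 (by positivity)
    calc k * (e * R) ≤ k * (e * (N * (d * log k / (M * L * k)))) :=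
          mul_le_mul_of_nonneg_left t1 (by linarith)
      _ ≤ N * d / (M * L) := by rw [t3]; linarith
  have h3 : L * (1016 * S + k * (e * R)) ≤ L * (2818 * (N * d / (M * L))) := by
    refine mul_le_mul_of_nonneg_left ?_ hL.le
    have : 0 ≤ N * d / (M * L) := by positivity
    nlinarith
  have h4 : L * (2818 * (N * d / (M * L))) = 2818 / M * (d * N) := by
    field_simp
  linarith

/-- Few sums of different sets, the number of factorisations. -/
theorem few_point (k : ℕ) (hk : 1 ≤ k) (d : ℝ) (hd : 0 < d) (t : ℝ) (ht : 1 ≤ t)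
    (htk : t ≤ 16 * k) : ∃ C : ℝ, 0 < C ∧ ∀ A : Fin k → Finset ℤ, (∀ i, (A i).Nonempty) →
      (∏ i, ((A i).card : ℝ)) ^ (d * log k / (3000 * (3 + log t) * k)) ≤
        (((Fintype.piFinset A).image fun f => ∑ i, f i).card : ℝ) ∨
      ∀ (b : Fin k → ℤ) (x : ℤ), x ≠ 0 →
        (((Fintype.piFinset A).filter fun f => ∏ i, (f i + b i) = x).card : ℝ) ≤
          C * (∏ i, ((A i).card : ℝ)) ^ (1 - (1 - d) * tau k t) := by
  obtain ⟨e, he⟩ : ∃ e : ℝ, e = 1 / (1 + log k) := ⟨_, rfl⟩
  have hk1 : (1 : ℝ) ≤ k := by exact_mod_cast hk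
  have hlk : 0 ≤ log (k : ℝ) := Real.log_nonneg hk1
  have he0 : 0 < e := by rw [he]; positivity
  have he1 : e ≤ 1 := by
    rw [he, div_le_one (by positivity)]
    linarith
  have hlt : 0 ≤ log t := Real.log_nonneg ht
  obtain ⟨L, hL⟩ : ∃ L : ℝ, L = 3 + log t := ⟨_, rfl⟩
  have hL0 : 0 < L := by rw [hL]; linarith
  refine ⟨Real.exp (tau k t * (L * (k * Real.exp (10 ^ 9 / e)))), Real.exp_pos _,
    fun A hA => ?_⟩
  rw [or_iff_not_imp_left]
  intro hcon b x hx
  push Not at hcon
  obtain ⟨N, hN⟩ : ∃ N, N = ∑ i, log ((A i).card : ℝ) := ⟨_, rfl⟩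
  have cA : ∀ i, (0 : ℝ) < (A i).card := fun i => by exact_mod_cast (hA i).card_pos
  have hlA : ∀ i, 0 ≤ log ((A i).card : ℝ) := fun i =>
    Real.log_nonneg (by exact_mod_cast (hA i).card_pos)
  have hN0 : 0 ≤ N := by rw [hN]; exact Finset.sum_nonneg fun i _ => hlA i
  have hprod : ∏ i, ((A i).card : ℝ) = Real.exp N := by
    rw [hN, Real.exp_sum]
    exact Finset.prod_congr rfl fun i _ => (Real.exp_log (cA i)).symm
  rw [hprod] at hcon ⊢
  rw [← Real.exp_mul] at hcon ⊢
  have hS1 : (1 : ℝ) ≤ (((Fintype.piFinset A).image fun f => ∑ i, f i).card : ℝ) := by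
    exact_mod_cast Finset.card_pos.2 ((Fintype.piFinset_nonempty.2 hA).image _)
  have hk2 : 2 ≤ k := by
    by_contra hlt
    have h1 : k = 1 := by omega
    subst h1
    have h3 : N * (d * log ((1 : ℕ) : ℝ) / (3000 * (3 + log t) * ((1 : ℕ) : ℝ))) = 0 := by simp
    rw [h3, Real.exp_zero] at hcon
    linarith
  obtain ⟨P, Q, D, R, hP, hQ, hD0, h1, h2, h3, hR0, hR, hD⟩ := core k hk2 A hA
  have hR' : R ≤ N * (d * log k / (3000 * L * k)) := by
    refine hR.trans ?_
    rw [Real.log_le_iff_le_exp (by linarith), hL]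
    exact hcon.le
  have hnum := few_num k hk2 d L 3000 N (∑ j, D j) R e hd hL0 (by norm_num) hN0 he hR' hD
  have hfac := fac_bound k hk e he0 he1 t ht htk A P Q b hP hQ
    (fun j => 1016 * D j + e * R + Real.exp (10 ^ 9 / e))
    (fun j => wl_le e he0.le (A j) (P j) (Q j) (b j) (D j) R (h1 j) (h2 j) (h3 j)) x hx
  refine hfac.trans ?_
  rw [← Real.exp_add, Real.exp_le_exp, Finset.sum_add_distrib, ← Finset.mul_sum, ← hN,
    ← Finset.mul_sum, ← Finset.mul_sum, Finset.sum_add_distrib, Finset.sum_add_distrib,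
    ← Finset.mul_sum, Finset.sum_const, Finset.sum_const, Finset.card_univ, Fintype.card_fin,
    nsmul_eq_mul, nsmul_eq_mul, ← hL]
  have hk0 : (0 : ℝ) < k := by linarith
  have hτ0 : 0 ≤ tau k t := tau_nonneg k t hk0 (by linarith) htk
  have h5 : L * (1016 * ∑ j, D j + k * (e * R)) ≤ d * N := by
    have : 0 ≤ d * N := by positivity
    linarith
  have h6 := mul_le_mul_of_nonneg_left h5 hτ0
  nlinarith

/-- Few sums of different sets: the products of any number of translates of half of the sets. -/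
theorem half_point (k : ℕ) (hk : 1 ≤ k) (d : ℝ) (hd : 0 < d) (t : ℝ) (ht : 1 ≤ t) :
    ∃ C : ℝ, 1 ≤ C ∧ ∀ A : Fin k → Finset ℤ, (∀ i, (A i).Nonempty) →
      (∏ i, ((A i).card : ℝ)) ^ (d * log k / (6000 * (3 + log t) * k)) ≤
        (((Fintype.piFinset A).image fun f => ∑ i, f i).card : ℝ) ∨
      ∃ I : Finset (Fin k), (∏ i, ((A i).card : ℝ)) ≤ (∏ i ∈ I, ((A i).card : ℝ)) ^ 2 ∧
        ∀ m : ℕ, 1 ≤ m → t ≤ 16 * m → ∀ (i : Fin m → Fin k) (b : Fin m → ℤ), (∀ j, i j ∈ I) →
          ∀ x : ℤ, x ≠ 0 →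
            (((Fintype.piFinset fun j => A (i j)).filter fun f => ∏ j, (f j + b j) = x).card : ℝ) ≤
              C ^ (m * tau m t) *
                (∏ j, ((A (i j)).card : ℝ)) ^ (1 - (1 - d) * tau m t) := by
  obtain ⟨e, he⟩ : ∃ e : ℝ, e = 1 / (1 + log k) := ⟨_, rfl⟩
  have hk1 : (1 : ℝ) ≤ k := by exact_mod_cast hk
  have hlk : 0 ≤ log (k : ℝ) := Real.log_nonneg hk1
  have he0 : 0 < e := by rw [he]; positivity
  have he1 : e ≤ 1 := by
    rw [he, div_le_one (by positivity)]
    linarith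
  have hlt : 0 ≤ log t := Real.log_nonneg ht
  obtain ⟨L, hL⟩ : ∃ L : ℝ, L = 3 + log t := ⟨_, rfl⟩
  have hL0 : 0 < L := by rw [hL]; linarith
  refine ⟨Real.exp (L * Real.exp (10 ^ 9 / e)), Real.one_le_exp (by positivity), fun A hA => ?_⟩
  rw [or_iff_not_imp_left]
  intro hcon
  push Not at hcon
  obtain ⟨N, hN⟩ : ∃ N, N = ∑ i, log ((A i).card : ℝ) := ⟨_, rfl⟩
  have cA : ∀ i, (0 : ℝ) < (A i).card := fun i => by exact_mod_cast (hA i).card_pos
  have hlA : ∀ i, 0 ≤ log ((A i).card : ℝ) := fun i =>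
    Real.log_nonneg (by exact_mod_cast (hA i).card_pos)
  have hN0 : 0 ≤ N := by rw [hN]; exact Finset.sum_nonneg fun i _ => hlA i
  have hprod : ∏ i, ((A i).card : ℝ) = Real.exp N := by
    rw [hN, Real.exp_sum]
    exact Finset.prod_congr rfl fun i _ => (Real.exp_log (cA i)).symm
  rw [hprod] at hcon ⊢
  rw [← Real.exp_mul] at hcon
  have hS1 : (1 : ℝ) ≤ (((Fintype.piFinset A).image fun f => ∑ i, f i).card : ℝ) := by
    exact_mod_cast Finset.card_pos.2 ((Fintype.piFinset_nonempty.2 hA).image _)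
  have hk2 : 2 ≤ k := by
    by_contra hlt
    have h1 : k = 1 := by omega
    subst h1
    have h3 : N * (d * log ((1 : ℕ) : ℝ) / (6000 * (3 + log t) * ((1 : ℕ) : ℝ))) = 0 := by simp
    rw [h3, Real.exp_zero] at hcon
    linarith
  obtain ⟨P, Q, D, R, hP, hQ, hD0, h1, h2, h3, hR0, hR, hD⟩ := core k hk2 A hA
  have hR' : R ≤ N * (d * log k / (6000 * L * k)) := by
    refine hR.trans ?_
    rw [Real.log_le_iff_le_exp (by linarith), hL]
    exact hcon.le
  have hnum := few_num k hk2 d L 6000 N (∑ j, D j) R e hd hL0 (by norm_num) hN0 he hR' hD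
  classical
  obtain ⟨I, hI⟩ : ∃ I : Finset (Fin k),
      I = Finset.univ.filter fun j : Fin k => L * (1016 * D j + e * R) ≤
        d * log ((A j).card : ℝ) := ⟨_, rfl⟩
  refine ⟨I, ?_, ?_⟩
  · have hprodI : ∏ i ∈ I, ((A i).card : ℝ) = Real.exp (∑ i ∈ I, log ((A i).card : ℝ)) := by
      rw [Real.exp_sum]
      exact Finset.prod_congr rfl fun i _ => (Real.exp_log (cA i)).symm
    rw [hprodI, ← Real.exp_nat_mul, Real.exp_le_exp]
    have hsplit := Finset.sum_filter_add_sum_filter_not (Finset.univ : Finset (Fin k))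
      (fun j : Fin k => L * (1016 * D j + e * R) ≤ d * log ((A j).card : ℝ))
      (fun j => d * log ((A j).card : ℝ))
    rw [← hI, ← Finset.mul_sum Finset.univ, ← hN] at hsplit
    have hbad : ∑ j ∈ Finset.univ.filter (fun j : Fin k => ¬ (L * (1016 * D j + e * R) ≤
        d * log ((A j).card : ℝ))), d * log ((A j).card : ℝ) ≤
        ∑ j : Fin k, L * (1016 * D j + e * R) := by
      refine (Finset.sum_le_sum fun j hj => ?_).trans
        (Finset.sum_le_sum_of_subset_of_nonneg (Finset.filter_subset _ _) fun j _ _ => ?_)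
      · have := (Finset.mem_filter.1 hj).2
        push Not at this
        exact this.le
      · have := hD0 j
        positivity
    have hbad2 : ∑ j : Fin k, L * (1016 * D j + e * R) =
        L * (1016 * ∑ j, D j + k * (e * R)) := by
      rw [← Finset.mul_sum, Finset.sum_add_distrib, ← Finset.mul_sum, Finset.sum_const,
        Finset.card_univ, Fintype.card_fin, nsmul_eq_mul]
    have hIe : ∑ i ∈ I, d * log ((A i).card : ℝ) = d * ∑ i ∈ I, log ((A i).card : ℝ) :=
      (Finset.mul_sum _ _ _).symm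
    rw [hbad2] at hbad
    rw [hIe] at hsplit
    have h7 : d * N ≤ d * (2 * ∑ i ∈ I, log ((A i).card : ℝ)) := by
      have : 0 ≤ d * N := by positivity
      linarith
    have h8 := le_of_mul_le_mul_left h7 hd
    push_cast
    exact h8
  · intro m hm htm ix b hix x hx
    have hm1 : (1 : ℝ) ≤ m := by exact_mod_cast hm
    have hm0 : (0 : ℝ) < m := by linarith
    have hfac := fac_bound m hm e he0 he1 t ht htm (fun j => A (ix j)) (fun j => P (ix j))
      (fun j => Q (ix j)) b (fun j => hP _) (fun j => hQ _)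
      (fun j => 1016 * D (ix j) + e * R + Real.exp (10 ^ 9 / e))
      (fun j => wl_le e he0.le (A (ix j)) (P (ix j)) (Q (ix j)) (b j) (D (ix j)) R (h1 _) (h2 _)
        (h3 _)) x hx
    refine hfac.trans ?_
    obtain ⟨N', hN'⟩ : ∃ N', N' = ∑ j, log ((A (ix j)).card : ℝ) := ⟨_, rfl⟩
    have hprodB : ∏ j, ((A (ix j)).card : ℝ) = Real.exp N' := by
      rw [hN', Real.exp_sum]
      exact Finset.prod_congr rfl fun j _ => (Real.exp_log (cA _)).symm
    have hτ0 : 0 ≤ tau m t := tau_nonneg m t hm0 (by linarith) htm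
    have hterm : ∀ j : Fin m, (1 - tau m t) * log ((A (ix j)).card : ℝ) +
        tau m t * ((3 + log t) * (1016 * D (ix j) + e * R + Real.exp (10 ^ 9 / e))) ≤
        (1 - (1 - d) * tau m t) * log ((A (ix j)).card : ℝ) +
          tau m t * (L * Real.exp (10 ^ 9 / e)) := by
      intro j
      have t4 := hix j
      rw [hI] at t4
      have t5 := mul_le_mul_of_nonneg_left (Finset.mem_filter.1 t4).2 hτ0
      rw [← hL]
      nlinarith
    have hsum := Finset.sum_le_sum fun j (_ : j ∈ (Finset.univ : Finset (Fin m))) => hterm j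
    rw [Finset.sum_add_distrib (f := fun j => (1 - (1 - d) * tau m t) *
      log ((A (ix j)).card : ℝ)), ← Finset.mul_sum (f := fun j => log ((A (ix j)).card : ℝ)),
      ← hN', Finset.sum_const, Finset.card_univ, Fintype.card_fin, nsmul_eq_mul] at hsum
    rw [hprodB, ← Real.exp_mul, ← Real.exp_mul, ← Real.exp_add, Real.exp_le_exp]
    refine hsum.trans (le_of_eq ?_)
    ring

end Pool.Agent.H64.ES.Diff
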