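import Mathlib
import Pool.Agent.H64.ES.Diff3

/-!
# Few sums of dilates of different sets
-/

set_option autoImplicit false

namespace Pool.Agent.H64.ES.Diff

open Finset Real
open Pool.Agent.H87.PT (tau)

/-- Few sums of dilates of different sets, the number of factorisations in the product of
translates. -/
theorem few_point_dil (k : ℕ) (hk : 1 ≤ k) (d : ℝ) (hd : 0 < d) (t : ℝ) (ht : 1 ≤ t)
    (htk : t ≤ 16 * k) : ∃ C : ℝ, 0 < C ∧ ∀ A : Fin k → Finset ℤ, (∀ i, (A i).Nonempty) →
      ∀ u : Fin k → ℤ, (∀ i, u i ≠ 0) →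
      (∏ i, ((A i).card : ℝ)) ^ (d * log k / (3000 * (3 + log t) * k)) ≤
        (((Fintype.piFinset A).image fun f => ∑ i, u i * f i).card : ℝ) ∨
      ∀ (b : Fin k → ℤ) (x : ℤ), x ≠ 0 →
        (((Fintype.piFinset A).filter fun f => ∏ i, (f i + b i) = x).card : ℝ) ≤
          C * (∏ i, ((A i).card : ℝ)) ^ (1 - (1 - d) * tau k t) := by
  obtain ⟨C, hC, h⟩ := few_point k hk d hd t ht htk
  refine ⟨C, hC, fun A hA u hu => ?_⟩
  obtain ⟨A', hA'⟩ : ∃ A' : Fin k → Finset ℤ, A' = fun i => (A i).image fun a => u i * a :=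
    ⟨_, rfl⟩
  have hinj : ∀ i, Function.Injective fun a : ℤ => u i * a := fun i a b hab =>
    mul_left_cancel₀ (hu i) hab
  have hc : ∀ i, (A' i).card = (A i).card := fun i => by
    rw [hA']
    exact Finset.card_image_of_injective _ (hinj i)
  have hX : ∏ i, ((A' i).card : ℝ) = ∏ i, ((A i).card : ℝ) :=
    Finset.prod_congr rfl fun i _ => by rw [hc i]
  have h1 := h A' fun i => by rw [hA']; exact (hA i).image _
  rw [hX] at h1
  rcases h1 with h1 | h1
  · left
    refine h1.trans ?_
    have h2 : (Fintype.piFinset A').image (fun f => ∑ i, f i) ⊆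
        (Fintype.piFinset A).image fun f => ∑ i, u i * f i := by
      intro x hx
      obtain ⟨f, hf, rfl⟩ := Finset.mem_image.1 hx
      have h3 : ∀ i, ∃ a ∈ A i, u i * a = f i := fun i => by
        have := Fintype.mem_piFinset.1 hf i
        rw [hA'] at this
        exact Finset.mem_image.1 this
      choose g hg hg2 using h3
      exact Finset.mem_image.2 ⟨g, Fintype.mem_piFinset.2 hg,
        Finset.sum_congr rfl fun i _ => hg2 i⟩
    exact_mod_cast Finset.card_le_card h2
  · right
    intro b x hx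
    have hu0 : ∏ i, u i ≠ 0 := Finset.prod_ne_zero_iff.2 fun i _ => hu i
    refine le_trans ?_ (h1 (fun i => u i * b i) ((∏ i, u i) * x) (mul_ne_zero hu0 hx))
    have h2 : ((Fintype.piFinset A).filter fun f => ∏ i, (f i + b i) = x).card ≤
        ((Fintype.piFinset A').filter fun f => ∏ i, (f i + u i * b i) = (∏ i, u i) * x).card := by
      refine Finset.card_le_card_of_injOn (fun f i => u i * f i) ?_ ?_
      · intro f hf
        obtain ⟨h3, h4⟩ := Finset.mem_filter.1 (Finset.mem_coe.1 hf)
        refine Finset.mem_coe.2 (Finset.mem_filter.2 ⟨Fintype.mem_piFinset.2 fun i => ?_, ?_⟩)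
        · rw [hA']
          exact Finset.mem_image_of_mem _ (Fintype.mem_piFinset.1 h3 i)
        · rw [← h4, ← Finset.prod_mul_distrib]
          exact Finset.prod_congr rfl fun i _ => by ring
      · intro f _ g _ hfg
        funext i
        exact hinj i (congrFun hfg i)
    exact_mod_cast h2

end Pool.Agent.H64.ES.Diff
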