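import Mathlib
import Pool.Agent.H64.ES.Better
import Pool.Agent.H64.ES.Diff4

/-!
# Few sums of different sets: threshold above the geometric mean
-/

set_option autoImplicit false

namespace Pool.Agent.H64.ES.Diff

open Finset Real
open Pool.Agent.H87.LL (D2 Fac)
open Pool.Agent.H87.PT (WL tau point_log tau_nonneg tau_le_one good_t)
open scoped Pointwise

/-- pigeonhole -/
theorem exists_level2 (J : ℕ) (hJ : 1 ≤ J) (G : ℕ → ℝ) :
    ∃ i < J, G (i + 1) - G i ≤ (G J - G 0) / J := by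
  by_contra hcon
  push Not at hcon
  have h1 : ∑ i ∈ range J, ((G J - G 0) / J) < ∑ i ∈ range J, (G (i + 1) - G i) :=
    Finset.sum_lt_sum_of_nonempty ⟨0, Finset.mem_range.2 (by omega)⟩
      fun i hi => hcon i (Finset.mem_range.1 hi)
  rw [Finset.sum_range_sub, Finset.sum_const, Finset.card_range, nsmul_eq_mul] at h1
  have hJ' : (0 : ℝ) < J := by exact_mod_cast hJ
  have h2 : (J : ℝ) * ((G J - G 0) / J) = G J - G 0 := by field_simp
  rw [h2] at h1
  linarith

theorem tree2 (J : ℕ) (hJ : 1 ≤ J) (k : ℕ) (hk : k = 2 ^ J) (A : ℕ → Finset ℤ)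
    (hA : ∀ j, (A j).Nonempty) :
    ∃ i < J, ∃ D : ℕ → ℝ, (∀ w, 0 ≤ D w) ∧
      (∀ j < k, log ((A j + T A i (sib (j / 2 ^ i))).card : ℝ) -
        log ((T A i (sib (j / 2 ^ i))).card : ℝ) ≤ D j) ∧
      (∀ j < k, D2 (T A i (sib (j / 2 ^ i))) (T A i (j / 2 ^ i)) ≤ D j / 2) ∧
      (∀ j < k, log ((T A i (sib (j / 2 ^ i))).card : ℝ) ≤ log ((T A J 0).card : ℝ)) ∧
      ∑ j ∈ range k, D j ≤ 2 * ((2 ^ J * log ((T A J 0).card : ℝ) -
        ∑ j ∈ range k, log ((A j).card : ℝ)) / J) := by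
  obtain ⟨l, hl⟩ : ∃ l : ℕ → ℕ → ℝ, l = fun i v => log ((T A i v).card : ℝ) := ⟨_, rfl⟩
  have hcp : ∀ i v, (0 : ℝ) < (T A i v).card := fun i v => by
    exact_mod_cast (T_ne A hA i v).card_pos
  have hl0 : ∀ i v, 0 ≤ l i v := fun i v => by
    rw [hl]
    exact Real.log_nonneg (by exact_mod_cast (T_ne A hA i v).card_pos)
  obtain ⟨G, hG⟩ : ∃ G : ℕ → ℝ, G = fun i => 2 ^ i * ∑ v ∈ range (2 ^ (J - i)), l i v := ⟨_, rfl⟩
  have hG0 : G 0 = ∑ j ∈ range k, log ((A j).card : ℝ) := by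
    rw [hG, hl, hk]
    simp [T]
  obtain ⟨i, hi, hGi⟩ := exists_level2 J hJ G
  have hmono1 : ∀ w, l i (2 * w) ≤ l (i + 1) w := fun w => by
    have := T_mono A hA i (2 * w)
    rw [show 2 * w / 2 = w by omega] at this
    rw [hl]
    exact Real.log_le_log (hcp _ _) (by exact_mod_cast this)
  have hmono2 : ∀ w, l i (2 * w + 1) ≤ l (i + 1) w := fun w => by
    have := T_mono A hA i (2 * w + 1)
    rw [show (2 * w + 1) / 2 = w by omega] at this
    rw [hl]
    exact Real.log_le_log (hcp _ _) (by exact_mod_cast this)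
  obtain ⟨E, hE⟩ : ∃ E : ℕ → ℝ, E = fun w => 2 * l (i + 1) w - l i (2 * w) - l i (2 * w + 1) :=
    ⟨_, rfl⟩
  have hE0 : ∀ w, 0 ≤ E w := fun w => by
    rw [hE]
    have := hmono1 w
    have := hmono2 w
    dsimp only
    linarith
  -- the sums
  have hsum : ∑ j ∈ range (2 ^ J), E (j / 2 ^ (i + 1)) = 2 * (G (i + 1) - G i) := by
    have e1 : 2 ^ J = 2 ^ (i + 1) * 2 ^ (J - (i + 1)) := by
      rw [← pow_add]; congr 1; omega
    rw [e1, sum_div _ _ (by positivity)]
    have e2 : 2 ^ (J - i) = 2 * 2 ^ (J - (i + 1)) := by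
      rw [← pow_succ']; congr 1; omega
    rw [hG]
    dsimp only
    rw [e2, sum_two, hE]
    dsimp only
    rw [Finset.sum_sub_distrib, Finset.sum_sub_distrib, ← Finset.mul_sum, Finset.sum_add_distrib,
      pow_succ]
    push_cast
    ring
  have hGJ : G J = 2 ^ J * log ((T A J 0).card : ℝ) := by
    rw [hG, hl]
    simp
  refine ⟨i, hi, fun j => E (j / 2 ^ (i + 1)), fun w => hE0 _, ?_, ?_, ?_, ?_⟩
  · intro j hj
    have h1 := absorb A hA j i (T A i (sib (j / 2 ^ i)))
    have h2 : j / 2 ^ (i + 1) = (j / 2 ^ i) / 2 := by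
      rw [pow_succ, Nat.div_div_eq_div_mul]
    dsimp only
    rw [h2]
    obtain ⟨v, hv⟩ : ∃ v, v = j / 2 ^ i := ⟨_, rfl⟩
    rw [← hv] at h1 ⊢
    have hpos : (0 : ℝ) < (A j + T A i (sib v)).card := by
      exact_mod_cast ((hA j).add (T_ne A hA i _)).card_pos
    have h3 : log ((A j + T A i (sib v)).card : ℝ) ≤
        log ((T A i v + T A i (sib v)).card : ℝ) := Real.log_le_log hpos (by exact_mod_cast h1)
    rcases Nat.even_or_odd' v with ⟨w, hw | hw⟩
    · have hw2 : v / 2 = w := by omega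
      have hs : sib v = 2 * w + 1 := by unfold sib; rw [if_pos (by omega), hw]
      rw [hw2]
      rw [hs] at h3 ⊢
      rw [hw] at h3
      have h4 : log ((T A i (2 * w) + T A i (2 * w + 1)).card : ℝ) = l (i + 1) w := by
        rw [hl]; rfl
      have h5 : log ((T A i (2 * w + 1)).card : ℝ) = l i (2 * w + 1) := by rw [hl]
      rw [h4] at h3
      rw [h5, hE]
      have := hmono1 w
      dsimp only
      linarith
    · have hw2 : v / 2 = w := by omega
      have hs : sib v = 2 * w := by unfold sib; rw [if_neg (by omega), hw]; rfl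
      rw [hw2]
      rw [hs] at h3 ⊢
      rw [hw, add_comm (T A i (2 * w + 1))] at h3
      have h4 : log ((T A i (2 * w) + T A i (2 * w + 1)).card : ℝ) = l (i + 1) w := by
        rw [hl]; rfl
      have h5 : log ((T A i (2 * w)).card : ℝ) = l i (2 * w) := by rw [hl]
      rw [h4] at h3
      rw [h5, hE]
      have := hmono2 w
      dsimp only
      linarith
  · intro j hj
    have h2 : j / 2 ^ (i + 1) = (j / 2 ^ i) / 2 := by
      rw [pow_succ, Nat.div_div_eq_div_mul]
    dsimp only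
    rw [h2]
    obtain ⟨v, hv⟩ : ∃ v, v = j / 2 ^ i := ⟨_, rfl⟩
    rw [← hv]
    rcases Nat.even_or_odd' v with ⟨w, hw | hw⟩
    · have hw2 : v / 2 = w := by omega
      have hs : sib v = 2 * w + 1 := by unfold sib; rw [if_pos (by omega), hw]
      rw [hw2, hs, hw]
      have h4 : log ((T A i (2 * w) + T A i (2 * w + 1)).card : ℝ) = l (i + 1) w := by
        rw [hl]; rfl
      have h5 : log ((T A i (2 * w + 1)).card : ℝ) = l i (2 * w + 1) := by rw [hl]
      have h6 : log ((T A i (2 * w)).card : ℝ) = l i (2 * w) := by rw [hl]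
      unfold D2
      rw [add_comm (T A i (2 * w + 1)), h4, h5, h6, hE]
      dsimp only
      linarith
    · have hw2 : v / 2 = w := by omega
      have hs : sib v = 2 * w := by unfold sib; rw [if_neg (by omega), hw]; rfl
      rw [hw2, hs, hw]
      have h4 : log ((T A i (2 * w) + T A i (2 * w + 1)).card : ℝ) = l (i + 1) w := by
        rw [hl]; rfl
      have h5 : log ((T A i (2 * w + 1)).card : ℝ) = l i (2 * w + 1) := by rw [hl]
      have h6 : log ((T A i (2 * w)).card : ℝ) = l i (2 * w) := by rw [hl]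
      unfold D2
      rw [h4, h5, h6, hE]
      dsimp only
      linarith
  · intro j hj
    refine Real.log_le_log (hcp _ _) ?_
    have h1 : j / 2 ^ i < 2 ^ (J - i) := by
      rw [Nat.div_lt_iff_lt_mul (by positivity), ← pow_add]
      rw [show J - i + i = J by omega]
      omega
    have h2 : sib (j / 2 ^ i) < 2 ^ (J - i) := by
      have h3 : 2 ^ (J - i) = 2 * 2 ^ (J - i - 1) := by
        rw [← pow_succ']; congr 1; omega
      obtain ⟨v, hv⟩ : ∃ v, v = j / 2 ^ i := ⟨_, rfl⟩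
      obtain ⟨X, hX⟩ : ∃ X, X = 2 ^ (J - i - 1) := ⟨_, rfl⟩
      rw [← hv] at h1 ⊢
      rw [← hX] at h3
      rw [h3] at h1 ⊢
      unfold sib
      split_ifs with h
      · omega
      · omega
    exact_mod_cast T_root A hA J (J - i) i _ (by omega) h2
  · have h1 : ∑ j ∈ range k, E (j / 2 ^ (i + 1)) = ∑ j ∈ range (2 ^ J), E (j / 2 ^ (i + 1)) := by
      rw [hk]
    rw [hsum] at h1
    rw [hGJ, hG0] at hGi
    dsimp only
    linarith

end Pool.Agent.H64.ES.Diff
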