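import Mathlib
import Pool.Agent.H64.ES.Diff5

/-!
# Few sums of different sets: threshold above the geometric mean, the sets `P_i`, `Q_i`
-/

set_option autoImplicit false

namespace Pool.Agent.H64.ES.Diff

open Finset Real
open Pool.Agent.H87.LL (D2)
open scoped Pointwise

/-- the sum set -/
noncomputable def SS {k : ℕ} (A : Fin k → Finset ℤ) : Finset ℤ :=
  (Fintype.piFinset A).image fun f => ∑ i, f i

/-- extension of a tuple -/
noncomputable def ext0 {k : ℕ} (g : Fin k → ℤ) (i : ℕ) : ℤ := if h : i < k then g ⟨i, h⟩ else 0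

theorem sum_ext0 {k : ℕ} (g : Fin k → ℤ) : ∑ i, g i = ∑ i ∈ range k, ext0 g i := by
  rw [Finset.sum_range]
  refine Finset.sum_congr rfl fun i _ => ?_
  unfold ext0
  simp

theorem SS_pos {k : ℕ} (A : Fin k → Finset ℤ) (hA : ∀ i, (A i).Nonempty) : 1 ≤ (SS A).card :=
  Finset.card_pos.2 ((Fintype.piFinset_nonempty.2 hA).image _)

/-- sums of a window of the sets -/
theorem window_card (k J a : ℕ) (ha : a + 2 ^ J ≤ k) (A : Fin k → Finset ℤ)
    (hA : ∀ i, (A i).Nonempty) (A' : ℕ → Finset ℤ) (hA'ne : ∀ j, (A' j).Nonempty)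
    (hA' : ∀ j (h : a + j < k), A' j = A ⟨a + j, h⟩) : (T A' J 0).card ≤ (SS A).card := by
  classical
  choose g hg using hA
  obtain ⟨c, hc⟩ : ∃ c : ℤ, c = ∑ i ∈ range a, ext0 g i +
    ∑ i ∈ range (k - (a + 2 ^ J)), ext0 g (a + 2 ^ J + i) := ⟨_, rfl⟩
  have h1 : (T A' J 0).image (fun x => x + c) ⊆ SS A := by
    intro y hy
    obtain ⟨x, hx, rfl⟩ := Finset.mem_image.1 hy
    obtain ⟨f, hf, rfl⟩ := mem_T A' hA'ne J 0 x hx
    unfold SS
    rw [Finset.mem_image]
    refine ⟨fun i => if a ≤ (i : ℕ) ∧ (i : ℕ) < a + 2 ^ J then f ((i : ℕ) - a) else g i, ?_, ?_⟩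
    · rw [Fintype.mem_piFinset]
      intro i
      split_ifs with h
      · have h2 := hf ((i : ℕ) - a)
        rw [hA' ((i : ℕ) - a) (by omega)] at h2
        have h3 : (⟨a + ((i : ℕ) - a), by omega⟩ : Fin k) = i := Fin.ext (by
          show a + ((i : ℕ) - a) = i
          omega)
        rw [h3] at h2
        exact h2
      · exact hg i
    · obtain ⟨F, hF⟩ : ∃ F : ℕ → ℤ, F = fun i => if a ≤ i ∧ i < a + 2 ^ J then f (i - a) else
        ext0 g i := ⟨_, rfl⟩
      have h2 : ∑ i : Fin k, (if a ≤ (i : ℕ) ∧ (i : ℕ) < a + 2 ^ J then f ((i : ℕ) - a) else g i) =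
          ∑ i ∈ range k, F i := by
        rw [Finset.sum_range]
        refine Finset.sum_congr rfl fun i _ => ?_
        rw [hF]
        dsimp only
        split_ifs
        · rfl
        · unfold ext0
          simp
      rw [h2]
      have h3 : k = a + 2 ^ J + (k - (a + 2 ^ J)) := by omega
      have h4 : ∑ i ∈ range k, F i = ∑ i ∈ range a, F i + ∑ i ∈ range (2 ^ J), F (a + i) +
          ∑ i ∈ range (k - (a + 2 ^ J)), F (a + 2 ^ J + i) := by
        conv_lhs => rw [h3]
        rw [Finset.sum_range_add, Finset.sum_range_add]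
      rw [h4]
      have h5 : ∑ i ∈ range a, F i = ∑ i ∈ range a, ext0 g i :=
        Finset.sum_congr rfl fun i hi => by
          have := Finset.mem_range.1 hi
          rw [hF]
          dsimp only
          rw [if_neg (by omega)]
      have h6 : ∑ i ∈ range (2 ^ J), F (a + i) = ∑ j ∈ range (2 ^ J), f (0 * 2 ^ J + j) :=
        Finset.sum_congr rfl fun i hi => by
          have := Finset.mem_range.1 hi
          rw [hF]
          dsimp only
          rw [if_pos (by omega)]
          congr 1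
          omega
      have h7 : ∑ i ∈ range (k - (a + 2 ^ J)), F (a + 2 ^ J + i) =
          ∑ i ∈ range (k - (a + 2 ^ J)), ext0 g (a + 2 ^ J + i) :=
        Finset.sum_congr rfl fun i hi => by
          rw [hF]
          dsimp only
          rw [if_neg (by omega)]
      rw [h5, h6, h7, hc]
      ring
  have h2 := Finset.card_le_card h1
  rwa [Finset.card_image_of_injective _ (add_left_injective c)] at h2

/-- one window -/
theorem window (k J a : ℕ) (hJ : 1 ≤ J) (ha : a + 2 ^ J ≤ k) (A : Fin k → Finset ℤ)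
    (hA : ∀ i, (A i).Nonempty) :
    ∃ (P Q : Fin k → Finset ℤ) (D : Fin k → ℝ), (∀ j, (P j).Nonempty) ∧
      (∀ j, (Q j).Nonempty) ∧ (∀ j, 0 ≤ D j) ∧
      (∀ j : Fin k, a ≤ (j : ℕ) → (j : ℕ) < a + 2 ^ J →
        log ((A j + P j).card : ℝ) - log ((P j).card : ℝ) ≤ D j ∧ D2 (P j) (Q j) ≤ D j / 2 ∧
        log ((P j).card : ℝ) ≤ log ((SS A).card : ℝ)) ∧
      J * ∑ j, D j ≤ 2 * (2 ^ J * log ((SS A).card : ℝ) -
        ∑ i ∈ range (2 ^ J), log (((fun i : ℕ => if h : a + i < k then A ⟨a + i, h⟩ else {1}) i).card : ℝ)) := by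
  classical
  obtain ⟨A', hA'⟩ : ∃ A' : ℕ → Finset ℤ, A' = fun i => if h : a + i < k then A ⟨a + i, h⟩ else {1} :=
    ⟨_, rfl⟩
  have hA'ne : ∀ j, (A' j).Nonempty := fun j => by
    rw [hA']
    dsimp only
    split_ifs with h
    · exact hA _
    · exact Finset.singleton_nonempty _
  have hAA' : ∀ j (h : a + j < k), A' j = A ⟨a + j, h⟩ := fun j h => by
    rw [hA']
    dsimp only
    rw [dif_pos h]
  have hcard := window_card k J a ha A hA A' hA'ne hAA'
  obtain ⟨i, hi, D, hD0, h1, h2, h3, h4⟩ := tree2 J hJ (2 ^ J) rfl A' hA'ne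
  have hJ0 : (0 : ℝ) < J := by exact_mod_cast hJ
  have hTpos : (0 : ℝ) < (T A' J 0).card := by exact_mod_cast (T_ne A' hA'ne J 0).card_pos
  have hTS : log ((T A' J 0).card : ℝ) ≤ log ((SS A).card : ℝ) :=
    Real.log_le_log hTpos (by exact_mod_cast hcard)
  refine ⟨fun j => T A' i (sib (((j : ℕ) - a) / 2 ^ i)), fun j => T A' i (((j : ℕ) - a) / 2 ^ i),
    fun j => if a ≤ (j : ℕ) ∧ (j : ℕ) < a + 2 ^ J then D ((j : ℕ) - a) else 0,
    fun j => T_ne A' hA'ne i _, fun j => T_ne A' hA'ne i _, fun j => ?_, fun j hj1 hj2 => ?_, ?_⟩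
  · dsimp only
    split_ifs
    · exact hD0 _
    · exact le_rfl
  · have hlt : (j : ℕ) - a < 2 ^ J := by omega
    have g1 := h1 ((j : ℕ) - a) hlt
    have g2 := h2 ((j : ℕ) - a) hlt
    have g3 := h3 ((j : ℕ) - a) hlt
    have g4 : A' ((j : ℕ) - a) = A j := by
      rw [hAA' ((j : ℕ) - a) (by omega)]
      congr 1
      exact Fin.ext (by
        show a + ((j : ℕ) - a) = j
        omega)
    rw [g4] at g1
    dsimp only
    rw [if_pos ⟨hj1, hj2⟩]
    exact ⟨g1, g2, g3.trans hTS⟩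
  · rw [← hA']
    obtain ⟨F, hF⟩ : ∃ F : ℕ → ℝ, F = fun j => if a ≤ j ∧ j < a + 2 ^ J then D (j - a) else 0 :=
      ⟨_, rfl⟩
    have g1 : ∑ j : Fin k, (if a ≤ (j : ℕ) ∧ (j : ℕ) < a + 2 ^ J then D ((j : ℕ) - a) else 0) =
        ∑ j ∈ range k, F j := by
      rw [Finset.sum_range, hF]
    rw [g1]
    have g3 : k = a + 2 ^ J + (k - (a + 2 ^ J)) := by omega
    have g4 : ∑ j ∈ range k, F j = ∑ j ∈ range a, F j + ∑ j ∈ range (2 ^ J), F (a + j) +
        ∑ j ∈ range (k - (a + 2 ^ J)), F (a + 2 ^ J + j) := by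
      conv_lhs => rw [g3]
      rw [Finset.sum_range_add, Finset.sum_range_add]
    have g5 : ∑ j ∈ range a, F j = 0 := Finset.sum_eq_zero fun j hj => by
      have := Finset.mem_range.1 hj
      rw [hF]
      dsimp only
      rw [if_neg (by omega)]
    have g6 : ∑ j ∈ range (2 ^ J), F (a + j) = ∑ j ∈ range (2 ^ J), D j :=
      Finset.sum_congr rfl fun j hj => by
        have := Finset.mem_range.1 hj
        rw [hF]
        dsimp only
        rw [if_pos (by omega)]
        congr 1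
        omega
    have g7 : ∑ j ∈ range (k - (a + 2 ^ J)), F (a + 2 ^ J + j) = 0 :=
      Finset.sum_eq_zero fun j hj => by
        rw [hF]
        dsimp only
        rw [if_neg (by omega)]
    rw [g4, g5, g6, g7, zero_add, add_zero]
    have g8 := mul_le_mul_of_nonneg_left h4 hJ0.le
    have g9 : (J : ℝ) * (2 * ((2 ^ J * log ((T A' J 0).card : ℝ) -
        ∑ j ∈ range (2 ^ J), log ((A' j).card : ℝ)) / J)) =
        2 * (2 ^ J * log ((T A' J 0).card : ℝ) - ∑ j ∈ range (2 ^ J), log ((A' j).card : ℝ)) := by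
      field_simp
    rw [g9] at g8
    refine g8.trans ?_
    have g10 : (2 : ℝ) ^ J * log ((T A' J 0).card : ℝ) ≤ 2 ^ J * log ((SS A).card : ℝ) :=
      mul_le_mul_of_nonneg_left hTS (by positivity)
    linarith

theorem card_le_SS {k : ℕ} (A : Fin k → Finset ℤ) (hA : ∀ i, (A i).Nonempty) (j : Fin k) :
    (A j).card ≤ (SS A).card := by
  classical
  choose g hg using hA
  refine Finset.card_le_card_of_injOn (fun x => ∑ i, Function.update g j x i) ?_ ?_
  · intro x hx
    refine Finset.mem_coe.2 (Finset.mem_image.2 ⟨Function.update g j x, ?_, rfl⟩)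
    rw [Fintype.mem_piFinset]
    intro i
    rcases eq_or_ne i j with h | h
    · subst h
      rw [Function.update_self]
      exact hx
    · rw [Function.update_of_ne h]
      exact hg i
  · intro x _ y _ hxy
    simp only at hxy
    rw [Finset.sum_update_of_mem (Finset.mem_univ j), Finset.sum_update_of_mem
      (Finset.mem_univ j)] at hxy
    linarith

/-- the defect of a window is at most the whole defect -/
theorem window_defect (k J a : ℕ) (ha : a + 2 ^ J ≤ k) (A : Fin k → Finset ℤ)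
    (hA : ∀ i, (A i).Nonempty) :
    2 ^ J * log ((SS A).card : ℝ) -
        ∑ i ∈ range (2 ^ J), log (((fun i : ℕ => if h : a + i < k then A ⟨a + i, h⟩ else {1}) i).card : ℝ) ≤
      k * log ((SS A).card : ℝ) - ∑ j, log ((A j).card : ℝ) := by
  classical
  obtain ⟨R, hR⟩ : ∃ R, R = log ((SS A).card : ℝ) := ⟨_, rfl⟩
  obtain ⟨H, hH⟩ : ∃ H : ℕ → ℝ, H = fun j => if h : j < k then R - log ((A ⟨j, h⟩).card : ℝ) else 0 :=
    ⟨_, rfl⟩
  have hH0 : ∀ j, 0 ≤ H j := fun j => by
    rw [hH]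
    dsimp only
    split_ifs with h
    · have h1 : log ((A ⟨j, h⟩).card : ℝ) ≤ R := by
        rw [hR]
        exact Real.log_le_log (by exact_mod_cast (hA _).card_pos)
          (by exact_mod_cast card_le_SS A hA ⟨j, h⟩)
      linarith
    · exact le_rfl
  have e1 : k * R - ∑ j, log ((A j).card : ℝ) = ∑ j ∈ range k, H j := by
    rw [Finset.sum_range, hH]
    have : ∀ j : Fin k, (if h : (j : ℕ) < k then R - log ((A ⟨j, h⟩).card : ℝ) else 0) =
        R - log ((A j).card : ℝ) := fun j => by rw [dif_pos j.2]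
    rw [Finset.sum_congr rfl fun j _ => this j, Finset.sum_sub_distrib, Finset.sum_const,
      Finset.card_univ, Fintype.card_fin, nsmul_eq_mul]
  have e2 : 2 ^ J * R - ∑ i ∈ range (2 ^ J),
      log (((fun i : ℕ => if h : a + i < k then A ⟨a + i, h⟩ else {1}) i).card : ℝ) =
      ∑ i ∈ range (2 ^ J), H (a + i) := by
    have : ∀ i ∈ range (2 ^ J), H (a + i) = R -
        log (((fun i : ℕ => if h : a + i < k then A ⟨a + i, h⟩ else {1}) i).card : ℝ) := by
      intro i hi
      have := Finset.mem_range.1 hi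
      have hlt : a + i < k := by omega
      rw [hH]
      dsimp only
      rw [dif_pos hlt, dif_pos hlt]
    rw [Finset.sum_congr rfl this, Finset.sum_sub_distrib, Finset.sum_const, Finset.card_range,
      nsmul_eq_mul]
    push_cast
    ring
  rw [← hR, e1, e2]
  have g3 : k = a + 2 ^ J + (k - (a + 2 ^ J)) := by omega
  have g4 : ∑ j ∈ range k, H j = ∑ j ∈ range a, H j + ∑ j ∈ range (2 ^ J), H (a + j) +
      ∑ j ∈ range (k - (a + 2 ^ J)), H (a + 2 ^ J + j) := by
    conv_lhs => rw [g3]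
    rw [Finset.sum_range_add, Finset.sum_range_add]
  have g5 : 0 ≤ ∑ j ∈ range a, H j := Finset.sum_nonneg fun j _ => hH0 j
  have g6 : 0 ≤ ∑ j ∈ range (k - (a + 2 ^ J)), H (a + 2 ^ J + j) :=
    Finset.sum_nonneg fun j _ => hH0 _
  rw [g4]
  linarith

/-- The tree argument, with the defect `k log |A_1 + ⋯ + A_k| - ∑ log |A_i|`. -/
theorem core2 (k : ℕ) (hk2 : 2 ≤ k) (A : Fin k → Finset ℤ) (hA : ∀ i, (A i).Nonempty) :
    ∃ (P Q : Fin k → Finset ℤ) (D : Fin k → ℝ), (∀ j, (P j).Nonempty) ∧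
      (∀ j, (Q j).Nonempty) ∧ (∀ j, 0 ≤ D j) ∧
      (∀ j, log ((A j + P j).card : ℝ) - log ((P j).card : ℝ) ≤ D j) ∧
      (∀ j, D2 (P j) (Q j) ≤ D j / 2) ∧ (∀ j, log ((P j).card : ℝ) ≤ log ((SS A).card : ℝ)) ∧
      log k * ∑ j, D j ≤ 5 * (k * log ((SS A).card : ℝ) - ∑ j, log ((A j).card : ℝ)) := by
  classical
  obtain ⟨J, hJ⟩ : ∃ J, J = Nat.log 2 k := ⟨_, rfl⟩
  have hJ1 : 1 ≤ J := by
    rw [hJ]
    exact Nat.log_pos (by norm_num) hk2
  have hJk : 2 ^ J ≤ k := by
    rw [hJ]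
    exact Nat.pow_log_le_self 2 (by omega)
  have hkJ : k < 2 * 2 ^ J := by
    rw [hJ, ← pow_succ']
    exact Nat.lt_pow_succ_log_self (by norm_num) k
  obtain ⟨P1, Q1, D1, hP1, hQ1, hD1, h1, s1⟩ := window k J 0 hJ1 (by omega) A hA
  obtain ⟨P2, Q2, D2', hP2, hQ2, hD2, h2, s2⟩ := window k J (k - 2 ^ J) hJ1 (by omega) A hA
  have w1 := window_defect k J 0 (by omega) A hA
  have w2 := window_defect k J (k - 2 ^ J) (by omega) A hA
  refine ⟨fun j => if (j : ℕ) < 2 ^ J then P1 j else P2 j,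
    fun j => if (j : ℕ) < 2 ^ J then Q1 j else Q2 j, fun j => D1 j + D2' j, fun j => ?_,
    fun j => ?_, fun j => add_nonneg (hD1 j) (hD2 j), fun j => ?_, fun j => ?_, fun j => ?_, ?_⟩
  · dsimp only
    split_ifs
    · exact hP1 j
    · exact hP2 j
  · dsimp only
    split_ifs
    · exact hQ1 j
    · exact hQ2 j
  · have e1 := hD1 j
    have e2 := hD2 j
    dsimp only
    split_ifs with h
    · have := (h1 j (by omega) (by omega)).1
      linarith
    · have := (h2 j (by omega) (by omega)).1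
      linarith
  · have e1 := hD1 j
    have e2 := hD2 j
    dsimp only
    split_ifs with h
    · have := (h1 j (by omega) (by omega)).2.1
      linarith
    · have := (h2 j (by omega) (by omega)).2.1
      linarith
  · dsimp only
    split_ifs with h
    · exact (h1 j (by omega) (by omega)).2.2
    · exact (h2 j (by omega) (by omega)).2.2
  · rw [Finset.sum_add_distrib]
    have hlog := Pool.Agent.H64.ES.Better.natlog_delta k (by omega)
    rw [← hJ, div_le_iff₀ (by norm_num)] at hlog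
    have hS : 0 ≤ ∑ j, D1 j + ∑ j, D2' j :=
      add_nonneg (Finset.sum_nonneg fun j _ => hD1 j) (Finset.sum_nonneg fun j _ => hD2 j)
    have e1 : log (k : ℝ) * (∑ j, D1 j + ∑ j, D2' j) ≤
        (5 / 4 * J) * (∑ j, D1 j + ∑ j, D2' j) :=
      mul_le_mul_of_nonneg_right (by linarith) hS
    linarith

end Pool.Agent.H64.ES.Diff
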