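import Mathlib
import Pool.Agent.H64.ES.Diff6

/-!
# Few sums of different sets: threshold above the geometric mean, the theorems
-/

set_option autoImplicit false

namespace Pool.Agent.H64.ES.Diff

open Finset Real
open Pool.Agent.H87.LL (D2)
open Pool.Agent.H87.PT (WL tau point_log tau_nonneg tau_le_one good_t)
open scoped Pointwise

theorem few_num2 (k : ℕ) (hk2 : 2 ≤ k) (d L M N S R e : ℝ) (hd : 0 < d) (hd1 : d ≤ 1)
    (hL : 1 ≤ L) (hM : 1 ≤ M) (hN : 0 ≤ N) (he : e = d / (20 * L * (1 + log k)))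
    (hR : R ≤ N * ((1 + d * log k / (M * L)) / k)) (hS : log k * S ≤ 5 * (k * R - N)) :
    L * (1016 * S + k * (e * R)) ≤ (5080 / M + 1 / 20) * (d * N) := by
  have hk1 : (2 : ℝ) ≤ k := by exact_mod_cast hk2
  have hk0 : (0 : ℝ) < k := by linarith
  have hlk : 0 < log (k : ℝ) := Real.log_pos (by linarith)
  have hL0 : 0 < L := by linarith
  have hM0 : 0 < M := by linarith
  have he0 : 0 < e := by rw [he]; positivity
  have hkR : k * R ≤ N + N * d / (M * L) * log k := by
    have h1 := mul_le_mul_of_nonneg_left hR hk0.le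
    have h2 : k * (N * ((1 + d * log k / (M * L)) / k)) = N + N * d / (M * L) * log k := by
      field_simp
    rw [h2] at h1
    exact h1
  have h1 : S ≤ 5 * (N * d / (M * L)) := by
    have h2 : log k * S ≤ log k * (5 * (N * d / (M * L))) := by
      refine hS.trans ?_
      linarith
    exact le_of_mul_le_mul_left h2 hlk
  have h2 : k * (e * R) ≤ d * N / (20 * L) := by
    have t1 : N * d / (M * L) ≤ N := by
      rw [div_le_iff₀ (by positivity)]
      have t2 : d ≤ M * L := by nlinarith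
      exact mul_le_mul_of_nonneg_left t2 hN
    have t3 : k * R ≤ N * (1 + log k) := by
      have t4 := mul_le_mul_of_nonneg_right t1 hlk.le
      linarith
    have t5 := mul_le_mul_of_nonneg_left t3 he0.le
    have t6 : e * (N * (1 + log k)) = d * N / (20 * L) := by
      rw [he]
      field_simp
    have t7 : k * (e * R) = e * (k * R) := by ring
    rw [t7, ← t6]
    exact t5
  have h3 : L * (1016 * S + k * (e * R)) ≤ L * (5080 * (N * d / (M * L)) + d * N / (20 * L)) := by
    refine mul_le_mul_of_nonneg_left ?_ hL0.le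
    linarith
  have h4 : L * (5080 * (N * d / (M * L)) + d * N / (20 * L)) = (5080 / M + 1 / 20) * (d * N) := by
    field_simp
  linarith

/-- Few sums of different sets, the number of factorisations. -/
theorem few_point2 (k : ℕ) (hk : 1 ≤ k) (d : ℝ) (hd : 0 < d) (hd1 : d ≤ 1) (t : ℝ) (ht : 1 ≤ t)
    (htk : t ≤ 16 * k) : ∃ C : ℝ, 0 < C ∧ ∀ A : Fin k → Finset ℤ, (∀ i, (A i).Nonempty) →
      (∏ i, ((A i).card : ℝ)) ^ ((1 + d * log k / (6000 * (3 + log t))) / k) ≤
        ((SS A).card : ℝ) ∨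
      ∀ (b : Fin k → ℤ) (x : ℤ), x ≠ 0 →
        (((Fintype.piFinset A).filter fun f => ∏ i, (f i + b i) = x).card : ℝ) ≤
          C * (∏ i, ((A i).card : ℝ)) ^ (1 - (1 - d) * tau k t) := by
  have hk1 : (1 : ℝ) ≤ k := by exact_mod_cast hk
  have hlk : 0 ≤ log (k : ℝ) := Real.log_nonneg hk1
  have hlt : 0 ≤ log t := Real.log_nonneg ht
  obtain ⟨L, hL⟩ : ∃ L : ℝ, L = 3 + log t := ⟨_, rfl⟩
  have hL0 : 1 ≤ L := by rw [hL]; linarith
  obtain ⟨e, he⟩ : ∃ e : ℝ, e = d / (20 * L * (1 + log k)) := ⟨_, rfl⟩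
  have he0 : 0 < e := by rw [he]; positivity
  have he1 : e ≤ 1 := by
    rw [he, div_le_one (by positivity)]
    nlinarith
  refine ⟨Real.exp (tau k t * (L * (k * Real.exp (10 ^ 9 / e)))), Real.exp_pos _,
    fun A hA => ?_⟩
  rw [or_iff_not_imp_left]
  intro hcon b x hx
  push Not at hcon
  obtain ⟨N, hN⟩ : ∃ N, N = ∑ i, log ((A i).card : ℝ) := ⟨_, rfl⟩
  have cA : ∀ i, (0 : ℝ) < (A i).card := fun i => by exact_mod_cast (hA i).card_pos
  have hlA : ∀ i, 0 ≤ log ((A i).card : ℝ) := fun i =>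
    Real.log_nonneg (by exact_mod_cast (hA i).card_pos)
  have hN0 : 0 ≤ N := by rw [hN]; exact Finset.sum_nonneg fun i _ => hlA i
  have hprod : ∏ i, ((A i).card : ℝ) = Real.exp N := by
    rw [hN, Real.exp_sum]
    exact Finset.prod_congr rfl fun i _ => (Real.exp_log (cA i)).symm
  have hk2 : 2 ≤ k := by
    by_contra hlt
    have h1 : k = 1 := by omega
    subst h1
    have h2 := card_le_SS A hA 0
    have h3 : ((A 0).card : ℝ) ≤ (SS A).card := by exact_mod_cast h2
    have h4 : (1 + d * log ((1 : ℕ) : ℝ) / (6000 * (3 + log t))) / ((1 : ℕ) : ℝ) = 1 := by simp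
    rw [h4, Real.rpow_one, Fin.prod_univ_one] at hcon
    linarith
  rw [hprod] at hcon ⊢
  rw [← Real.exp_mul] at hcon ⊢
  have hS1 : (1 : ℝ) ≤ ((SS A).card : ℝ) := by exact_mod_cast SS_pos A hA
  obtain ⟨P, Q, D, hP, hQ, hD0, h1, h2, h3, hD⟩ := core2 k hk2 A hA
  obtain ⟨R, hRd⟩ : ∃ R, R = log ((SS A).card : ℝ) := ⟨_, rfl⟩
  rw [← hRd, ← hN] at hD
  simp only [← hRd] at h3
  have hR' : R ≤ N * ((1 + d * log k / (6000 * L)) / k) := by
    rw [hRd, Real.log_le_iff_le_exp (by linarith), hL]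
    exact hcon.le
  have hnum := few_num2 k hk2 d L 6000 N (∑ j, D j) R e hd hd1 hL0 (by norm_num) hN0 he hR' hD
  have hfac := fac_bound k hk e he0 he1 t ht htk A P Q b hP hQ
    (fun j => 1016 * D j + e * R + Real.exp (10 ^ 9 / e))
    (fun j => wl_le e he0.le (A j) (P j) (Q j) (b j) (D j) R (h1 j) (h2 j) (h3 j)) x hx
  refine hfac.trans ?_
  rw [← Real.exp_add, Real.exp_le_exp, Finset.sum_add_distrib, ← Finset.mul_sum, ← hN,
    ← Finset.mul_sum, ← Finset.mul_sum, Finset.sum_add_distrib, Finset.sum_add_distrib,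
    ← Finset.mul_sum, Finset.sum_const, Finset.sum_const, Finset.card_univ, Fintype.card_fin,
    nsmul_eq_mul, nsmul_eq_mul, ← hL]
  have hk0 : (0 : ℝ) < k := by linarith
  have hτ0 : 0 ≤ tau k t := tau_nonneg k t hk0 (by linarith) htk
  have h5 : L * (1016 * ∑ j, D j + k * (e * R)) ≤ d * N := by
    have : 0 ≤ d * N := by positivity
    linarith
  have h6 := mul_le_mul_of_nonneg_left h5 hτ0
  nlinarith

/-- Few sums of different sets: the products of any number of translates of half of the sets. -/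
theorem half_point2 (k : ℕ) (hk : 1 ≤ k) (d : ℝ) (hd : 0 < d) (hd1 : d ≤ 1) (t : ℝ)
    (ht : 1 ≤ t) :
    ∃ C : ℝ, 1 ≤ C ∧ ∀ A : Fin k → Finset ℤ, (∀ i, (A i).Nonempty) →
      (∏ i, ((A i).card : ℝ)) ^ ((1 + d * log k / (12000 * (3 + log t))) / k) ≤
        ((SS A).card : ℝ) ∨
      ∃ I : Finset (Fin k), (∏ i, ((A i).card : ℝ)) ≤ (∏ i ∈ I, ((A i).card : ℝ)) ^ 2 ∧
        ∀ m : ℕ, 1 ≤ m → t ≤ 16 * m → ∀ (i : Fin m → Fin k) (b : Fin m → ℤ), (∀ j, i j ∈ I) →
          ∀ x : ℤ, x ≠ 0 →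
            (((Fintype.piFinset fun j => A (i j)).filter fun f => ∏ j, (f j + b j) = x).card : ℝ) ≤
              C ^ (m * tau m t) *
                (∏ j, ((A (i j)).card : ℝ)) ^ (1 - (1 - d) * tau m t) := by
  have hk1 : (1 : ℝ) ≤ k := by exact_mod_cast hk
  have hlk : 0 ≤ log (k : ℝ) := Real.log_nonneg hk1
  have hlt : 0 ≤ log t := Real.log_nonneg ht
  obtain ⟨L, hL⟩ : ∃ L : ℝ, L = 3 + log t := ⟨_, rfl⟩
  have hL0 : 1 ≤ L := by rw [hL]; linarith
  obtain ⟨e, he⟩ : ∃ e : ℝ, e = d / (20 * L * (1 + log k)) := ⟨_, rfl⟩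
  have he0 : 0 < e := by rw [he]; positivity
  have he1 : e ≤ 1 := by
    rw [he, div_le_one (by positivity)]
    nlinarith
  refine ⟨Real.exp (L * Real.exp (10 ^ 9 / e)), Real.one_le_exp (by positivity), fun A hA => ?_⟩
  rw [or_iff_not_imp_left]
  intro hcon
  push Not at hcon
  obtain ⟨N, hN⟩ : ∃ N, N = ∑ i, log ((A i).card : ℝ) := ⟨_, rfl⟩
  have cA : ∀ i, (0 : ℝ) < (A i).card := fun i => by exact_mod_cast (hA i).card_pos
  have hlA : ∀ i, 0 ≤ log ((A i).card : ℝ) := fun i =>
    Real.log_nonneg (by exact_mod_cast (hA i).card_pos)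
  have hN0 : 0 ≤ N := by rw [hN]; exact Finset.sum_nonneg fun i _ => hlA i
  have hprod : ∏ i, ((A i).card : ℝ) = Real.exp N := by
    rw [hN, Real.exp_sum]
    exact Finset.prod_congr rfl fun i _ => (Real.exp_log (cA i)).symm
  have hk2 : 2 ≤ k := by
    by_contra hlt
    have h1 : k = 1 := by omega
    subst h1
    have h2 := card_le_SS A hA 0
    have h3 : ((A 0).card : ℝ) ≤ (SS A).card := by exact_mod_cast h2
    have h4 : (1 + d * log ((1 : ℕ) : ℝ) / (12000 * (3 + log t))) / ((1 : ℕ) : ℝ) = 1 := by simp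
    rw [h4, Real.rpow_one, Fin.prod_univ_one] at hcon
    linarith
  rw [hprod] at hcon ⊢
  rw [← Real.exp_mul] at hcon
  have hS1 : (1 : ℝ) ≤ ((SS A).card : ℝ) := by exact_mod_cast SS_pos A hA
  obtain ⟨P, Q, D, hP, hQ, hD0, h1, h2, h3, hD⟩ := core2 k hk2 A hA
  obtain ⟨R, hRd⟩ : ∃ R, R = log ((SS A).card : ℝ) := ⟨_, rfl⟩
  rw [← hRd, ← hN] at hD
  simp only [← hRd] at h3
  have hR0 : 0 ≤ R := by rw [hRd]; exact Real.log_nonneg hS1
  have hR' : R ≤ N * ((1 + d * log k / (12000 * L)) / k) := by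
    rw [hRd, Real.log_le_iff_le_exp (by linarith), hL]
    exact hcon.le
  have hnum := few_num2 k hk2 d L 12000 N (∑ j, D j) R e hd hd1 hL0 (by norm_num) hN0 he hR' hD
  have hL0' : 0 < L := by linarith
  classical
  obtain ⟨I, hI⟩ : ∃ I : Finset (Fin k),
      I = Finset.univ.filter fun j : Fin k => L * (1016 * D j + e * R) ≤
        d * log ((A j).card : ℝ) := ⟨_, rfl⟩
  refine ⟨I, ?_, ?_⟩
  · have hprodI : ∏ i ∈ I, ((A i).card : ℝ) = Real.exp (∑ i ∈ I, log ((A i).card : ℝ)) := by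
      rw [Real.exp_sum]
      exact Finset.prod_congr rfl fun i _ => (Real.exp_log (cA i)).symm
    rw [hprodI, ← Real.exp_nat_mul, Real.exp_le_exp]
    have hsplit := Finset.sum_filter_add_sum_filter_not (Finset.univ : Finset (Fin k))
      (fun j : Fin k => L * (1016 * D j + e * R) ≤ d * log ((A j).card : ℝ))
      (fun j => d * log ((A j).card : ℝ))
    rw [← hI, ← Finset.mul_sum Finset.univ, ← hN] at hsplit
    have hbad : ∑ j ∈ Finset.univ.filter (fun j : Fin k => ¬ (L * (1016 * D j + e * R) ≤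
        d * log ((A j).card : ℝ))), d * log ((A j).card : ℝ) ≤
        ∑ j : Fin k, L * (1016 * D j + e * R) := by
      refine (Finset.sum_le_sum fun j hj => ?_).trans
        (Finset.sum_le_sum_of_subset_of_nonneg (Finset.filter_subset _ _) fun j _ _ => ?_)
      · have := (Finset.mem_filter.1 hj).2
        push Not at this
        exact this.le
      · have := hD0 j
        positivity
    have hbad2 : ∑ j : Fin k, L * (1016 * D j + e * R) =
        L * (1016 * ∑ j, D j + k * (e * R)) := by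
      rw [← Finset.mul_sum, Finset.sum_add_distrib, ← Finset.mul_sum, Finset.sum_const,
        Finset.card_univ, Fintype.card_fin, nsmul_eq_mul]
    have hIe : ∑ i ∈ I, d * log ((A i).card : ℝ) = d * ∑ i ∈ I, log ((A i).card : ℝ) :=
      (Finset.mul_sum _ _ _).symm
    rw [hbad2] at hbad
    rw [hIe] at hsplit
    have h7 : d * N ≤ d * (2 * ∑ i ∈ I, log ((A i).card : ℝ)) := by
      have : 0 ≤ d * N := by positivity
      linarith
    have h8 := le_of_mul_le_mul_left h7 hd
    push_cast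
    exact h8
  · intro m hm htm ix b hix x hx
    have hm1 : (1 : ℝ) ≤ m := by exact_mod_cast hm
    have hm0 : (0 : ℝ) < m := by linarith
    have hfac := fac_bound m hm e he0 he1 t ht htm (fun j => A (ix j)) (fun j => P (ix j))
      (fun j => Q (ix j)) b (fun j => hP _) (fun j => hQ _)
      (fun j => 1016 * D (ix j) + e * R + Real.exp (10 ^ 9 / e))
      (fun j => wl_le e he0.le (A (ix j)) (P (ix j)) (Q (ix j)) (b j) (D (ix j)) R (h1 _) (h2 _)
        (h3 _)) x hx
    refine hfac.trans ?_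
    obtain ⟨N', hN'⟩ : ∃ N', N' = ∑ j, log ((A (ix j)).card : ℝ) := ⟨_, rfl⟩
    have hprodB : ∏ j, ((A (ix j)).card : ℝ) = Real.exp N' := by
      rw [hN', Real.exp_sum]
      exact Finset.prod_congr rfl fun j _ => (Real.exp_log (cA _)).symm
    have hτ0 : 0 ≤ tau m t := tau_nonneg m t hm0 (by linarith) htm
    have hterm : ∀ j : Fin m, (1 - tau m t) * log ((A (ix j)).card : ℝ) +
        tau m t * ((3 + log t) * (1016 * D (ix j) + e * R + Real.exp (10 ^ 9 / e))) ≤
        (1 - (1 - d) * tau m t) * log ((A (ix j)).card : ℝ) +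
          tau m t * (L * Real.exp (10 ^ 9 / e)) := by
      intro j
      have t4 := hix j
      rw [hI] at t4
      have t5 := mul_le_mul_of_nonneg_left (Finset.mem_filter.1 t4).2 hτ0
      rw [← hL]
      nlinarith
    have hsum := Finset.sum_le_sum fun j (_ : j ∈ (Finset.univ : Finset (Fin m))) => hterm j
    rw [Finset.sum_add_distrib (f := fun j => (1 - (1 - d) * tau m t) *
      log ((A (ix j)).card : ℝ)), ← Finset.mul_sum (f := fun j => log ((A (ix j)).card : ℝ)),
      ← hN', Finset.sum_const, Finset.card_univ, Fintype.card_fin, nsmul_eq_mul] at hsum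
    rw [hprodB, ← Real.exp_mul, ← Real.exp_mul, ← Real.exp_add, Real.exp_le_exp]
    refine hsum.trans (le_of_eq ?_)
    ring

/-- Few sums of dilates of different sets, the number of factorisations in the product of
translates. -/
theorem few_point_dil2 (k : ℕ) (hk : 1 ≤ k) (d : ℝ) (hd : 0 < d) (hd1 : d ≤ 1) (t : ℝ)
    (ht : 1 ≤ t) (htk : t ≤ 16 * k) :
    ∃ C : ℝ, 0 < C ∧ ∀ A : Fin k → Finset ℤ, (∀ i, (A i).Nonempty) →
      ∀ u : Fin k → ℤ, (∀ i, u i ≠ 0) →
      (∏ i, ((A i).card : ℝ)) ^ ((1 + d * log k / (6000 * (3 + log t))) / k) ≤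
        (((Fintype.piFinset A).image fun f => ∑ i, u i * f i).card : ℝ) ∨
      ∀ (b : Fin k → ℤ) (x : ℤ), x ≠ 0 →
        (((Fintype.piFinset A).filter fun f => ∏ i, (f i + b i) = x).card : ℝ) ≤
          C * (∏ i, ((A i).card : ℝ)) ^ (1 - (1 - d) * tau k t) := by
  obtain ⟨C, hC, h⟩ := few_point2 k hk d hd hd1 t ht htk
  refine ⟨C, hC, fun A hA u hu => ?_⟩
  obtain ⟨A', hA'⟩ : ∃ A' : Fin k → Finset ℤ, A' = fun i => (A i).image fun a => u i * a :=
    ⟨_, rfl⟩
  have hinj : ∀ i, Function.Injective fun a : ℤ => u i * a := fun i a b hab =>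
    mul_left_cancel₀ (hu i) hab
  have hc : ∀ i, (A' i).card = (A i).card := fun i => by
    rw [hA']
    exact Finset.card_image_of_injective _ (hinj i)
  have hX : ∏ i, ((A' i).card : ℝ) = ∏ i, ((A i).card : ℝ) :=
    Finset.prod_congr rfl fun i _ => by rw [hc i]
  have h1 := h A' fun i => by rw [hA']; exact (hA i).image _
  rw [hX] at h1
  rcases h1 with h1 | h1
  · left
    refine h1.trans ?_
    have h2 : (SS A') ⊆ (Fintype.piFinset A).image fun f => ∑ i, u i * f i := by
      intro x hx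
      obtain ⟨f, hf, rfl⟩ := Finset.mem_image.1 hx
      have h3 : ∀ i, ∃ a ∈ A i, u i * a = f i := fun i => by
        have := Fintype.mem_piFinset.1 hf i
        rw [hA'] at this
        exact Finset.mem_image.1 this
      choose g hg hg2 using h3
      exact Finset.mem_image.2 ⟨g, Fintype.mem_piFinset.2 hg,
        Finset.sum_congr rfl fun i _ => hg2 i⟩
    exact_mod_cast Finset.card_le_card h2
  · right
    intro b x hx
    have hu0 : ∏ i, u i ≠ 0 := Finset.prod_ne_zero_iff.2 fun i _ => hu i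
    refine le_trans ?_ (h1 (fun i => u i * b i) ((∏ i, u i) * x) (mul_ne_zero hu0 hx))
    have h2 : ((Fintype.piFinset A).filter fun f => ∏ i, (f i + b i) = x).card ≤
        ((Fintype.piFinset A').filter fun f => ∏ i, (f i + u i * b i) = (∏ i, u i) * x).card := by
      refine Finset.card_le_card_of_injOn (fun f i => u i * f i) ?_ ?_
      · intro f hf
        obtain ⟨h3, h4⟩ := Finset.mem_filter.1 (Finset.mem_coe.1 hf)
        refine Finset.mem_coe.2 (Finset.mem_filter.2 ⟨Fintype.mem_piFinset.2 fun i => ?_, ?_⟩)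
        · rw [hA']
          exact Finset.mem_image_of_mem _ (Fintype.mem_piFinset.1 h3 i)
        · rw [← h4, ← Finset.prod_mul_distrib]
          exact Finset.prod_congr rfl fun i _ => by ring
      · intro f _ g _ hfg
        funext i
        exact hinj i (congrFun hfg i)
    exact_mod_cast h2

end Pool.Agent.H64.ES.Diff
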